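import Pool.Agent.Helper47.PQ.Primes
import Pool.Agent.Helper92.Weak.Values

set_option autoImplicit false

/-!
# PQ-P5: box divisors

`exists_box`: for divisors `DF`, `DY` on the factors there is a divisor `D` on `X = F × Y` with
`IsBox DF DY D`.
PROOF. For `P ∈ X.primeDivisors` put `D P = DY Q` if `P` is the Gauss extension of a `Q ∈ Y.primeDivisors`
(then `Q` is determined: `Q b = P b`), `DF T` if it is the Gauss extension of `T`, `0` otherwise.
These cases are exclusive (`IsGauss M P Q` is trivial on `M` and not on `K`). Finite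
support: `Q ↦ P` is injective on supports: each `Q` has at most one Gauss extension
(`IsGauss.unique`), so the support of `D` injects into the union of the supports of
`DF`, `DY`. If `LiesOver P Q e` with `Q ∈ Y.primeDivisors`: then `P` is not trivial on `K`, so by
`trichotomy` `P` is the Gauss extension of some `Q'` (the cases `trivial` and `IsGauss K P T` are
trivial on `K`), `Q' b = P b = e Q b` for all `b ∈ K`; as both are normalised, `e = 1`, `Q' = Q`, so
`D P = DY Q = e * DY Q`. `dom`: `P` trivial on both is not a Gauss extension.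

`IsBox.gauss_right`: value at the Gauss extension (`LiesOver P Q 1`). `IsBox.unique`: by `trichotomy`.
`isInt_iff`: every `Q` has a Gauss extension in `X.primeDivisors` (`exists_gauss`, `gauss_mem`).
`nonneg`: `D P` is `0`, `DY Q` or `DF T`.
`prin_box`: the divisor of `f g`, `f ∈ M`, `g ∈ K` nonzero (images in `E`), is the box of the
divisors of `f` and `g`.
-/

namespace Pool.Agent.Helper47.PQ

open Pool.Agent.Helper92.Weak

variable {k M K E : Type*} [Field k] [Field M] [Field K] [Field E]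
  [Algebra k M] [Algebra k K] [Algebra k E] [Algebra M E] [Algebra K E]
  [IsScalarTower k M E] [IsScalarTower k K E]

variable {F : ProjVar k M} {Y : ProjVar k K} {X : ProjVar k E}

namespace IsBox

theorem add {DF DF' : F.Div} {DY DY' : Y.Div} {D D' : X.Div} (h : IsBox DF DY D)
    (h' : IsBox DF' DY' D') : IsBox (DF + DF') (DY + DY') (D + D') := by
  refine ⟨fun P h1 h2 => ?_, fun P T e he => ?_, fun P Q e he => ?_⟩
  · rw [Finsupp.add_apply, h.dom P h1 h2, h'.dom P h1 h2, add_zero]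
  · rw [Finsupp.add_apply, Finsupp.add_apply, h.left P T e he, h'.left P T e he, mul_add]
  · rw [Finsupp.add_apply, Finsupp.add_apply, h.right P Q e he, h'.right P Q e he, mul_add]

theorem smul {DF : F.Div} {DY : Y.Div} {D : X.Div} (c : ℚ) (h : IsBox DF DY D) :
    IsBox (c • DF) (c • DY) (c • D) := by
  refine ⟨fun P h1 h2 => ?_, fun P T e he => ?_, fun P Q e he => ?_⟩
  · rw [Finsupp.smul_apply, h.dom P h1 h2, smul_zero]
  · rw [Finsupp.smul_apply, Finsupp.smul_apply, h.left P T e he, smul_eq_mul, smul_eq_mul]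
    ring
  · rw [Finsupp.smul_apply, Finsupp.smul_apply, h.right P Q e he, smul_eq_mul, smul_eq_mul]
    ring

theorem gauss_right {DF : F.Div} {DY : Y.Div} {D : X.Div} (h : IsBox DF DY D)
    (P : X.primeDivisors) (Q : Y.primeDivisors) (hP : IsGauss M P.1 Q.1) : D P = DY Q := by
  rw [h.right P Q 1 hP.liesOver, Nat.cast_one, one_mul]

theorem gauss_left {DF : F.Div} {DY : Y.Div} {D : X.Div} (h : IsBox DF DY D)
    (P : X.primeDivisors) (T : F.primeDivisors) (hP : IsGauss K P.1 T.1) : D P = DF T := by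
  rw [h.left P T 1 hP.liesOver, Nat.cast_one, one_mul]

end IsBox

variable [IsAlgClosed k]

omit [IsScalarTower k M E] [IsScalarTower k K E] [IsAlgClosed k] in
/-- If `P` is the Gauss extension of `Q'` and lies over `Q` then `Q = Q'` and `e = 1`. -/
theorem box_liesOver_eq {P : DVal k E} {Q Q' : DVal k K} {e : ℕ} (hP : LiesOver P Q e)
    (hG : IsGauss M P Q') : e = 1 ∧ IsGauss M P Q := by
  obtain ⟨he, hl⟩ := hP
  obtain ⟨b, -, hb⟩ := Q'.exists_uniformizer
  have h1 : (e : ℤ) * Q b = 1 := by rw [← hl b, hG.apply_right, hb]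
  have h2 : e = 1 := by
    have h3 : (e : ℤ) ∣ 1 := ⟨_, h1.symm⟩
    have h4 : (e : ℤ) = 1 := Int.eq_one_of_dvd_one (by positivity) h3
    exact_mod_cast h4
  refine ⟨h2, ?_⟩
  have h5 : Q = Q' := by
    ext a
    have h6 := hl a
    rw [hG.apply_right, h2, Nat.cast_one, one_mul] at h6
    exact h6.symm
  rw [h5]
  exact hG

theorem IsProduct.box_right (h : IsProduct F Y X) {P : DVal k E} (hP : P ∈ X.primeDivisors)
    {Q : DVal k K} {e : ℕ} (hPQ : LiesOver P Q e) : e = 1 ∧ IsGauss M P Q := by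
  rcases h.trichotomy hP with ⟨-, h2⟩ | ⟨Q', -, hG⟩ | ⟨T, -, hG⟩
  · exfalso
    obtain ⟨b, -, hb⟩ := Q.exists_uniformizer
    have h3 := hPQ.2 b
    rw [h2 b, hb, mul_one] at h3
    have h4 := hPQ.1
    omega
  · exact box_liesOver_eq hPQ hG
  · exfalso
    obtain ⟨b, -, hb⟩ := Q.exists_uniformizer
    have h3 := hPQ.2 b
    rw [hG.apply_left b, hb, mul_one] at h3
    have h4 := hPQ.1
    omega

theorem IsProduct.box_left (h : IsProduct F Y X) {P : DVal k E} (hP : P ∈ X.primeDivisors)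
    {T : DVal k M} {e : ℕ} (hPT : LiesOver P T e) : e = 1 ∧ IsGauss K P T :=
  h.swap.box_right hP hPT

theorem IsProduct.exists_box (h : IsProduct F Y X) (DF : F.Div) (DY : Y.Div) :
    ∃ D : X.Div, IsBox DF DY D := by
  classical
  have hfr := h.isFrac_top
  have hfr' : IsFrac (prodRing E (⊤ : Subalgebra k K) (⊤ : Subalgebra k M)) := by
    rw [prodRing_comm]
    exact hfr
  have hdj := linDisj_symm h.disj
  let D0 : X.primeDivisors → ℚ := fun P =>
    if hQ : ∃ Q : Y.primeDivisors, IsGauss M P.1 Q.1 then DY hQ.choose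
    else if hT : ∃ T : F.primeDivisors, IsGauss K P.1 T.1 then DF hT.choose
    else 0
  have hD1 : ∀ (P : X.primeDivisors) (Q : Y.primeDivisors), IsGauss M P.1 Q.1 →
      D0 P = DY Q := by
    intro P Q hPQ
    have hex : ∃ Q : Y.primeDivisors, IsGauss M P.1 Q.1 := ⟨Q, hPQ⟩
    have h1 : D0 P = DY hex.choose := dif_pos hex
    rw [h1]
    have h2 : hex.choose = Q := by
      apply Subtype.ext
      ext b
      rw [← hex.choose_spec.apply_right b, ← hPQ.apply_right b]
    rw [h2]
  have hno : ∀ (P : X.primeDivisors) (T : F.primeDivisors), IsGauss K P.1 T.1 →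
      ¬ ∃ Q : Y.primeDivisors, IsGauss M P.1 Q.1 := by
    rintro P T hPT ⟨Q, hPQ⟩
    obtain ⟨b, -, hb⟩ := Q.1.exists_uniformizer
    have h1 := hPQ.apply_right b
    rw [hPT.apply_left b, hb] at h1
    exact zero_ne_one h1
  have hD2 : ∀ (P : X.primeDivisors) (T : F.primeDivisors), IsGauss K P.1 T.1 →
      D0 P = DF T := by
    intro P T hPT
    have hex : ∃ T : F.primeDivisors, IsGauss K P.1 T.1 := ⟨T, hPT⟩
    have h1 : D0 P = DF hex.choose := (dif_neg (hno P T hPT)).trans (dif_pos hex)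
    rw [h1]
    have h2 : hex.choose = T := by
      apply Subtype.ext
      ext b
      rw [← hex.choose_spec.apply_right b, ← hPT.apply_right b]
    rw [h2]
  have hfin : (Function.support D0).Finite := by
    have h1 : Function.support D0 ⊆
        (⋃ Q ∈ DY.support, {P : X.primeDivisors | IsGauss M P.1 Q.1}) ∪
        ⋃ T ∈ DF.support, {P : X.primeDivisors | IsGauss K P.1 T.1} := by
      intro P hP
      rw [Function.mem_support] at hP
      by_cases hQ : ∃ Q : Y.primeDivisors, IsGauss M P.1 Q.1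
      · left
        obtain ⟨Q, hPQ⟩ := hQ
        rw [hD1 P Q hPQ] at hP
        simp only [Set.mem_iUnion]
        exact ⟨Q, Finsupp.mem_support_iff.2 hP, hPQ⟩
      · by_cases hT : ∃ T : F.primeDivisors, IsGauss K P.1 T.1
        · right
          obtain ⟨T, hPT⟩ := hT
          rw [hD2 P T hPT] at hP
          simp only [Set.mem_iUnion]
          exact ⟨T, Finsupp.mem_support_iff.2 hP, hPT⟩
        · exfalso
          apply hP
          exact (dif_neg hQ).trans (dif_neg hT)
    refine Set.Finite.subset (Set.Finite.union ?_ ?_) h1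
    · refine Set.Finite.biUnion DY.support.finite_toSet fun Q _ => ?_
      apply Set.Subsingleton.finite
      intro P hP P' hP'
      exact Subtype.ext (IsGauss.unique hP hP' h.disj hfr)
    · refine Set.Finite.biUnion DF.support.finite_toSet fun T _ => ?_
      apply Set.Subsingleton.finite
      intro P hP P' hP'
      exact Subtype.ext (IsGauss.unique hP hP' hdj hfr')
  refine ⟨Finsupp.ofSupportFinite D0 hfin, ⟨fun P h1 h2 => ?_, fun P T e he => ?_,
    fun P Q e he => ?_⟩⟩
  · rw [Finsupp.ofSupportFinite_coe]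
    have hQ : ¬ ∃ Q : Y.primeDivisors, IsGauss M P.1 Q.1 := by
      rintro ⟨Q, hPQ⟩
      obtain ⟨b, -, hb⟩ := Q.1.exists_uniformizer
      have h3 := hPQ.apply_right b
      rw [h2 b, hb] at h3
      exact zero_ne_one h3
    have hT : ¬ ∃ T : F.primeDivisors, IsGauss K P.1 T.1 := by
      rintro ⟨T, hPT⟩
      obtain ⟨b, -, hb⟩ := T.1.exists_uniformizer
      have h3 := hPT.apply_right b
      rw [h1 b, hb] at h3
      exact zero_ne_one h3
    exact (dif_neg hQ).trans (dif_neg hT)
  · rw [Finsupp.ofSupportFinite_coe]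
    obtain ⟨h1, h2⟩ := h.box_left P.2 he
    rw [hD2 P T h2, h1, Nat.cast_one, one_mul]
  · rw [Finsupp.ofSupportFinite_coe]
    obtain ⟨h1, h2⟩ := h.box_right P.2 he
    rw [hD1 P Q h2, h1, Nat.cast_one, one_mul]

theorem IsBox.unique (h : IsProduct F Y X) {DF : F.Div} {DY : Y.Div} {D D' : X.Div}
    (h1 : IsBox DF DY D) (h2 : IsBox DF DY D') : D = D' := by
  ext P
  rcases h.trichotomy P.2 with ⟨h3, h4⟩ | ⟨Q, hQ, hG⟩ | ⟨T, hT, hG⟩
  · rw [h1.dom P h3 h4, h2.dom P h3 h4]
  · rw [h1.gauss_right P ⟨Q, hQ⟩ hG, h2.gauss_right P ⟨Q, hQ⟩ hG]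
  · rw [h1.gauss_left P ⟨T, hT⟩ hG, h2.gauss_left P ⟨T, hT⟩ hG]

theorem IsBox.isInt_iff (h : IsProduct F Y X) {DF : F.Div} {DY : Y.Div} {D : X.Div}
    (h1 : IsBox DF DY D) : X.IsInt D ↔ F.IsInt DF ∧ Y.IsInt DY := by
  have hfr := h.isFrac_top
  have hfr' : IsFrac (prodRing E (⊤ : Subalgebra k K) (⊤ : Subalgebra k M)) := by
    rw [prodRing_comm]
    exact hfr
  constructor
  · intro hD
    refine ⟨fun T => ?_, fun Q => ?_⟩
    · obtain ⟨w, hw⟩ := exists_gauss (linDisj_symm h.disj) hfr' T.1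
      obtain ⟨z, hz⟩ := hD ⟨w, h.swap.gauss_mem T.2 hw⟩
      exact ⟨z, by rw [← h1.gauss_left ⟨w, h.swap.gauss_mem T.2 hw⟩ T hw, hz]⟩
    · obtain ⟨w, hw⟩ := exists_gauss h.disj hfr Q.1
      obtain ⟨z, hz⟩ := hD ⟨w, h.gauss_mem Q.2 hw⟩
      exact ⟨z, by rw [← h1.gauss_right ⟨w, h.gauss_mem Q.2 hw⟩ Q hw, hz]⟩
  · rintro ⟨hF, hY⟩ P
    rcases h.trichotomy P.2 with ⟨h3, h4⟩ | ⟨Q, hQ, hG⟩ | ⟨T, hT, hG⟩
    · exact ⟨0, by rw [h1.dom P h3 h4, Int.cast_zero]⟩
    · rw [h1.gauss_right P ⟨Q, hQ⟩ hG]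
      exact hY _
    · rw [h1.gauss_left P ⟨T, hT⟩ hG]
      exact hF _

theorem IsProduct.prin_box (h : IsProduct F Y X) {f : M} {g : K} (hf : f ≠ 0) (hg : g ≠ 0) :
    IsBox (F.prin f) (Y.prin g) (X.prin (algebraMap M E f * algebraMap K E g)) := by
  have hf' : algebraMap M E f ≠ 0 := (map_ne_zero _).2 hf
  have hg' : algebraMap K E g ≠ 0 := (map_ne_zero _).2 hg
  refine ⟨fun P h1 h2 => ?_, fun P T e he => ?_, fun P Q e he => ?_⟩
  · rw [ProjVar.prin_apply, DVal.map_mul _ hf' hg', h1 f, h2 g, add_zero, Int.cast_zero]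
  · obtain ⟨-, hG⟩ := h.box_left P.2 he
    rw [ProjVar.prin_apply, DVal.map_mul _ hf' hg', he.2 f, hG.apply_left g, add_zero,
      ProjVar.prin_apply]
    push_cast
    rfl
  · obtain ⟨-, hG⟩ := h.box_right P.2 he
    rw [ProjVar.prin_apply, DVal.map_mul _ hf' hg', he.2 g, hG.apply_left f, zero_add,
      ProjVar.prin_apply]
    push_cast
    rfl

end Pool.Agent.Helper47.PQ
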