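import Pool.Agent.Helper47.PQ.Exp
import Pool.Agent.Helper92.Weak.VarLem

set_option autoImplicit false

/-!
# PQ-G4: basic properties of Gauss extensions

PROOFS. `apply_right`, `apply_left`, `liesOver`: the definition with `n = 1`.
`eq_min`: `w s = v (b i)` for some `i` and `w s ≤ v (b j)` for all `j` with `b j ≠ 0` (definition with
`c = w s` and `c = w s + 1`; `s ≠ 0` by linear disjointness, as some `b i ≠ 0`).
`exists_frac`: `x = s / s'` with `s, s' ∈ M K` nonzero (`hfr`); expand `s' = ∑ aᵢ bᵢ`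
(`exists_expansion`), choose `i` with `v (b i) = w s'` (`eq_min`) and divide `s, s'` by
`b i ∈ K`: then `w s' = 0` and all coefficients of `s'` (in this expansion) have
`v ≥ 0`; `w s = w x ≥ 0`, so in an expansion of `s` all coefficients have `v ≥ 0`.
`unique`: `w` and `w'` agree on `M K` by `eq_min`, hence on `E`.
`frac_left` is the same for the pair `(x, s)` with `x = 0` allowed.
-/

namespace Pool.Agent.Helper47.PQ

open Pool.Agent.Helper92.Weak

variable {k M K E : Type*} [Field k] [Field M] [Field K] [Field E]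
  [Algebra k M] [Algebra k K] [Algebra k E] [Algebra M E] [Algebra K E]

namespace IsGauss

variable {w w' : DVal k E} {v : DVal k K}

theorem apply_right (h : IsGauss M w v) (b : K) : w (algebraMap K E b) = v b := by
  have key : ∀ c : ℚ, w.Ge c (algebraMap K E b) ↔ v.Ge c b := by
    intro c
    have h1 := h 1 (fun _ => (1 : M)) (LinearIndependent.of_subsingleton 0 one_ne_zero)
      (fun _ => b) c
    simpa using h1
  by_cases hb : b = 0
  · rw [hb, map_zero, w.map_zero, v.map_zero]
  have hb' : algebraMap K E b ≠ 0 := (map_ne_zero _).mpr hb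
  have h1 := (key (v b)).mpr (DVal.ge_self b)
  have h2 := (key (w (algebraMap K E b))).mp (DVal.ge_self _)
  rw [DVal.ge_iff hb'] at h1
  rw [DVal.ge_iff hb] at h2
  exact le_antisymm (by exact_mod_cast h2) (by exact_mod_cast h1)

theorem apply_left (h : IsGauss M w v) (a : M) : w (algebraMap M E a) = 0 := by
  by_cases ha : a = 0
  · rw [ha, map_zero, w.map_zero]
  have key : ∀ c : ℚ, w.Ge c (algebraMap M E a) ↔ v.Ge c (1 : K) := by
    intro c
    have h1 := h 1 (fun _ => a) (LinearIndependent.of_subsingleton 0 ha) (fun _ => (1 : K)) c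
    simpa using h1
  have ha' : algebraMap M E a ≠ 0 := (map_ne_zero _).mpr ha
  have h1 := (key (v 1)).mpr (DVal.ge_self 1)
  have h2 := (key (w (algebraMap M E a))).mp (DVal.ge_self _)
  rw [DVal.ge_iff ha', v.map_one] at h1
  rw [DVal.ge_iff one_ne_zero, v.map_one] at h2
  exact le_antisymm (by exact_mod_cast h2) (by exact_mod_cast h1)

theorem liesOver (h : IsGauss M w v) : LiesOver w v 1 :=
  ⟨one_pos, fun a => by rw [h.apply_right a, Nat.cast_one, one_mul]⟩

theorem eq_min (h : IsGauss M w v) (hd : LinDisj k M K E) {n : ℕ} (a : Fin n → M)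
    (ha : LinearIndependent k a) (b : Fin n → K) (hb : ∃ i, b i ≠ 0) :
    ∑ i, algebraMap M E (a i) * algebraMap K E (b i) ≠ 0 ∧
    (∃ i, b i ≠ 0 ∧ w (∑ i, algebraMap M E (a i) * algebraMap K E (b i)) = v (b i)) ∧
      ∀ j, b j ≠ 0 → w (∑ i, algebraMap M E (a i) * algebraMap K E (b i)) ≤ v (b j) := by
  set s := ∑ i, algebraMap M E (a i) * algebraMap K E (b i) with hs
  have h0 : s ≠ 0 := by
    intro h1
    obtain ⟨i, hi⟩ := hb
    exact hi (hd n a ha b h1 i)
  have h2 : ∀ j, b j ≠ 0 → w s ≤ v (b j) := by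
    intro j hj
    have h3 := (h n a ha b (w s)).mp (DVal.ge_self s) j
    rw [DVal.ge_iff hj] at h3
    exact_mod_cast h3
  refine ⟨h0, ?_, h2⟩
  by_contra hcon
  push Not at hcon
  have h4 : ∀ j, v.Ge ((w s : ℚ) + 1) (b j) := by
    intro j
    by_cases hj : b j = 0
    · exact Or.inl hj
    · right
      have h5 := h2 j hj
      have h6 := hcon j hj
      have h7 : w s + 1 ≤ v (b j) := by omega
      exact_mod_cast h7
  have h8 := (h n a ha b _).mpr h4
  rw [← hs, DVal.ge_iff h0] at h8
  linarith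

variable [IsScalarTower k M E] [IsScalarTower k K E]

private theorem gauss_left (A : Subalgebra k K) (a : M) :
    algebraMap M E a ∈ prodRing E (⊤ : Subalgebra k M) A :=
  (le_sup_left : _ ≤ prodRing E (⊤ : Subalgebra k M) A) ⟨a, trivial, rfl⟩

private theorem gauss_right {A : Subalgebra k K} {b : K} (hb : b ∈ A) :
    algebraMap K E b ∈ prodRing E (⊤ : Subalgebra k M) A :=
  (le_sup_right : _ ≤ prodRing E (⊤ : Subalgebra k M) A) ⟨b, hb, rfl⟩

private theorem gauss_scale (A : Subalgebra k K) {n : ℕ} (a : Fin n → M) (b : Fin n → K) (β : K)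
    (hA : ∀ i, b i / β ∈ A) :
    (∑ i, algebraMap M E (a i) * algebraMap K E (b i)) / algebraMap K E β ∈
      prodRing E (⊤ : Subalgebra k M) A := by
  rw [Finset.sum_div]
  refine Subalgebra.sum_mem _ fun i _ => ?_
  rw [mul_div_assoc, ← map_div₀]
  exact Subalgebra.mul_mem _ (gauss_left A _) (gauss_right (hA i))

/-- The valuation ring of `w` is the localisation of `M v.ring` at the elements of value `0`. -/
theorem exists_frac (h : IsGauss M w v) (hd : LinDisj k M K E)
    (hfr : IsFrac (prodRing E (⊤ : Subalgebra k M) (⊤ : Subalgebra k K))) {x : E} (hx : 0 ≤ w x) :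
    ∃ s ∈ prodRing E (⊤ : Subalgebra k M) v.ring, ∃ s' ∈ prodRing E (⊤ : Subalgebra k M) v.ring,
      s' ≠ 0 ∧ w s' = 0 ∧ x = s / s' := by
  by_cases hx0 : x = 0
  · exact ⟨0, Subalgebra.zero_mem _, 1, Subalgebra.one_mem _, one_ne_zero, w.map_one, by
      rw [hx0, zero_div]⟩
  obtain ⟨s, hs, s', hs', hs0', hxs⟩ := hfr x
  have hs0 : s ≠ 0 := by
    rintro rfl
    rw [zero_div] at hxs
    exact hx0 hxs
  obtain ⟨n, a, b, -, -, hla, -, hse⟩ := exists_expansion hs
  obtain ⟨n', a', b', -, -, hla', -, hse'⟩ := exists_expansion hs'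
  have hb : ∃ i, b i ≠ 0 := by
    by_contra hcon
    push Not at hcon
    exact hs0 (by rw [hse]; simp [hcon])
  have hb' : ∃ i, b' i ≠ 0 := by
    by_contra hcon
    push Not at hcon
    exact hs0' (by rw [hse']; simp [hcon])
  obtain ⟨-, -, h2⟩ := h.eq_min hd a hla b hb
  obtain ⟨-, ⟨i, hi0, hi⟩, h2'⟩ := h.eq_min hd a' hla' b' hb'
  rw [← hse] at h2
  rw [← hse'] at h2' hi
  have hβ : algebraMap K E (b' i) ≠ 0 := (map_ne_zero _).mpr hi0
  have hw : w s = w x + w s' := by
    rw [← w.map_mul hx0 hs0', hxs, div_mul_cancel₀ _ hs0']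
  have hdiv : ∀ c : K, (c ≠ 0 → v (b' i) ≤ v c) → c / b' i ∈ v.ring := by
    intro c hc
    rw [DVal.mem_ring]
    by_cases hc0 : c = 0
    · rw [hc0, zero_div, v.map_zero]
    · rw [v.map_div hc0 hi0]
      have := hc hc0
      omega
  refine ⟨s / algebraMap K E (b' i), ?_, s' / algebraMap K E (b' i), ?_, div_ne_zero hs0' hβ, ?_, ?_⟩
  · rw [hse]
    refine gauss_scale v.ring a b (b' i) fun j => hdiv _ fun hj => ?_
    have := h2 j hj
    omega
  · rw [hse']
    refine gauss_scale v.ring a' b' (b' i) fun j => hdiv _ fun hj => ?_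
    have := h2' j hj
    omega
  · rw [w.map_div hs0' hβ, h.apply_right, hi]
    omega
  · rw [div_div_div_cancel_right₀ hβ]
    exact hxs

theorem ring_le (h : IsGauss M w v) : prodRing E (⊤ : Subalgebra k M) v.ring ≤ w.ring := by
  refine sup_le ?_ ?_
  · rintro _ ⟨a, -, rfl⟩
    change 0 ≤ w (algebraMap M E a)
    rw [h.apply_left a]
  · rintro _ ⟨b, hb, rfl⟩
    change 0 ≤ w (algebraMap K E b)
    rw [h.apply_right b]
    exact hb

theorem unique (h : IsGauss M w v) (h' : IsGauss M w' v) (hd : LinDisj k M K E)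
    (hfr : IsFrac (prodRing E (⊤ : Subalgebra k M) (⊤ : Subalgebra k K))) : w = w' := by
  have key : ∀ s ∈ prodRing E (⊤ : Subalgebra k M) (⊤ : Subalgebra k K), w s = w' s := by
    intro s hs
    by_cases hs0 : s = 0
    · rw [hs0, w.map_zero, w'.map_zero]
    obtain ⟨n, a, b, -, -, hla, -, hse⟩ := exists_expansion hs
    have h1 : ∀ c : ℚ, w.Ge c s ↔ w'.Ge c s := by
      intro c
      rw [hse]
      exact (h n a hla b c).trans (h' n a hla b c).symm
    have h2 := (h1 (w s)).mp (DVal.ge_self s)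
    have h3 := (h1 (w' s)).mpr (DVal.ge_self s)
    rw [DVal.ge_iff hs0] at h2 h3
    exact le_antisymm (by exact_mod_cast h2) (by exact_mod_cast h3)
  refine DVal.ext fun x => ?_
  by_cases hx0 : x = 0
  · rw [hx0, w.map_zero, w'.map_zero]
  obtain ⟨s, hs, s', hs', hs0', hxs⟩ := hfr x
  have hs0 : s ≠ 0 := by
    rintro rfl
    rw [zero_div] at hxs
    exact hx0 hxs
  rw [hxs, w.map_div hs0 hs0', w'.map_div hs0 hs0', key s hs, key s' hs']

end IsGauss

end Pool.Agent.Helper47.PQ
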