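import Pool.Agent.Helper47.PQ.Exp
import Pool.Agent.Helper47.PQ.GaussB
import Pool.Agent.Helper92.Weak.VarLem

set_option autoImplicit false

/-!
# PQ-O2: derivations of `E = Frac(M K)`

`exists_extend`: a derivation `∂` of `K` over `k` extends to a derivation `δ` of `E` which is zero on
`M`. PROOF. Linear disjointness: `M ⊗[k] K → E` is injective with image `S = M K` (`mem_prodRing`),
`id_M ⊗ ∂` is an `M`-derivation of `M ⊗[k] K` (or define `δ (∑ aᵢ bᵢ) = ∑ aᵢ ∂ bᵢ` on `S`; well defined:
if `∑ aᵢ bᵢ = 0` choose a basis `e_l` of the `k`-span of the `aᵢ`, `aᵢ = ∑ c_{il} e_l`, then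
`∑_i c_{il} bᵢ = 0` for all `l` by linear disjointness, so `∑_i c_{il} ∂ bᵢ = 0`), and a derivation
of a domain extends uniquely to its fraction field (in Mathlib: `Derivation.liftOfLocalization`-like
lemmas; or through Kähler differentials: `Ω[K⁄k]` has a basis given by a transcendence basis `y` of
`K`; choose a transcendence basis `x` of `M`; then `x ∪ y` is a transcendence basis of `E`, take the
dual derivation, etc.). Any route is fine.

`der_gauss`: `w` the Gauss extension of `v`; a derivation `δ` of `E` which maps the images of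
`v.ring` and of `M` into `w.ring` preserves `w.ring`. PROOF. `x = s/s'` with
`s, s' ∈ M v.ring`, `w s' = 0` (`IsGauss.exists_frac`); `δ s ∈ w.ring`
for `s = ∑ aᵢ bᵢ` (Leibniz), and `δ x = (δ s - x δ s')/s'`.

`der_dom`: the same for a valuation `P ≥ 0` on `M`, `K`, whose ring consists of quotients `s/s'` of
elements of `M K` with `P s' = 0`.
-/

namespace Pool.Agent.Helper47.PQ

open Pool.Agent.Helper92.Weak

variable {k M K E : Type*} [Field k] [Field M] [Field K] [Field E]
  [Algebra k M] [Algebra k K] [Algebra k E] [Algebra M E] [Algebra K E]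
  [IsScalarTower k M E] [IsScalarTower k K E]

open scoped TensorProduct in
/-- The map `M ⊗ K → E`. -/
noncomputable def oTwo_tmap (k M K E : Type*) [Field k] [Field M] [Field K] [Field E]
    [Algebra k M] [Algebra k K] [Algebra k E] [Algebra M E] [Algebra K E]
    [IsScalarTower k M E] [IsScalarTower k K E] : M ⊗[k] K →ₐ[k] E :=
  Algebra.TensorProduct.lift (IsScalarTower.toAlgHom k M E) (IsScalarTower.toAlgHom k K E)
    (fun _ _ => Commute.all _ _)

open scoped TensorProduct in
theorem oTwo_tmap_tmul (a : M) (b : K) :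
    oTwo_tmap k M K E (a ⊗ₜ[k] b) = algebraMap M E a * algebraMap K E b := by
  simp [oTwo_tmap]

theorem oTwo_tmap_injective (hd : LinDisj k M K E) : Function.Injective (oTwo_tmap k M K E) := by
  classical
  rw [injective_iff_map_eq_zero]
  intro t ht
  obtain ⟨c, hc⟩ := TensorProduct.eq_repr_basis_left (Module.Basis.ofVectorSpace k M) t
  rw [← hc, Finsupp.sum, map_sum] at ht
  simp only [oTwo_tmap_tmul] at ht
  have hlin : LinearIndependent k
      (fun j : Fin c.support.card => Module.Basis.ofVectorSpace k M (c.support.equivFin.symm j)) :=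
    (Module.Basis.ofVectorSpace k M).linearIndependent.comp
      (fun j : Fin c.support.card => ((c.support.equivFin.symm j : c.support) : _))
      (Subtype.val_injective.comp c.support.equivFin.symm.injective)
  have h1 := hd _ _ hlin (fun j => c (c.support.equivFin.symm j)) (by
    rw [← ht, ← Finset.sum_coe_sort c.support]
    exact Equiv.sum_comp c.support.equivFin.symm
      (fun i : c.support => algebraMap M E (Module.Basis.ofVectorSpace k M i) *
        algebraMap K E (c i)))
  rw [← hc]
  apply Finset.sum_eq_zero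
  intro i hi
  have := h1 (c.support.equivFin ⟨i, hi⟩)
  rw [Equiv.symm_apply_apply] at this
  simp only at this
  rw [this]
  exact TensorProduct.tmul_zero _ _

/-- The ring homomorphism `b ↦ b + ε D b`. -/
noncomputable def oTwo_dualHom (E : Type*) [Field E] [Algebra k E] [Algebra K E]
    [IsScalarTower k K E] (D : Derivation k K K) : K →ₐ[k] TrivSqZeroExt E E :=
  AlgHom.mk
    { toFun := fun b => TrivSqZeroExt.inl (algebraMap K E b) +
        TrivSqZeroExt.inr (algebraMap K E (D b))
      map_one' := by simp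
      map_zero' := by simp
      map_add' := fun x y => by
        simp only [map_add, TrivSqZeroExt.inl_add, TrivSqZeroExt.inr_add]
        abel
      map_mul' := fun x y => by
        ext
        · simp only [TrivSqZeroExt.fst_add, TrivSqZeroExt.fst_inl, TrivSqZeroExt.fst_inr,
            TrivSqZeroExt.fst_mul, map_mul, add_zero]
        · simp only [TrivSqZeroExt.snd_add, TrivSqZeroExt.snd_inl, TrivSqZeroExt.snd_inr,
            TrivSqZeroExt.snd_mul, TrivSqZeroExt.fst_add, TrivSqZeroExt.fst_inl,
            TrivSqZeroExt.fst_inr, zero_add, add_zero, Derivation.leibniz, smul_eq_mul,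
            MulOpposite.smul_eq_mul_unop, MulOpposite.unop_op, map_add, map_mul]
          ring }
    (fun c => by
      change TrivSqZeroExt.inl (algebraMap K E (algebraMap k K c)) +
        TrivSqZeroExt.inr (algebraMap K E (D (algebraMap k K c))) = _
      rw [Derivation.map_algebraMap, map_zero, TrivSqZeroExt.inr_zero, add_zero,
        ← IsScalarTower.algebraMap_apply]
      rfl)

theorem oTwo_dualHom_apply (D : Derivation k K K) (b : K) :
    oTwo_dualHom E D b = TrivSqZeroExt.inl (algebraMap K E b) +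
        TrivSqZeroExt.inr (algebraMap K E (D b)) := rfl

theorem exists_extend (hd : LinDisj k M K E)
    (hfr : IsFrac (prodRing E (⊤ : Subalgebra k M) (⊤ : Subalgebra k K)))
    (D : Derivation k K K) : ∃ δ : Derivation k E E,
      (∀ b : K, δ (algebraMap K E b) = algebraMap K E (D b)) ∧
      ∀ a : M, δ (algebraMap M E a) = 0 := by
  classical
  let alg : Algebra (TensorProduct k M K) E := (oTwo_tmap k M K E).toRingHom.toAlgebra
  have halg : ∀ t, algebraMap (TensorProduct k M K) E t = oTwo_tmap k M K E t := fun t => rfl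
  have hinj := oTwo_tmap_injective hd
  have hdom : IsDomain (TensorProduct k M K) :=
    Function.Injective.isDomain (oTwo_tmap k M K E).toRingHom hinj
  have hfaith : FaithfulSMul (TensorProduct k M K) E :=
    (faithfulSMul_iff_algebraMap_injective _ _).mpr hinj
  have hrange : ∀ s ∈ prodRing E (⊤ : Subalgebra k M) (⊤ : Subalgebra k K),
      ∃ t, oTwo_tmap k M K E t = s := by
    intro s hs
    rw [mem_prodRing] at hs
    obtain ⟨n, a, b, -, -, rfl⟩ := hs
    refine ⟨∑ i, a i ⊗ₜ[k] b i, ?_⟩
    rw [map_sum]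
    simp only [oTwo_tmap_tmul]
  have hfrac : IsFractionRing (TensorProduct k M K) E := by
    apply IsFractionRing.of_field
    intro z
    obtain ⟨a, ha, b, hb, -, hz⟩ := hfr z
    obtain ⟨ta, hta⟩ := hrange a ha
    obtain ⟨tb, htb⟩ := hrange b hb
    exact ⟨ta, tb, by rw [halg, halg, hta, htb, hz]⟩
  let g : TensorProduct k M K →ₐ[k] TrivSqZeroExt E E :=
    Algebra.TensorProduct.lift
      ((TrivSqZeroExt.inlAlgHom k E E).comp (IsScalarTower.toAlgHom k M E)) (oTwo_dualHom E D)
      (fun _ _ => Commute.all _ _)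
  have hg : ∀ (a : M) (b : K), g (a ⊗ₜ[k] b) =
      TrivSqZeroExt.inl (algebraMap M E a) * oTwo_dualHom E D b := by
    intro a b
    simp [g]
  have hfst : ∀ t, (g t).fst = oTwo_tmap k M K E t := by
    intro t
    induction t using TensorProduct.induction_on with
    | zero => simp
    | tmul a b =>
      rw [hg, oTwo_tmap_tmul, oTwo_dualHom_apply]
      simp
    | add x y hx hy => rw [map_add, map_add, TrivSqZeroExt.fst_add, hx, hy]
  have hunit : ∀ y : nonZeroDivisors (TensorProduct k M K), IsUnit (g.toRingHom y) := by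
    intro y
    have h1 : (g (y : TensorProduct k M K)).fst ≠ 0 := by
      rw [hfst]
      intro h
      have := hinj (h.trans (map_zero _).symm)
      exact nonZeroDivisors.ne_zero y.2 this
    change IsUnit (g (y : TensorProduct k M K))
    rw [TrivSqZeroExt.isUnit_iff_isUnit_fst]
    exact isUnit_iff_ne_zero.mpr h1
  let G : E →+* TrivSqZeroExt E E := IsLocalization.lift (M := nonZeroDivisors (TensorProduct k M K))
    (S := E) hunit
  have hG : ∀ t, G (oTwo_tmap k M K E t) = g t := fun t =>
    IsLocalization.lift_eq (M := nonZeroDivisors (TensorProduct k M K)) hunit t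
  have hGfst : ∀ x, (G x).fst = x := by
    intro x
    have h1 : ((TrivSqZeroExt.fstHom ℤ E E : TrivSqZeroExt E E →ₐ[ℤ] E).toRingHom.comp G) =
        RingHom.id E := by
      apply IsLocalization.ringHom_ext (nonZeroDivisors (TensorProduct k M K))
      apply RingHom.ext
      intro t
      change (G (oTwo_tmap k M K E t)).fst = oTwo_tmap k M K E t
      rw [hG, hfst]
    exact congrArg (fun f : E →+* E => f x) h1
  have hGM : ∀ a : M, G (algebraMap M E a) = TrivSqZeroExt.inl (algebraMap M E a) := by
    intro a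
    have h1 := hG (a ⊗ₜ[k] (1 : K))
    rw [oTwo_tmap_tmul, map_one, mul_one, hg, map_one, mul_one] at h1
    exact h1
  have hGK : ∀ b : K, G (algebraMap K E b) = oTwo_dualHom E D b := by
    intro b
    have h1 := hG ((1 : M) ⊗ₜ[k] b)
    rw [oTwo_tmap_tmul, map_one, one_mul, hg, map_one, TrivSqZeroExt.inl_one, one_mul] at h1
    exact h1
  have hleib : ∀ x y : E, (G (x * y)).snd = x * (G y).snd + y * (G x).snd := by
    intro x y
    rw [map_mul, TrivSqZeroExt.snd_mul, hGfst, hGfst]
    simp only [smul_eq_mul, MulOpposite.smul_eq_mul_unop, MulOpposite.unop_op]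
    ring
  have hconst : ∀ c : k, (G (algebraMap k E c)).snd = 0 := by
    intro c
    rw [IsScalarTower.algebraMap_apply k M E, hGM]
    simp
  refine ⟨Derivation.mk' (R := k) (A := E) (M := E)
    { toFun := fun x => (G x).snd
      map_add' := fun x y => by rw [map_add, TrivSqZeroExt.snd_add]
      map_smul' := fun c x => by
        rw [Algebra.smul_def, hleib, hconst, mul_zero, add_zero, RingHom.id_apply,
          Algebra.smul_def] } (fun x y => by
        simp only [smul_eq_mul]
        exact hleib x y), ?_, ?_⟩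
  · intro b
    change (G (algebraMap K E b)).snd = _
    rw [hGK, oTwo_dualHom_apply, TrivSqZeroExt.snd_add, TrivSqZeroExt.snd_inl, TrivSqZeroExt.snd_inr,
      zero_add]
  · intro a
    change (G (algebraMap M E a)).snd = _
    rw [hGM]
    simp

theorem oTwo_der_frac {P : DVal k E} (δ : Derivation k E E) {s s' : E} (hs : 0 ≤ P (δ s))
    (hs' : 0 ≤ P (δ s')) (hx : 0 ≤ P (s / s')) (h0 : s' ≠ 0) (hP : P s' = 0) :
    0 ≤ P (δ (s / s')) := by
  have h1 : δ s = (s / s') * δ s' + s' * δ (s / s') := by
    have h2 : s = (s / s') * s' := by field_simp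
    conv_lhs => rw [h2]
    rw [Derivation.leibniz, smul_eq_mul, smul_eq_mul]
  have h3 : δ (s / s') = (δ s - (s / s') * δ s') * s'⁻¹ := by
    rw [h1]
    field_simp
    ring
  rw [h3]
  change _ ∈ P.ring
  refine P.ring.mul_mem (P.ring.sub_mem hs (P.ring.mul_mem hx hs')) ?_
  rw [DVal.mem_ring, DVal.map_inv, hP, neg_zero]

omit [Algebra k M] [Algebra k K] [IsScalarTower k M E] [IsScalarTower k K E] in
theorem oTwo_der_sum {P : DVal k E} (δ : Derivation k E E) {n : ℕ} (a : Fin n → M) (b : Fin n → K)
    (ha : ∀ i, 0 ≤ P (algebraMap M E (a i))) (hb : ∀ i, 0 ≤ P (algebraMap K E (b i)))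
    (ha' : ∀ i, 0 ≤ P (δ (algebraMap M E (a i)))) (hb' : ∀ i, 0 ≤ P (δ (algebraMap K E (b i)))) :
    0 ≤ P (δ (∑ i, algebraMap M E (a i) * algebraMap K E (b i))) := by
  change _ ∈ P.ring
  rw [map_sum]
  refine P.ring.sum_mem fun i _ => ?_
  rw [Derivation.leibniz, smul_eq_mul, smul_eq_mul]
  exact P.ring.add_mem (P.ring.mul_mem (ha i) (hb' i)) (P.ring.mul_mem (hb i) (ha' i))

theorem der_gauss (hd : LinDisj k M K E)
    (hfr : IsFrac (prodRing E (⊤ : Subalgebra k M) (⊤ : Subalgebra k K))) {w : DVal k E}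
    {v : DVal k K} (hw : IsGauss M w v) (δ : Derivation k E E)
    (h1 : ∀ b : K, 0 ≤ v b → 0 ≤ w (δ (algebraMap K E b)))
    (h2 : ∀ a : M, 0 ≤ w (δ (algebraMap M E a))) {x : E} (hx : 0 ≤ w x) : 0 ≤ w (δ x) := by
  have key : ∀ s ∈ prodRing E (⊤ : Subalgebra k M) v.ring, 0 ≤ w (δ s) := by
    intro s hs
    rw [mem_prodRing] at hs
    obtain ⟨n, a, b, -, hb, rfl⟩ := hs
    exact oTwo_der_sum δ a b (fun i => by rw [hw.apply_left]) (fun i => by
      rw [hw.apply_right]; exact hb i) (fun i => h2 _) (fun i => h1 _ (hb i))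
  obtain ⟨s, hs, s', hs', h0, hws', rfl⟩ := hw.exists_frac hd hfr hx
  exact oTwo_der_frac δ (key s hs) (key s' hs') hx h0 hws'

theorem der_dom {P : DVal k E} (hM : ∀ a : M, P (algebraMap M E a) = 0)
    (hK : ∀ b : K, P (algebraMap K E b) = 0) (δ : Derivation k E E)
    (h1 : ∀ b : K, 0 ≤ P (δ (algebraMap K E b))) (h2 : ∀ a : M, 0 ≤ P (δ (algebraMap M E a)))
    {s s' : E} (hs : s ∈ prodRing E (⊤ : Subalgebra k M) (⊤ : Subalgebra k K))
    (hs' : s' ∈ prodRing E (⊤ : Subalgebra k M) (⊤ : Subalgebra k K)) (h0 : s' ≠ 0)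
    (hP : P s' = 0) : 0 ≤ P (δ (s / s')) := by
  have key : ∀ s ∈ prodRing E (⊤ : Subalgebra k M) (⊤ : Subalgebra k K),
      0 ≤ P s ∧ 0 ≤ P (δ s) := by
    intro s hs
    rw [mem_prodRing] at hs
    obtain ⟨n, a, b, -, -, rfl⟩ := hs
    refine ⟨?_, oTwo_der_sum δ a b (fun i => by rw [hM]) (fun i => by rw [hK]) (fun i => h2 _)
      (fun i => h1 _)⟩
    change _ ∈ P.ring
    refine P.ring.sum_mem fun i _ => P.ring.mul_mem ?_ ?_
    · rw [DVal.mem_ring, hM]
    · rw [DVal.mem_ring, hK]
  refine oTwo_der_frac δ (key s hs).2 (key s' hs').2 ?_ h0 hP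
  rw [div_eq_mul_inv]
  change _ ∈ P.ring
  refine P.ring.mul_mem (key s hs).1 ?_
  rw [DVal.mem_ring, DVal.map_inv, hP, neg_zero]

end Pool.Agent.Helper47.PQ
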