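import Pool.Agent.Helper47.PQ.Defs
import Pool.Agent.Helper92.Weak.Bridge
import Pool.Agent.Helper92.Weak.Final
import Pool.Agent.Helper50.Forms.Unif

set_option autoImplicit false

/-!
# PQ-O3: presentations of forms

Throughout characteristic zero, `k ⊆ K` of transcendence degree `n`, with transcendence basis `y`.

`exists_coord'`: if the form `ω` of degree `n = trdeg K` has order `a` at `v`, then there are
coordinates `z` in `v.ring` with dual derivations `∂ᵢ` (`∂ᵢ zⱼ = δ_{ij}`) which preserve `v.ring`,
and `ω = g • wedge k z` with `v g = a`.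
PROOF. `exists_kaehler_basis hy` gives a basis `b₀` of `Ω[K⁄k]`; `exists_form` (Bridge) gives
`ω' ∈ ⋀ⁿ Ω` with the same orders: `v.IsOrd ω' a`, so `ω' ≠ 0` (`not_isOrd_zero`); `exists_coord`
(Helper50.Forms.Basic) gives `z, b, f` with `b i = D (z i)`,
`ω' = f • dform k z`, `v f = a`, partial derivatives preserving `v.ring`. Let
`∂ᵢ = (b.coord i).compDer D`. The proof of `exists_form` shows that `ω' = f • dform k z` corresponds to
`ω = f • wedge k z`; more directly: unfold the case distinction: `ω = g • wedge k u` for some `g, u`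
by `HasOrd`, `ω' := g • dform k u`, and `smul_wedge_eq_iff` transfers
`g • dform k u = f • dform k z` to `g • wedge k u = f • wedge k z`.

`exists_der`: for a transcendence basis `y` there are derivations `∂ᵢ` of `K` with
`∂ᵢ yⱼ = δ_{ij}`. PROOF. `(b.coord i).compDer D` for the basis of `exists_kaehler_basis`.

`wedge_comp`: `E ⊇ K` any field extension (with compatible `k`-structure), `g • wedge k z = g' • wedge k z'`
as forms on `K`. Then for all derivations `D₁, ..., D_{m+n}` of `E` and all `x ∈ E^m`,
`g` times the determinant for `x, z` is `g'` times the determinant for `x, z'`, i.e.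
`g • wedge k (Fin.append x z) = g' • wedge k (Fin.append x z')`, and the same with the blocks in
the other order.
PROOF. Let `b, y` be a Kähler basis of `K`. `wedge k z = det_b(dz) • wedge k y` (`wedge_eq_det`), so
`g det_b(dz) = g' det_b(dz')` by `wedge_smul_inj`. For a derivation `δ` of `E` and `c ∈ K`,
`δ c = ∑_l δ(y_l) b.repr(dc)_l` (the map `c ↦ δ c`, `K → E`, is a `k`-derivation of `K` with values in
the `K`-module `E`; use `Derivation.liftKaehlerDifferential`, as in the proof of `wedge_eq_det`).
So the matrix `(D_i (append x z)_j)` is the matrix `(D_i (append x y)_j)` times the block diagonal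
matrix `(1, b.toMatrix(dz))`, whose determinant is `det_b(dz)` (`Matrix.fromBlocks` reindexed, or
`Matrix.det_fromBlocks_zero₂₁`); so `wedge k (append x z) = det_b(dz) • wedge k (append x y)`, same
for `z'`.

`exists_ratio`: if `z₀ ∈ E^n` has dual derivations `δ` (`δᵢ z₀ⱼ = δ_{ij}`), `n = trdeg E`, then every
`wedge k z` is a multiple `d • wedge k z₀`. PROOF: `z₀` gives a Kähler basis: the `D z₀ᵢ` are linearly
independent (apply the linear forms attached to the `δᵢ`) in the `n`-dimensional space `Ω[E⁄k]`, so
a basis `b`; `wedge_eq_det`.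
-/

namespace Pool.Agent.Helper47.PQ

open Pool.Agent.Helper92.Weak

section A

variable {k K : Type*} [Field k] [CharZero k] [Field K] [Algebra k K] {n : ℕ}

open Pool.Agent.Helper50.Forms in
theorem exists_coord' {y : Fin n → K} (hy : IsTranscendenceBasis k y) {v : DVal k K}
    {ω : Form k K n} {a : ℤ} (h : v.HasOrd ω a) :
    ∃ (z : Fin n → K) (D : Fin n → Derivation k K K) (g : K), (∀ i, 0 ≤ v (z i)) ∧
      (∀ i j, D i (z j) = if i = j then 1 else 0) ∧ (∀ i x, 0 ≤ v x → 0 ≤ v (D i x)) ∧
      g ≠ 0 ∧ v g = a ∧ ω = g • wedge k z := by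
  obtain ⟨b₀, hb₀⟩ := exists_kaehler_basis hy
  obtain ⟨u, f, hu, hf, hfa, he⟩ := h.1
  have hord : v.IsOrd (f • dform k u) a := by
    subst he
    unfold DVal.HasOrd at h
    unfold DVal.IsOrd
    simpa only [smul_wedge_eq_iff b₀ y hb₀] using h
  have hne : f • dform k u ≠ 0 := fun h0 => not_isOrd_zero v a (h0 ▸ hord)
  obtain ⟨z, b, g, hb, hz, hp, hg, hga, hgz⟩ := exists_coord v b₀ hne hord
  refine ⟨z, fun i => (b.coord i).compDer (KaehlerDifferential.D k K), g, hz, ?_, ?_, hg, hga, ?_⟩
  · intro i j
    change b.coord i (KaehlerDifferential.D k K (z j)) = _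
    rw [← hb, b.coord_apply, b.repr_self, Finsupp.single_apply]
    simp only [eq_comm]
  · intro i x hx
    exact hp x hx i
  · rw [he]
    exact (smul_wedge_eq_iff b₀ y hb₀).2 hgz

open Pool.Agent.Helper50.Forms in
theorem exists_der {y : Fin n → K} (hy : IsTranscendenceBasis k y) :
    ∃ D : Fin n → Derivation k K K, ∀ i j, D i (y j) = if i = j then 1 else 0 := by
  obtain ⟨b, hb⟩ := exists_kaehler_basis hy
  refine ⟨fun i => (b.coord i).compDer (KaehlerDifferential.D k K), fun i j => ?_⟩
  change b.coord i (KaehlerDifferential.D k K (y j)) = _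
  rw [← hb, b.coord_apply, b.repr_self, Finsupp.single_apply]
  simp only [eq_comm]

open Pool.Agent.Helper50.Forms in
theorem exists_ratio {y : Fin n → K} (hy : IsTranscendenceBasis k y) (z₀ : Fin n → K)
    (D : Fin n → Derivation k K K) (hD : ∀ i j, D i (z₀ j) = if i = j then 1 else 0)
    (z : Fin n → K) : ∃ d : K, wedge k z = d • wedge k z₀ := by
  obtain ⟨b, hb⟩ := exists_kaehler_basis hy
  have h1 : wedge k z₀ D = 1 := by
    unfold wedge
    have h3 : (Matrix.of fun i j => D i (z₀ j)) = (1 : Matrix (Fin n) (Fin n) K) := by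
      ext i j
      rw [Matrix.of_apply, hD, Matrix.one_apply]
    rw [h3, Matrix.det_one]
  have h2 := wedge_eq_det b y hb z₀
  set d₀ := b.det (fun j => KaehlerDifferential.D k K (z₀ j)) with hd₀
  have h3 : d₀ ≠ 0 := by
    intro h0
    rw [h0, zero_smul] at h2
    rw [h2] at h1
    simp at h1
  refine ⟨b.det (fun j => KaehlerDifferential.D k K (z j)) / d₀, ?_⟩
  rw [wedge_eq_det b y hb z, h2, smul_smul, div_mul_cancel₀ _ h3]

variable {E : Type*} [Field E] [Algebra k E] [Algebra K E] [IsScalarTower k K E]

omit [CharZero k] in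
open scoped KaehlerDifferential in
theorem der_eq_sum (b : Module.Basis (Fin n) K Ω[K⁄k]) (y : Fin n → K)
    (hb : ∀ i, b i = KaehlerDifferential.D k K (y i)) (δ : Derivation k E E) (x : K) :
    δ (algebraMap K E x) = ∑ l, δ (algebraMap K E (y l)) *
      algebraMap K E (b.repr (KaehlerDifferential.D k K x) l) := by
  have h2 : ∀ x : K, δ (algebraMap K E x) =
      (δ.compAlgebraMap K).liftKaehlerDifferential (KaehlerDifferential.D k K x) := fun x =>
    ((δ.compAlgebraMap K).liftKaehlerDifferential_comp_D x).symm
  rw [h2]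
  conv_lhs => rw [← b.sum_repr (KaehlerDifferential.D k K x)]
  rw [map_sum]
  refine Finset.sum_congr rfl fun l _ => ?_
  rw [map_smul, hb, ← h2, Algebra.smul_def, mul_comm]

omit [CharZero k] in
open scoped KaehlerDifferential in
theorem wedge_append_right (b : Module.Basis (Fin n) K Ω[K⁄k]) (y : Fin n → K)
    (hb : ∀ i, b i = KaehlerDifferential.D k K (y i)) {m : ℕ} (x : Fin m → E) (z : Fin n → K) :
    wedge k (Fin.append x fun i => algebraMap K E (z i)) =
      algebraMap K E (b.det (fun j => KaehlerDifferential.D k K (z j))) •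
        wedge k (Fin.append x fun i => algebraMap K E (y i)) := by
  funext D
  rw [Pi.smul_apply, smul_eq_mul]
  unfold wedge
  let B : Matrix (Fin n) (Fin n) E :=
    (b.toMatrix (fun j => KaehlerDifferential.D k K (z j))).map (algebraMap K E)
  let N : Matrix (Fin (m + n)) (Fin (m + n)) E :=
    Matrix.reindex finSumFinEquiv finSumFinEquiv (Matrix.fromBlocks 1 0 0 B)
  have hN : N.det = algebraMap K E (b.det (fun j => KaehlerDifferential.D k K (z j))) := by
    rw [Matrix.det_reindex_self, Matrix.det_fromBlocks_zero₂₁, Matrix.det_one, one_mul]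
    exact (RingHom.map_det (algebraMap K E)
      (b.toMatrix (fun j => KaehlerDifferential.D k K (z j)))).symm
  have h3 : (Matrix.of fun i j => D i (Fin.append x (fun i => algebraMap K E (z i)) j)) =
      (Matrix.of fun i j => D i (Fin.append x (fun i => algebraMap K E (y i)) j)) * N := by
    ext i j
    rw [Matrix.mul_apply, Fin.sum_univ_add]
    refine Fin.addCases (fun j => ?_) (fun j => ?_) j
    · simp only [Matrix.of_apply, Fin.append_left, Fin.append_right, N, Matrix.reindex_apply,
        Matrix.submatrix_apply, finSumFinEquiv_symm_apply_castAdd,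
        finSumFinEquiv_symm_apply_natAdd, Matrix.fromBlocks_apply₁₁, Matrix.fromBlocks_apply₂₁,
        Matrix.zero_apply, mul_zero, Finset.sum_const_zero, add_zero, Matrix.one_apply,
        mul_ite, mul_one, Finset.sum_ite_eq', Finset.mem_univ, if_true]
    · simp only [Matrix.of_apply, Fin.append_left, Fin.append_right, N, Matrix.reindex_apply,
        Matrix.submatrix_apply, finSumFinEquiv_symm_apply_castAdd,
        finSumFinEquiv_symm_apply_natAdd, Matrix.fromBlocks_apply₁₂, Matrix.fromBlocks_apply₂₂,
        Matrix.zero_apply, mul_zero, Finset.sum_const_zero, zero_add]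
      rw [der_eq_sum b y hb]
      rfl
  rw [h3, Matrix.det_mul, hN, mul_comm]

omit [CharZero k] in
open scoped KaehlerDifferential in
theorem wedge_append_left (b : Module.Basis (Fin n) K Ω[K⁄k]) (y : Fin n → K)
    (hb : ∀ i, b i = KaehlerDifferential.D k K (y i)) {m : ℕ} (x : Fin m → E) (z : Fin n → K) :
    wedge k (Fin.append (fun i => algebraMap K E (z i)) x) =
      algebraMap K E (b.det (fun j => KaehlerDifferential.D k K (z j))) •
        wedge k (Fin.append (fun i => algebraMap K E (y i)) x) := by
  funext D
  rw [Pi.smul_apply, smul_eq_mul]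
  unfold wedge
  let B : Matrix (Fin n) (Fin n) E :=
    (b.toMatrix (fun j => KaehlerDifferential.D k K (z j))).map (algebraMap K E)
  let N : Matrix (Fin (n + m)) (Fin (n + m)) E :=
    Matrix.reindex finSumFinEquiv finSumFinEquiv (Matrix.fromBlocks B 0 0 1)
  have hN : N.det = algebraMap K E (b.det (fun j => KaehlerDifferential.D k K (z j))) := by
    rw [Matrix.det_reindex_self, Matrix.det_fromBlocks_zero₂₁, Matrix.det_one, mul_one]
    exact (RingHom.map_det (algebraMap K E)
      (b.toMatrix (fun j => KaehlerDifferential.D k K (z j)))).symm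
  have h3 : (Matrix.of fun i j => D i (Fin.append (fun i => algebraMap K E (z i)) x j)) =
      (Matrix.of fun i j => D i (Fin.append (fun i => algebraMap K E (y i)) x j)) * N := by
    ext i j
    rw [Matrix.mul_apply, Fin.sum_univ_add]
    refine Fin.addCases (fun j => ?_) (fun j => ?_) j
    · simp only [Matrix.of_apply, Fin.append_left, Fin.append_right, N, Matrix.reindex_apply,
        Matrix.submatrix_apply, finSumFinEquiv_symm_apply_castAdd,
        finSumFinEquiv_symm_apply_natAdd, Matrix.fromBlocks_apply₁₁, Matrix.fromBlocks_apply₂₁,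
        Matrix.zero_apply, mul_zero, Finset.sum_const_zero, add_zero]
      rw [der_eq_sum b y hb]
      rfl
    · simp only [Matrix.of_apply, Fin.append_left, Fin.append_right, N, Matrix.reindex_apply,
        Matrix.submatrix_apply, finSumFinEquiv_symm_apply_castAdd,
        finSumFinEquiv_symm_apply_natAdd, Matrix.fromBlocks_apply₁₂, Matrix.fromBlocks_apply₂₂,
        Matrix.zero_apply, mul_zero, Finset.sum_const_zero, zero_add, Matrix.one_apply,
        mul_ite, mul_one, Finset.sum_ite_eq', Finset.mem_univ, if_true]
  rw [h3, Matrix.det_mul, hN, mul_comm]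

open Pool.Agent.Helper50.Forms in
theorem wedge_comp_right {y : Fin n → K} (hy : IsTranscendenceBasis k y) {m : ℕ} (x : Fin m → E)
    {z z' : Fin n → K} {g g' : K} (h : g • wedge k z = g' • wedge k z') :
    algebraMap K E g • wedge k (Fin.append x fun i => algebraMap K E (z i)) =
      algebraMap K E g' • wedge k (Fin.append x fun i => algebraMap K E (z' i)) := by
  obtain ⟨b, hb⟩ := exists_kaehler_basis hy
  rw [wedge_append_right b y hb x z, wedge_append_right b y hb x z', smul_smul, smul_smul,
    ← map_mul, ← map_mul]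
  rw [wedge_eq_det b y hb z, wedge_eq_det b y hb z', smul_smul, smul_smul] at h
  rw [wedge_smul_inj b y hb h]

open Pool.Agent.Helper50.Forms in
theorem wedge_comp_left {y : Fin n → K} (hy : IsTranscendenceBasis k y) {m : ℕ} (x : Fin m → E)
    {z z' : Fin n → K} {g g' : K} (h : g • wedge k z = g' • wedge k z') :
    algebraMap K E g • wedge k (Fin.append (fun i => algebraMap K E (z i)) x) =
      algebraMap K E g' • wedge k (Fin.append (fun i => algebraMap K E (z' i)) x) := by
  obtain ⟨b, hb⟩ := exists_kaehler_basis hy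
  rw [wedge_append_left b y hb x z, wedge_append_left b y hb x z', smul_smul, smul_smul,
    ← map_mul, ← map_mul]
  rw [wedge_eq_det b y hb z, wedge_eq_det b y hb z', smul_smul, smul_smul] at h
  rw [wedge_smul_inj b y hb h]

end A

end Pool.Agent.Helper47.PQ
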