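import Pool.Agent.Helper47.PQ.Charts

set_option autoImplicit false

/-!
# PQ-P4: the ring `M K`

`mem_top_of`: if `z ∈ E` has no poles along the prime divisors of `X = F × Y` which dominate both
factors (i.e. are trivial on `M` and `K`), then `z ∈ M K = prodRing E ⊤ ⊤`.

PROOF. `S = M K` is noetherian, integrally closed, with fraction field `E` (`noeth_top`,
`normal_top`, `isFrac_top`). If `z ∉ S`, the ideal `{b ∈ S : z b ∈ S}` is proper, hence contained in
a maximal ideal `𝔪`, so `z ∉ locAt S 𝔪`, and `exists_dval_of_notMem` gives a valuation `P` with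
`P.ring = locAt S 𝔮` and `z ∉ P.ring`. `P` is trivial on `M` and `K` (nonzero elements of these
fields are units of `S ⊆ P.ring`). Finally `P ∈ X.primeDivisors`: with `A = chart k F.x 0`,
`B = chart k Y.x 0`, `S₀ = prodRing E A B`, the ring `locAt S 𝔮` is the localisation of `S₀` at
`𝔮 ∩ S₀`, because every element of `S` is `s₀/(α β)` with `s₀ ∈ S₀`, `α ∈ A`, `β ∈ B` nonzero
(`mem_prodRing` and `chart_isFrac`), and `α β ∉ 𝔮`. Use `rings`.

`exists_frac_dom`: a prime divisor `P` of `X` which is trivial on `M` and `K`: its ring is a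
localisation of `M K`. PROOF: `P.ring = locAt S' 𝔓` with `S' = prodRing E (chart F.x i) (chart Y.x j)`
contained in `M K`, so `x = s/s'` with `s, s' ∈ S'`, `s' ∉ 𝔓`, so `P s' = 0`.
-/

namespace Pool.Agent.Helper47.PQ

open Pool.Agent.Helper92.Weak

variable {k M K E : Type*} [Field k] [Field M] [Field K] [Field E]
  [Algebra k M] [Algebra k K] [Algebra k E] [Algebra M E] [Algebra K E]
  [IsScalarTower k M E] [IsScalarTower k K E]

theorem isLocalizationOf_incl {L : Type*} [Field L] [Algebra k L] {S T : Subalgebra k L}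
    (h : S ≤ T) (h2 : ∀ z ∈ T, ∃ x ∈ S, (∃ y ∈ T, x * y = 1) ∧ z * x ∈ S) (q : Ideal T)
    [hq : q.IsPrime] : IsLocalizationOf S (locAt T q) := by
  refine ⟨q.comap (Subalgebra.inclusion h), inferInstance, fun w => ?_⟩
  constructor
  · rintro ⟨a, b, hb, hw⟩
    obtain ⟨x, hx, ⟨y, hy, hxy⟩, hax⟩ := h2 a a.2
    obtain ⟨x', hx', ⟨y', hy', hxy'⟩, hbx⟩ := h2 b b.2
    refine ⟨⟨_, S.mul_mem hax hx'⟩, ⟨_, S.mul_mem hbx hx⟩, ?_, ?_⟩
    · intro hmem
      apply hb
      rw [Ideal.mem_comap] at hmem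
      have e8 := q.mul_mem_right ⟨_, T.mul_mem hy hy'⟩ hmem
      convert e8 using 1
      apply Subtype.ext
      change (b : L) = (b : L) * x' * x * (y * y')
      calc (b : L) = b * 1 * 1 := by rw [mul_one, mul_one]
        _ = b * (x * y) * (x' * y') := by rw [hxy, hxy']
        _ = _ := by ring
    · change w * ((b : L) * x' * x) = (a : L) * x * x'
      rw [← hw]
      ring
  · rintro ⟨a, b, hb, hw⟩
    exact ⟨Subalgebra.inclusion h a, Subalgebra.inclusion h b, hb, hw⟩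

namespace IsProduct

variable {F : ProjVar k M} {Y : ProjVar k K} {X : ProjVar k E}

theorem mem_top_of (h : IsProduct F Y X) {z : E}
    (hz : ∀ P ∈ X.primeDivisors, (∀ a : M, P (algebraMap M E a) = 0) →
      (∀ b : K, P (algebraMap K E b) = 0) → 0 ≤ P z) :
    z ∈ prodRing E (⊤ : Subalgebra k M) (⊤ : Subalgebra k K) := by
  by_contra hcon
  obtain ⟨m, hm, hzm⟩ := exists_max_notMem hcon
  have hn := h.noeth_top
  have hi := h.normal_top
  obtain ⟨P, q, hq, hqm, hP, hzP⟩ := exists_dval_of_notMem h.isFrac_top m hzm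
  have hle : prodRing E (⊤ : Subalgebra k M) (⊤ : Subalgebra k K) ≤ P.ring := by
    rw [hP]
    exact le_locAt q
  have hPM : ∀ a : M, P (algebraMap M E a) = 0 := by
    intro a
    have h1 : 0 ≤ P (algebraMap M E a) := hle (mapM_mem _ Algebra.mem_top)
    have h2 : 0 ≤ P (algebraMap M E a⁻¹) := hle (mapM_mem _ Algebra.mem_top)
    rw [map_inv₀, DVal.map_inv] at h2
    omega
  have hPK : ∀ b : K, P (algebraMap K E b) = 0 := by
    intro a
    have h1 : 0 ≤ P (algebraMap K E a) := hle (mapK_mem _ Algebra.mem_top)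
    have h2 : 0 ≤ P (algebraMap K E a⁻¹) := hle (mapK_mem _ Algebra.mem_top)
    rw [map_inv₀, DVal.map_inv] at h2
    omega
  apply hzP
  apply hz P _ hPM hPK
  change P.ring ∈ X.localRings
  rw [h.rings]
  refine ⟨0, 0, ?_⟩
  rw [hP]
  apply isLocalizationOf_incl (prodRing_mono le_top le_top)
  intro z hz
  obtain ⟨α, hα, β, hβ, hα0, hβ0, h1⟩ := clear_denom (F.chart_isFrac 0) (Y.chart_isFrac 0) hz
  refine ⟨algebraMap M E α * algebraMap K E β,
    Subalgebra.mul_mem _ (mapM_mem _ hα) (mapK_mem _ hβ),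
    ⟨algebraMap M E α⁻¹ * algebraMap K E β⁻¹,
      Subalgebra.mul_mem _ (mapM_mem _ Algebra.mem_top) (mapK_mem _ Algebra.mem_top), ?_⟩, h1⟩
  have e1 : algebraMap M E α ≠ 0 := (map_ne_zero _).2 hα0
  have e2 : algebraMap K E β ≠ 0 := (map_ne_zero _).2 hβ0
  rw [map_inv₀, map_inv₀]
  field_simp

theorem exists_frac_dom (h : IsProduct F Y X) {P : DVal k E} (hP : P ∈ X.primeDivisors) {x : E}
    (hx : 0 ≤ P x) :
    ∃ s ∈ prodRing E (⊤ : Subalgebra k M) (⊤ : Subalgebra k K),
      ∃ s' ∈ prodRing E (⊤ : Subalgebra k M) (⊤ : Subalgebra k K),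
        s' ≠ 0 ∧ P s' = 0 ∧ x = s / s' := by
  obtain ⟨i, j, p, hp, h1⟩ := (h.rings P.ring).1 hP
  obtain ⟨a, b, hb, hab⟩ := (h1 x).1 hx
  have hb0 := coe_ne_zero_of_notMem hb
  have hle : prodRing E (chart k F.x i) (chart k Y.x j) ≤
      prodRing E (⊤ : Subalgebra k M) (⊤ : Subalgebra k K) := prodRing_mono le_top le_top
  refine ⟨a, hle a.2, b, hle b.2, hb0, ?_, ?_⟩
  · have h2 : (b : E) ∈ P.ring := (h1 _).2
      ⟨b, 1, fun hmem => hp.ne_top ((Ideal.eq_top_iff_one _).2 hmem), by simp⟩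
    have h3 : (b : E)⁻¹ ∈ P.ring := (h1 _).2 ⟨1, b, hb, by
      rw [inv_mul_cancel₀ hb0]
      rfl⟩
    rw [DVal.mem_ring] at h2 h3
    rw [DVal.map_inv] at h3
    omega
  · rw [eq_div_iff hb0]
    exact hab

end IsProduct

end Pool.Agent.Helper47.PQ
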