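import Pool.Agent.Helper47.PQ.FCoord
import Pool.Agent.Helper47.PQ.FExt
import Pool.Agent.Helper47.PQ.FPres
import Pool.Agent.Helper47.PQ.HartogsT
import Pool.Agent.Helper47.PQ.Box

set_option autoImplicit false

/-!
# PQ-O4: the canonical divisor of a product

`exists_boxForm`: forms `ωF`, `ωY` of top degree on the factors with divisors `CF`, `CY`; any form `ω`
of top degree on `X = F × Y` with divisor `C`. Then there is `h ∈ E` nonzero with
`C = CF ⊞ CY + div h`, and for all valuations `v` of `K` with Gauss extension `w`: if `ωY` has order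
`a` at `v` then `ω` has order `a + w h` at `w`; and the same for `M`.

PROOF. Transcendence bases `y` of `K` (length `n`), `x` of `M` (length `m`) exist
(`exists_basis_of_trdeg`). Let `ω₀ = (f g) • wedge k (append t u)` where `ωF = f • wedge k t`,
`ωY = g • wedge k u`, `f, g ≠ 0` are any presentations. They exist if `M` (resp. `K`) has a
valuation: then `F` has a prime divisor (`ProjVar.exists_prime`) and `IsDivisorOf` gives
`HasOrd`, in particular a presentation. If `M` has no valuation (e.g. `m = 0`), nothing is claimed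
about `ωF`, and we replace `ωF` by `wedge k x`, `x` a transcendence basis; the same for `K`.
Similarly for `ω`: if `E` has no valuation take `g = 1`. By `wedge_comp_left` and `wedge_comp_right`, `ω₀` is equal
to `(f' g') • wedge k (append t' u')` for ALL other presentations `ωF = f' • wedge k t'`,
`ωY = g' • wedge k u'`.
(1) Let `v` be a valuation of `K` with `ωY.HasOrd v a`, `w` its Gauss extension. `exists_coord'` gives
coordinates `z` at `v` with `ωY = g' • wedge k z`, `v g' = a`, `∂ᵢ zⱼ = δ_{ij}` preserving `v.ring`. Write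
`ωF = f' • wedge k x` with `x` the transcendence basis of `M` (possible: `exists_ratio` with
`exists_der`, and `f' ≠ 0`). Extend the `∂ᵢ` to `E` (zero on `M`) and the derivations
dual to `x` to `E` (zero on `K`) by `exists_extend` (for `M`: with the roles of `M`, `K` exchanged,
`linDisj_symm`, `prodRing_comm`). They are dual to `append x z` and preserve `w.ring` by
`der_gauss` (`w = 0` on `M`, so `w ≥ 0` on `δ a`, `a ∈ M`). So by `hasOrd_of_der`, `ω₀` has order
`w (f' g') = 0 + v g' = a` at `w`. (2) The same for Gauss extensions of valuations of `M`. (3) For a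
prime divisor `P` of `X` trivial on `M` and `K`: with `x`, `y` transcendence bases,
`ω₀ = (f' g') • wedge k (append x y)`, the dual derivations preserve `P.ring`
(`exists_frac_dom`, `der_dom`), so the order is `P (f' g') = 0`.
(4) `append x y` with its dual derivations is a Kähler basis of `E`: `n + m = trdeg E` (a
transcendence basis of `E`: `E` is algebraic over `k(x, y)` since `M`, `K` are; independence
from the dual derivations, or `isTranscendenceBasis_of_basis`). So `ω = f₁ • wedge k z₁` (again
from `HasOrd` at some prime divisor) is `h • ω₀` with `h ∈ E`, and `h ≠ 0` because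
`ω ≠ 0` (the zero form has no order: in a presentation `0 = f • wedge k z`, `f` can be multiplied by
a uniformizer). (5) By (1)-(3) and `hasOrd_smul`, `ω = h • ω₀` has at every prime divisor `P` of `X`
the order `P h + D₀ P`, `D₀ = CF ⊞ CY` (by `trichotomy`; the order of `ωY` at `Q` is `CY Q`), and orders
are unique (`hasOrd_unique`), so `C = D₀ + prin h`.
-/

namespace Pool.Agent.Helper47.PQ

open Pool.Agent.Helper92.Weak

section Aux

variable {k E : Type*} [Field k] [Field E] [Algebra k E]

theorem not_hasOrd_zero (v : DVal k E) {n : ℕ} (a : ℤ) : ¬ v.HasOrd (0 : Form k E n) a := by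
  rintro ⟨⟨z, f, hz, hf, hfa, h⟩, hmax⟩
  obtain ⟨p, hp0, hp⟩ := v.exists_uniformizer
  have h1 : wedge k z = 0 := (smul_eq_zero.1 h.symm).resolve_left hf
  have h2 : a + 1 ≤ a := hmax ⟨z, f * p, hz, mul_ne_zero hf hp0, by
    rw [v.map_mul hf hp0, hp, hfa], by rw [h1, smul_zero]⟩
  omega

/-- A form is a multiple of `dx₁ ∧ ... ∧ dxₙ`. -/
theorem exists_mult [CharZero k] {n : ℕ} {y : Fin n → E} (hy : IsTranscendenceBasis k y)
    (x : Fin n → E) (D : Fin n → Derivation k E E)
    (hD : ∀ i j, D i (x j) = if i = j then 1 else 0) (X : ProjVar k E) {ω : Form k E n}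
    {C : X.Div} (hC : X.IsDivisorOf ω C) :
    ∃ f : E, f ≠ 0 ∧ ∀ _ : DVal k E, ω = f • wedge k x := by
  by_cases hv : Nonempty (DVal k E)
  · obtain ⟨v⟩ := hv
    obtain ⟨P, hP⟩ := X.exists_prime v
    obtain ⟨a, -, ha⟩ := hC ⟨P, hP⟩
    obtain ⟨z, f, -, -, -, hω⟩ := ha.1
    obtain ⟨d, hd⟩ := exists_ratio hy x D hD z
    rw [hd, smul_smul] at hω
    refine ⟨f * d, ?_, fun _ => hω⟩
    intro h0
    rw [h0, zero_smul] at hω
    rw [hω] at ha
    exact not_hasOrd_zero _ _ ha
  · exact ⟨1, one_ne_zero, fun v => absurd ⟨v⟩ hv⟩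

theorem der_aeval {n : ℕ} (δ : Derivation k E E) (z : Fin n → E) (G : MvPolynomial (Fin n) k) :
    δ (MvPolynomial.aeval z G) =
      ∑ i, MvPolynomial.aeval z (MvPolynomial.pderiv i G) * δ (z i) := by
  have h1 : ∀ c : E, δ c = δ.liftKaehlerDifferential (KaehlerDifferential.D k E c) := fun c =>
    (δ.liftKaehlerDifferential_comp_D c).symm
  rw [h1, Pool.Agent.Helper50.Forms.D_aeval, map_sum]
  refine Finset.sum_congr rfl fun i _ => ?_
  rw [map_smul, ← h1, smul_eq_mul]

theorem aeval_ne_zero_of_der [CharZero k] {n : ℕ} (z : Fin n → E) (D : Fin n → Derivation k E E)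
    (hD : ∀ i j, D i (z j) = if i = j then 1 else 0) (d : ℕ) :
    ∀ G : MvPolynomial (Fin n) k, G.totalDegree < d → G ≠ 0 → MvPolynomial.aeval z G ≠ 0 := by
  induction d with
  | zero => intro G h; omega
  | succ d ih =>
    intro G hd hG h0
    rcases Pool.Agent.Helper50.Forms.exists_pderiv G hG with ⟨c, hc, rfl⟩ | ⟨i, hi, hlt⟩
    · rw [MvPolynomial.algHom_C] at h0
      exact hc ((map_eq_zero_iff _ (algebraMap k E).injective).1 h0)
    · refine ih (MvPolynomial.pderiv i G) (by omega) hi ?_
      have h1 := der_aeval (D i) z G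
      rw [h0, map_zero] at h1
      simp only [hD, mul_ite, mul_one, mul_zero, Finset.sum_ite_eq, Finset.mem_univ,
        if_true] at h1
      exact h1.symm

theorem algInd_of_der [CharZero k] {n : ℕ} (z : Fin n → E) (D : Fin n → Derivation k E E)
    (hD : ∀ i j, D i (z j) = if i = j then 1 else 0) : AlgebraicIndependent k z := by
  rw [algebraicIndependent_iff]
  intro G h
  by_contra hG
  exact aeval_ne_zero_of_der z D hD (G.totalDegree + 1) G (by omega) hG h

end Aux

section Trans

variable {k M K E : Type*} [Field k] [Field M] [Field K] [Field E]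
  [Algebra k M] [Algebra k K] [Algebra k E] [Algebra M E] [Algebra K E]
  [IsScalarTower k M E] [IsScalarTower k K E]

theorem isAlg_image {ι : Type*} {x : ι → M} (hx : IsTranscendenceBasis k x)
    (A : Subalgebra k E) (hA : ∀ i, algebraMap M E (x i) ∈ A) (a : M) :
    IsAlgebraic A (algebraMap M E a) := by
  have h1 := hx.isAlgebraic.isAlgebraic a
  have h2 : ∀ c ∈ Algebra.adjoin k (Set.range x), algebraMap M E c ∈ A := by
    have h3 : Algebra.adjoin k (Set.range x) ≤ A.comap (IsScalarTower.toAlgHom k M E) := by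
      rw [Algebra.adjoin_le_iff]
      rintro _ ⟨i, rfl⟩
      exact hA i
    exact fun c hc => h3 hc
  let f : Algebra.adjoin k (Set.range x) →+* A :=
    ((algebraMap M E).comp (algebraMap (Algebra.adjoin k (Set.range x)) M)).codRestrict
      A.toSubring fun c => h2 c c.2
  refine h1.ringHom_of_comp_eq f (algebraMap M E) ?_ ?_
  · intro c d hcd
    have h4 : algebraMap M E c = algebraMap M E d := congrArg (fun z : A => (z : E)) hcd
    exact Subtype.ext ((algebraMap M E).injective h4)
  · rfl

theorem isTransc_append [CharZero k]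
    (hfr : IsFrac (prodRing E (⊤ : Subalgebra k M) (⊤ : Subalgebra k K)))
    {m n : ℕ} {x : Fin m → M} {y : Fin n → K} (hx : IsTranscendenceBasis k x)
    (hy : IsTranscendenceBasis k y) (D : Fin (m + n) → Derivation k E E)
    (hD : ∀ i j, D i (Fin.append (fun i => algebraMap M E (x i))
      (fun i => algebraMap K E (y i)) j) = if i = j then 1 else 0) :
    IsTranscendenceBasis k (Fin.append (fun i => algebraMap M E (x i))
      (fun i => algebraMap K E (y i))) := by
  set z := Fin.append (fun i => algebraMap M E (x i)) (fun i => algebraMap K E (y i)) with hz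
  have h1 := algInd_of_der z D hD
  rw [h1.isTranscendenceBasis_iff_isAlgebraic]
  set A := Algebra.adjoin k (Set.range z) with hA
  have hM : ∀ a : M, IsAlgebraic A (algebraMap M E a) := isAlg_image hx A fun i => by
    apply Algebra.subset_adjoin
    refine ⟨Fin.castAdd n i, ?_⟩
    rw [hz, Fin.append_left]
  have hK : ∀ a : K, IsAlgebraic A (algebraMap K E a) := isAlg_image hy A fun i => by
    apply Algebra.subset_adjoin
    refine ⟨Fin.natAdd m i, ?_⟩
    rw [hz, Fin.append_right]
  have h2 : ∀ s ∈ prodRing E (⊤ : Subalgebra k M) (⊤ : Subalgebra k K), IsAlgebraic A s := by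
    intro s hs
    obtain ⟨N, a, b, -, -, rfl⟩ := mem_prodRing.1 hs
    have h3 : ∑ i, algebraMap M E (a i) * algebraMap K E (b i) ∈
        Subalgebra.algebraicClosure A E :=
      Subalgebra.sum_mem _ fun i _ => Subalgebra.mul_mem _ (hM (a i)) (hK (b i))
    exact h3
  refine ⟨fun e => ?_⟩
  obtain ⟨s, hs, t, ht, ht0, rfl⟩ := hfr e
  rw [div_eq_mul_inv]
  exact (h2 s hs).mul (h2 t ht).inv

end Trans

variable {k M K E : Type*} [Field k] [Field M] [Field K] [Field E]
  [Algebra k M] [Algebra k K] [Algebra k E] [Algebra M E] [Algebra K E]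
  [IsScalarTower k M E] [IsScalarTower k K E] [IsAlgClosed k] [CharZero k]

variable {F : ProjVar k M} {Y : ProjVar k K} {X : ProjVar k E}

omit [IsAlgClosed k] [CharZero k] in
theorem append_dual {m n : ℕ} {X : Fin m → E} {Z : Fin n → E} {D₁ : Fin m → Derivation k E E}
    {D₂ : Fin n → Derivation k E E} (h11 : ∀ i j, D₁ i (X j) = if i = j then 1 else 0)
    (h12 : ∀ i j, D₁ i (Z j) = 0) (h21 : ∀ i j, D₂ i (X j) = 0)
    (h22 : ∀ i j, D₂ i (Z j) = if i = j then 1 else 0) (i j : Fin (m + n)) :
    Fin.append D₁ D₂ i (Fin.append X Z j) = if i = j then 1 else 0 := by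
  refine Fin.addCases (fun i => ?_) (fun i => ?_) i
  · refine Fin.addCases (fun j => ?_) (fun j => ?_) j
    · rw [Fin.append_left, Fin.append_left, h11]
      simp only [Fin.castAdd_inj]
    · rw [Fin.append_left, Fin.append_right, h12, if_neg]
      intro h
      have := congrArg Fin.val h
      simp at this
      omega
  · refine Fin.addCases (fun j => ?_) (fun j => ?_) j
    · rw [Fin.append_left, Fin.append_right, h21, if_neg]
      intro h
      have := congrArg Fin.val h
      simp at this
      omega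
    · rw [Fin.append_right, Fin.append_right, h22]
      simp only [Fin.natAdd_inj]

omit [IsAlgClosed k] in
/-- The order of `ω₀` at the Gauss extension of a valuation of `K`. -/
theorem hasOrd_right (hd : LinDisj k M K E)
    (hfr : IsFrac (prodRing E (⊤ : Subalgebra k M) (⊤ : Subalgebra k K))) {m n : ℕ}
    {x : Fin m → M} {y : Fin n → K} (hy : IsTranscendenceBasis k y)
    {DM : Fin m → Derivation k M M} (hDM : ∀ i j, DM i (x j) = if i = j then 1 else 0)
    {f : M} (hf : f ≠ 0) {g : K} {ωY : Form k K n} (hω : ∀ _ : DVal k K, ωY = g • wedge k y)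
    {v : DVal k K} {w : DVal k E} {a : ℤ} (hw : IsGauss M w v) (ha : v.HasOrd ωY a) :
    w.HasOrd ((algebraMap M E f * algebraMap K E g) •
      wedge k (Fin.append (fun i => algebraMap M E (x i)) fun i => algebraMap K E (y i))) a := by
  obtain ⟨z, D, g', hz, hD, hDr, hg', hga, hgz⟩ := exists_coord' hy ha
  have hfr' : IsFrac (prodRing E (⊤ : Subalgebra k K) (⊤ : Subalgebra k M)) := by
    rwa [prodRing_comm]
  have e1 : g' • wedge k z = g • wedge k y := by rw [← hgz, hω v]
  have e2 := wedge_comp_right (E := E) hy (fun i => algebraMap M E (x i)) e1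
  have e3 : (algebraMap M E f * algebraMap K E g) •
      wedge k (Fin.append (fun i => algebraMap M E (x i)) fun i => algebraMap K E (y i)) =
      (algebraMap M E f * algebraMap K E g') •
      wedge k (Fin.append (fun i => algebraMap M E (x i)) fun i => algebraMap K E (z i)) := by
    rw [mul_smul, mul_smul, e2]
  choose δM hM1 hM2 using fun i => exists_extend (E := E) (linDisj_symm hd) hfr' (DM i)
  choose δK hK1 hK2 using fun i => exists_extend (E := E) hd hfr (D i)
  have hf' : algebraMap M E f ≠ 0 := (map_ne_zero _).2 hf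
  have hg'' : algebraMap K E g' ≠ 0 := (map_ne_zero _).2 hg'
  have e4 : w (algebraMap M E f * algebraMap K E g') = a := by
    rw [w.map_mul hf' hg'', hw.apply_left, hw.apply_right, hga, zero_add]
  rw [e3, ← e4]
  refine hasOrd_of_der _ (Fin.append δM δK) (append_dual ?_ ?_ ?_ ?_) ?_ ?_
    (mul_ne_zero hf' hg'')
  · intro i j
    rw [hM1, hDM]
    split_ifs <;> simp
  · intro i j
    exact hM2 i _
  · intro i j
    exact hK2 i _
  · intro i j
    rw [hK1, hD]
    split_ifs <;> simp
  · intro i
    refine Fin.addCases (fun i => ?_) (fun i => ?_) i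
    · rw [Fin.append_left, hw.apply_left]
    · rw [Fin.append_right, hw.apply_right]
      exact hz i
  · intro i
    refine Fin.addCases (fun i => ?_) (fun i => ?_) i
    · intro c hc
      rw [Fin.append_left]
      refine der_gauss hd hfr hw _ ?_ ?_ hc
      · intro b _
        rw [hM2, DVal.map_zero]
      · intro b
        rw [hM1, hw.apply_left]
    · intro c hc
      rw [Fin.append_right]
      refine der_gauss hd hfr hw _ ?_ ?_ hc
      · intro b hb
        rw [hK1, hw.apply_right]
        exact hDr i b hb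
      · intro b
        rw [hK2, DVal.map_zero]

omit [IsAlgClosed k] in
/-- The order of `ω₀` at the Gauss extension of a valuation of `M`. -/
theorem hasOrd_left (hd : LinDisj k M K E)
    (hfr : IsFrac (prodRing E (⊤ : Subalgebra k M) (⊤ : Subalgebra k K))) {m n : ℕ}
    {x : Fin m → M} {y : Fin n → K} (hx : IsTranscendenceBasis k x)
    {DK : Fin n → Derivation k K K} (hDK : ∀ i j, DK i (y j) = if i = j then 1 else 0)
    {f : M} {g : K} (hg : g ≠ 0) {ωF : Form k M m} (hω : ∀ _ : DVal k M, ωF = f • wedge k x)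
    {v : DVal k M} {w : DVal k E} {a : ℤ} (hw : IsGauss K w v) (ha : v.HasOrd ωF a) :
    w.HasOrd ((algebraMap M E f * algebraMap K E g) •
      wedge k (Fin.append (fun i => algebraMap M E (x i)) fun i => algebraMap K E (y i))) a := by
  obtain ⟨z, D, f', hz, hD, hDr, hf', hfa, hfz⟩ := exists_coord' hx ha
  have hfr' : IsFrac (prodRing E (⊤ : Subalgebra k K) (⊤ : Subalgebra k M)) := by
    rwa [prodRing_comm]
  have e1 : f' • wedge k z = f • wedge k x := by rw [← hfz, hω v]
  have e2 := wedge_comp_left (E := E) hx (fun i => algebraMap K E (y i)) e1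
  have e3 : (algebraMap M E f * algebraMap K E g) •
      wedge k (Fin.append (fun i => algebraMap M E (x i)) fun i => algebraMap K E (y i)) =
      (algebraMap M E f' * algebraMap K E g) •
      wedge k (Fin.append (fun i => algebraMap M E (z i)) fun i => algebraMap K E (y i)) := by
    rw [mul_comm, mul_smul, mul_comm (algebraMap M E f'), mul_smul, e2]
  choose δM hM1 hM2 using fun i => exists_extend (E := E) (linDisj_symm hd) hfr' (D i)
  choose δK hK1 hK2 using fun i => exists_extend (E := E) hd hfr (DK i)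
  have hf'' : algebraMap M E f' ≠ 0 := (map_ne_zero _).2 hf'
  have hg'' : algebraMap K E g ≠ 0 := (map_ne_zero _).2 hg
  have e4 : w (algebraMap M E f' * algebraMap K E g) = a := by
    rw [w.map_mul hf'' hg'', hw.apply_left, hw.apply_right, hfa, add_zero]
  rw [e3, ← e4]
  refine hasOrd_of_der _ (Fin.append δM δK) (append_dual ?_ ?_ ?_ ?_) ?_ ?_
    (mul_ne_zero hf'' hg'')
  · intro i j
    rw [hM1, hD]
    split_ifs <;> simp
  · intro i j
    exact hM2 i _
  · intro i j
    exact hK2 i _
  · intro i j
    rw [hK1, hDK]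
    split_ifs <;> simp
  · intro i
    refine Fin.addCases (fun i => ?_) (fun i => ?_) i
    · rw [Fin.append_left, hw.apply_right]
      exact hz i
    · rw [Fin.append_right, hw.apply_left]
  · intro i
    refine Fin.addCases (fun i => ?_) (fun i => ?_) i
    · intro c hc
      rw [Fin.append_left]
      refine der_gauss (linDisj_symm hd) hfr' hw _ ?_ ?_ hc
      · intro b hb
        rw [hM1, hw.apply_right]
        exact hDr i b hb
      · intro b
        rw [hM2, DVal.map_zero]
    · intro c hc
      rw [Fin.append_right]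
      refine der_gauss (linDisj_symm hd) hfr' hw _ ?_ ?_ hc
      · intro b _
        rw [hK2, DVal.map_zero]
      · intro b
        rw [hK1, hw.apply_left]

theorem IsProduct.exists_boxForm (h : IsProduct F Y X) {m n : ℕ} (hm : Algebra.trdeg k M = m)
    (hn : Algebra.trdeg k K = n) {ωF : Form k M m} {CF : F.Div} (hF : F.IsDivisorOf ωF CF)
    {ωY : Form k K n} {CY : Y.Div} (hY : Y.IsDivisorOf ωY CY) {ω : Form k E (m + n)} {C : X.Div}
    (hX : X.IsDivisorOf ω C) :
    ∃ (g : E) (C₀ : X.Div), g ≠ 0 ∧ IsBox CF CY C₀ ∧ C = C₀ + X.prin g ∧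
      (∀ (v : DVal k K) (w : DVal k E) (a : ℤ), IsGauss M w v → v.HasOrd ωY a →
        w.HasOrd ω (a + w g)) ∧
      (∀ (v : DVal k M) (w : DVal k E) (a : ℤ), IsGauss K w v → v.HasOrd ωF a →
        w.HasOrd ω (a + w g)) := by
  obtain ⟨x, hx⟩ := exists_basis_of_trdeg hm
  obtain ⟨y, hy⟩ := exists_basis_of_trdeg hn
  obtain ⟨DM, hDM⟩ := exists_der hx
  obtain ⟨DK, hDK⟩ := exists_der hy
  have hd := h.disj
  have hfr := h.isFrac_top
  have hfr' : IsFrac (prodRing E (⊤ : Subalgebra k K) (⊤ : Subalgebra k M)) := by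
    rwa [prodRing_comm]
  obtain ⟨f, hf, hωF⟩ := exists_mult hx x DM hDM F hF
  obtain ⟨g, hg, hωY⟩ := exists_mult hy y DK hDK Y hY
  choose δM hM1 hM2 using fun i => exists_extend (E := E) (linDisj_symm hd) hfr' (DM i)
  choose δK hK1 hK2 using fun i => exists_extend (E := E) hd hfr (DK i)
  have hdual := append_dual (X := fun i => algebraMap M E (x i))
    (Z := fun i => algebraMap K E (y i)) (D₁ := δM) (D₂ := δK)
    (fun i j => by rw [hM1, hDM]; split_ifs <;> simp) (fun i j => hM2 i _) (fun i j => hK2 i _)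
    (fun i j => by rw [hK1, hDK]; split_ifs <;> simp)
  have hz := isTransc_append hfr hx hy (Fin.append δM δK) hdual
  obtain ⟨h₁, hh₁, hω⟩ := exists_mult hz _ (Fin.append δM δK) hdual X hX
  have hf' : algebraMap M E f ≠ 0 := (map_ne_zero _).2 hf
  have hg' : algebraMap K E g ≠ 0 := (map_ne_zero _).2 hg
  have hfg := mul_ne_zero hf' hg'
  set ω₀ : Form k E (m + n) := (algebraMap M E f * algebraMap K E g) •
    wedge k (Fin.append (fun i => algebraMap M E (x i)) fun i => algebraMap K E (y i)) with hω₀
  set q : E := h₁ / (algebraMap M E f * algebraMap K E g) with hq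
  have hq0 : q ≠ 0 := div_ne_zero hh₁ hfg
  have hωq : ∀ _ : DVal k E, ω = q • ω₀ := by
    intro w
    rw [hω₀, smul_smul, hq, div_mul_cancel₀ _ hfg]
    exact hω w
  have hR : ∀ (v : DVal k K) (w : DVal k E) (a : ℤ), IsGauss M w v → v.HasOrd ωY a →
      w.HasOrd ω (a + w q) := by
    intro v w a hw ha
    rw [hωq w, add_comm a]
    exact hasOrd_smul hq0 (hasOrd_right hd hfr hy hDM hf hωY hw ha)
  have hL : ∀ (v : DVal k M) (w : DVal k E) (a : ℤ), IsGauss K w v → v.HasOrd ωF a →
      w.HasOrd ω (a + w q) := by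
    intro v w a hw ha
    rw [hωq w, add_comm a]
    exact hasOrd_smul hq0 (hasOrd_left hd hfr hx hDK hg hωF hw ha)
  obtain ⟨C₀, hC₀⟩ := h.exists_box CF CY
  refine ⟨q, C₀, hq0, hC₀, ?_, hR, hL⟩
  ext P
  rw [Finsupp.add_apply, ProjVar.prin_apply]
  obtain ⟨c, hc, hPc⟩ := hX P
  rw [hc]
  rcases h.trichotomy P.2 with ⟨h1, h2⟩ | ⟨Q, hQ, hPQ⟩ | ⟨T, hT, hPT⟩
  · have e1 : P.1.HasOrd ω₀ 0 := by
      have e2 : P.1 (algebraMap M E f * algebraMap K E g) = 0 := by
        rw [P.1.map_mul hf' hg', h1, h2, add_zero]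
      rw [hω₀, ← e2]
      refine hasOrd_of_der _ (Fin.append δM δK) hdual ?_ ?_ hfg
      · intro i
        refine Fin.addCases (fun i => ?_) (fun i => ?_) i
        · rw [Fin.append_left, h1]
        · rw [Fin.append_right, h2]
      · intro i s hs
        obtain ⟨s₁, hs₁, s₂, hs₂, hs0, hPs, rfl⟩ := h.exists_frac_dom P.2 hs
        refine der_dom h1 h2 _ ?_ ?_ hs₁ hs₂ hs0 hPs
        · intro b
          refine Fin.addCases (fun i => ?_) (fun i => ?_) i
          · rw [Fin.append_left, hM2, DVal.map_zero]
          · rw [Fin.append_right, hK1, h2]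
        · intro b
          refine Fin.addCases (fun i => ?_) (fun i => ?_) i
          · rw [Fin.append_left, hM1, h1]
          · rw [Fin.append_right, hK2, DVal.map_zero]
    have e2 := hasOrd_smul hq0 e1
    rw [← hωq P.1, add_zero] at e2
    rw [hasOrd_unique hPc e2, hC₀.dom P h1 h2, zero_add]
  · obtain ⟨b, hb, hQb⟩ := hY ⟨Q, hQ⟩
    have e1 := hR Q P.1 b hPQ hQb
    rw [hasOrd_unique hPc e1, hC₀.gauss_right P ⟨Q, hQ⟩ hPQ, hb]
    push_cast
    rfl
  · obtain ⟨b, hb, hTb⟩ := hF ⟨T, hT⟩
    have e1 := hL T P.1 b hPT hTb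
    rw [hasOrd_unique hPc e1, hC₀.gauss_left P ⟨T, hT⟩ hPT, hb]
    push_cast
    rfl

end Pool.Agent.Helper47.PQ
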