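import Pool.Agent.Helper47.PQ.FlagDefs

set_option autoImplicit false

/-!
# PQ-D5: bounded flag valuations are bounded on sections

Let `y j = X.x j / X.x 0`, `W` the `k`-span of the `y j` (`y 0 = 1`), so `W ^ T` is the space of all
homogeneous polynomials of degree `T` in the `y j`. For a valuation `P` let
`μ P = -min_j P (y j) ≥ 0`, an integer.

`pow_absorb`: let `f ∈ L` and `M : ℕ` with `P f ≥ -M μ P` for all `P ∈ X.primeDivisors` (`f ≠ 0`).
Then there is `T` with `f * s ∈ W ^ (T + M)` for all `s ∈ W ^ T`.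
PROOF. For each `i` and each `P ∈ X.primeDivisors` containing the chart `A_i = k[y_j/y_i]`,
`P (y i) = min_j P (y j)`, so `f y_i^(-M) ∈ P.ring`. By `X.hartogs` (applied to all local rings of the
chart `A_i`; a domain is the intersection of its localisations: the ideal
`{b ∈ A_i : z b ∈ A_i}` is in no maximal ideal) `f y_i^(-M) ∈ A_i`, a polynomial in the `y_j/y_i` of
some degree `T_i`: so `f y_i^(t_i) ∈ W ^ (t_i + M)` for all large `t_i` (multiply with
`y_i^(T_i)`, homogenise). Let `T = ∑ t_i + 1`: every monomial of degree `T` in the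
`y_j` is divisible by some `y_i^(t_i)`, and so `f · monomial ∈ W ^ (t_i + M) · W ^ (T - t_i)`.

`bound_H`: with `Φ.Bounded` there is `C` such that for all `M ≥ 1` and all `f ≠ 0` with `P f ≥ -M μ P`
for all `P ∈ X.primeDivisors`: `|u f|_i ≤ C M`. PROOF. Let `C` be the bound for
`W`. By `pow_absorb` and induction `f^l s ∈ W ^ (T + l M)` for `s ∈ W ^ T`, in particular (`s = 1`)
`f^l ∈ W ^ (T + l M)`, so `l |u f|_i ≤ C (T + l M)` for all `l ≥ 1`: `l → ∞` gives
`|u f|_i ≤ C M` (integers).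

`exists_mult`: for every divisor `A` there are `g ≠ 0` in `L` and `c : ℕ` with
`A P ≤ P g + c μ P` for all `P ∈ X.primeDivisors`.
PROOF. For each `P₀` of the finite support of `A` there are `T` and `0 ≠ g₀ ∈ W ^ T` with
`P₀ g₀ ≥ 1 - T μ P₀`, and `P g₀ ≥ -T μ P` for all `P`: `P₀.ring` is a localisation of a chart
`A_i ≠ L`, choose `0 ≠ a ∈ A_i` with `P₀ a ≥ 1`, a polynomial of degree `T` in the `y_j/y_i`, and
`g₀ = a y_i^T`. (Every element of `W ^ T` has `P ≥ -T μ P`; `P₀ (y i) = -μ P₀`.) Let `g` be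
the product of the `g₀^(N_0)`, `N_0 ≥ A P₀`, `c = ∑ N_0 T_0`.

`secBounded`: `Φ.Bounded → Φ.SecBounded X`. PROOF. `f ∈ H⁰(m A)`: `P (f g^m) ≥ -m c μ P`, so by `bound_H`
`|u (f g^m)|_i ≤ C m c` (if `c = 0` replace it by `1`), `|u f|_i ≤ m (C c + |u g|_i)`.
-/

namespace Pool.Agent.Helper47.PQ

open Pool.Agent.Helper92.Weak
open scoped Pointwise

variable {k L : Type*} [Field k] [Field L] [Algebra k L] {n : ℕ}

/-! ### Chart Hartogs lemma -/

private theorem D5_chart_hartogs (X : ProjVar k L) (i : Fin (X.n + 1)) {z : L}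
    (h : ∀ P ∈ X.primeDivisors, chart k X.x i ≤ P.ring → 0 ≤ P z) : z ∈ chart k X.x i := by
  by_contra hz
  let I : Ideal (chart k X.x i) :=
    { carrier := {b | z * (b : L) ∈ chart k X.x i}
      zero_mem' := by
        change z * ((0 : chart k X.x i) : L) ∈ chart k X.x i
        simp
      add_mem' := fun {a b} ha hb => by
        change z * ((a + b : chart k X.x i) : L) ∈ chart k X.x i
        push_cast
        rw [mul_add]
        exact Subalgebra.add_mem _ ha hb
      smul_mem' := fun a b hb => by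
        change z * ((a • b : chart k X.x i) : L) ∈ chart k X.x i
        have h1 : z * ((a • b : chart k X.x i) : L) = a * (z * b) := by
          rw [smul_eq_mul]
          push_cast
          ring
        rw [h1]
        exact Subalgebra.mul_mem _ a.2 hb }
  have hI : ∀ b : chart k X.x i, b ∈ I ↔ z * (b : L) ∈ chart k X.x i := fun b => Iff.rfl
  have hne : I ≠ ⊤ := by
    intro hc
    have h1 : (1 : chart k X.x i) ∈ I := by
      rw [hc]
      trivial
    rw [hI] at h1
    apply hz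
    simpa using h1
  obtain ⟨m, hm, hIm⟩ := Ideal.exists_le_maximal I hne
  have hmp : m.IsPrime := hm.isPrime
  have h1 : z ∈ locAt (chart k X.x i) m := by
    refine X.hartogs (X.locAt_mem i m) fun P hP hle => ?_
    rw [DVal.mem_ring]
    exact h P hP ((le_locAt m).trans hle)
  obtain ⟨a, b, hb, hab⟩ := mem_locAt.1 h1
  apply hb
  apply hIm
  rw [hI, hab]
  exact a.2

/-! ### The space of linear forms -/

/-- the coordinates -/
private noncomputable def D5y (X : ProjVar k L) (j : Fin (X.n + 1)) : L := X.x j / X.x 0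

/-- the space of linear forms -/
private noncomputable def D5W (X : ProjVar k L) : Submodule k L :=
  Submodule.span k (Set.range (D5y X))

/-- minus the minimum of the values of the coordinates -/
private noncomputable def D5mu (X : ProjVar k L) (P : DVal k L) : ℤ :=
  Finset.univ.sup' Finset.univ_nonempty (fun j : Fin (X.n + 1) => -P (D5y X j))

private theorem D5y_ne (X : ProjVar k L) (j : Fin (X.n + 1)) : D5y X j ≠ 0 :=
  div_ne_zero (X.x_ne j) (X.x_ne 0)

private theorem D5y_mem (X : ProjVar k L) (j : Fin (X.n + 1)) : D5y X j ∈ D5W X :=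
  Submodule.subset_span ⟨j, rfl⟩

private theorem D5_one_mem (X : ProjVar k L) : (1 : L) ∈ D5W X := by
  have h : D5y X 0 = 1 := div_self (X.x_ne 0)
  rw [← h]
  exact D5y_mem X 0

private theorem D5_one_mem_pow (X : ProjVar k L) (T : ℕ) : (1 : L) ∈ D5W X ^ T := by
  have h := Submodule.pow_mem_pow (D5W X) (D5_one_mem X) T
  rwa [one_pow] at h

private theorem D5mu_ge (X : ProjVar k L) (P : DVal k L) (j : Fin (X.n + 1)) :
    -D5mu X P ≤ P (D5y X j) := by
  have h : -P (D5y X j) ≤ D5mu X P :=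
    Finset.le_sup' (fun j : Fin (X.n + 1) => -P (D5y X j)) (Finset.mem_univ j)
  omega

private theorem D5mu_nonneg (X : ProjVar k L) (P : DVal k L) : 0 ≤ D5mu X P := by
  have h := D5mu_ge X P 0
  have h1 : D5y X 0 = 1 := div_self (X.x_ne 0)
  rw [h1, P.map_one] at h
  omega

private theorem D5mu_chart (X : ProjVar k L) (P : DVal k L) (i : Fin (X.n + 1))
    (h : chart k X.x i ≤ P.ring) : P (D5y X i) = -D5mu X P := by
  apply le_antisymm _ (D5mu_ge X P i)
  have h1 : D5mu X P ≤ -P (D5y X i) := by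
    apply Finset.sup'_le
    intro j _
    have h2 := (ProjVar.chart_le_iff.1 h) j
    rw [DVal.mem_ring, P.map_div (X.x_ne j) (X.x_ne i)] at h2
    unfold D5y
    rw [P.map_div (X.x_ne j) (X.x_ne 0), P.map_div (X.x_ne i) (X.x_ne 0)]
    omega
  omega

private theorem D5_W_ge (X : ProjVar k L) (P : DVal k L) {s : L} (hs : s ∈ D5W X) :
    P.Ge (-(D5mu X P : ℚ)) s := by
  have h : D5W X ≤ P.filt (-(D5mu X P : ℚ)) := by
    apply Submodule.span_le.2
    rintro _ ⟨j, rfl⟩
    change P.Ge _ _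
    right
    have := D5mu_ge X P j
    exact_mod_cast this
  exact h hs

private theorem D5_pow_ge (X : ProjVar k L) (P : DVal k L) (T : ℕ) :
    ∀ s ∈ D5W X ^ T, P.Ge (-(T * D5mu X P : ℚ)) s := by
  induction T with
  | zero =>
    intro s hs
    rw [pow_zero, Submodule.mem_one] at hs
    obtain ⟨c, rfl⟩ := hs
    right
    rw [P.map_const]
    simp
  | succ T ih =>
    intro s hs
    rw [pow_succ] at hs
    refine Submodule.mul_induction_on hs ?_ ?_
    · intro a ha b hb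
      have h1 := (ih a ha).mul (D5_W_ge X P hb)
      refine h1.mono ?_
      push_cast
      linarith
    · intro a b ha hb
      exact ha.add hb

/-! ### Homogenisation -/

private theorem D5_hom (X : ProjVar k L) (i : Fin (X.n + 1)) {a : L} (ha : a ∈ chart k X.x i) :
    ∃ t₀ : ℕ, ∀ t, t₀ ≤ t → a * D5y X i ^ t ∈ D5W X ^ t := by
  unfold chart at ha
  induction ha using Algebra.adjoin_induction with
  | mem a ha =>
    obtain ⟨j, rfl⟩ := ha
    refine ⟨1, fun t ht => ?_⟩
    obtain ⟨t', rfl⟩ : ∃ t', t = t' + 1 := ⟨t - 1, by omega⟩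
    have h1 : X.x j / X.x i * D5y X i ^ (t' + 1) = D5y X j * D5y X i ^ t' := by
      rw [pow_succ']
      unfold D5y
      have := X.x_ne i
      have := X.x_ne 0
      field_simp
    change X.x j / X.x i * D5y X i ^ (t' + 1) ∈ _
    rw [h1, pow_succ']
    exact Submodule.mul_mem_mul (D5y_mem X j) (Submodule.pow_mem_pow _ (D5y_mem X i) t')
  | algebraMap c =>
    refine ⟨0, fun t _ => ?_⟩
    rw [← Algebra.smul_def]
    exact Submodule.smul_mem _ _ (Submodule.pow_mem_pow _ (D5y_mem X i) t)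
  | add a b _ _ iha ihb =>
    obtain ⟨t₁, h₁⟩ := iha
    obtain ⟨t₂, h₂⟩ := ihb
    refine ⟨max t₁ t₂, fun t ht => ?_⟩
    rw [add_mul]
    exact Submodule.add_mem _ (h₁ t ((le_max_left _ _).trans ht))
      (h₂ t ((le_max_right _ _).trans ht))
  | mul a b _ _ iha ihb =>
    obtain ⟨t₁, h₁⟩ := iha
    obtain ⟨t₂, h₂⟩ := ihb
    refine ⟨t₁ + t₂, fun t ht => ?_⟩
    obtain ⟨t', rfl⟩ : ∃ t', t = t₁ + t' := ⟨t - t₁, by omega⟩
    have h3 : a * b * D5y X i ^ (t₁ + t') = (a * D5y X i ^ t₁) * (b * D5y X i ^ t') := by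
      rw [pow_add]
      ring
    rw [h3, pow_add]
    exact Submodule.mul_mem_mul (h₁ t₁ le_rfl) (h₂ t' (by omega))

/-! ### Absorption -/

private theorem D5_absorb_one (X : ProjVar k L) {f : L} {M : ℕ} (hf : f ≠ 0)
    (h : ∀ P ∈ X.primeDivisors, -(M * D5mu X P) ≤ P f) (i : Fin (X.n + 1)) :
    ∃ t₀ : ℕ, ∀ t, t₀ ≤ t → f * D5y X i ^ t ∈ D5W X ^ (t + M) := by
  have h1 : f / D5y X i ^ M ∈ chart k X.x i := by
    apply D5_chart_hartogs
    intro P hP hle
    have h2 := h P hP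
    rw [P.map_div hf (pow_ne_zero _ (D5y_ne X i)), P.map_pow, D5mu_chart X P i hle]
    have h3 : (M : ℤ) * -D5mu X P = -(M * D5mu X P) := by ring
    rw [h3]
    omega
  obtain ⟨t₀, ht₀⟩ := D5_hom X i h1
  refine ⟨t₀, fun t ht => ?_⟩
  have h2 := ht₀ (t + M) (by omega)
  have h3 : f / D5y X i ^ M * D5y X i ^ (t + M) = f * D5y X i ^ t := by
    rw [pow_add]
    have := pow_ne_zero M (D5y_ne X i)
    field_simp
  rwa [h3] at h2

private theorem D5_prod_mem (X : ProjVar k L) (s : Finset (Fin (X.n + 1)))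
    (e : Fin (X.n + 1) → ℕ) : ∏ j ∈ s, D5y X j ^ e j ∈ D5W X ^ (∑ j ∈ s, e j) := by
  classical
  induction s using Finset.induction_on with
  | empty =>
    rw [Finset.prod_empty, Finset.sum_empty]
    exact D5_one_mem_pow X 0
  | insert a s ha ih =>
    rw [Finset.prod_insert ha, Finset.sum_insert ha, pow_add]
    exact Submodule.mul_mem_mul (Submodule.pow_mem_pow _ (D5y_mem X a) _) ih

private theorem D5_absorb (X : ProjVar k L) {f : L} {M : ℕ} (hf : f ≠ 0)
    (h : ∀ P ∈ X.primeDivisors, -(M * D5mu X P) ≤ P f) :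
    ∃ T : ℕ, ∀ s ∈ D5W X ^ T, f * s ∈ D5W X ^ (T + M) := by
  classical
  choose t ht using D5_absorb_one X hf h
  refine ⟨∑ i, t i + 1, fun s hs => ?_⟩
  set T := ∑ i, t i + 1 with hT
  unfold D5W at hs
  rw [Submodule.span_pow] at hs
  have hle : Submodule.span k (Set.range (D5y X) ^ T) ≤
      (D5W X ^ (T + M)).comap (LinearMap.mulLeft k f) := by
    apply Submodule.span_le.2
    intro a ha
    obtain ⟨g, hg⟩ := Set.mem_pow.1 ha
    have hg' : ∀ l : Fin T, ∃ j, D5y X j = (g l : L) := fun l => (g l).2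
    choose σ hσ using hg'
    have hprod : a = ∏ l : Fin T, D5y X (σ l) := by
      rw [← hg, List.prod_ofFn]
      exact Finset.prod_congr rfl fun l _ => (hσ l).symm
    set e : Fin (X.n + 1) → ℕ := fun i => (Finset.univ.filter fun l => σ l = i).card with he
    have hprod' : a = ∏ i, D5y X i ^ e i := by
      rw [hprod, ← Finset.prod_fiberwise_of_maps_to (s := Finset.univ) (t := Finset.univ)
        (g := σ) (fun l _ => Finset.mem_univ _)]
      refine Finset.prod_congr rfl fun i _ => ?_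
      rw [Finset.prod_congr rfl (g := fun _ => D5y X i) (fun l hl => by
        rw [(Finset.mem_filter.1 hl).2]), Finset.prod_const]
    have hsum : ∑ i, e i = T := by
      have h1 := Finset.card_eq_sum_card_fiberwise (s := (Finset.univ : Finset (Fin T)))
        (t := Finset.univ) (f := σ) (fun l _ => Finset.mem_univ _)
      rw [Finset.card_univ, Fintype.card_fin] at h1
      exact h1.symm
    obtain ⟨i, hi⟩ : ∃ i, t i ≤ e i := by
      by_contra hcon
      push Not at hcon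
      have h1 : ∑ i, e i ≤ ∑ i, t i := Finset.sum_le_sum fun i _ => (hcon i).le
      omega
    change f * a ∈ D5W X ^ (T + M)
    have h1 : a = D5y X i ^ t i * (D5y X i ^ (e i - t i) *
        ∏ j ∈ Finset.univ.erase i, D5y X j ^ e j) := by
      rw [← mul_assoc, ← pow_add, Nat.add_sub_cancel' hi,
        Finset.mul_prod_erase Finset.univ (fun j => D5y X j ^ e j) (Finset.mem_univ i)]
      exact hprod'
    have h2 : e i + ∑ j ∈ Finset.univ.erase i, e j = T := by
      rw [Finset.add_sum_erase Finset.univ e (Finset.mem_univ i)]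
      exact hsum
    have h3 : T + M = (t i + M) + ((e i - t i) + ∑ j ∈ Finset.univ.erase i, e j) := by
      omega
    rw [h1, ← mul_assoc, h3, pow_add _ (t i + M), pow_add _ (e i - t i)]
    exact Submodule.mul_mem_mul (ht i (t i) le_rfl)
      (Submodule.mul_mem_mul (Submodule.pow_mem_pow _ (D5y_mem X i) _) (D5_prod_mem X _ e))
  exact hle hs

private theorem D5_absorb_pow (X : ProjVar k L) {f : L} {M T : ℕ}
    (h : ∀ s ∈ D5W X ^ T, f * s ∈ D5W X ^ (T + M)) (l : ℕ) :
    ∀ s ∈ D5W X ^ T, f ^ l * s ∈ D5W X ^ (T + l * M) := by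
  induction l with
  | zero =>
    intro s hs
    simpa using hs
  | succ l ih =>
    intro s hs
    -- `f ^ (l + 1) * s = f ^ l * (f * s)`, and `f * s` is a sum of products
    have h1 : ∀ r ∈ D5W X ^ (T + M), f ^ l * r ∈ D5W X ^ (T + l * M + M) := by
      intro r hr
      rw [pow_add] at hr
      refine Submodule.mul_induction_on hr ?_ ?_
      · intro a ha b hb
        rw [← mul_assoc, pow_add]
        exact Submodule.mul_mem_mul (ih a ha) hb
      · intro a b ha hb
        rw [mul_add]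
        exact Submodule.add_mem _ ha hb
    have h2 := h1 (f * s) (h s hs)
    have h3 : f ^ (l + 1) * s = f ^ l * (f * s) := by ring
    have h4 : T + (l + 1) * M = T + l * M + M := by ring
    rw [h3, h4]
    exact h2

/-! ### Bounds for the flag valuation -/

private theorem D5_u_pow (Φ : Flag k L n) {f : L} (hf : f ≠ 0) (l : ℕ) (i : Fin n) :
    ofLex (Φ.u (f ^ l)) i = l * ofLex (Φ.u f) i := by
  induction l with
  | zero =>
    have h : Φ.u (f ^ 0) = 0 := by
      rw [pow_zero, ← map_one (algebraMap k L)]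
      exact Φ.map_const 1 one_ne_zero
    rw [h, Nat.cast_zero, zero_mul]
    rfl
  | succ l ih =>
    rw [pow_succ, Φ.map_mul _ _ (pow_ne_zero l hf) hf, ofLex_add, Pi.add_apply, ih]
    push_cast
    ring

private theorem D5_bound (X : ProjVar k L) (Φ : Flag k L n) {C : ℕ}
    (hC : ∀ m : ℕ, 1 ≤ m → ∀ f ∈ D5W X ^ m, f ≠ 0 → ∀ i, |ofLex (Φ.u f) i| ≤ C * m)
    {f : L} {M : ℕ} (hM : 1 ≤ M) (hf : f ≠ 0)
    (h : ∀ P ∈ X.primeDivisors, -(M * D5mu X P) ≤ P f) (i : Fin n) :
    |ofLex (Φ.u f) i| ≤ C * M := by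
  obtain ⟨T, hT⟩ := D5_absorb X hf h
  have key : ∀ l : ℕ, 1 ≤ l → (l : ℤ) * |ofLex (Φ.u f) i| ≤ C * (T + l * M) := by
    intro l hl
    have h1 := D5_absorb_pow X hT l 1 (D5_one_mem_pow X T)
    rw [mul_one] at h1
    have hm : 1 ≤ T + l * M := by
      have : 1 ≤ l * M := Nat.mul_pos hl hM
      omega
    have h2 := hC (T + l * M) hm (f ^ l) h1 (pow_ne_zero l hf) i
    rw [D5_u_pow Φ hf, abs_mul, Nat.abs_cast] at h2
    push_cast at h2
    exact h2
  by_contra hcon
  push Not at hcon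
  have h1 := key (C * T + 1) (by omega)
  have h2 : (C : ℤ) * M + 1 ≤ |ofLex (Φ.u f) i| := hcon
  have h3 : ((C * T + 1 : ℕ) : ℤ) * ((C : ℤ) * M + 1) ≤ ((C * T + 1 : ℕ) : ℤ) *
      |ofLex (Φ.u f) i| := mul_le_mul_of_nonneg_left h2 (by positivity)
  push_cast at h1 h3
  nlinarith

/-! ### Multiples of a hyperplane section -/

private theorem D5_one_point (X : ProjVar k L) (P₀ : X.primeDivisors) :
    ∃ (T : ℕ) (g : L), g ≠ 0 ∧ g ∈ D5W X ^ T ∧ 1 - T * D5mu X P₀.1 ≤ P₀.1 g := by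
  obtain ⟨i, p, hp, hR⟩ := X.mem_localRings.1 P₀.2
  have hle : chart k X.x i ≤ P₀.1.ring := by
    rw [hR]
    exact le_locAt p
  obtain ⟨π, hπ0, hπ⟩ := P₀.1.exists_uniformizer
  obtain ⟨a, ha, b, hb, hb0, hab⟩ := X.chart_isFrac i π
  have ha0 : a ≠ 0 := by
    rintro rfl
    rw [zero_div] at hab
    exact hπ0 hab
  have hPa : 1 ≤ P₀.1 a := by
    have h1 : 0 ≤ P₀.1 b := hle hb
    rw [hab, P₀.1.map_div ha0 hb0] at hπ
    omega
  obtain ⟨T, hT⟩ := D5_hom X i ha
  refine ⟨T, a * D5y X i ^ T, mul_ne_zero ha0 (pow_ne_zero _ (D5y_ne X i)), hT T le_rfl, ?_⟩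
  rw [P₀.1.map_mul ha0 (pow_ne_zero _ (D5y_ne X i)), P₀.1.map_pow, D5mu_chart X P₀.1 i hle]
  have h3 : (T : ℤ) * -D5mu X P₀.1 = -(T * D5mu X P₀.1) := by ring
  rw [h3]
  omega

private theorem D5_mult (X : ProjVar k L) (N : X.primeDivisors → ℕ)
    (s : Finset X.primeDivisors) : ∃ (g : L) (c : ℕ), g ≠ 0 ∧
      (∀ P : X.primeDivisors, -(c * D5mu X P.1) ≤ P.1 g) ∧
      ∀ P ∈ s, (N P : ℤ) ≤ P.1 g + c * D5mu X P.1 := by
  classical
  induction s using Finset.induction_on with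
  | empty =>
    refine ⟨1, 0, one_ne_zero, fun P => ?_, fun P hP => absurd hP (Finset.notMem_empty P)⟩
    rw [P.1.map_one]
    simp
  | insert Q s hQ ih =>
    obtain ⟨g, c, hg0, hg1, hg2⟩ := ih
    obtain ⟨T, g₀, hg₀, hgW, hgQ⟩ := D5_one_point X Q
    have hgP : ∀ P : X.primeDivisors, -(T * D5mu X P.1) ≤ P.1 g₀ := by
      intro P
      have h1 := D5_pow_ge X P.1 T g₀ hgW
      rw [DVal.ge_iff hg₀] at h1
      exact_mod_cast h1
    have hval : ∀ P : X.primeDivisors, P.1 (g * g₀ ^ N Q) = P.1 g + N Q * P.1 g₀ := by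
      intro P
      rw [P.1.map_mul hg0 (pow_ne_zero _ hg₀), P.1.map_pow]
    refine ⟨g * g₀ ^ N Q, c + N Q * T, mul_ne_zero hg0 (pow_ne_zero _ hg₀), fun P => ?_,
      fun P hP => ?_⟩
    · rw [hval]
      have h1 := hg1 P
      have h2 : (N Q : ℤ) * -(T * D5mu X P.1) ≤ N Q * P.1 g₀ :=
        mul_le_mul_of_nonneg_left (hgP P) (by positivity)
      push_cast
      linarith
    · rw [hval]
      rw [Finset.mem_insert] at hP
      have h2 : (N Q : ℤ) * -(T * D5mu X P.1) ≤ N Q * P.1 g₀ :=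
        mul_le_mul_of_nonneg_left (hgP P) (by positivity)
      push_cast
      rcases hP with rfl | hP
      · have h1 := hg1 P
        have h3 : (N P : ℤ) * (1 - T * D5mu X P.1) ≤ N P * P.1 g₀ :=
          mul_le_mul_of_nonneg_left hgQ (by positivity)
        linarith
      · have h1 := hg2 P hP
        linarith

theorem secBounded (X : ProjVar k L) (Φ : Flag k L n) (hΦ : Φ.Bounded) : Φ.SecBounded X := by
  classical
  have hfin : FiniteDimensional k (D5W X) := by
    unfold D5W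
    exact FiniteDimensional.span_of_finite k (Set.finite_range _)
  obtain ⟨C₀, hC₀⟩ := hΦ (D5W X) hfin
  intro A
  obtain ⟨g, c, hg0, hg1, hg2⟩ := D5_mult X (fun P => ⌈A P⌉₊) A.support
  have hAg : ∀ P : X.primeDivisors, A P ≤ P.1 g + c * D5mu X P.1 := by
    intro P
    by_cases hP : P ∈ A.support
    · have h1 := hg2 P hP
      have h2 : A P ≤ (⌈A P⌉₊ : ℚ) := Nat.le_ceil _
      have h3 : ((⌈A P⌉₊ : ℤ) : ℚ) ≤ ((P.1 g + c * D5mu X P.1 : ℤ) : ℚ) := by
        exact_mod_cast h1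
      push_cast at h3
      linarith
    · rw [Finsupp.notMem_support_iff] at hP
      rw [hP]
      have h1 := hg1 P
      have h2 : ((-(c * D5mu X P.1) : ℤ) : ℚ) ≤ ((P.1 g : ℤ) : ℚ) := by exact_mod_cast h1
      push_cast at h2
      linarith
  refine ⟨C₀ * (c + 1) + ∑ i, (ofLex (Φ.u g) i).natAbs, fun m hm f hf hf0 i => ?_⟩
  have hfP : ∀ P : X.primeDivisors, -(m * A P) ≤ (P.1 f : ℚ) := by
    intro P
    unfold ProjVar.H0 sec at hf
    rw [Submodule.mem_iInf] at hf
    have h1 := hf P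
    rw [DVal.mem_filt, DVal.ge_iff hf0, Finsupp.smul_apply, smul_eq_mul] at h1
    exact h1
  have hfg0 : f * g ^ m ≠ 0 := mul_ne_zero hf0 (pow_ne_zero _ hg0)
  have hmc : 1 ≤ m * (c + 1) := Nat.mul_pos hm (Nat.succ_pos c)
  have hval : ∀ P ∈ X.primeDivisors, -(((m * (c + 1) : ℕ) : ℤ) * D5mu X P) ≤ P (f * g ^ m) := by
    intro P hP
    rw [P.map_mul hf0 (pow_ne_zero _ hg0), P.map_pow]
    have h1 : -(m * A ⟨P, hP⟩) ≤ (P f : ℚ) := hfP ⟨P, hP⟩
    have h2 : A ⟨P, hP⟩ ≤ P g + c * D5mu X P := hAg ⟨P, hP⟩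
    have hm0 : (0 : ℚ) ≤ m := Nat.cast_nonneg m
    have h3 : (m : ℚ) * A ⟨P, hP⟩ ≤ m * (P g + c * D5mu X P) :=
      mul_le_mul_of_nonneg_left h2 hm0
    have hmu : (0 : ℚ) ≤ (D5mu X P : ℚ) := by exact_mod_cast D5mu_nonneg X P
    have h4 : (0 : ℚ) ≤ m * (D5mu X P : ℚ) := mul_nonneg hm0 hmu
    have h5 : ((-(((m * (c + 1) : ℕ) : ℤ) * D5mu X P) : ℤ) : ℚ) ≤ ((P f + m * P g : ℤ) : ℚ) := by
      push_cast
      nlinarith
    exact_mod_cast h5
  have hb := D5_bound X Φ hC₀ hmc hfg0 hval i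
  have hu : ofLex (Φ.u (f * g ^ m)) i = ofLex (Φ.u f) i + m * ofLex (Φ.u g) i := by
    rw [Φ.map_mul _ _ hf0 (pow_ne_zero _ hg0), ofLex_add, Pi.add_apply, D5_u_pow Φ hg0]
  rw [hu] at hb
  have hgi : |ofLex (Φ.u g) i| ≤ ((∑ j, (ofLex (Φ.u g) j).natAbs : ℕ) : ℤ) := by
    rw [Int.abs_eq_natAbs]
    have h1 : (ofLex (Φ.u g) i).natAbs ≤ ∑ j, (ofLex (Φ.u g) j).natAbs :=
      Finset.single_le_sum (f := fun j => (ofLex (Φ.u g) j).natAbs) (fun _ _ => Nat.zero_le _)
        (Finset.mem_univ i)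
    exact_mod_cast h1
  have h6 : |ofLex (Φ.u f) i| ≤ |ofLex (Φ.u f) i + m * ofLex (Φ.u g) i| +
      |(m : ℤ) * ofLex (Φ.u g) i| := by
    have h7 := abs_sub (ofLex (Φ.u f) i + m * ofLex (Φ.u g) i) (m * ofLex (Φ.u g) i)
    rwa [add_sub_cancel_right] at h7
  rw [abs_mul, Nat.abs_cast] at h6
  have h8 : (m : ℤ) * |ofLex (Φ.u g) i| ≤ m * ((∑ j, (ofLex (Φ.u g) j).natAbs : ℕ) : ℤ) :=
    mul_le_mul_of_nonneg_left hgi (Nat.cast_nonneg m)
  push_cast at hb h8 ⊢
  nlinarith

end Pool.Agent.Helper47.PQ
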