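import Pool.Agent.Helper47.PQ.FlagDefs

set_option autoImplicit false

/-!
# PQ-D7: dimension = number of values

`sdim_eq_ncard`: if the set of values of the nonzero elements of the `k`-subspace `W` of `L` is
finite, then `dim W` is the number of values.

PROOF. Upper bound by induction on the number `s` of values: if `W ≠ 0` let `γ` be the largest value
and `f₀ ∈ W` of value `γ`; `W' = {f ∈ W | f = 0 ∨ u f < γ}` is a subspace, and every
`f ∈ W` is in `k f₀ + W'` by `leaf`; the values of `W'` are those of `W` different from `γ`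
(a nonzero element of `W` of value `≠ γ` has value `< γ`). `k f₀ ∩ W' = 0`. So
`dim W = 1 + dim W' = 1 + (s - 1)`.
(Elements with the same value: `u (c • f) = u f` for `c ≠ 0`.)
-/

namespace Pool.Agent.Helper47.PQ

open Pool.Agent.Helper92.Weak

variable {k L : Type*} [Field k] [Field L] [Algebra k L] {n : ℕ}

private theorem d7_smul (Φ : Flag k L n) {c : k} (hc : c ≠ 0) {f : L} (hf : f ≠ 0) :
    Φ.u (c • f) = Φ.u f := by
  have h1 : algebraMap k L c ≠ 0 := (map_ne_zero _).mpr hc
  rw [Algebra.smul_def, Φ.map_mul _ _ h1 hf, Φ.map_const c hc, zero_add]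

private theorem d7_sum (Φ : Flag k L n) {κ : Type*} (s : Finset κ) (g : κ → L)
    (γ : Lex (Fin n → ℤ)) (h : ∀ i ∈ s, g i = 0 ∨ Φ.u (g i) < γ) :
    ∑ i ∈ s, g i = 0 ∨ Φ.u (∑ i ∈ s, g i) < γ := by
  classical
  induction s using Finset.induction_on with
  | empty => left; rw [Finset.sum_empty]
  | insert a s ha ih =>
    rw [Finset.sum_insert ha]
    have h1 := h a (Finset.mem_insert_self a s)
    have h2 := ih fun i hi => h i (Finset.mem_insert_of_mem hi)
    by_cases ha0 : g a = 0
    · rw [ha0, zero_add]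
      exact h2
    by_cases hs0 : ∑ i ∈ s, g i = 0
    · rw [hs0, add_zero]
      exact h1
    by_cases hne : g a + ∑ i ∈ s, g i = 0
    · exact Or.inl hne
    right
    exact lt_of_le_of_lt (Φ.map_add _ _ ha0 hs0 hne)
      (max_lt (h1.resolve_left ha0) (h2.resolve_left hs0))

theorem sdim_eq_ncard (Φ : Flag k L n) (W : Submodule k L)
    (hfin : {x | ∃ f ∈ W, f ≠ 0 ∧ ofLex (Φ.u f) = x}.Finite) :
    sdim W = ({x | ∃ f ∈ W, f ≠ 0 ∧ ofLex (Φ.u f) = x}.ncard : ℕ∞) := by
  classical
  set S := {x | ∃ f ∈ W, f ≠ 0 ∧ ofLex (Φ.u f) = x} with hS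
  set s := hfin.toFinset with hs
  have hmem : ∀ x : s, x.1 ∈ S := fun x => hfin.mem_toFinset.mp x.2
  choose f hfW hf0 hfu using hmem
  have hfu' : ∀ x : s, Φ.u (f x) = toLex x.1 := fun x => by
    rw [← hfu x]
    rfl
  set F : s → W := fun x => ⟨f x, hfW x⟩ with hF
  have hli : LinearIndependent k F := by
    rw [Fintype.linearIndependent_iff]
    intro c hc
    by_contra hcon
    push Not at hcon
    obtain ⟨i₁, hi₁⟩ := hcon
    set T : Finset s := Finset.univ.filter fun i => c i ≠ 0 with hT
    have hTne : T.Nonempty := ⟨i₁, Finset.mem_filter.mpr ⟨Finset.mem_univ _, hi₁⟩⟩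
    obtain ⟨i₀, hi₀, hmax⟩ := Finset.exists_max_image T (fun i => (toLex i.1 : Lex (Fin n → ℤ))) hTne
    have hc0 : c i₀ ≠ 0 := (Finset.mem_filter.mp hi₀).2
    have h1 : ∑ i, c i • f i = 0 := by
      have := congrArg (fun w : W => (w : L)) hc
      simpa [hF] using this
    rw [← Finset.add_sum_erase _ _ (Finset.mem_univ i₀)] at h1
    have h2 := d7_sum Φ (Finset.univ.erase i₀) (fun i => c i • f i) (Φ.u (f i₀)) (by
      intro i hi
      rw [Finset.mem_erase] at hi
      by_cases hci : c i = 0
      · left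
        rw [hci, zero_smul]
      · right
        rw [d7_smul Φ hci (hf0 i), hfu', hfu']
        refine lt_of_le_of_ne (hmax i (Finset.mem_filter.mpr ⟨Finset.mem_univ _, hci⟩)) ?_
        intro h3
        exact hi.1 (Subtype.ext (toLex.injective h3)))
    have h3 : c i₀ • f i₀ ≠ 0 := smul_ne_zero hc0 (hf0 i₀)
    rcases h2 with h2 | h2
    · rw [h2, add_zero] at h1
      exact h3 h1
    · have h4 : ∑ i ∈ Finset.univ.erase i₀, c i • f i = (-c i₀) • f i₀ := by
        rw [neg_smul]
        linear_combination h1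
      rw [h4, d7_smul Φ (neg_ne_zero.mpr hc0) (hf0 i₀)] at h2
      exact lt_irrefl _ h2
  have hsp : ⊤ ≤ Submodule.span k (Set.range F) := by
    -- otherwise take an element outside of the span of minimal value
    by_contra hcon
    have hex : ∃ w : W, w ∉ Submodule.span k (Set.range F) := by
      by_contra h1
      push Not at h1
      exact hcon fun w _ => h1 w
    set T : Finset s := Finset.univ.filter fun x =>
      ∃ w : W, w ∉ Submodule.span k (Set.range F) ∧ ofLex (Φ.u (w : L)) = x.1 with hT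
    have hval : ∀ w : W, w ∉ Submodule.span k (Set.range F) → ∃ x ∈ T, ofLex (Φ.u (w : L)) = x.1 := by
      intro w hw
      have hw0 : (w : L) ≠ 0 := by
        intro h0
        have : w = 0 := Subtype.ext h0
        rw [this] at hw
        exact hw (Submodule.zero_mem _)
      have h1 : ofLex (Φ.u (w : L)) ∈ s := hfin.mem_toFinset.mpr ⟨w, w.2, hw0, rfl⟩
      exact ⟨⟨_, h1⟩, Finset.mem_filter.mpr ⟨Finset.mem_univ _, w, hw, rfl⟩, rfl⟩
    have hTne : T.Nonempty := by
      obtain ⟨w, hw⟩ := hex
      obtain ⟨x, hx, -⟩ := hval w hw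
      exact ⟨x, hx⟩
    obtain ⟨x, hx, hmin⟩ := Finset.exists_min_image T (fun i => (toLex i.1 : Lex (Fin n → ℤ))) hTne
    obtain ⟨-, w, hw, hwx⟩ := Finset.mem_filter.mp hx
    have hw0 : (w : L) ≠ 0 := by
      intro h0
      have : w = 0 := Subtype.ext h0
      rw [this] at hw
      exact hw (Submodule.zero_mem _)
    have hwu : Φ.u (w : L) = Φ.u (f x) := by
      rw [hfu', ← hwx]
      rfl
    obtain ⟨c, hc, h1⟩ := Φ.leaf _ _ hw0 (hf0 x) hwu
    have hFx : c • F x ∈ Submodule.span k (Set.range F) :=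
      Submodule.smul_mem _ _ (Submodule.subset_span ⟨x, rfl⟩)
    rcases h1 with h1 | ⟨h1, h2⟩
    · have h3 : w = c • F x := Subtype.ext h1
      rw [h3] at hw
      exact hw hFx
    · have h3 : w - c • F x ∉ Submodule.span k (Set.range F) := by
        intro h4
        have := Submodule.add_mem _ h4 hFx
        rw [sub_add_cancel] at this
        exact hw this
      obtain ⟨y, hy, hyu⟩ := hval _ h3
      have h4 := hmin y hy
      have h5 : Φ.u (((w - c • F x : W)) : L) = toLex y.1 := by
        rw [← hyu]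
        rfl
      have h6 : (((w - c • F x : W)) : L) = (w : L) - c • f x := rfl
      rw [h6] at h5
      rw [h5, hfu'] at h2
      exact absurd h2 (not_lt.mpr h4)
  set b : Module.Basis s k W := Module.Basis.mk hli hsp with hb
  have hr : Module.rank k W = ((Fintype.card s : ℕ) : Cardinal) := rank_eq_card_basis b
  rw [sdim, hr, map_natCast, Fintype.card_coe, hs, ← Set.ncard_eq_toFinset_card S hfin]

end Pool.Agent.Helper47.PQ
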