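import Pool.Agent.Helper47.PQ.D6
import Pool.Agent.Helper47.PQ.D7

set_option autoImplicit false

/-!
# PQ-D8: regularity of the growth of `h⁰(m D)`

`gam_add`: `gam X Φ D` is closed under addition (product of sections: if `f ∈ H⁰(m D)`,
`g ∈ H⁰(m' D)` then `f g ∈ H⁰((m + m') D)`).

`reg`: `Φ` a flag valuation which is bounded on sections, `D` a `ℚ`-divisor, `gam X Φ D` nonempty,
`rkQ (gam X Φ D) = d + 1`. Then `dim H⁰(m D) ≤ C m^d` for all `m ≥ 1`, and there is `m₀ ≥ 1` with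
`m₀ D` integral and `m^d ≤ C h⁰(m m₀ D)`.
PROOF. `SecBounded` gives `C₀` with `|x_i| ≤ C₀ m` on `gam X Φ D`. The slice `{x | (x, m) ∈ gam}` is the
set of values of `H⁰(m D)` (`m ≥ 1`), so `sdim_eq_ncard` and `semigroup_upper` give
`dim H⁰(m D) ≤ (2 C₀ m + 1)^d ≤ (3 C₀ + 1)^d m^d`-type bound. For the lower bound let `N` be a common
denominator of the coefficients of `D` (finite support) and use `semigroup_lower`; `m m₀ D` is
integral, so `h⁰ = dim H⁰` (`h0_of_int`).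

`reg_empty`: if `gam X Φ D` is empty all `H⁰(m D)`, `m ≥ 1`, are zero.

`bnd`: `dim H⁰(m D + A) ≤ C m^n`. PROOF. `m D + A ≤ m B` for all `m ≥ 1` where `B = |D| + |A|`
(a divisor with `B P ≥ D P + max(A P, 0)`, finite support); the values of `H⁰(m B)` are in a box with
`(2 C₀ m + 1)^n` elements; `sdim_eq_ncard`, `sdim_mono`.
-/

namespace Pool.Agent.Helper47.PQ

open Pool.Agent.Helper92.Weak

variable {k L : Type*} [Field k] [Field L] [Algebra k L] {n : ℕ} {X : ProjVar k L}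
  {Φ : Flag k L n}

private theorem d8_mem {D : X.Div} {f : L} :
    f ∈ X.H0 D ↔ ∀ P : X.primeDivisors, P.1.Ge (-(D P)) f := by
  unfold ProjVar.H0 sec
  rw [Submodule.mem_iInf]
  exact Iff.rfl

theorem gam_add (D : X.Div) : ∀ x ∈ gam X Φ D, ∀ y ∈ gam X Φ D, x + y ∈ gam X Φ D := by
  rintro x ⟨hx1, f, hf, hf0, hfx⟩ y ⟨hy1, g, hg, hg0, hgy⟩
  refine ⟨by rw [Prod.snd_add]; omega, f * g, ?_, mul_ne_zero hf0 hg0, ?_⟩
  · rw [d8_mem] at hf hg ⊢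
    intro P
    refine ((hf P).mul (hg P)).mono (le_of_eq ?_)
    rw [Prod.snd_add, Nat.cast_add, add_smul, Finsupp.add_apply]
    ring
  · rw [Φ.map_mul f g hf0 hg0, Prod.fst_add, ← hfx, ← hgy]
    rfl

theorem reg_empty {D : X.Div} (h : ¬ (gam X Φ D).Nonempty) (m : ℕ) (hm : 1 ≤ m) :
    X.H0 ((m : ℚ) • D) = ⊥ := by
  by_contra hne
  obtain ⟨f, hf, hf0⟩ := (Submodule.ne_bot_iff _).mp hne
  exact h ⟨(ofLex (Φ.u f), m), hm, f, hf, hf0, rfl⟩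

private theorem d8_den (D : X.Div) : ∃ N : ℕ, 1 ≤ N ∧ ∀ m : ℕ, N ∣ m → X.IsInt ((m : ℚ) • D) := by
  classical
  refine ⟨∏ P ∈ D.support, (D P).den, ?_, fun m hm P => ?_⟩
  · exact Nat.one_le_iff_ne_zero.mpr (Finset.prod_ne_zero_iff.mpr fun P _ => (D P).den_nz)
  · rw [Finsupp.smul_apply, smul_eq_mul]
    by_cases hP : P ∈ D.support
    · obtain ⟨t, ht⟩ := (Finset.dvd_prod_of_mem (fun P => (D P).den) hP).trans hm
      refine ⟨t * (D P).num, ?_⟩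
      rw [ht]
      push_cast
      have h1 : (((D P).den : ℕ) : ℚ) * D P = ((D P).num : ℚ) := by
        rw [mul_comm]
        exact Rat.mul_den_eq_num (D P)
      linear_combination (t : ℚ) * h1
    · rw [Finsupp.notMem_support_iff.mp hP]
      exact ⟨0, by simp⟩

theorem reg (hΦ : Φ.SecBounded X) {D : X.Div} (hne : (gam X Φ D).Nonempty) {d : ℕ}
    (hd : rkQ (gam X Φ D) = d + 1) :
    ∃ C m₀ : ℕ, 1 ≤ m₀ ∧ (∀ m : ℕ, 1 ≤ m → X.IsInt (((m * m₀ : ℕ) : ℚ) • D)) ∧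
      (∀ m : ℕ, 1 ≤ m → (m : ℕ∞) ^ d ≤ C * X.h0 (((m * m₀ : ℕ) : ℚ) • D)) ∧
      ∀ m : ℕ, 1 ≤ m → sdim (X.H0 ((m : ℚ) • D)) ≤ C * (m : ℕ∞) ^ d := by
  classical
  obtain ⟨C₀, hC₀⟩ := hΦ D
  have h1 : ∀ x ∈ gam X Φ D, 1 ≤ x.2 := fun x hx => hx.1
  have hC : ∀ x ∈ gam X Φ D, ∀ i, |x.1 i| ≤ C₀ * x.2 := by
    rintro x ⟨hx1, f, hf, hf0, hfx⟩ i
    rw [← hfx]
    exact hC₀ x.2 hx1 f hf hf0 i
  have hup := semigroup_upper (gam X Φ D) h1 hne C₀ hC hd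
  have hslice : ∀ m : ℕ, 1 ≤ m → {x | ∃ f ∈ X.H0 ((m : ℚ) • D), f ≠ 0 ∧ ofLex (Φ.u f) = x} =
      {x | (x, m) ∈ gam X Φ D} := by
    intro m hm
    ext x
    exact ⟨fun hx => ⟨hm, hx⟩, fun hx => hx.2⟩
  have hdim : ∀ m : ℕ, 1 ≤ m → sdim (X.H0 ((m : ℚ) • D)) =
      ({x | (x, m) ∈ gam X Φ D}.ncard : ℕ∞) := by
    intro m hm
    rw [← hslice m hm]
    exact sdim_eq_ncard Φ _ (by rw [hslice m hm]; exact (hup m).1)
  obtain ⟨N, hN, hNint⟩ := d8_den D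
  obtain ⟨m₀, hm₀, hNm, hlow⟩ := semigroup_lower (gam X Φ D) h1 hne (gam_add D) hd
    (fun m => (hup m).1) N hN
  have hint : ∀ m : ℕ, 1 ≤ m → X.IsInt (((m * m₀ : ℕ) : ℚ) • D) := fun m _ =>
    hNint _ (Dvd.dvd.mul_left hNm m)
  refine ⟨(2 * C₀ + 1) ^ d + d.factorial, m₀, hm₀, hint, fun m hm => ?_, fun m hm => ?_⟩
  · have h2 : X.h0 (((m * m₀ : ℕ) : ℚ) • D) =
        ({x | (x, m * m₀) ∈ gam X Φ D}.ncard : ℕ∞) := by
      rw [ProjVar.h0, if_pos (hint m hm)]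
      exact hdim _ (Nat.mul_pos hm hm₀)
    rw [h2]
    have h3 : m ^ d ≤ ((2 * C₀ + 1) ^ d + d.factorial) * {x | (x, m * m₀) ∈ gam X Φ D}.ncard :=
      (hlow m hm).trans (Nat.mul_le_mul_right _ (by omega))
    exact_mod_cast h3
  · rw [hdim m hm]
    have h4 : {x | (x, m) ∈ gam X Φ D}.ncard ≤ ((2 * C₀ + 1) ^ d + d.factorial) * m ^ d := by
      calc {x | (x, m) ∈ gam X Φ D}.ncard ≤ (2 * C₀ * m + 1) ^ d := (hup m).2
        _ ≤ ((2 * C₀ + 1) * m) ^ d := Nat.pow_le_pow_left (by nlinarith) d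
        _ = (2 * C₀ + 1) ^ d * m ^ d := mul_pow _ _ _
        _ ≤ _ := Nat.mul_le_mul_right _ (by omega)
    exact_mod_cast h4

theorem bnd (hΦ : Φ.SecBounded X) (D A : X.Div) :
    ∃ C : ℕ, ∀ m : ℕ, 1 ≤ m → sdim (X.H0 ((m : ℚ) • D + A)) ≤ C * (m : ℕ∞) ^ n := by
  classical
  set B : X.Div := D.mapRange (fun q : ℚ => |q|) abs_zero + A.mapRange (fun q : ℚ => |q|) abs_zero
    with hB
  obtain ⟨C₀, hC₀⟩ := hΦ B
  refine ⟨(2 * C₀ + 1) ^ n, fun m hm => ?_⟩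
  have hle : ∀ f ∈ X.H0 ((m : ℚ) • D + A), f ∈ X.H0 ((m : ℚ) • B) := by
    intro f hf
    rw [d8_mem] at hf ⊢
    intro P
    refine (hf P).mono ?_
    rw [hB]
    simp only [Finsupp.smul_apply, Finsupp.add_apply, Finsupp.mapRange_apply, smul_eq_mul]
    have h1 : (1 : ℚ) ≤ m := by exact_mod_cast hm
    have h2 := le_abs_self (D P)
    have h3 := le_abs_self (A P)
    have h4 := abs_nonneg (A P)
    nlinarith
  set S := {x | ∃ f ∈ X.H0 ((m : ℚ) • D + A), f ≠ 0 ∧ ofLex (Φ.u f) = x} with hS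
  set T : Finset (Fin n → ℤ) := Fintype.piFinset fun _ => Finset.Icc (-((C₀ : ℤ) * m)) (C₀ * m)
    with hT
  have hTcard : T.card = (2 * C₀ * m + 1) ^ n := by
    rw [hT, Fintype.card_piFinset, Finset.prod_const, Int.card_Icc, Finset.card_univ,
      Fintype.card_fin]
    congr 1
    have : (C₀ : ℤ) * m + 1 - -((C₀ : ℤ) * m) = ((2 * C₀ * m + 1 : ℕ) : ℤ) := by
      push_cast
      ring
    rw [this]
    exact Int.toNat_natCast _
  have hST : S ⊆ (T : Set (Fin n → ℤ)) := by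
    rintro x ⟨f, hf, hf0, hfx⟩
    rw [Finset.mem_coe, hT, Fintype.mem_piFinset]
    intro i
    rw [Finset.mem_Icc, ← abs_le, ← hfx]
    exact hC₀ m hm f (hle f hf) hf0 i
  have hfin : S.Finite := T.finite_toSet.subset hST
  rw [sdim_eq_ncard Φ _ hfin]
  have h5 : S.ncard ≤ (2 * C₀ + 1) ^ n * m ^ n := by
    calc S.ncard ≤ (T : Set (Fin n → ℤ)).ncard := Set.ncard_le_ncard hST T.finite_toSet
      _ = (2 * C₀ * m + 1) ^ n := by rw [Set.ncard_coe_finset, hTcard]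
      _ ≤ ((2 * C₀ + 1) * m) ^ n := Nat.pow_le_pow_left (by nlinarith) n
      _ = (2 * C₀ + 1) ^ n * m ^ n := mul_pow _ _ _
  exact_mod_cast h5

end Pool.Agent.Helper47.PQ
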