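import Pool.Agent.Helper92.Weak.GrowthE

set_option autoImplicit false

/-!
# PQ-D9: growth of a sequence with two sided bounds

Let `m^d ≤ C h(m m₀)` and `h m ≤ C m^d` for all `m ≥ 1`, with `m₀ ≥ 1`. Then `kodDim h = d` and
`logGrowth h = d`.

PROOF. (`C ≥ 1` follows.) `kodDim`: `h (m₀) ≠ 0` (`m = 1`), so the second case of the definition.
For `j ≤ d`: along `m m₀`, `h (m m₀)/(m m₀)^j ≥ (1/C) m^d/(m m₀)^j ≥ 1/(C m₀^d)`, so the limsup is
positive (frequently `≥` a positive constant). For `j > d`: `h m/m^j ≤ C/m → 0`, limsup `= 0`. So the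
supremum is `d`. `logGrowth`: `log h(m)/log m ≤ (log C)/log m + d`, limsup `≤ d`; along `m m₀` it is
`≥ (d log m - log C)/log (m m₀) → d`. (See the lemmas of GrowthE: `logGrowth_le`, `le_logGrowth`
with `h2 = 1` and `s = d` may give both bounds at once: `le_logGrowth` needs
`n^s * h2 n ≤ h1 (a * n)`; apply it to `C * h`, or argue directly.)

`logGrowth_mono_eventually`: `h1 m ≤ C h2 m` for all `m ≥ 1` gives `logGrowth h1 ≤ logGrowth h2`
(`logGrowth_le` with `s = 0`, `φ = id`).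
-/

namespace Pool.Agent.Helper47.PQ

open Pool.Agent.Helper92.Weak Filter

theorem kodDim_eq_of_bounds {h : ℕ → ℕ∞} {d m₀ C : ℕ} (hm₀ : 1 ≤ m₀)
    (hl : ∀ m : ℕ, 1 ≤ m → (m : ℕ∞) ^ d ≤ C * h (m * m₀))
    (hu : ∀ m : ℕ, 1 ≤ m → h m ≤ C * (m : ℕ∞) ^ d) : kodDim h = (d : EReal) := by
  classical
  have hC0 : (C : ENNReal) ≠ 0 := by
    intro h0
    have h1 := hl 1 le_rfl
    have h2 : C = 0 := by exact_mod_cast h0
    rw [h2, Nat.cast_one, one_pow, Nat.cast_zero, zero_mul] at h1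
    exact absurd h1 (by simp)
  have hne : ¬ ∀ m, 1 ≤ m → h m = 0 := by
    intro h0
    have h1 := hl 1 le_rfl
    rw [h0 (1 * m₀) (by omega), mul_zero, Nat.cast_one, one_pow] at h1
    exact absurd h1 (by simp)
  unfold kodDim
  rw [if_neg hne]
  refine le_antisymm ?_ ?_
  · refine sSup_le ?_
    rintro x ⟨j, rfl, hj⟩
    by_contra hcon
    push Not at hcon
    have hdj : d < j := by exact_mod_cast hcon
    have h1 : ∀ᶠ m : ℕ in atTop, (h m : ENNReal) / (m : ENNReal) ^ j ≤ (C : ENNReal) / (m : ENNReal) := by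
      filter_upwards [eventually_ge_atTop 1] with m hm
      have hm0 : (m : ENNReal) ≠ 0 := by
        have : m ≠ 0 := by omega
        exact_mod_cast this
      have hmt : (m : ENNReal) ≠ ⊤ := ENNReal.natCast_ne_top _
      have h2 : (h m : ENNReal) ≤ (C : ENNReal) * (m : ENNReal) ^ d := by exact_mod_cast hu m hm
      rw [ENNReal.div_le_iff (pow_ne_zero _ hm0) (ENNReal.pow_ne_top hmt)]
      refine h2.trans ?_
      obtain ⟨t, rfl⟩ : ∃ t, j = d + 1 + t := ⟨j - (d + 1), by omega⟩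
      have h3 : (C : ENNReal) / (m : ENNReal) * (m : ENNReal) ^ (d + 1 + t) =
          (C : ENNReal) * (m : ENNReal) ^ d * (m : ENNReal) ^ t := by
        rw [pow_add, pow_succ]
        calc (C : ENNReal) / (m : ENNReal) * ((m : ENNReal) ^ d * (m : ENNReal) * (m : ENNReal) ^ t)
            = ((C : ENNReal) / (m : ENNReal) * (m : ENNReal)) * (m : ENNReal) ^ d *
              (m : ENNReal) ^ t := by ring
          _ = _ := by rw [ENNReal.div_mul_cancel hm0 hmt]
      rw [h3]
      refine le_mul_of_one_le_right' ?_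
      exact one_le_pow₀ (by exact_mod_cast hm)
    have h2 : Tendsto (fun m : ℕ => (C : ENNReal) / (m : ENNReal)) atTop (nhds 0) := by
      have := ENNReal.Tendsto.const_div (a := (C : ENNReal)) ENNReal.tendsto_nat_nhds_top
        (Or.inr (ENNReal.natCast_ne_top C))
      simpa using this
    have h3 := limsup_le_limsup h1
    rw [h2.limsup_eq] at h3
    exact absurd hj (not_lt.mpr h3)
  · refine le_sSup ⟨d, rfl, ?_⟩
    have htend : Tendsto (fun m : ℕ => m * m₀) atTop atTop := by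
      apply tendsto_atTop_mono (f := fun m => m)
      · intro m
        exact Nat.le_mul_of_pos_right _ hm₀
      · exact tendsto_id
    have h3 : limsup (fun m : ℕ => (h (m * m₀) : ENNReal) / ((m * m₀ : ℕ) : ENNReal) ^ d) atTop ≤
        limsup (fun m : ℕ => (h m : ENNReal) / (m : ENNReal) ^ d) atTop :=
      htend.limsup_comp_le_limsup (u := fun m : ℕ => (h m : ENNReal) / (m : ENNReal) ^ d)
    refine lt_of_lt_of_le ?_ h3
    set K : ENNReal := ((C * m₀ ^ d : ℕ) : ENNReal) with hK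
    have hK0 : K ≠ 0 := by
      rw [hK]
      have h4 : C ≠ 0 := by exact_mod_cast hC0
      have : C * m₀ ^ d ≠ 0 := Nat.mul_ne_zero h4 (pow_ne_zero _ (by omega))
      exact_mod_cast this
    have hKt : K ≠ ⊤ := ENNReal.natCast_ne_top _
    have h4 : ∀ᶠ m : ℕ in atTop, K⁻¹ ≤
        (h (m * m₀) : ENNReal) / ((m * m₀ : ℕ) : ENNReal) ^ d := by
      filter_upwards [eventually_ge_atTop 1] with m hm
      have h5 : ((m * m₀ : ℕ) : ENNReal) ≠ 0 := by
        have : m * m₀ ≠ 0 := Nat.mul_ne_zero (by omega) (by omega)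
        exact_mod_cast this
      rw [ENNReal.le_div_iff_mul_le (Or.inl (pow_ne_zero _ h5))
        (Or.inl (ENNReal.pow_ne_top (ENNReal.natCast_ne_top _)))]
      have h6 : (m : ENNReal) ^ d ≤ (C : ENNReal) * (h (m * m₀) : ENNReal) := by
        exact_mod_cast hl m hm
      rw [ENNReal.inv_mul_le_iff hK0 hKt, hK]
      push_cast
      calc ((m : ENNReal) * (m₀ : ENNReal)) ^ d = (m : ENNReal) ^ d * (m₀ : ENNReal) ^ d := mul_pow _ _ _
        _ ≤ ((C : ENNReal) * (h (m * m₀) : ENNReal)) * (m₀ : ENNReal) ^ d := by gcongr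
        _ = (C : ENNReal) * (m₀ : ENNReal) ^ d * (h (m * m₀) : ENNReal) := by ring
    refine lt_of_lt_of_le (ENNReal.inv_pos.mpr hKt) ?_
    exact le_limsup_of_frequently_le h4.frequently (by isBoundedDefault)

theorem logGrowth_le_of_le {h1 h2 : ℕ → ℕ∞} {C : ℕ} {φ : ℕ → ℕ} (hφ : Tendsto φ atTop atTop)
    {a c : ℕ} (hφ' : ∀ m, φ m ≤ a * (m + c)) (h : ∀ m : ℕ, 1 ≤ m → h1 m ≤ C * h2 (φ m)) :
    logGrowth h1 ≤ logGrowth h2 := by
  have h3 := logGrowth_le (s := 0) (C := C) hφ hφ' (h1 := h1) (h2 := h2) (by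
    filter_upwards [eventually_ge_atTop 1] with m hm
    rw [pow_zero, mul_one]
    exact h m hm)
  simpa using h3

private theorem d9_one : logGrowth (fun _ => (1 : ℕ∞)) = 0 := by
  unfold logGrowth
  simp

theorem logGrowth_eq_of_bounds {h : ℕ → ℕ∞} {d m₀ C : ℕ} (hm₀ : 1 ≤ m₀)
    (hl : ∀ m : ℕ, 1 ≤ m → (m : ℕ∞) ^ d ≤ C * h (m * m₀))
    (hu : ∀ m : ℕ, 1 ≤ m → h m ≤ C * (m : ℕ∞) ^ d) : logGrowth h = (d : EReal) := by
  refine le_antisymm ?_ ?_
  · have h3 := logGrowth_le (s := d) (C := C) (a := 1) (c := 0) (φ := id) tendsto_id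
      (by intro m; simp) (h1 := h) (h2 := fun _ => 1) (by
        filter_upwards [eventually_ge_atTop 1] with m hm
        rw [mul_one]
        exact hu m hm)
    rwa [d9_one, add_zero] at h3
  · have h3 := le_logGrowth (s := d) (a := m₀) hm₀ (h1 := fun m => C * h m) (h2 := fun _ => 1) (by
      intro n hn
      rw [mul_one, mul_comm m₀ n]
      exact hl n hn)
    rw [d9_one, add_zero] at h3
    refine h3.trans ?_
    exact logGrowth_le_of_le (C := C) (φ := id) (a := 1) (c := 0) tendsto_id (by intro m; simp)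
      fun m _ => le_rfl

end Pool.Agent.Helper47.PQ
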