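import Pool.Agent.Helper47.PQ.D4
import Pool.Agent.Helper47.PQ.D5
import Pool.Agent.Helper47.PQ.D8
import Pool.Agent.Helper47.PQ.D9

set_option autoImplicit false

/-!
# PQ-D10: Kodaira and numerical dimension

`exists_secFlag`: `exists_flag` and `secBounded`.
`kod_eq`: `X.kod D = d` if `gam X Φ D` is nonempty of rank `d + 1` (`reg`, `kodDim_eq_of_bounds`, and
`h0 ≤ sdim H0`: `h0_le`). `kod_eq_bot`: `X.kod D = ⊥` if `gam X Φ D` is empty (`reg_empty`).
`regular`: the interface of helper30: `h0` of all multiples vanishes, or two sided bounds.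
`nu_eq_sup`: `X.nu D` is the supremum over all `A` of the growth of `dim H⁰(m D + A)` (without the
integrality condition in `h0`). PROOF. `≤` by `h0_le`. `≥`: let `N ≥ 1` with `N D` integral, and
let `A₁` be an integral divisor with `A₁ P ≥ A P + N |D P|` for all `P`. With `φ m = N (m / N + 1)`
(`m ≤ φ m ≤ m + N`), `m D + A ≤ φ m D + A₁`, integral, so `dim H⁰(m D + A) ≤ h⁰(φ m D + A₁)`
(`sec_mono`, `sdim_mono`, `h0_of_int`) and `logGrowth_le_of_le`.
`nu_smul`: by `nu_eq_sup`: `sdim H0(m N D + A)`; `≤`: the subsequence `N m` of the sequence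
for `D` (`logGrowth_le_of_le` with `φ m = N m`); `≥`: `m D + A ≤ N (m / N + 1) D + A₁` as above
(`φ m = m / N + 1`).
`kod_smul`: with a flag valuation `Φ`: `(x, m) ∈ gam (N D)` iff `(x, N m) ∈ gam D`; and
`(x, m) ∈ gam D` implies `(N x, m) ∈ gam (N D)` (`f ^ N ∈ H⁰(m N D)`); the linear automorphism
`(x, t) ↦ (x, N t)` of `ℚⁿ × ℚ` maps the span of `gam (N D)` into the span of `gam D`, onto because
`(N x, N m) = N (x, m)` is in the image. So the ranks agree; use `kod_eq`.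
`kod_le_nu`: `A = 0`, `reg` and `logGrowth_eq_of_bounds` (for `⊥` trivial).
-/

namespace Pool.Agent.Helper47.PQ

open Pool.Agent.Helper92.Weak Filter

variable {k L : Type*} [Field k] [Field L] [Algebra k L] {X : ProjVar k L}

theorem exists_secFlag [IsAlgClosed k] (X : ProjVar k L) :
    ∃ (n : ℕ) (Φ : Flag k L n), Φ.Bounded ∧ Φ.SecBounded X := by
  obtain ⟨n, Φ, h⟩ := exists_flag X
  exact ⟨n, Φ, h, secBounded X Φ h⟩

theorem kod_eq {n : ℕ} {Φ : Flag k L n} (hΦ : Φ.SecBounded X) {D : X.Div}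
    (hne : (gam X Φ D).Nonempty) {d : ℕ} (hd : rkQ (gam X Φ D) = d + 1) :
    X.kod D = (d : EReal) := by
  obtain ⟨C, m₀, hm₀, -, hl, hu⟩ := reg hΦ hne hd
  unfold ProjVar.kod
  exact kodDim_eq_of_bounds (C := C) hm₀ hl fun m hm => (X.h0_le _).trans (hu m hm)

theorem kod_eq_bot {n : ℕ} {Φ : Flag k L n} {D : X.Div} (h : ¬ (gam X Φ D).Nonempty) :
    X.kod D = ⊥ := by
  unfold ProjVar.kod kodDim
  rw [if_pos]
  intro m hm
  have h1 := X.h0_le ((m : ℚ) • D)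
  rw [reg_empty h m hm, sdim_bot] at h1
  exact le_antisymm h1 zero_le

theorem regular [IsAlgClosed k] (D : X.Div) :
    ((∀ m : ℕ, 1 ≤ m → X.H0 ((m : ℚ) • D) = ⊥) ∧ X.kod D = ⊥) ∨
    ∃ d C m₀ : ℕ, X.kod D = (d : EReal) ∧ 1 ≤ m₀ ∧
      (∀ m : ℕ, 1 ≤ m → X.IsInt (((m * m₀ : ℕ) : ℚ) • D)) ∧
      (∀ m : ℕ, 1 ≤ m → (m : ℕ∞) ^ d ≤ C * X.h0 (((m * m₀ : ℕ) : ℚ) • D)) ∧
      ∀ m : ℕ, 1 ≤ m → sdim (X.H0 ((m : ℚ) • D)) ≤ C * (m : ℕ∞) ^ d := by
  obtain ⟨n, Φ, -, hΦ⟩ := exists_secFlag X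
  by_cases hne : (gam X Φ D).Nonempty
  · right
    have h1 : 1 ≤ rkQ (gam X Φ D) := rkQ_pos (fun x hx => hx.1) hne
    obtain ⟨d, hd⟩ : ∃ d, rkQ (gam X Φ D) = d + 1 := ⟨rkQ (gam X Φ D) - 1, by omega⟩
    obtain ⟨C, m₀, hm₀, hi, hl, hu⟩ := reg hΦ hne hd
    exact ⟨d, C, m₀, kod_eq hΦ hne hd, hm₀, hi, hl, hu⟩
  · left
    exact ⟨fun m hm => reg_empty hne m hm, kod_eq_bot hne⟩

theorem finite_h0 [IsAlgClosed k] (D A : X.Div) :
    ∃ C n : ℕ, ∀ m : ℕ, 1 ≤ m → sdim (X.H0 ((m : ℚ) • D + A)) ≤ C * (m : ℕ∞) ^ n := by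
  obtain ⟨n, Φ, -, h⟩ := exists_secFlag X
  obtain ⟨C, hC⟩ := bnd h D A
  exact ⟨C, n, hC⟩

/-- A multiple of a divisor is integral. -/
theorem exists_int_mult (D : X.Div) : ∃ N : ℕ, 1 ≤ N ∧ X.IsInt ((N : ℚ) • D) := by
  obtain ⟨N, hN, h⟩ := exists_common_den D.support fun P => D P
  refine ⟨N, hN, fun P => ?_⟩
  rw [Finsupp.smul_apply, smul_eq_mul]
  by_cases hP : P ∈ D.support
  · exact h P hP
  · rw [Finsupp.notMem_support_iff] at hP
    exact ⟨0, by rw [hP]; simp⟩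

/-- An integral divisor which is large compared to `A` and `N D`. -/
theorem exists_dom (D A : X.Div) (N : ℕ) :
    ∃ A₁ : X.Div, X.IsInt A₁ ∧ ∀ P, A P + N * |D P| ≤ A₁ P := by
  let f : ℚ → ℚ := fun q => ((⌈q⌉ : ℤ) : ℚ)
  have hf : f 0 = 0 := by simp [f]
  let g : ℚ → ℚ := fun q => ((⌈(N : ℚ) * |q|⌉ : ℤ) : ℚ)
  have hg : g 0 = 0 := by simp [g]
  refine ⟨A.mapRange f hf + D.mapRange g hg, fun P => ⟨⌈A P⌉ + ⌈(N : ℚ) * |D P|⌉, ?_⟩, fun P => ?_⟩
  · rw [Finsupp.add_apply, Finsupp.mapRange_apply, Finsupp.mapRange_apply]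
    push_cast
    rfl
  · rw [Finsupp.add_apply, Finsupp.mapRange_apply, Finsupp.mapRange_apply]
    exact add_le_add (Int.le_ceil _) (Int.le_ceil _)

theorem H0_mono {D D' : X.Div} (h : ∀ P, D P ≤ D' P) : X.H0 D ≤ X.H0 D' :=
  sec_mono h

/-- Rounding up the multiple. -/
theorem round_le {D A A₁ : X.Div} {N : ℕ} (hN : 1 ≤ N) (h : ∀ P, A P + N * |D P| ≤ A₁ P) (m : ℕ)
    (P : X.primeDivisors) :
    ((m : ℚ) • D + A : X.Div) P ≤ (((N * (m / N + 1) : ℕ) : ℚ) • D + A₁ : X.Div) P := by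
  rw [Finsupp.add_apply, Finsupp.add_apply, Finsupp.smul_apply, Finsupp.smul_apply, smul_eq_mul,
    smul_eq_mul]
  have h1 : m ≤ N * (m / N + 1) := by
    have h2 := Nat.div_add_mod m N
    have h3 := Nat.mod_lt m hN
    rw [mul_add, mul_one]
    omega
  have h4 : N * (m / N + 1) ≤ m + N := by
    have h2 := Nat.div_add_mod m N
    rw [mul_add, mul_one]
    omega
  obtain ⟨s, hs⟩ := Nat.exists_eq_add_of_le h1
  have h5 : s ≤ N := by omega
  rw [hs]
  push_cast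
  have h6 : (s : ℚ) ≤ N := by exact_mod_cast h5
  have h7 : (s : ℚ) * |D P| ≤ N * |D P| := mul_le_mul_of_nonneg_right h6 (abs_nonneg _)
  have h8 : -((s : ℚ) * |D P|) ≤ s * D P := by
    rw [← mul_neg]
    exact mul_le_mul_of_nonneg_left (neg_abs_le _) (Nat.cast_nonneg _)
  have h9 := h P
  nlinarith

theorem nu_eq_sup (D : X.Div) :
    X.nu D = ⨆ A : X.Div, logGrowth fun m => sdim (X.H0 ((m : ℚ) • D + A)) := by
  unfold ProjVar.nu
  apply le_antisymm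
  · refine iSup_mono fun A => ?_
    exact logGrowth_le_of_le (C := 1) (φ := fun m => m) tendsto_id (a := 1) (c := 0)
      (fun m => by simp) fun m _ => by
        rw [Nat.cast_one, one_mul]
        exact X.h0_le _
  · refine iSup_le fun A => ?_
    obtain ⟨N, hN, hND⟩ := exists_int_mult D
    obtain ⟨A₁, hA₁, hdom⟩ := exists_dom D A N
    refine le_trans ?_ (le_iSup (fun A : X.Div => logGrowth fun m => X.h0 ((m : ℚ) • D + A)) A₁)
    refine logGrowth_le_of_le (C := 1) (φ := fun m => N * (m / N + 1)) ?_ (a := 1) (c := N)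
      (fun m => ?_) fun m _ => ?_
    · refine tendsto_atTop_mono (fun m => ?_) tendsto_id
      have h2 := Nat.div_add_mod m N
      have h3 := Nat.mod_lt m hN
      change m ≤ N * (m / N + 1)
      rw [mul_add, mul_one]
      omega
    · have h2 := Nat.div_add_mod m N
      change N * (m / N + 1) ≤ 1 * (m + N)
      rw [mul_add, mul_one, one_mul]
      omega
    · rw [Nat.cast_one, one_mul]
      change _ ≤ X.h0 (((N * (m / N + 1) : ℕ) : ℚ) • D + A₁)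
      rw [X.h0_of_int]
      · exact sdim_mono (H0_mono (round_le hN hdom m))
      · refine ProjVar.IsInt.add (fun P => ?_) hA₁
        obtain ⟨z, hz⟩ := hND P
        generalize m / N = j
        refine ⟨((j + 1 : ℕ) : ℤ) * z, ?_⟩
        rw [Finsupp.smul_apply, smul_eq_mul] at hz ⊢
        push_cast
        rw [← hz]
        ring

theorem nu_smul (D : X.Div) {N : ℕ} (hN : 1 ≤ N) : X.nu ((N : ℚ) • D) = X.nu D := by
  rw [nu_eq_sup, nu_eq_sup]
  apply le_antisymm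
  · refine iSup_mono fun A => ?_
    refine logGrowth_le_of_le (C := 1) (φ := fun m => N * m) ?_ (a := N) (c := 0)
      (fun m => by simp) fun m _ => ?_
    · exact tendsto_atTop_mono (fun m => Nat.le_mul_of_pos_left m hN) tendsto_id
    · rw [Nat.cast_one, one_mul]
      change _ ≤ sdim (X.H0 (((N * m : ℕ) : ℚ) • D + A))
      rw [smul_smul]
      apply le_of_eq
      congr 4
      push_cast
      ring
  · refine iSup_le fun A => ?_
    obtain ⟨A₁, hA₁, hdom⟩ := exists_dom D A N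
    refine le_trans ?_ (le_iSup (fun A : X.Div => logGrowth fun m =>
      sdim (X.H0 ((m : ℚ) • (N : ℚ) • D + A))) A₁)
    refine logGrowth_le_of_le (C := 1) (φ := fun m => m / N + 1) ?_ (a := 1) (c := 1)
      (fun m => ?_) fun m _ => ?_
    · exact tendsto_atTop_mono (fun m => Nat.le_succ _)
        (Nat.tendsto_div_const_atTop (by omega : N ≠ 0))
    · have := Nat.div_le_self m N
      change m / N + 1 ≤ 1 * (m + 1)
      omega
    · rw [Nat.cast_one, one_mul]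
      change _ ≤ sdim (X.H0 (((m / N + 1 : ℕ) : ℚ) • (N : ℚ) • D + A₁))
      have h1 : (((m / N + 1 : ℕ) : ℚ) • (N : ℚ) • D : X.Div) =
          ((N * (m / N + 1) : ℕ) : ℚ) • D := by
        rw [smul_smul]
        congr 1
        push_cast
        ring
      rw [h1]
      exact sdim_mono (H0_mono (round_le hN hdom m))

theorem Flag.map_one {n : ℕ} (Φ : Flag k L n) : Φ.u 1 = 0 := by
  have := Φ.map_const 1 one_ne_zero
  rwa [_root_.map_one] at this

theorem Flag.map_pow {n : ℕ} (Φ : Flag k L n) {f : L} (hf : f ≠ 0) (N : ℕ) :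
    Φ.u (f ^ N) = N • Φ.u f := by
  induction N with
  | zero => rw [pow_zero, Φ.map_one, zero_smul]
  | succ N ih => rw [pow_succ, Φ.map_mul _ _ (pow_ne_zero _ hf) hf, ih, succ_nsmul]

theorem mem_gam_smul {n : ℕ} {Φ : Flag k L n} {D : X.Div} {N : ℕ} (hN : 1 ≤ N)
    {x : (Fin n → ℤ) × ℕ} (hx : x ∈ gam X Φ ((N : ℚ) • D)) : (x.1, N * x.2) ∈ gam X Φ D := by
  obtain ⟨h1, f, hf, hf0, hfx⟩ := hx
  refine ⟨Nat.mul_pos hN h1, f, ?_, hf0, hfx⟩
  have h2 : ((((x.1, N * x.2) : (Fin n → ℤ) × ℕ).2 : ℚ) • D : X.Div) = (x.2 : ℚ) • (N : ℚ) • D := by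
    rw [smul_smul]
    congr 1
    push_cast
    ring
  rw [h2]
  exact hf

theorem smul_mem_gam {n : ℕ} {Φ : Flag k L n} {D : X.Div} (N : ℕ)
    {x : (Fin n → ℤ) × ℕ} (hx : x ∈ gam X Φ D) :
    ((N : ℤ) • x.1, x.2) ∈ gam X Φ ((N : ℚ) • D) := by
  obtain ⟨h1, f, hf, hf0, hfx⟩ := hx
  refine ⟨h1, f ^ N, ?_, pow_ne_zero _ hf0, ?_⟩
  · have h2 := pow_mem_sec hf0 hf N
    have h3 : ((N : ℚ) • ((((x.2 : ℚ) • D : X.Div)) : X.primeDivisors → ℚ)) =
        (((x.2 : ℚ) • (N : ℚ) • D : X.Div) : X.primeDivisors → ℚ) := by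
      funext q
      simp only [Pi.smul_apply, Finsupp.smul_apply, smul_eq_mul]
      ring
    rw [h3] at h2
    exact h2
  · rw [Φ.map_pow hf0]
    change ofLex (N • Φ.u f) = (N : ℤ) • x.1
    rw [← hfx]
    rw [natCast_zsmul]
    rfl

theorem rkQ_smul {n : ℕ} {Φ : Flag k L n} {D : X.Div} {N : ℕ} (hN : 1 ≤ N) :
    rkQ (gam X Φ ((N : ℚ) • D)) = rkQ (gam X Φ D) := by
  have hN0 : (N : ℚ) ≠ 0 := by
    have : N ≠ 0 := by omega
    exact_mod_cast this
  let T : ((Fin n → ℚ) × ℚ) ≃ₗ[ℚ] ((Fin n → ℚ) × ℚ) :=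
    LinearEquiv.prodCongr (LinearEquiv.refl ℚ _) (LinearEquiv.smulOfNeZero ℚ ℚ (N : ℚ) hN0)
  have hT : ∀ x : (Fin n → ℚ) × ℚ, T x = (x.1, (N : ℚ) * x.2) := fun x => rfl
  suffices hmap : Submodule.map (T : ((Fin n → ℚ) × ℚ) →ₗ[ℚ] ((Fin n → ℚ) × ℚ))
      (Submodule.span ℚ (toQ '' gam X Φ ((N : ℚ) • D))) =
      Submodule.span ℚ (toQ '' gam X Φ D) by
    unfold rkQ
    rw [← LinearEquiv.finrank_map_eq T, hmap]
  rw [Submodule.map_span]
  apply le_antisymm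
  · rw [Submodule.span_le]
    rintro _ ⟨_, ⟨x, hx, rfl⟩, rfl⟩
    apply Submodule.subset_span
    refine ⟨_, mem_gam_smul hN hx, ?_⟩
    change _ = T (toQ x)
    rw [hT]
    unfold toQ
    push_cast
    rfl
  · rw [Submodule.span_le]
    rintro _ ⟨x, hx, rfl⟩
    have h1 : toQ x = (N : ℚ)⁻¹ • T (toQ ((N : ℤ) • x.1, x.2)) := by
      rw [hT]
      unfold toQ
      ext i
      · simp [hN0]
      · simp [hN0]
    rw [h1]
    apply Submodule.smul_mem
    apply Submodule.subset_span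
    exact ⟨_, ⟨_, smul_mem_gam N hx, rfl⟩, rfl⟩

theorem kod_smul [IsAlgClosed k] (D : X.Div) {N : ℕ} (hN : 1 ≤ N) :
    X.kod ((N : ℚ) • D) = X.kod D := by
  obtain ⟨n, Φ, -, hΦ⟩ := exists_secFlag X
  by_cases hne : (gam X Φ D).Nonempty
  · have hne' : (gam X Φ ((N : ℚ) • D)).Nonempty := by
      obtain ⟨x, hx⟩ := hne
      exact ⟨_, smul_mem_gam N hx⟩
    have h1 : 1 ≤ rkQ (gam X Φ D) := rkQ_pos (fun x hx => hx.1) hne
    obtain ⟨d, hd⟩ : ∃ d, rkQ (gam X Φ D) = d + 1 := ⟨rkQ (gam X Φ D) - 1, by omega⟩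
    rw [kod_eq hΦ hne hd, kod_eq hΦ hne' ((rkQ_smul hN).trans hd)]
  · have hne' : ¬ (gam X Φ ((N : ℚ) • D)).Nonempty := by
      rintro ⟨x, hx⟩
      exact hne ⟨_, mem_gam_smul hN hx⟩
    rw [kod_eq_bot hne, kod_eq_bot hne']

theorem kod_le_nu [IsAlgClosed k] (D : X.Div) : X.kod D ≤ X.nu D := by
  rcases regular D with ⟨-, h⟩ | ⟨d, C, m₀, hk, hm₀, -, hl, hu⟩
  · rw [h]
    exact bot_le
  · rw [hk]
    unfold ProjVar.nu
    refine le_trans ?_ (le_iSup (fun A : X.Div => logGrowth fun m => X.h0 ((m : ℚ) • D + A)) 0)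
    have h1 : (fun m : ℕ => X.h0 ((m : ℚ) • D + 0)) = fun m : ℕ => X.h0 ((m : ℚ) • D) := by
      funext m
      rw [add_zero]
    rw [h1]
    exact (logGrowth_eq_of_bounds (C := C) hm₀ hl
      fun m hm => (X.h0_le _).trans (hu m hm)).ge

end Pool.Agent.Helper47.PQ
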