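import Pool.Agent.Helper47.PQ.R2
import Pool.Agent.Helper47.PQ.D10

set_option autoImplicit false

/-!
# PQ-R3: numerical dimension and finite covers

`sdim_trace`: for every `A'` on `X'` there are `A` on `X` and `r` with
`dim H⁰(X', m D' + A') ≤ r dim H⁰(X, m D + A)` for all `m`, where `D' = π* D`.
PROOF. Let `e_1, ..., e_r` be a basis of `E/L`. The map `f ↦ (trace (f e_i))_i` from `E` to `L^r` is
injective (the trace form of a separable extension is nondegenerate: `traceForm_nondegenerate`).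
Let `f ∈ H⁰(X', m D' + A')`. For `Q ∈ X.primeDivisors` and `P` over `(Q, e)` (`P ∈ X'.primeDivisors`,
`IsFiniteCover.mem`): `P (f e_i) ≥ -m e D Q - A' P + P e_i ≥ -e (m D Q + a_Q)` where
`a_Q : ℕ`, `a_Q ≥ A' P - P e_i` for all `i` and all (finitely many) `P` over `Q`, and `a_Q = 0`
for all but finitely many `Q` (those `Q` below some `P ∈ X'.primeDivisors` with `A' P ≠ 0` or
`P e_i ≠ 0` for some `i`: finitely many `P`, `finite_prin`). With the integer
`q = -⌈m D Q + a_Q⌉`, `P.Ge (e q) (f e_i)`, so `Q.Ge q (trace (f e_i))` (`trace_ge`), and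
`q ≥ -(m D Q + a_Q + 1)`; if `D Q = 0` then even `q = -(m D Q + a_Q)`. So
`trace (f e_i) ∈ H⁰(X, m D + A)`, `A Q = a_Q + 1` if `D Q ≠ 0`, `A Q = a_Q` otherwise: finite
support. Conclude with `sdim_le_card_mul` (`H⁰(X', ..)` is a `k`-space; the map to
`Fin r →₀ H⁰(X, m D + A)` is `k`-linear and injective).

`nu_pull`: `ν(X', π* D) = ν(X, D)`. PROOF. `nu_eq_sup` for both. `≤`: `sdim_trace` and
`logGrowth_le_of_le` (`φ = id`). `≥`: for `A` on `X` let `A' = π* A` (`exists_pull`);
`m D' + A'` is the pull back of `m D + A`, so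
`dim H⁰(X, m D + A) ≤ dim H⁰(X', m D' + A')` (`mem_H0_pull`, `sdim_le_of_injective`).
-/

namespace Pool.Agent.Helper47.PQ

open Pool.Agent.Helper92.Weak

variable {k L E : Type*} [Field k] [Field L] [Field E] [Algebra k L] [Algebra k E] [Algebra L E]
  [IsScalarTower k L E] [CharZero k] {X' : ProjVar k E} {X : ProjVar k L}

omit [IsScalarTower k L E] [CharZero k] in
theorem r3_isPull_add {D A : X.Div} {D' A' : X'.Div} (hD : IsPull D D') (hA : IsPull A A') :
    IsPull (D + A) (D' + A') := by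
  intro P Q e h
  rw [Finsupp.add_apply, Finsupp.add_apply, hD P Q e h, hA P Q e h]
  ring

omit [IsScalarTower k L E] [CharZero k] in
theorem r3_isPull_smul {D : X.Div} {D' : X'.Div} (hD : IsPull D D') (c : ℚ) :
    IsPull (c • D) (c • D') := by
  intro P Q e h
  rw [Finsupp.smul_apply, Finsupp.smul_apply, hD P Q e h, smul_eq_mul, smul_eq_mul]
  ring

theorem r3_sdim_pull (h : IsFiniteCover X' X) {D : X.Div} {D' : X'.Div} (hD : IsPull D D') :
    sdim (X.H0 D) ≤ sdim (X'.H0 D') := by
  let φ : X.H0 D →ₗ[k] X'.H0 D' :=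
    { toFun := fun f => ⟨algebraMap L E f.1, (h.mem_H0_pull hD).1 f.2⟩
      map_add' := fun a b => by ext; simp
      map_smul' := fun c a => by
        ext
        change algebraMap L E (c • a.1) = c • algebraMap L E a.1
        rw [Algebra.smul_def, Algebra.smul_def, map_mul, ← IsScalarTower.algebraMap_apply] }
  refine sdim_le_of_injective φ ?_
  intro a b hab
  have h1 : algebraMap L E a.1 = algebraMap L E b.1 := congrArg Subtype.val hab
  exact Subtype.ext ((algebraMap L E).injective h1)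

theorem r3_trace_eq_zero {L E : Type*} [Field L] [Field E] [Algebra L E] [CharZero L]
    [FiniteDimensional L E] {ι : Type*} (b : Module.Basis ι L E) {f : E}
    (hf : ∀ i, Algebra.trace L E (f * b i) = 0) : f = 0 := by
  have h1 : ∀ y : E, Algebra.traceForm L E f y = 0 := by
    intro y
    have h2 : Algebra.traceForm L E f = 0 := by
      refine b.ext fun i => ?_
      rw [Algebra.traceForm_apply, hf i]
      rfl
    rw [h2]
    rfl
  exact (traceForm_nondegenerate L E).1 f h1

theorem IsFiniteCover.sdim_trace (h : IsFiniteCover X' X) {D : X.Div} {D' : X'.Div}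
    (hD : IsPull D D') (A' : X'.Div) : ∃ (A : X.Div) (r : ℕ), ∀ m : ℕ,
      sdim (X'.H0 ((m : ℚ) • D' + A')) ≤ r * sdim (X.H0 ((m : ℚ) • D + A)) := by
  classical
  have := h.fin
  have hL0 : CharZero L := charZero_of_injective_algebraMap (algebraMap k L).injective
  let b := Module.finBasis L E
  set r := Module.finrank L E
  -- the finite set of bad prime divisors
  have hfin : {P : X'.primeDivisors | A' P ≠ 0 ∨ ∃ i : Fin r, P.1 (b i) ≠ 0}.Finite := by
    have h1 : {P : X'.primeDivisors | A' P ≠ 0}.Finite :=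
      A'.support.finite_toSet.subset fun P hP => by simpa using hP
    have h2 : {P : X'.primeDivisors | ∃ i : Fin r, P.1 (b i) ≠ 0}.Finite := by
      have h3 : {P : X'.primeDivisors | ∃ i : Fin r, P.1 (b i) ≠ 0} =
          ⋃ i : Fin r, {P : X'.primeDivisors | P.1 (b i) ≠ 0} := by
        ext P; simp
      rw [h3]
      refine Set.finite_iUnion fun i => ?_
      have h4 := X'.finite_support (b.ne_zero i)
      refine Set.Finite.of_finite_image (f := Subtype.val) (h4.subset ?_)
        Subtype.val_injective.injOn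
      rintro _ ⟨P, hP, rfl⟩
      exact ⟨P.2, hP⟩
    refine (h1.union h2).subset ?_
    rintro P (hP | hP)
    · exact Or.inl hP
    · exact Or.inr hP
  set S := hfin.toFinset with hS
  have hSmem : ∀ P : X'.primeDivisors, P ∉ S → A' P = 0 ∧ ∀ i : Fin r, P.1 (b i) = 0 := by
    intro P hP
    rw [hS, Set.Finite.mem_toFinset, Set.mem_ofPred_eq] at hP
    push Not at hP
    exact hP
  choose Qf hQf ef hef using fun P : X'.primeDivisors => h.equi P.1 P.2
  have hc : ∀ P : X'.primeDivisors, ∃ c : ℕ, ∀ i : Fin r, A' P - P.1 (b i) ≤ c := by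
    intro P
    obtain ⟨c, hc⟩ := exists_nat_ge (∑ i : Fin r, |A' P - P.1 (b i)|)
    refine ⟨c, fun i => ?_⟩
    refine (le_abs_self _).trans (le_trans ?_ hc)
    exact Finset.single_le_sum (f := fun i : Fin r => |A' P - (P.1 (b i) : ℚ)|)
      (fun j _ => abs_nonneg _) (Finset.mem_univ i)
  choose c hc using hc
  set A₀ : X.Div := ∑ P ∈ S, Finsupp.single ⟨Qf P, hQf P⟩ (c P : ℚ) with hA₀
  set A₁ : X.Div := ∑ Q ∈ D.support, Finsupp.single Q (1 : ℚ) with hA₁
  have hA₀v : ∀ Q : X.primeDivisors, A₀ Q =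
      ((∑ P ∈ S, if (⟨Qf P, hQf P⟩ : X.primeDivisors) = Q then c P else 0 : ℕ) : ℚ) := by
    intro Q
    rw [hA₀, Finsupp.finsetSum_apply]
    push_cast
    exact Finset.sum_congr rfl fun P _ => by rw [Finsupp.single_apply]
  have hA₁v : ∀ Q : X.primeDivisors, D Q ≠ 0 → A₁ Q = 1 := by
    intro Q hQ
    rw [hA₁, Finsupp.finsetSum_apply]
    rw [Finset.sum_eq_single Q]
    · rw [Finsupp.single_eq_same]
    · intro Q' _ hne
      rw [Finsupp.single_apply, if_neg hne]
    · intro hn
      exact absurd (Finsupp.mem_support_iff.2 hQ) hn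
  have hA₁n : ∀ Q : X.primeDivisors, 0 ≤ A₁ Q := by
    intro Q
    rw [hA₁, Finsupp.finsetSum_apply]
    refine Finset.sum_nonneg fun Q' _ => ?_
    rw [Finsupp.single_apply]
    split_ifs <;> norm_num
  refine ⟨A₀ + A₁, r, fun m => ?_⟩
  have hz : ∀ Q : X.primeDivisors, ∃ z : ℤ, (m : ℚ) * D Q + A₀ Q ≤ z ∧
      (z : ℚ) ≤ (m : ℚ) * D Q + (A₀ Q + A₁ Q) := by
    intro Q
    by_cases hQ : D Q = 0
    · refine ⟨((∑ P ∈ S, if (⟨Qf P, hQf P⟩ : X.primeDivisors) = Q then c P else 0 : ℕ) : ℤ),
        ?_, ?_⟩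
      · rw [hQ, mul_zero, zero_add, hA₀v Q]
        push_cast
        exact le_rfl
      · rw [hQ, mul_zero, zero_add, hA₀v Q]
        have := hA₁n Q
        push_cast
        linarith
    · refine ⟨⌈(m : ℚ) * D Q + A₀ Q⌉, Int.le_ceil _, ?_⟩
      rw [hA₁v Q hQ]
      have := (Int.ceil_lt_add_one ((m : ℚ) * D Q + A₀ Q)).le
      linarith
  have key : ∀ f ∈ X'.H0 ((m : ℚ) • D' + A'), ∀ i : Fin r,
      Algebra.trace L E (f * b i) ∈ X.H0 ((m : ℚ) • D + (A₀ + A₁)) := by
    intro f hf i
    unfold ProjVar.H0 at hf ⊢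
    rw [mem_sec] at hf ⊢
    intro Q
    obtain ⟨z, hz1, hz2⟩ := hz Q
    have h1 : Q.1.Ge ((-z : ℤ) : ℚ) (Algebra.trace L E (f * b i)) := by
      refine trace_ge Q.1 ?_
      intro P e hPQ
      have hP : P ∈ X'.primeDivisors := h.mem Q.2 hPQ
      have h2 := hf ⟨P, hP⟩
      have h3 := h2.mul (DVal.ge_self (v := P) (b i))
      refine h3.mono ?_
      have h4 : D' ⟨P, hP⟩ = e * D Q := hD ⟨P, hP⟩ Q e hPQ
      rw [Finsupp.add_apply, Finsupp.smul_apply, smul_eq_mul, h4]
      have he : (1 : ℚ) ≤ e := by exact_mod_cast hPQ.1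
      have hA₀n : 0 ≤ A₀ Q := by rw [hA₀v Q]; positivity
      have h5 : A' ⟨P, hP⟩ - P (b i) ≤ A₀ Q := by
        by_cases hPS : (⟨P, hP⟩ : X'.primeDivisors) ∈ S
        · refine (hc ⟨P, hP⟩ i).trans ?_
          rw [hA₀v Q]
          have hQe : (⟨Qf ⟨P, hP⟩, hQf ⟨P, hP⟩⟩ : X.primeDivisors) = Q :=
            Subtype.ext (liesOver_unique (hef ⟨P, hP⟩) hPQ).1
          have h6 : (if (⟨Qf ⟨P, hP⟩, hQf ⟨P, hP⟩⟩ : X.primeDivisors) = Q then c ⟨P, hP⟩ else 0) ≤
              ∑ P ∈ S, if (⟨Qf P, hQf P⟩ : X.primeDivisors) = Q then c P else 0 :=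
            Finset.single_le_sum
              (f := fun P => if (⟨Qf P, hQf P⟩ : X.primeDivisors) = Q then c P else 0)
              (fun _ _ => Nat.zero_le _) hPS
          rw [if_pos hQe] at h6
          exact_mod_cast h6
        · obtain ⟨h6, h7⟩ := hSmem _ hPS
          have h8 : P (b i) = 0 := h7 i
          rw [h6, h8]
          simpa using hA₀n
      have h6 : (e : ℚ) * ((m : ℚ) * D Q + A₀ Q) ≤ e * z :=
        mul_le_mul_of_nonneg_left hz1 (by linarith)
      have h7 : A₀ Q ≤ e * A₀ Q := by nlinarith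
      push_cast
      nlinarith
    refine h1.mono ?_
    rw [Finsupp.add_apply, Finsupp.smul_apply, Finsupp.add_apply, smul_eq_mul]
    push_cast
    linarith
  let T : Fin r → (X'.H0 ((m : ℚ) • D' + A') →ₗ[k] X.H0 ((m : ℚ) • D + (A₀ + A₁))) := fun i =>
    { toFun := fun f => ⟨Algebra.trace L E (f.1 * b i), key f.1 f.2 i⟩
      map_add' := fun f g => by
        ext
        change Algebra.trace L E ((f.1 + g.1) * b i) = _
        rw [add_mul, map_add]
        rfl
      map_smul' := fun a f => by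
        ext
        change Algebra.trace L E ((a • f.1) * b i) = a • Algebra.trace L E (f.1 * b i)
        rw [smul_mul_assoc, ← algebraMap_smul L a (f.1 * b i), map_smul, algebraMap_smul] }
  have hinj : Function.Injective ((Finsupp.linearEquivFunOnFinite k
      (X.H0 ((m : ℚ) • D + (A₀ + A₁))) (Fin r)).symm.toLinearMap ∘ₗ LinearMap.pi T) := by
    intro f g hfg
    rw [LinearMap.comp_apply, LinearMap.comp_apply] at hfg
    have h1 : LinearMap.pi T f = LinearMap.pi T g := (Finsupp.linearEquivFunOnFinite k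
        (X.H0 ((m : ℚ) • D + (A₀ + A₁))) (Fin r)).symm.injective hfg
    apply Subtype.ext
    rw [← sub_eq_zero]
    refine r3_trace_eq_zero b fun i => ?_
    have h2 : T i f = T i g := congrFun h1 i
    have h3 : Algebra.trace L E (f.1 * b i) = Algebra.trace L E (g.1 * b i) :=
      congrArg Subtype.val h2
    rw [sub_mul, map_sub, h3, sub_self]
  have hfinal := sdim_le_card_mul _ hinj
  rwa [Fintype.card_fin] at hfinal

theorem IsFiniteCover.nu_pull (h : IsFiniteCover X' X) {D : X.Div} {D' : X'.Div}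
    (hD : IsPull D D') : X'.nu D' = X.nu D := by
  rw [nu_eq_sup, nu_eq_sup]
  apply le_antisymm
  · refine iSup_le fun A' => ?_
    obtain ⟨A, r, hA⟩ := h.sdim_trace hD A'
    refine le_trans ?_ (le_iSup _ A)
    exact logGrowth_le_of_le (φ := id) Filter.tendsto_id (a := 1) (c := 0) (fun m => by simp)
      (fun m _ => hA m)
  · refine iSup_le fun A => ?_
    obtain ⟨A', hA'⟩ := h.exists_pull A
    refine le_trans ?_ (le_iSup _ A')
    refine logGrowth_le_of_le (C := 1) (φ := id) Filter.tendsto_id (a := 1) (c := 0)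
      (fun m => by simp) (fun m _ => ?_)
    rw [Nat.cast_one, one_mul]
    exact r3_sdim_pull h (r3_isPull_add (r3_isPull_smul hD _) hA')

end Pool.Agent.Helper47.PQ
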