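import Pool.Agent.Helper47.PQ.FlagDefs

set_option autoImplicit false

/-!
# PQ-D3: equations and flag valuations; boundedness of the extension

`two_terms`: if `∑_{i ≤ d} c_i f^(d-i) = 0` with `c_0 = 1`, `f ≠ 0`, then there are `i < j ≤ d` with
`c_i, c_j ≠ 0` and `(j - i) u f = u c_j - u c_i`.
PROOF. Among the nonzero terms `c_i f^(d-i)` (there is one, `i = 0`) the largest value of `u` is
attained at least twice: otherwise the sum of the others is zero or has strictly smaller value
(`map_add`, finite sums) and the total cannot be zero (`u (-x) = u x`). So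
`u c_i + (d-i) u f = u c_j + (d-j) u f` for some `i < j`.

`bounded_ext`: `L/F` finite, `Φ` a bounded flag valuation of `F`, `Ψ` a flag valuation of `L` with
`Ψ.u a = N • Φ.u a` on `F`. Then `Ψ` is bounded.
PROOF. Let `W ⊆ L` be finite dimensional over `k`, `e_1, ..., e_d` a basis of `L/F`,
and `W₀ ⊆ F` the `k`-span of `1` and all coordinates of all `w e_j`, `w` in a `k`-basis of `W`: finite
dimensional. For `f ∈ W ^ m` the matrix of multiplication by `f` in the basis `e` has entries in
`W₀ ^ m` (products of matrices; `Submodule.pow_induction_on_left`). So the coefficient of `T^(d-i)` of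
its characteristic polynomial lies in `W₀ ^ (i m)`, and `f` is a root. For `f ≠ 0` apply
`two_terms`: with `C₀` a bound for `Φ` and `W₀`, `|u c_i| ≤ N C₀ d m` for `i ≥ 1` (and `c_0 = 1`,
`u 1 = 0`), so `|u f| ≤ |(j-i) u f| ≤ 2 N C₀ d m` in each coordinate.
-/

namespace Pool.Agent.Helper47.PQ

open Pool.Agent.Helper92.Weak

section Two

variable {k L : Type*} [Field k] [Field L] [Algebra k L] {n : ℕ} (Φ : Flag k L n)

theorem d3_one : Φ.u 1 = 0 := by
  have h := Φ.map_const 1 one_ne_zero
  rwa [map_one] at h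

theorem d3_neg (f : L) : Φ.u (-f) = Φ.u f := by
  by_cases hf : f = 0
  · rw [hf, neg_zero]
  · have h1 : -f = algebraMap k L (-1) * f := by
      rw [map_neg, map_one, neg_one_mul]
    have h2 : algebraMap k L (-1) ≠ 0 := by
      rw [map_neg, map_one]
      exact neg_ne_zero.2 one_ne_zero
    rw [h1, Φ.map_mul _ _ h2 hf, Φ.map_const _ (neg_ne_zero.2 one_ne_zero), zero_add]

theorem d3_pow {f : L} (hf : f ≠ 0) (m : ℕ) : Φ.u (f ^ m) = m • Φ.u f := by
  induction m with
  | zero => rw [pow_zero, zero_smul, d3_one]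
  | succ m ih => rw [pow_succ, Φ.map_mul _ _ (pow_ne_zero m hf) hf, ih, succ_nsmul]

theorem d3_sum_lt {ι : Type*} (s : Finset ι) (g : ι → L) (b : Lex (Fin n → ℤ))
    (h : ∀ i ∈ s, g i ≠ 0 → Φ.u (g i) < b) (hne : ∑ i ∈ s, g i ≠ 0) :
    Φ.u (∑ i ∈ s, g i) < b := by
  classical
  induction s using Finset.induction_on with
  | empty => exact absurd Finset.sum_empty hne
  | insert a s ha ih =>
    rw [Finset.sum_insert ha] at hne ⊢
    have ih' := ih fun i hi => h i (Finset.mem_insert_of_mem hi)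
    by_cases h1 : g a = 0
    · rw [h1, zero_add] at hne ⊢
      exact ih' hne
    by_cases h2 : ∑ i ∈ s, g i = 0
    · rw [h2, add_zero]
      exact h a (Finset.mem_insert_self a s) h1
    exact lt_of_le_of_lt (Φ.map_add _ _ h1 h2 hne)
      (max_lt (h a (Finset.mem_insert_self a s) h1) (ih' h2))

theorem two_terms {k L : Type*} [Field k] [Field L] [Algebra k L] {n : ℕ} (Φ : Flag k L n)
    {d : ℕ} (c : ℕ → L) (hc : c 0 = 1) {f : L} (hf : f ≠ 0)
    (h : ∑ i ∈ Finset.range (d + 1), c i * f ^ (d - i) = 0) :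
    ∃ i j : ℕ, i < j ∧ j ≤ d ∧ c i ≠ 0 ∧ c j ≠ 0 ∧ (j - i) • Φ.u f = Φ.u (c j) - Φ.u (c i) := by
  classical
  set t : ℕ → L := fun i => c i * f ^ (d - i) with ht
  have ht0 : ∀ i, t i ≠ 0 ↔ c i ≠ 0 := by
    intro i
    simp only [ht, ne_eq, mul_eq_zero, pow_eq_zero_iff', hf, false_and, or_false]
  set S := (Finset.range (d + 1)).filter (fun i => t i ≠ 0) with hS
  have h0 : 0 ∈ S := by
    rw [hS, Finset.mem_filter, ht0, hc]
    exact ⟨Finset.mem_range.2 (Nat.succ_pos d), one_ne_zero⟩
  obtain ⟨a, ha, hmax⟩ := Finset.exists_max_image S (fun i => Φ.u (t i)) ⟨0, h0⟩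
  have ha' := (Finset.mem_filter.1 ha)
  have hu : ∀ i, i ≤ d → c i ≠ 0 → Φ.u (t i) = Φ.u (c i) + (d - i) • Φ.u f := by
    intro i _ hi
    rw [ht]
    change Φ.u (c i * f ^ (d - i)) = _
    rw [Φ.map_mul _ _ hi (pow_ne_zero _ hf), d3_pow Φ hf]
  have key : ∃ b ∈ S, b ≠ a ∧ Φ.u (t b) = Φ.u (t a) := by
    by_contra hcon
    push Not at hcon
    have hsum : t a + ∑ i ∈ (Finset.range (d + 1)).erase a, t i = 0 := by
      rw [Finset.add_sum_erase _ _ ha'.1]
      exact h
    have hR : ∑ i ∈ (Finset.range (d + 1)).erase a, t i = - t a := by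
      rw [eq_neg_iff_add_eq_zero, add_comm]
      exact hsum
    have hR0 : ∑ i ∈ (Finset.range (d + 1)).erase a, t i ≠ 0 := by
      rw [hR]
      exact neg_ne_zero.2 ha'.2
    have h1 := d3_sum_lt Φ _ t (Φ.u (t a)) (fun i hi hti => by
      have hi' := Finset.mem_erase.1 hi
      have hiS : i ∈ S := Finset.mem_filter.2 ⟨hi'.2, hti⟩
      exact lt_of_le_of_ne (hmax i hiS) (hcon i hiS hi'.1)) hR0
    rw [hR, d3_neg] at h1
    exact lt_irrefl _ h1
  obtain ⟨b, hb, hba, hub⟩ := key
  have hb' := Finset.mem_filter.1 hb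
  have hal : a ≤ d := by
    have := Finset.mem_range.1 ha'.1
    omega
  have hbl : b ≤ d := by
    have := Finset.mem_range.1 hb'.1
    omega
  have hca : c a ≠ 0 := (ht0 a).1 ha'.2
  have hcb : c b ≠ 0 := (ht0 b).1 hb'.2
  have fin : ∀ i j, i < j → j ≤ d → c i ≠ 0 → c j ≠ 0 → Φ.u (t i) = Φ.u (t j) →
      (j - i) • Φ.u f = Φ.u (c j) - Φ.u (c i) := by
    intro i j hij hj hi0 hj0 hijt
    rw [hu i (by omega) hi0, hu j hj hj0] at hijt
    have e : d - i = (j - i) + (d - j) := by omega
    rw [e, add_smul, ← add_assoc, add_left_inj] at hijt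
    rw [eq_sub_iff_add_eq, add_comm]
    exact hijt
  rcases lt_or_gt_of_ne hba with hlt | hlt
  · exact ⟨b, a, hlt, hal, hcb, hca, fin b a hlt hal hcb hca hub⟩
  · exact ⟨a, b, hlt, hbl, hca, hcb, fin a b hlt hbl hca hcb hub.symm⟩

end Two

section Char

open Polynomial

variable {k F : Type*} [Field k] [Field F] [Algebra k F]

/-- Polynomials of degree `≤ r` whose coefficient at `X ^ s` is in `V ^ (r - s)`. -/
def d3P (V : Submodule k F) (r : ℕ) (p : F[X]) : Prop :=
  ∀ s, (r < s → p.coeff s = 0) ∧ (s ≤ r → p.coeff s ∈ V ^ (r - s))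

theorem d3P_add {V : Submodule k F} {r : ℕ} {p q : F[X]} (hp : d3P V r p) (hq : d3P V r q) :
    d3P V r (p + q) := fun s => by
  refine ⟨fun h => ?_, fun h => ?_⟩
  · rw [coeff_add, (hp s).1 h, (hq s).1 h, add_zero]
  · rw [coeff_add]
    exact add_mem ((hp s).2 h) ((hq s).2 h)

theorem d3P_zero (V : Submodule k F) (r : ℕ) : d3P V r (0 : F[X]) := fun s => by
  refine ⟨fun _ => coeff_zero s, fun _ => ?_⟩
  rw [coeff_zero]
  exact zero_mem _

theorem d3P_neg {V : Submodule k F} {r : ℕ} {p : F[X]} (hp : d3P V r p) :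
    d3P V r (-p) := fun s => by
  refine ⟨fun h => ?_, fun h => ?_⟩
  · rw [coeff_neg, (hp s).1 h, neg_zero]
  · rw [coeff_neg]
    exact neg_mem ((hp s).2 h)

theorem d3P_one (V : Submodule k F) : d3P V 0 (1 : F[X]) := fun s => by
  refine ⟨fun h => ?_, fun h => ?_⟩
  · rw [coeff_one, if_neg (by omega)]
  · have hs : s = 0 := by omega
    subst hs
    rw [coeff_one_zero, Nat.sub_zero, pow_zero]
    exact Submodule.one_le.1 le_rfl

theorem d3P_mul {V : Submodule k F} {r r' : ℕ} {p q : F[X]} (hp : d3P V r p)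
    (hq : d3P V r' q) : d3P V (r + r') (p * q) := fun s => by
  refine ⟨fun h => ?_, fun h => ?_⟩
  · rw [coeff_mul]
    refine Finset.sum_eq_zero fun x hx => ?_
    have hx' := Finset.HasAntidiagonal.mem_antidiagonal.1 hx
    by_cases h1 : r < x.1
    · rw [(hp _).1 h1, zero_mul]
    · rw [(hq x.2).1 (by omega), mul_zero]
  · rw [coeff_mul]
    refine sum_mem fun x hx => ?_
    have hx' := Finset.HasAntidiagonal.mem_antidiagonal.1 hx
    by_cases h1 : r < x.1
    · rw [(hp _).1 h1, zero_mul]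
      exact zero_mem _
    by_cases h2 : r' < x.2
    · rw [(hq _).1 h2, mul_zero]
      exact zero_mem _
    have e : r + r' - s = (r - x.1) + (r' - x.2) := by omega
    rw [e, pow_add]
    exact Submodule.mul_mem_mul ((hp _).2 (by omega)) ((hq _).2 (by omega))

theorem d3P_prod {V : Submodule k F} {ι : Type*} (s : Finset ι) (p : ι → F[X])
    (h : ∀ i ∈ s, d3P V 1 (p i)) : d3P V s.card (∏ i ∈ s, p i) := by
  classical
  induction s using Finset.induction_on with
  | empty => simpa using d3P_one V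
  | insert a s ha ih =>
    rw [Finset.prod_insert ha, Finset.card_insert_of_notMem ha, add_comm]
    exact d3P_mul (h a (Finset.mem_insert_self a s))
      (ih fun i hi => h i (Finset.mem_insert_of_mem hi))

theorem d3P_charpoly {V : Submodule k F} {d : ℕ} (A : Matrix (Fin d) (Fin d) F)
    (hA : ∀ i j, A i j ∈ V) : d3P V d A.charpoly := by
  classical
  have hC : ∀ a ∈ V, d3P V 1 (C a) := by
    intro a ha s
    refine ⟨fun h => ?_, fun h => ?_⟩
    · rw [coeff_C, if_neg (by omega)]
    · rw [coeff_C]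
      split_ifs with h0
      · rw [h0, Nat.sub_zero, pow_one]
        exact ha
      · exact zero_mem _
  have hX : d3P V 1 (X : F[X]) := by
    intro s
    refine ⟨fun h => ?_, fun h => ?_⟩
    · rw [coeff_X, if_neg (by omega)]
    · rw [coeff_X]
      split_ifs with h0
      · rw [← h0, Nat.sub_self, pow_zero]
        exact Submodule.one_le.1 le_rfl
      · exact zero_mem _
  rw [Matrix.charpoly, Matrix.det_apply]
  have hsum : ∀ s : Finset (Equiv.Perm (Fin d)), d3P V d
      (∑ σ ∈ s, Equiv.Perm.sign σ • ∏ i, A.charmatrix (σ i) i) := by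
    intro s
    induction s using Finset.induction_on with
    | empty => simpa using d3P_zero V d
    | insert σ s hσ ih =>
      rw [Finset.sum_insert hσ]
      refine d3P_add ?_ ih
      have h1 : d3P V d (∏ i, A.charmatrix (σ i) i) := by
        have h2 := d3P_prod (V := V) Finset.univ (fun i => A.charmatrix (σ i) i) (fun i _ => by
          by_cases hi : σ i = i
          · have e : A.charmatrix (σ i) i = X + -C (A (σ i) i) := by
              rw [Matrix.charmatrix_apply, hi, Matrix.diagonal_apply_eq, sub_eq_add_neg]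
            rw [e]
            exact d3P_add hX (d3P_neg (hC _ (hA _ _)))
          · have e : A.charmatrix (σ i) i = -C (A (σ i) i) := by
              rw [Matrix.charmatrix_apply_ne _ _ _ hi]
            rw [e]
            exact d3P_neg (hC _ (hA _ _)))
        simpa using h2
      rcases Int.units_eq_one_or (Equiv.Perm.sign σ) with hs | hs
      · rw [hs, one_smul]
        exact h1
      · rw [hs, Units.neg_smul, one_smul]
        exact d3P_neg h1
  exact hsum Finset.univ

end Char

theorem d3_matrix {k F L : Type*} [Field k] [Field F] [Field L]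
    [Algebra k F] [Algebra k L] [Algebra F L] [IsScalarTower k F L] {d : ℕ}
    (e : Module.Basis (Fin d) F L) (W : Submodule k L) (W₀ : Submodule k F)
    (hW : ∀ w ∈ W, ∀ i j, Algebra.leftMulMatrix e w i j ∈ W₀) (m : ℕ) :
    ∀ f ∈ W ^ m, ∀ i j, Algebra.leftMulMatrix e f i j ∈ W₀ ^ m := by
  induction m with
  | zero =>
    intro f hf i j
    rw [pow_zero, Submodule.mem_one] at hf
    obtain ⟨r, rfl⟩ := hf
    rw [IsScalarTower.algebraMap_apply k F L, AlgHom.commutes, pow_zero,
      Matrix.algebraMap_matrix_apply, Submodule.mem_one]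
    split_ifs with hij
    · exact ⟨r, rfl⟩
    · exact ⟨0, map_zero _⟩
  | succ m ih =>
    intro f hf i j
    rw [pow_succ] at hf
    induction hf using Submodule.mul_induction_on' with
    | mem_mul_mem a ha b hb =>
      rw [map_mul, Matrix.mul_apply]
      refine sum_mem fun l _ => ?_
      rw [pow_succ]
      exact Submodule.mul_mem_mul (ih a ha i l) (hW b hb l j)
    | add x _ y _ hx hy =>
      rw [map_add, Matrix.add_apply]
      exact add_mem hx hy

theorem bounded_ext {k F L : Type*} [Field k] [Field F] [Field L]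
    [Algebra k F] [Algebra k L] [Algebra F L] [IsScalarTower k F L] [FiniteDimensional F L]
    {n : ℕ} (Φ : Flag k F n) (hΦ : Φ.Bounded) (Ψ : Flag k L n) (N : ℕ)
    (h : ∀ a : F, a ≠ 0 → Ψ.u (algebraMap F L a) = N • Φ.u a) : Ψ.Bounded := by
  classical
  intro W hWfin
  set d := Module.finrank F L with hd
  let e : Module.Basis (Fin d) F L := Module.finBasis F L
  let ℓ : Fin d × Fin d → (L →ₗ[k] F) := fun p =>
    { toFun := fun w => Algebra.leftMulMatrix e w p.1 p.2
      map_add' := fun x y => by rw [map_add, Matrix.add_apply]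
      map_smul' := fun r x => by
        rw [← algebraMap_smul F r x, map_smul, Matrix.smul_apply, RingHom.id_apply,
          algebraMap_smul] }
  let W₀ : Submodule k F := ⨆ p, W.map (ℓ p)
  have hW₀ : FiniteDimensional k W₀ := by
    have : ∀ p, FiniteDimensional k (W.map (ℓ p)) := fun p => inferInstance
    exact Submodule.finiteDimensional_iSup _
  have hmem : ∀ w ∈ W, ∀ i j, Algebra.leftMulMatrix e w i j ∈ W₀ := by
    intro w hw i j
    have h1 : W.map (ℓ (i, j)) ≤ W₀ := le_iSup (fun p => W.map (ℓ p)) (i, j)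
    exact h1 (Submodule.mem_map.2 ⟨w, hw, rfl⟩)
  obtain ⟨C₀, hC₀⟩ := hΦ W₀ hW₀
  refine ⟨2 * N * C₀ * d, fun m hm f hf hf0 l => ?_⟩
  have hmat := d3_matrix e W W₀ hmem m f hf
  set A := Algebra.leftMulMatrix e f with hA
  have hP := d3P_charpoly A hmat
  have hdeg : A.charpoly.natDegree = d := by
    rw [Matrix.charpoly_natDegree_eq_dim, Fintype.card_fin]
  have hmon : A.charpoly.coeff d = 1 := by
    have h1 := Matrix.charpoly_monic A
    rw [Polynomial.Monic, Polynomial.leadingCoeff, hdeg] at h1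
    exact h1
  have hroot : Polynomial.aeval f A.charpoly = 0 := by
    apply Algebra.leftMulMatrix_injective e
    rw [map_zero, ← Polynomial.aeval_algHom_apply, Matrix.aeval_self_charpoly]
  let c : ℕ → L := fun i => algebraMap F L (A.charpoly.coeff (d - i))
  have hsum : ∑ i ∈ Finset.range (d + 1), c i * f ^ (d - i) = 0 := by
    rw [Polynomial.aeval_eq_sum_range, hdeg] at hroot
    rw [← hroot, ← Finset.sum_range_reflect]
    refine Finset.sum_congr rfl fun i hi => ?_
    have hi' := Finset.mem_range.1 hi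
    have e1 : d - (d + 1 - 1 - i) = i := by omega
    change algebraMap F L (A.charpoly.coeff (d - (d + 1 - 1 - i))) *
      f ^ (d - (d + 1 - 1 - i)) = _
    rw [e1, Algebra.smul_def]
  have hc0 : c 0 = 1 := by
    change algebraMap F L (A.charpoly.coeff (d - 0)) = 1
    rw [Nat.sub_zero, hmon, map_one]
  obtain ⟨i, j, hij, hjd, hi0, hj0, huf⟩ := two_terms Ψ c hc0 hf0 hsum
  have hb : ∀ i, i ≤ d → c i ≠ 0 → |ofLex (Ψ.u (c i)) l| ≤ N * C₀ * d * m := by
    intro i hi hci
    have hai : A.charpoly.coeff (d - i) ≠ 0 := by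
      intro h0
      apply hci
      change algebraMap F L (A.charpoly.coeff (d - i)) = 0
      rw [h0, map_zero]
    have e1 : Ψ.u (c i) = N • Φ.u (A.charpoly.coeff (d - i)) := h _ hai
    have e2 : ofLex (Ψ.u (c i)) l = N * ofLex (Φ.u (A.charpoly.coeff (d - i))) l := by
      rw [e1]
      change (N • ofLex (Φ.u (A.charpoly.coeff (d - i)))) l = _
      rw [Pi.smul_apply, nsmul_eq_mul]
    rw [e2, abs_mul, Nat.abs_cast]
    have hpos : (0 : ℤ) ≤ N := Nat.cast_nonneg N
    rcases Nat.eq_zero_or_pos i with h0 | h0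
    · subst h0
      rw [Nat.sub_zero, hmon, d3_one]
      change (N : ℤ) * |(0 : ℤ)| ≤ _
      rw [abs_zero, mul_zero]
      positivity
    · have h1 := (hP (d - i)).2 (Nat.sub_le d i)
      have e3 : d - (d - i) = i := by omega
      rw [e3, ← pow_mul] at h1
      have h2 := hC₀ (m * i) (Nat.mul_pos hm h0) _ h1 hai l
      push_cast at h2
      have h3 : (i : ℤ) ≤ d := by exact_mod_cast hi
      have h4 : (C₀ : ℤ) * (m * i) ≤ C₀ * (m * d) := by
        apply mul_le_mul_of_nonneg_left _ (Nat.cast_nonneg C₀)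
        exact mul_le_mul_of_nonneg_left h3 (Nat.cast_nonneg m)
      calc (N : ℤ) * |ofLex (Φ.u (A.charpoly.coeff (d - i))) l| ≤ N * (C₀ * (m * d)) :=
            mul_le_mul_of_nonneg_left (h2.trans h4) hpos
        _ = N * C₀ * d * m := by ring
  have hbi := hb i (by omega) hi0
  have hbj := hb j hjd hj0
  have e4 : ((j - i : ℕ) : ℤ) * ofLex (Ψ.u f) l = ofLex (Ψ.u (c j)) l - ofLex (Ψ.u (c i)) l := by
    have h1 := congrArg (fun x : Lex (Fin n → ℤ) => ofLex x l) huf
    change ((j - i) • ofLex (Ψ.u f)) l = ofLex (Ψ.u (c j)) l - ofLex (Ψ.u (c i)) l at h1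
    rw [Pi.smul_apply, nsmul_eq_mul] at h1
    exact h1
  have e5 : |((j - i : ℕ) : ℤ) * ofLex (Ψ.u f) l| ≤ 2 * (N * C₀ * d * m) := by
    rw [e4]
    have := abs_sub (ofLex (Ψ.u (c j)) l) (ofLex (Ψ.u (c i)) l)
    linarith
  have e6 : |ofLex (Ψ.u f) l| ≤ |((j - i : ℕ) : ℤ) * ofLex (Ψ.u f) l| := by
    rw [abs_mul, Nat.abs_cast]
    have h1 : (1 : ℤ) ≤ ((j - i : ℕ) : ℤ) := by
      have : 1 ≤ j - i := by omega
      exact_mod_cast this
    nlinarith [abs_nonneg (ofLex (Ψ.u f) l)]
  push_cast
  linarith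

end Pool.Agent.Helper47.PQ
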