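import Pool.Agent.Helper47.PQ.R2
import Pool.Agent.Helper47.PQ.D10
import Pool.Agent.Helper47.PQ.D3

set_option autoImplicit false

/-!
# PQ-R4: Kodaira dimension and finite covers

`exists_restrict`: a flag valuation `Ψ` of `E` restricts to a flag valuation `Φ` of `L`
(`Φ.u a = Ψ.u a`); `leaf` for `f, g ∈ L` is inherited.
If `Ψ.SecBounded X'` and `X' → X` is a finite cover then `Φ.SecBounded X`: for `A` on `X` let `A' = π* A`
(`exists_pull`); `m A'` is the pull back of `m A`, so `f ∈ H⁰(m A)` gives `f ∈ H⁰(m A')`.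

`kod_pull`: `κ(X', π* D) = κ(X, D)`.
PROOF. Let `Ψ` be a flag valuation of `E` with `SecBounded X'` (`exists_secFlag`), `Φ` its
restriction, `G' = gam X' Ψ D'`, `G = gam X Φ D`. `G ⊆ G'` by `mem_H0_pull`. Claim: if
`(x, m) ∈ G'` then `G` is nonempty and `toQ (x, m)` is in the span of `toQ '' G`. Let `f ≠ 0` in
`H⁰(m D')`, `Ψ.u f = x`. Let `N ≥ 1` with `N D` integral; replacing `f, x, m` by `f^N, N x, N m`
we may assume that `m D` is integral (`toQ (N x, N m) = N toQ (x, m)`). Let `p = minpoly L f`,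
of degree `d`, `a_i = p.coeff (d - i)`, `a_0 = 1`. For `Q ∈ X.primeDivisors` and `P` over `(Q, e)`,
`P f ≥ -m D' P = -e (m D Q)` with `m D Q ∈ ℤ`; so by `minpoly_coeff_ge`, `Q.Ge (-i m D Q) a_i`:
`a_i ∈ H⁰(X, i m D)`. `two_terms` (D3) gives `i < j ≤ d` with `a_i, a_j ≠ 0` and
`(j - i) Ψ.u f = Φ.u a_j - Φ.u a_i`. So `(Φ.u a_j, j m) ∈ G`, and `(Φ.u a_i, i m) ∈ G` if `i ≥ 1`,
while `Φ.u a_0 = 0`; in both cases `(j - i) toQ (x, m)` is in the span.
Hence the spans, so the ranks, agree, and `G` is nonempty iff `G'` is. Use `kod_eq`,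
`kod_eq_bot` (`rkQ_pos` gives `rkQ G = d + 1` for some `d`).
-/

namespace Pool.Agent.Helper47.PQ

open Pool.Agent.Helper92.Weak

variable {k L E : Type*} [Field k] [Field L] [Field E] [Algebra k L] [Algebra k E] [Algebra L E]
  [IsScalarTower k L E] {n : ℕ}

theorem exists_restrict (Ψ : Flag k E n) :
    ∃ Φ : Flag k L n, ∀ a : L, Φ.u a = Ψ.u (algebraMap L E a) := by
  have hne : ∀ {a : L}, a ≠ 0 → algebraMap L E a ≠ 0 := fun h h0 =>
    h ((map_eq_zero_iff _ (algebraMap L E).injective).1 h0)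
  have hsm : ∀ (c : k) (a : L), algebraMap L E (c • a) = c • algebraMap L E a := by
    intro c a
    rw [Algebra.smul_def, Algebra.smul_def, map_mul, ← IsScalarTower.algebraMap_apply]
  refine ⟨{ u := fun a => Ψ.u (algebraMap L E a)
            map_mul := ?_
            map_add := ?_
            map_const := ?_
            leaf := ?_ }, fun a => rfl⟩
  · intro f g hf hg
    rw [map_mul]
    exact Ψ.map_mul _ _ (hne hf) (hne hg)
  · intro f g hf hg hfg
    have h := hne hfg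
    rw [map_add] at h ⊢
    exact Ψ.map_add _ _ (hne hf) (hne hg) h
  · intro c hc
    rw [← IsScalarTower.algebraMap_apply]
    exact Ψ.map_const c hc
  · intro f g hf hg hfg
    obtain ⟨c, hc, h⟩ := Ψ.leaf _ _ (hne hf) (hne hg) hfg
    refine ⟨c, hc, ?_⟩
    rw [← hsm, ← map_sub] at h
    rcases h with h | ⟨h1, h2⟩
    · exact Or.inl ((algebraMap L E).injective h)
    · exact Or.inr ⟨fun h0 => h1 (by rw [h0, map_zero]), h2⟩

variable [CharZero k] {X' : ProjVar k E} {X : ProjVar k L}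

omit [IsScalarTower k L E] [CharZero k] in
theorem r4_isPull_smul {D : X.Div} {D' : X'.Div} (hD : IsPull D D') (c : ℚ) :
    IsPull (c • D) (c • D') := by
  intro P Q e h
  rw [Finsupp.smul_apply, Finsupp.smul_apply, hD P Q e h, smul_eq_mul, smul_eq_mul]
  ring

theorem IsFiniteCover.secBounded_restrict (h : IsFiniteCover X' X) {Ψ : Flag k E n}
    (hΨ : Ψ.SecBounded X') {Φ : Flag k L n} (hΦ : ∀ a : L, Φ.u a = Ψ.u (algebraMap L E a)) :
    Φ.SecBounded X := by
  intro A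
  obtain ⟨A', hA'⟩ := h.exists_pull A
  obtain ⟨C, hC⟩ := hΨ A'
  refine ⟨C, fun m hm f hf hf0 i => ?_⟩
  rw [hΦ]
  refine hC m hm _ ((h.mem_H0_pull (r4_isPull_smul hA' _)).1 hf) ?_ i
  exact fun h0 => hf0 ((map_eq_zero_iff _ (algebraMap L E).injective).1 h0)

omit [CharZero k] in
theorem r4_exists_int (D : X.Div) : ∃ N : ℕ, 1 ≤ N ∧ ∀ P, ∃ z : ℤ, (N : ℚ) * D P = z := by
  classical
  refine ⟨∏ P ∈ D.support, (D P).den, ?_, ?_⟩
  · exact Finset.prod_pos fun P _ => (D P).den_pos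
  · intro P
    by_cases hP : D P = 0
    · exact ⟨0, by rw [hP]; simp⟩
    · obtain ⟨c, hc⟩ := Finset.dvd_prod_of_mem (fun P => (D P).den) (Finsupp.mem_support_iff.2 hP)
      refine ⟨c * (D P).num, ?_⟩
      rw [hc]
      push_cast
      have h2 : ((D P).den : ℚ) * D P = (D P).num := by
        rw [mul_comm]
        exact Rat.mul_den_eq_num (D P)
      rw [mul_assoc, mul_comm (c : ℚ), ← mul_assoc, h2]
      ring

theorem r4_claim (h : IsFiniteCover X' X) {D : X.Div} {D' : X'.Div} (hD : IsPull D D')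
    {Ψ : Flag k E n} {Φ : Flag k L n} (hΦ : ∀ a : L, Φ.u a = Ψ.u (algebraMap L E a))
    {y : (Fin n → ℤ) × ℕ} (hy : y ∈ gam X' Ψ D') :
    (gam X Φ D).Nonempty ∧ toQ y ∈ Submodule.span ℚ (toQ '' gam X Φ D) := by
  have := h.fin
  obtain ⟨x, m⟩ := y
  obtain ⟨hm, f, hf, hf0, hfx⟩ := hy
  simp only at hm hf hfx
  obtain ⟨N, hN, hint⟩ := r4_exists_int D
  have hg0 : f ^ N ≠ 0 := pow_ne_zero N hf0
  set p := minpoly L (f ^ N) with hp
  have hpm : p.Monic := minpoly.monic (IsIntegral.of_finite L (f ^ N))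
  set d := p.natDegree with hd
  -- the coefficients are sections
  have hcoef : ∀ i, i ≤ d → p.coeff (d - i) ∈ X.H0 (((i * (N * m) : ℕ) : ℚ) • D) := by
    intro i hi
    unfold ProjVar.H0
    rw [mem_sec]
    intro Q
    obtain ⟨z, hz⟩ := hint Q
    have h1 : Q.1.Ge ((i : ℚ) * ((-(m * z) : ℤ) : ℚ)) (p.coeff (d - i)) := by
      refine minpoly_coeff_ge Q.1 ?_ i hi
      intro P e hPQ
      have hP : P ∈ X'.primeDivisors := h.mem Q.2 hPQ
      rw [DVal.ge_iff hg0, DVal.map_pow]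
      have h2 : f ∈ X'.H0 ((m : ℚ) • D') := hf
      unfold ProjVar.H0 at h2
      rw [mem_sec_of_ne hf0] at h2
      have h3 := h2 ⟨P, hP⟩
      have h4 : D' ⟨P, hP⟩ = e * D Q := hD ⟨P, hP⟩ Q e hPQ
      rw [Finsupp.smul_apply, smul_eq_mul, h4] at h3
      have h5 : (0 : ℚ) ≤ N := Nat.cast_nonneg N
      have h6 := mul_nonneg h5 h3
      push_cast
      have h7 : (e : ℚ) * -(m * z) = -(N * (m * (e * D Q))) := by rw [← hz]; ring
      rw [h7]
      linarith [h6]
    refine h1.mono ?_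
    rw [Finsupp.smul_apply, smul_eq_mul]
    push_cast
    rw [← hz]
    apply le_of_eq
    ring
  have hsum : ∑ i ∈ Finset.range (d + 1), algebraMap L E (p.coeff (d - i)) * (f ^ N) ^ (d - i) =
      0 := by
    have h1 : Polynomial.aeval (f ^ N) p = 0 := minpoly.aeval L (f ^ N)
    rw [Polynomial.aeval_eq_sum_range, ← Finset.sum_range_reflect] at h1
    rw [← h1]
    refine Finset.sum_congr rfl fun i _ => ?_
    rw [Algebra.smul_def]
    rfl
  have h0 : algebraMap L E (p.coeff (d - 0)) = 1 := by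
    rw [Nat.sub_zero, hd, Polynomial.coeff_natDegree, hpm.leadingCoeff, map_one]
  obtain ⟨i, j, hij, hjd, hci, hcj, hu⟩ := two_terms Ψ
    (fun i => algebraMap L E (p.coeff (d - i))) h0 hg0 hsum
  have hne : ∀ {a : L}, algebraMap L E a ≠ 0 → a ≠ 0 := fun h h0 => h (by rw [h0, map_zero])
  have hmem : ∀ l, 1 ≤ l → l ≤ d → algebraMap L E (p.coeff (d - l)) ≠ 0 →
      (ofLex (Φ.u (p.coeff (d - l))), l * (N * m)) ∈ gam X Φ D := by
    intro l hl hld hne0
    refine ⟨?_, p.coeff (d - l), hcoef l hld, hne hne0, rfl⟩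
    exact Nat.mul_pos hl (Nat.mul_pos hN hm)
  have hj := hmem j (by omega) hjd hcj
  refine ⟨⟨_, hj⟩, ?_⟩
  have hjs : toQ (ofLex (Φ.u (p.coeff (d - j))), j * (N * m)) ∈
      Submodule.span ℚ (toQ '' gam X Φ D) := Submodule.subset_span ⟨_, hj, rfl⟩
  have his : toQ (ofLex (Φ.u (p.coeff (d - i))), i * (N * m)) ∈
      Submodule.span ℚ (toQ '' gam X Φ D) := by
    rcases Nat.eq_zero_or_pos i with hi | hi
    · have h2 : p.coeff (d - i) = 1 := by
        rw [hi]
        apply (algebraMap L E).injective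
        rw [h0, map_one]
      rw [h2, d3_one, hi]
      have h3 : toQ ((ofLex (0 : Lex (Fin n → ℤ)), 0 * (N * m))) = 0 := by
        unfold toQ
        ext l
        · change (((ofLex (0 : Lex (Fin n → ℤ))) l : ℤ) : ℚ) = 0
          rw [ofLex_zero, Pi.zero_apply, Int.cast_zero]
        · simp
      rw [h3]
      exact Submodule.zero_mem _
    · exact Submodule.subset_span ⟨_, hmem i hi (by omega) hci, rfl⟩
  have hji : (0 : ℚ) < ((j - i : ℕ) : ℚ) * N := by
    have h1 : 0 < j - i := by omega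
    have h2 : 0 < N := hN
    positivity
  have hfin : (((j - i : ℕ) : ℚ) * N) • toQ (x, m) =
      toQ (ofLex (Φ.u (p.coeff (d - j))), j * (N * m)) -
      toQ (ofLex (Φ.u (p.coeff (d - i))), i * (N * m)) := by
    rw [d3_pow Ψ hf0] at hu
    have hu2 : ∀ l, ((j - i : ℕ) : ℤ) * ((N : ℤ) * x l) =
        ofLex (Φ.u (p.coeff (d - j))) l - ofLex (Φ.u (p.coeff (d - i))) l := by
      intro l
      rw [← hΦ, ← hΦ] at hu
      have h1 := congrArg (fun w : Lex (Fin n → ℤ) => ofLex w l) hu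
      simp only [ofLex_sub, Pi.sub_apply, nsmul_eq_mul] at h1
      rw [← hfx]
      exact h1
    unfold toQ
    ext l
    · simp only [Prod.smul_fst, Pi.smul_apply, Prod.fst_sub, Pi.sub_apply, smul_eq_mul]
      have h3 := hu2 l
      have h4 : ((((j - i : ℕ) : ℤ) * ((N : ℤ) * x l) : ℤ) : ℚ) =
        ((ofLex (Φ.u (p.coeff (d - j))) l - ofLex (Φ.u (p.coeff (d - i))) l : ℤ) : ℚ) := by
        rw [h3]
      push_cast at h4
      rw [mul_assoc]
      exact_mod_cast h4
    · simp only [Prod.smul_snd, Prod.snd_sub, smul_eq_mul]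
      rw [Nat.cast_sub hij.le]
      push_cast
      ring
  have h9 : (((j - i : ℕ) : ℚ) * N) • toQ (x, m) ∈ Submodule.span ℚ (toQ '' gam X Φ D) := by
    rw [hfin]
    exact Submodule.sub_mem _ hjs his
  exact (Submodule.smul_mem_iff _ hji.ne').1 h9

theorem IsFiniteCover.kod_pull [IsAlgClosed k] (h : IsFiniteCover X' X) {D : X.Div}
    {D' : X'.Div} (hD : IsPull D D') : X'.kod D' = X.kod D := by
  obtain ⟨n, Ψ, -, hΨ⟩ := exists_secFlag X'
  obtain ⟨Φ, hΦ⟩ := exists_restrict (L := L) Ψ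
  have hΦb := h.secBounded_restrict hΨ hΦ
  have hsub : gam X Φ D ⊆ gam X' Ψ D' := by
    rintro y ⟨hy1, f, hf, hf0, hfy⟩
    refine ⟨hy1, algebraMap L E f, (h.mem_H0_pull (r4_isPull_smul hD _)).1 hf, ?_, ?_⟩
    · exact fun h0 => hf0 ((map_eq_zero_iff _ (algebraMap L E).injective).1 h0)
    · rw [← hΦ]; exact hfy
  by_cases hne : (gam X Φ D).Nonempty
  · have hspan : Submodule.span ℚ (toQ '' gam X' Ψ D') = Submodule.span ℚ (toQ '' gam X Φ D) := by
      apply le_antisymm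
      · rw [Submodule.span_le]
        rintro _ ⟨y, hy, rfl⟩
        exact (r4_claim h hD hΦ hy).2
      · exact Submodule.span_mono (Set.image_mono hsub)
    have hrk : rkQ (gam X' Ψ D') = rkQ (gam X Φ D) := by
      unfold rkQ
      rw [hspan]
    have h1 : 1 ≤ rkQ (gam X Φ D) := rkQ_pos (fun x hx => hx.1) hne
    obtain ⟨d, hd⟩ := Nat.exists_eq_add_of_le h1
    rw [add_comm] at hd
    rw [kod_eq hΦb hne hd, kod_eq hΨ (hne.mono hsub) (hrk.trans hd)]
  · have hne' : ¬ (gam X' Ψ D').Nonempty := by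
      rintro ⟨y, hy⟩
      exact hne (r4_claim h hD hΦ hy).1
    rw [kod_eq_bot hne, kod_eq_bot hne']

end Pool.Agent.Helper47.PQ
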