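import Pool.Agent.Helper92.Weak.Defs

set_option autoImplicit false

/-!
# Products of normal projective varieties, finite covers, log canonical systems: definitions
-/

namespace Pool.Agent.Helper47.PQ

open Pool.Agent.Helper92.Weak

section Basic

variable (k M K E : Type*) [Field k] [Field M] [Field K] [Field E]
  [Algebra k M] [Algebra k K] [Algebra k E] [Algebra M E] [Algebra K E]

/-- The subfields `M` and `K` of `E` are linearly disjoint over `k`. -/
def LinDisj : Prop :=
  ∀ (n : ℕ) (a : Fin n → M), LinearIndependent k a → ∀ b : Fin n → K,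
    ∑ i, algebraMap M E (a i) * algebraMap K E (b i) = 0 → ∀ i, b i = 0

variable {k K E}

/-- The valuation `w` of `E ⊇ M, K` is the Gauss extension of the valuation `v` of `K`: the value
at `w` of a sum `∑ aᵢ bᵢ` with `aᵢ ∈ M` linearly independent over `k` and `bᵢ ∈ K` is the minimum
of the `v bᵢ`. -/
def IsGauss (w : DVal k E) (v : DVal k K) : Prop :=
  ∀ (n : ℕ) (a : Fin n → M), LinearIndependent k a → ∀ (b : Fin n → K) (c : ℚ),
    w.Ge c (∑ i, algebraMap M E (a i) * algebraMap K E (b i)) ↔ ∀ i, v.Ge c (b i)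

end Basic

section Product

variable {k M K : Type*} (E : Type*) [Field k] [Field M] [Field K] [Field E]
  [Algebra k M] [Algebra k K] [Algebra k E] [Algebra M E] [Algebra K E]
  [IsScalarTower k M E] [IsScalarTower k K E]

/-- The subring `A B` of `E` generated by the subrings `A` of `M` and `B` of `K`. -/
def prodRing (A : Subalgebra k M) (B : Subalgebra k K) : Subalgebra k E :=
  A.map (IsScalarTower.toAlgHom k M E) ⊔ B.map (IsScalarTower.toAlgHom k K E)

variable {E}

/-- The variety `X` (with function field `E`) is the product of the varieties `F` and `Y`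
(with function fields `M` and `K`): the fields `M` and `K` are linearly disjoint over `k`, and the
local rings of `X` are the local rings of the products `Fᵢ × Yⱼ` of the standard affine charts,
whose coordinate rings are the rings `k[Fᵢ] k[Yⱼ]`. -/
structure IsProduct (F : ProjVar k M) (Y : ProjVar k K) (X : ProjVar k E) : Prop where
  disj : LinDisj k M K E
  rings : ∀ R : Subalgebra k E, R ∈ X.localRings ↔
    ∃ i j, IsLocalizationOf (prodRing E (chart k F.x i) (chart k Y.x j)) R

/-- `D` is the sum `pr₁* DF + pr₂* DY` of the pull backs of the divisors `DF` and `DY`. -/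
structure IsBox {F : ProjVar k M} {Y : ProjVar k K} {X : ProjVar k E} (DF : F.Div) (DY : Y.Div)
    (D : X.Div) : Prop where
  dom : ∀ P : X.primeDivisors, (∀ a : M, P.1 (algebraMap M E a) = 0) →
    (∀ b : K, P.1 (algebraMap K E b) = 0) → D P = 0
  left : ∀ (P : X.primeDivisors) (T : F.primeDivisors) (e : ℕ), LiesOver P.1 T.1 e →
    D P = e * DF T
  right : ∀ (P : X.primeDivisors) (Q : Y.primeDivisors) (e : ℕ), LiesOver P.1 Q.1 e →
    D P = e * DY Q

end Product

section LC

variable {k L : Type*} [Field k] [Field L] [Algebra k L]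

/-- `𝔅` is a finite nonempty set of linearly equivalent effective integral divisors on `X` such
that `(X, (1/N) 𝔅)` is log canonical; here `C` is the divisor of the form `ω` of degree `dim X`.
The divisors `N C + B`, for `B ∈ 𝔅`, are `ℚ`-Cartier, and for every divisorial valuation `v`, some
`B ∈ 𝔅` satisfies `v (N C + B) ≤ N (1 + ord_v ω)`. -/
structure LCSys (X : ProjVar k L) {n : ℕ} (ω : Form k L n) (C : X.Div) (N : ℕ)
    (𝔅 : Set X.Div) : Prop where
  pos : 0 < N
  finite : 𝔅.Finite
  nonempty : 𝔅.Nonempty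
  isInt : ∀ B ∈ 𝔅, X.IsInt B
  nonneg : ∀ B ∈ 𝔅, ∀ P, 0 ≤ B P
  linEquiv : ∀ B ∈ 𝔅, ∀ B' ∈ 𝔅, ∃ ψ : L, ψ ≠ 0 ∧ ∀ P, B' P = B P + P.1 ψ
  qcartier : ∀ B ∈ 𝔅, X.IsQCartier ((N : ℚ) • C + B)
  lc : ∀ v : DVal k L, v.IsDivisorial → ∀ a : ℤ, v.HasOrd ω a →
    ∃ B ∈ 𝔅, ∀ c, X.IsValue v ((N : ℚ) • C + B) c → c ≤ N * (1 + a)

end LC

section Cover

variable {k L E : Type*} [Field k] [Field L] [Field E] [Algebra k L] [Algebra k E] [Algebra L E]

/-- The inclusion `L ⊆ E` of function fields induces a generically finite morphism `X' → X`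
without exceptional divisors (for example, a finite morphism). -/
structure IsFiniteCover (X' : ProjVar k E) (X : ProjVar k L) : Prop where
  fin : FiniteDimensional L E
  mor : IsMorphism X' X
  equi : ∀ P ∈ X'.primeDivisors, ∃ Q ∈ X.primeDivisors, ∃ e, LiesOver P Q e

/-- `D'` is the pull back of the divisor `D`. -/
def IsPull {X' : ProjVar k E} {X : ProjVar k L} (D : X.Div) (D' : X'.Div) : Prop :=
  ∀ (P : X'.primeDivisors) (Q : X.primeDivisors) (e : ℕ), LiesOver P.1 Q.1 e → D' P = e * D Q

end Cover

end Pool.Agent.Helper47.PQ
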