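import Pool.Agent.Helper47.PQ.GenRing
import Pool.Agent.Helper47.PQ.Box

set_option autoImplicit false

/-!
# PQ-C: `ℚ`-Cartier box divisors

`qcartier_right`: if `D = DF ⊞ DY` is `ℚ`-Cartier on `X = F × Y` then `DY` is `ℚ`-Cartier on `Y`.
PROOF. Let `O ∈ Y.localRings` and `R` the ring of `exists_genRing`. There are `m ≥ 1` and `f ∈ E`
nonzero with `P f = m D P` for all `P ∈ X.primeDivisors` with `R ≤ P.ring`. For `P` trivial on `M` and
`K` this says `P f = 0`; for `P` the Gauss extension of `Q ∈ Y.primeDivisors`, `O ≤ Q.ring` it says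
`P f = m DY Q` (`gauss_right`); there are no other `P` (`GenRing.primes`).
(1) Choose `c ∈ K` nonzero with `Q c ≥ -m DY Q` for all `Q ∈ Y.primeDivisors` with `O ≤ Q.ring`:
`O = locAt B q` has fraction field `K`; for each of the finitely many `Q` with `DY Q ≠ 0`
and `O ≤ Q.ring` there is `c_Q ∈ O` nonzero with `Q c_Q ≥ 1` (since `Q.ring ≠ K`; a uniformizer is a
quotient of elements of `O ≤ Q.ring`); take `c = ∏ c_Q ^ N_Q`, elements of `O` have `Q ≥ 0`.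
(2) `g = c f` satisfies `P g ≥ 0` for all `P ∈ X.primeDivisors` with `R ≤ P.ring`, so `g ∈ R`
(`X.hartogs`). By `GenRing.frac` there is `y` with `y ≠ 0`, `y⁻¹ ∈ R`, `y ∈ M O ⊆ R`,
`g y ∈ M O`. Expand `g y = ∑ aᵢ βᵢ` with `aᵢ ∈ M` independent, `βᵢ ∈ O` (`exists_expansion`).
(3) `βᵢ / g ∈ R`: let `P ∈ X.primeDivisors`, `R ≤ P.ring`. If `P` is trivial on `M`, `K`: `P βᵢ = 0`
(or `βᵢ = 0`) and `P g = 0`. If `P` is the Gauss extension of `Q`: `P (g y) = P g` (`y` is a unit of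
`R ≤ P.ring`), and `P (g y) ≤ Q βᵢ` or `βᵢ = 0` (`eq_min`; or the definition of `IsGauss` with
`c = P (g y)`). So `P (βᵢ/g) ≥ 0`; use `X.hartogs`.
(4) `1 = ∑ aᵢ (βᵢ/g) y⁻¹` with all terms in `R`, so by `X.isUnit_of_sum` some term
`aᵢ βᵢ/(g y)` is a unit of `R`; hence `Q βᵢ = P g = Q c + m DY Q` for all `Q ∈ Y.primeDivisors` with
`O ≤ Q.ring` (`P` the Gauss extension of `Q`, which exists by `exists_gauss`, is in
`X.primeDivisors` by `gauss_mem`, and `R ≤ P.ring` by `GenRing.le`). So `βᵢ / c` is a local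
equation of `m DY` at `O`.

`isValue_right`: `v` a valuation of `K`, `w` its Gauss extension; if `DY` has value `c` at `v` then
`D` has value `c` at `w`. PROOF. `O` dominated by `v`, `f ∈ K` local equation of `m DY` at `O`,
`c = v f / m`. Take `R` from `exists_genRing`; `Dominates R w.ring` (`GenRing.dom`);
`f` (in `E`) is a local equation of `m D` at `R`: for `P` trivial on `K`, `P f = 0 = m D P`
(`IsBox.dom`); for `P` the Gauss extension of `Q`: `P f = Q f = m DY Q = m D P`. And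
`w f = v f`.
-/

namespace Pool.Agent.Helper47.PQ

open Pool.Agent.Helper92.Weak

variable {k M K E : Type*} [Field k] [Field M] [Field K] [Field E]
  [Algebra k M] [Algebra k K] [Algebra k E] [Algebra M E] [Algebra K E]
  [IsScalarTower k M E] [IsScalarTower k K E] [IsAlgClosed k]

variable {F : ProjVar k M} {Y : ProjVar k K} {X : ProjVar k E}

omit [IsAlgClosed k] in
private theorem cartier_exists_pos {O : Subalgebra k K} (hO : O ∈ Y.localRings) (Q : DVal k K)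
    (hQ : O ≤ Q.ring) : ∃ c ∈ O, c ≠ 0 ∧ 1 ≤ Q c := by
  obtain ⟨j, q, hq, rfl⟩ := Y.mem_localRings.1 hO
  obtain ⟨π, hπ0, hπ⟩ := Q.exists_uniformizer
  obtain ⟨a, ha, b, hb, hb0, hab⟩ := Y.chart_isFrac j π
  have ha0 : a ≠ 0 := by
    rintro rfl
    rw [zero_div] at hab
    exact hπ0 hab
  refine ⟨a, le_locAt q ha, ha0, ?_⟩
  have h1 := hQ (le_locAt q hb)
  rw [DVal.mem_ring] at h1
  rw [hab, DVal.map_div _ ha0 hb0] at hπ
  omega

omit [IsAlgClosed k] in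
private theorem cartier_exists_denom {O : Subalgebra k K} (hO : O ∈ Y.localRings) (D : Y.Div) :
    ∃ c : K, c ≠ 0 ∧ ∀ Q : Y.primeDivisors, O ≤ Q.1.ring → -(D Q) ≤ (Q.1 c : ℚ) := by
  classical
  have h2 : ∀ Q : Y.primeDivisors, ∃ c ∈ O, c ≠ 0 ∧ (O ≤ Q.1.ring → 1 ≤ Q.1 c) := by
    intro Q
    by_cases hQ : O ≤ Q.1.ring
    · obtain ⟨c, h3, h4, h5⟩ := cartier_exists_pos hO Q.1 hQ
      exact ⟨c, h3, h4, fun _ => h5⟩
    · exact ⟨1, O.one_mem, one_ne_zero, fun h => absurd h hQ⟩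
  choose c hcO hc0 hc1 using h2
  refine ⟨∏ Q ∈ D.support, c Q ^ ⌈|D Q|⌉₊,
    Finset.prod_ne_zero_iff.2 fun Q _ => pow_ne_zero _ (hc0 Q), fun Q hQ => ?_⟩
  rw [DVal.map_prod _ _ _ fun Q _ => pow_ne_zero _ (hc0 Q)]
  push_cast
  have hnn : ∀ Q' ∈ D.support, (0 : ℚ) ≤ (Q.1 (c Q' ^ ⌈|D Q'|⌉₊) : ℚ) := by
    intro Q' _
    rw [DVal.map_pow]
    have h3 : 0 ≤ Q.1 (c Q') := hQ (hcO Q')
    exact_mod_cast mul_nonneg (Nat.cast_nonneg _) h3
  by_cases hQs : Q ∈ D.support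
  · calc -(D Q) ≤ |D Q| := neg_le_abs _
      _ ≤ (⌈|D Q|⌉₊ : ℚ) := Nat.le_ceil _
      _ ≤ (Q.1 (c Q ^ ⌈|D Q|⌉₊) : ℚ) := by
        rw [DVal.map_pow]
        push_cast
        have h3 : (1 : ℚ) ≤ (Q.1 (c Q) : ℚ) := by exact_mod_cast hc1 Q hQ
        have h4 : (0 : ℚ) ≤ (⌈|D Q|⌉₊ : ℚ) := Nat.cast_nonneg _
        nlinarith
      _ ≤ ∑ Q' ∈ D.support, (Q.1 (c Q' ^ ⌈|D Q'|⌉₊) : ℚ) :=
        Finset.single_le_sum (f := fun Q' => (Q.1 (c Q' ^ ⌈|D Q'|⌉₊) : ℚ)) hnn hQs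
  · rw [Finsupp.notMem_support_iff.1 hQs, neg_zero]
    exact Finset.sum_nonneg hnn

theorem IsProduct.qcartier_right (h : IsProduct F Y X) {DF : F.Div} {DY : Y.Div} {D : X.Div}
    (hD : IsBox DF DY D) (hC : X.IsQCartier D) : Y.IsQCartier DY := by
  intro O hO
  obtain ⟨R, hR⟩ := h.exists_genRing hO
  obtain ⟨m, hm, f, hf0, hf⟩ := hC R hR.mem
  obtain ⟨c, hc0, hc⟩ := cartier_exists_denom hO ((m : ℚ) • DY)
  have hcE : algebraMap K E c ≠ 0 := (map_ne_zero _).2 hc0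
  set g : E := algebraMap K E c * f with hg
  have hg0 : g ≠ 0 := mul_ne_zero hcE hf0
  have hgD : ∀ P ∈ X.primeDivisors, R ≤ P.ring → (∀ a : M, P (algebraMap M E a) = 0) →
      (∀ b : K, P (algebraMap K E b) = 0) → P g = 0 := by
    intro P hP hRP h1 h2
    have h3 := hf ⟨P, hP⟩ hRP
    rw [Finsupp.smul_apply, hD.dom ⟨P, hP⟩ h1 h2, smul_zero] at h3
    have h4 : P f = 0 := by exact_mod_cast h3
    rw [hg, P.map_mul hcE hf0, h2 c, h4, add_zero]
  have hgG : ∀ (P : X.primeDivisors) (Q : Y.primeDivisors), R ≤ P.1.ring → IsGauss M P.1 Q.1 →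
      (P.1 g : ℚ) = (Q.1 c : ℚ) + m * DY Q := by
    intro P Q hRP hG
    have h3 := hf P hRP
    rw [Finsupp.smul_apply, hD.gauss_right P Q hG, smul_eq_mul] at h3
    rw [hg, P.1.map_mul hcE hf0, hG.apply_right, Int.cast_add, h3]
  have hgR : g ∈ R := by
    apply X.hartogs hR.mem
    intro P hP hRP
    rw [DVal.mem_ring]
    rcases hR.primes P hP hRP with ⟨h1, h2⟩ | ⟨Q, hQ, hOQ, hG⟩
    · rw [hgD P hP hRP h1 h2]
    · have h3 := hgG ⟨P, hP⟩ ⟨Q, hQ⟩ hRP hG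
      have h4 := hc ⟨Q, hQ⟩ hOQ
      rw [Finsupp.smul_apply, smul_eq_mul] at h4
      have h5 : (0 : ℚ) ≤ (P g : ℚ) := by
        change (P g : ℚ) = (Q c : ℚ) + m * DY ⟨Q, hQ⟩ at h3
        change -((m : ℚ) * DY ⟨Q, hQ⟩) ≤ (Q c : ℚ) at h4
        linarith
      exact_mod_cast h5
  obtain ⟨y, hy, hy0, hyR, hgy⟩ := hR.frac g hgR
  obtain ⟨n, a, b, -, hb, hlin, -, hs⟩ := exists_expansion hgy
  have hle : prodRing E (⊤ : Subalgebra k M) O ≤ R := by
    refine sup_le ?_ ?_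
    · rintro _ ⟨x, -, rfl⟩
      exact hR.left x
    · rintro _ ⟨x, hx, rfl⟩
      exact hR.right x hx
  have hPy : ∀ P : DVal k E, R ≤ P.ring → P y = 0 := by
    intro P hRP
    have h1 := hRP (hle hy)
    have h2 := hRP hyR
    rw [DVal.mem_ring] at h1 h2
    rw [DVal.map_inv] at h2
    omega
  have hterm : ∀ i, algebraMap K E (b i) / g ∈ R := by
    intro i
    by_cases hbi : b i = 0
    · rw [hbi, map_zero, zero_div]
      exact R.zero_mem
    have hbE : algebraMap K E (b i) ≠ 0 := (map_ne_zero _).2 hbi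
    apply X.hartogs hR.mem
    intro P hP hRP
    rw [DVal.mem_ring, DVal.map_div _ hbE hg0]
    rcases hR.primes P hP hRP with ⟨h1, h2⟩ | ⟨Q, hQ, hOQ, hG⟩
    · rw [hgD P hP hRP h1 h2, h2 (b i), sub_zero]
    · have h3 := (hG.eq_min h.disj a hlin b ⟨i, hbi⟩).2.2 i hbi
      rw [← hs, P.map_mul hg0 hy0, hPy P hRP, add_zero] at h3
      rw [hG.apply_right]
      omega
  have hgy0 : g * y ≠ 0 := mul_ne_zero hg0 hy0
  obtain ⟨i, -, hi1, hi2⟩ := X.isUnit_of_sum hR.mem Finset.univ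
    (fun i => algebraMap M E (a i) * (algebraMap K E (b i) / g) * y⁻¹)
    (fun i _ => R.mul_mem (R.mul_mem (hR.left (a i)) (hterm i)) hyR) (by
      have h1 : ∀ i, algebraMap M E (a i) * (algebraMap K E (b i) / g) * y⁻¹ =
          algebraMap M E (a i) * algebraMap K E (b i) * (g * y)⁻¹ := by
        intro i
        field_simp
      simp only [h1]
      rw [← Finset.sum_mul, ← hs, mul_inv_cancel₀ hgy0])
  have hi3 : algebraMap M E (a i) * (algebraMap K E (b i) / g) * y⁻¹ ∈ R :=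
    R.mul_mem (R.mul_mem (hR.left (a i)) (hterm i)) hyR
  have haE : algebraMap M E (a i) ≠ 0 := fun hh => hi2 (by rw [hh, zero_mul, zero_mul])
  have hbE : algebraMap K E (b i) ≠ 0 := fun hh => hi2 (by
    rw [hh, zero_div, mul_zero, zero_mul])
  have hbi : b i ≠ 0 := fun hh => hbE (by rw [hh, map_zero])
  refine ⟨m, hm, b i / c, div_ne_zero hbi hc0, fun Q hOQ => ?_⟩
  obtain ⟨w, hw⟩ := exists_gauss h.disj h.isFrac_top Q.1
  have hwX := h.gauss_mem Q.2 hw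
  have hRw := hR.le w Q.1 hOQ hw
  have h5 : (w g : ℚ) = (Q.1 c : ℚ) + m * DY Q := hgG ⟨w, hwX⟩ Q hRw hw
  have h6 := hRw hi3
  have h7 := hRw hi1
  rw [DVal.mem_ring] at h6 h7
  rw [DVal.map_inv] at h7
  have h8 : w (algebraMap M E (a i) * (algebraMap K E (b i) / g) * y⁻¹) = Q.1 (b i) - w g := by
    rw [w.map_mul (mul_ne_zero haE (div_ne_zero hbE hg0)) (inv_ne_zero hy0),
      w.map_mul haE (div_ne_zero hbE hg0), w.map_div hbE hg0, w.map_inv, hPy w hRw,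
      hw.apply_left, hw.apply_right]
    ring
  rw [h8] at h6
  have h9 : w g = Q.1 (b i) := by
    have h7' : 0 ≤ -(w (algebraMap M E (a i) * (algebraMap K E (b i) / g) * y⁻¹)) := h7
    rw [h8] at h7'
    omega
  rw [h9] at h5
  rw [DVal.map_div _ hbi hc0, Finsupp.smul_apply, smul_eq_mul]
  push_cast
  linarith

theorem IsProduct.isValue_right (h : IsProduct F Y X) {DF : F.Div} {DY : Y.Div} {D : X.Div}
    (hD : IsBox DF DY D) {v : DVal k K} {w : DVal k E} (hw : IsGauss M w v) {c : ℚ}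
    (hc : Y.IsValue v DY c) : X.IsValue w D c := by
  obtain ⟨O, hO, hdom, m, f, hm, ⟨hf0, hf⟩, rfl⟩ := hc
  obtain ⟨R, hR⟩ := h.exists_genRing hO
  refine ⟨R, hR.mem, hR.dom v w hdom hw, m, algebraMap K E f, hm,
    ⟨(map_ne_zero _).2 hf0, fun P hRP => ?_⟩, by rw [hw.apply_right]⟩
  rcases hR.primes P.1 P.2 hRP with ⟨h1, h2⟩ | ⟨Q, hQ, hOQ, hG⟩
  · rw [h2 f, Finsupp.smul_apply, hD.dom P h1 h2, smul_zero, Int.cast_zero]
  · rw [hG.apply_right, hf ⟨Q, hQ⟩ hOQ, Finsupp.smul_apply, Finsupp.smul_apply,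
      hD.gauss_right P ⟨Q, hQ⟩ hG]

end Pool.Agent.Helper47.PQ
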