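import Pool.Agent.Helper47.PQ.GaussB

set_option autoImplicit false

/-!
# PQ-G5: the Gauss extension of a divisorial valuation is divisorial

`M` is the fraction field of the finitely generated algebra `A = k[s]`, and `v.ring` is a
localisation of `B = k[s_v] ⊆ v.ring` (`v.IsDivisorial`). Then `w.IsDivisorial` with the finite set
`s ∪ s_v` (images in `E`), whose algebra is `A B = prodRing E A B`.

PROOF. `Algebra.adjoin k (image of s ∪ image of s_v) = prodRing E A B`
(`Algebra.adjoin_union`, `AlgHom.map_adjoin`). It is contained in `w.ring` (`IsGauss.ring_le`).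
Let `z ∈ w.ring`. By `IsGauss.exists_frac`, `z = s₁/s₂` with `s₁, s₂ ∈ M v.ring`, `s₂ ≠ 0`,
`w s₂ = 0`. Expand (`mem_prodRing`) `s₁ = ∑ aᵢ bᵢ`, `s₂ = ∑ a'ⱼ b'ⱼ`, with `aᵢ, a'ⱼ ∈ M` and
`bᵢ, b'ⱼ ∈ v.ring`. Let `α ∈ A`, `α ≠ 0`, be a common denominator of all `aᵢ, a'ⱼ` and
`β ∈ B` with `β ≠ 0`, `v β = 0` a common denominator of all `bᵢ, b'ⱼ` (each is `c/d` with `c, d ∈ B`,
`v d = 0`: take the product of the `d`'s). Then `α β s₁` and `α β s₂` lie in `A B`,
`w (α β s₂) = 0 + v β + 0 = 0` and `z = (α β s₁)/(α β s₂)`.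
-/

namespace Pool.Agent.Helper47.PQ

open Pool.Agent.Helper92.Weak

variable {k M K E : Type*} [Field k] [Field M] [Field K] [Field E]
  [Algebra k M] [Algebra k K] [Algebra k E] [Algebra M E] [Algebra K E]
  [IsScalarTower k M E] [IsScalarTower k K E]

theorem left_mem_prodRing {A : Subalgebra k M} {B : Subalgebra k K} {a : M} (ha : a ∈ A) :
    algebraMap M E a ∈ prodRing E A B :=
  (le_sup_left : A.map (IsScalarTower.toAlgHom k M E) ≤ prodRing E A B)
    (Subalgebra.mem_map.2 ⟨a, ha, rfl⟩)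

theorem right_mem_prodRing {A : Subalgebra k M} {B : Subalgebra k K} {b : K} (hb : b ∈ B) :
    algebraMap K E b ∈ prodRing E A B :=
  (le_sup_right : B.map (IsScalarTower.toAlgHom k K E) ≤ prodRing E A B)
    (Subalgebra.mem_map.2 ⟨b, hb, rfl⟩)

theorem exists_common_den {A : Subalgebra k M} (hA : IsFrac A) {B : Subalgebra k K}
    {v : DVal k K}
    (hB : ∀ z ∈ v.ring, ∃ a ∈ B, ∃ b ∈ B, b ≠ 0 ∧ v b = 0 ∧ z = a / b) {x : E}
    (hx : x ∈ prodRing E (⊤ : Subalgebra k M) v.ring) :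
    ∃ α ∈ A, α ≠ 0 ∧ ∃ β ∈ B, β ≠ 0 ∧ v β = 0 ∧
      algebraMap M E α * algebraMap K E β * x ∈ prodRing E A B := by
  obtain ⟨n, a, b, _, hb, rfl⟩ := mem_prodRing.1 hx
  refine Finset.sum_induction (fun i => algebraMap M E (a i) * algebraMap K E (b i))
    (fun x => ∃ α ∈ A, α ≠ 0 ∧ ∃ β ∈ B, β ≠ 0 ∧ v β = 0 ∧
      algebraMap M E α * algebraMap K E β * x ∈ prodRing E A B) ?_ ?_ ?_
  · rintro x y ⟨α, hα, hα0, β, hβ, hβ0, hβv, h⟩ ⟨α', hα', hα0', β', hβ', hβ0', hβv', h'⟩
    refine ⟨α * α', mul_mem hα hα', mul_ne_zero hα0 hα0', β * β', mul_mem hβ hβ',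
      mul_ne_zero hβ0 hβ0', ?_, ?_⟩
    · rw [v.map_mul hβ0 hβ0', hβv, hβv', add_zero]
    · have e : algebraMap M E (α * α') * algebraMap K E (β * β') * (x + y) =
          (algebraMap M E α' * algebraMap K E β') * (algebraMap M E α * algebraMap K E β * x) +
          (algebraMap M E α * algebraMap K E β) *
            (algebraMap M E α' * algebraMap K E β' * y) := by
        rw [map_mul, map_mul]
        ring
      rw [e]
      exact add_mem (mul_mem (mul_mem (left_mem_prodRing hα') (right_mem_prodRing hβ')) h)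
        (mul_mem (mul_mem (left_mem_prodRing hα) (right_mem_prodRing hβ)) h')
  · refine ⟨1, one_mem _, one_ne_zero, 1, one_mem _, one_ne_zero, v.map_one, ?_⟩
    rw [mul_zero]
    exact zero_mem _
  · intro i _
    obtain ⟨c, hc, α, hα, hα0, e1⟩ := hA (a i)
    obtain ⟨d, hd, β, hβ, hβ0, hβv, e2⟩ := hB (b i) (hb i)
    refine ⟨α, hα, hα0, β, hβ, hβ0, hβv, ?_⟩
    have hα1 : algebraMap M E α ≠ 0 := by
      rwa [Ne, map_eq_zero]
    have hβ1 : algebraMap K E β ≠ 0 := by
      rwa [Ne, map_eq_zero]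
    have e : algebraMap M E α * algebraMap K E β *
        (algebraMap M E (a i) * algebraMap K E (b i)) = algebraMap M E c * algebraMap K E d := by
      rw [e1, e2, map_div₀, map_div₀]
      field_simp
    rw [e]
    exact mul_mem (left_mem_prodRing hc) (right_mem_prodRing hd)

theorem isDivisorial_gauss (hd : LinDisj k M K E)
    (hfr : IsFrac (prodRing E (⊤ : Subalgebra k M) (⊤ : Subalgebra k K)))
    (s : Finset M) (hs : IsFrac (Algebra.adjoin k (s : Set M))) {w : DVal k E} {v : DVal k K}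
    (h : IsGauss M w v) (hv : v.IsDivisorial) : w.IsDivisorial := by
  classical
  obtain ⟨sv, hsv1, hsv2⟩ := hv
  set A := Algebra.adjoin k (s : Set M) with hAdef
  set B := Algebra.adjoin k (sv : Set K) with hBdef
  have hS : Algebra.adjoin k
      ((s.image (algebraMap M E) ∪ sv.image (algebraMap K E) : Finset E) : Set E) =
        prodRing E A B := by
    rw [Finset.coe_union, Finset.coe_image, Finset.coe_image, Algebra.adjoin_union, prodRing,
      hAdef, hBdef, AlgHom.map_adjoin, AlgHom.map_adjoin]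
    rfl
  refine ⟨s.image (algebraMap M E) ∪ sv.image (algebraMap K E), ?_, ?_⟩
  · rw [hS]
    refine le_trans ?_ h.ring_le
    exact sup_le_sup (Subalgebra.map_mono le_top) (Subalgebra.map_mono hsv1)
  · intro z hz
    rw [hS]
    obtain ⟨s₁, hs₁, s₂, hs₂, hs0, hw, rfl⟩ := h.exists_frac hd hfr (x := z) hz
    obtain ⟨α, hα, hα0, β, hβ, hβ0, hβv, h1⟩ := exists_common_den hs hsv2 hs₁
    obtain ⟨α', hα', hα0', β', hβ', hβ0', hβv', h2⟩ := exists_common_den hs hsv2 hs₂
    have nα : algebraMap M E α ≠ 0 := by rwa [Ne, map_eq_zero]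
    have nα' : algebraMap M E α' ≠ 0 := by rwa [Ne, map_eq_zero]
    have nβ : algebraMap K E β ≠ 0 := by rwa [Ne, map_eq_zero]
    have nβ' : algebraMap K E β' ≠ 0 := by rwa [Ne, map_eq_zero]
    refine ⟨(algebraMap M E α' * algebraMap K E β') * (algebraMap M E α * algebraMap K E β * s₁),
      mul_mem (mul_mem (left_mem_prodRing hα') (right_mem_prodRing hβ')) h1,
      (algebraMap M E α * algebraMap K E β) * (algebraMap M E α' * algebraMap K E β' * s₂),
      mul_mem (mul_mem (left_mem_prodRing hα) (right_mem_prodRing hβ)) h2,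
      mul_ne_zero (mul_ne_zero nα nβ) (mul_ne_zero (mul_ne_zero nα' nβ') hs0), ?_, ?_⟩
    · rw [w.map_mul (mul_ne_zero nα nβ) (mul_ne_zero (mul_ne_zero nα' nβ') hs0),
        w.map_mul nα nβ, w.map_mul (mul_ne_zero nα' nβ') hs0, w.map_mul nα' nβ',
        h.apply_left, h.apply_left, h.apply_right, h.apply_right, hβv, hβv', hw]
      rfl
    · field_simp

end Pool.Agent.Helper47.PQ
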