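import Pool.Agent.Helper47.PQ.Exp
import Pool.Agent.Helper92.Weak.VarLem

set_option autoImplicit false

/-!
# PQ-P1: the coordinate rings of the charts of a product

`isFrac_prodRing`: if `A`, `B` have fraction fields `M`, `K` and `M K` has fraction field `E`, then
`A B` has fraction field `E`. PROOF. `M K` consists of sums of products (`mem_prodRing`); take
common denominators `α ∈ A`, `β ∈ B`: every `s ∈ M K` is `s'/(α β)` with `s' ∈ A B`. Then a quotient
of two such elements is a quotient of elements of `A B`.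

`isFrac_top`: `R := ⊤ = locAt (chart k X.x 0) ⊥` (the local ring at the generic point) belongs to
`X.localRings`: every `z ∈ E` is `a/b` with `a, b` in the chart (`chart_isFrac`). By `rings`, `⊤` is
the localisation of some `prodRing E (chart F.x i) (chart Y.x j)`, so every `z ∈ E` satisfies
`z b = a` with `b ∉ p`, in particular `b ≠ 0`. So this ring, hence the larger ring `M K`,
has fraction field `E` (`IsFrac.mono`).

`isFrac_chart`: from the two previous ones and `chart_isFrac`.

`noeth_chart`: `prodRing E A B` is generated by the images of the generators of the two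
charts, so it is a finitely generated `k`-algebra (`Subalgebra.FG.sup`, `Subalgebra.FG.map`), use
`isNoetherianRing_of_fg`.

`normal_chart`: by `rings` every `locAt (prodRing ..) 𝔭` is a local ring of `X`, i.e. also some
`locAt (chart k X.x l) 𝔮`, which is integrally closed (`isIntegrallyClosed_locAt`). If `z ∈ E` is
integral over `S = prodRing ..` then it is integral over, hence lies in, every `locAt S 𝔭`, and the
ideal `{b ∈ S : z b ∈ S}` is contained in no maximal ideal, so `z ∈ S`. Conclude with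
`IsIntegrallyClosed` via `IsFractionRing S E` (`IsFrac.isFractionRing`,
`isIntegrallyClosed_iff E`).

`noeth_top`, `normal_top`: `S = prodRing E ⊤ ⊤` is the localisation of
`S₀ = prodRing E (chart F.x 0) (chart Y.x 0)` at the multiplicative set of all `α β`, `α ∈ chart F`,
`β ∈ chart Y` nonzero. Noetherian: `IsLocalization.isNoetherianRing` (or by hand: an ideal `I` of
`S` is generated by `I ∩ S₀`). Normal: `z` integral over `S` implies `z α β` integral over `S₀` for
suitable `α`, `β` (clear the denominators of the coefficients of the equation), so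
`z α β ∈ S₀` and `z ∈ S`; or `isIntegrallyClosed_of_isLocalization`.
-/

namespace Pool.Agent.Helper47.PQ

open Pool.Agent.Helper92.Weak

variable {k M K E : Type*} [Field k] [Field M] [Field K] [Field E]
  [Algebra k M] [Algebra k K] [Algebra k E] [Algebra M E] [Algebra K E]
  [IsScalarTower k M E] [IsScalarTower k K E]

theorem mapM_mem {A : Subalgebra k M} (B : Subalgebra k K) {a : M} (ha : a ∈ A) :
    algebraMap M E a ∈ prodRing E A B :=
  (le_sup_left : A.map (IsScalarTower.toAlgHom k M E) ≤ prodRing E A B)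
    (Subalgebra.mem_map.2 ⟨a, ha, rfl⟩)

theorem mapK_mem (A : Subalgebra k M) {B : Subalgebra k K} {b : K} (hb : b ∈ B) :
    algebraMap K E b ∈ prodRing E A B :=
  (le_sup_right : B.map (IsScalarTower.toAlgHom k K E) ≤ prodRing E A B)
    (Subalgebra.mem_map.2 ⟨b, hb, rfl⟩)

theorem prodRing_mono {A A' : Subalgebra k M} {B B' : Subalgebra k K} (hA : A ≤ A')
    (hB : B ≤ B') : prodRing E A B ≤ prodRing E A' B' :=
  sup_le_sup (Subalgebra.map_mono hA) (Subalgebra.map_mono hB)

theorem common_denom {A : Subalgebra k M} (hA : IsFrac A) {n : ℕ} (a : Fin n → M) :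
    ∃ α ∈ A, α ≠ 0 ∧ ∀ i, a i * α ∈ A := by
  choose p hp q hq hq0 hz using fun i => hA (a i)
  refine ⟨∏ i, q i, Subalgebra.prod_mem _ fun i _ => hq i, Finset.prod_ne_zero_iff.2
    fun i _ => hq0 i, fun i => ?_⟩
  rw [← Finset.mul_prod_erase Finset.univ q (Finset.mem_univ i), ← mul_assoc, hz i,
    div_mul_cancel₀ _ (hq0 i)]
  exact Subalgebra.mul_mem _ (hp i) (Subalgebra.prod_mem _ fun j _ => hq j)

/-- Common denominators for elements of `M K`. -/
theorem clear_denom {A : Subalgebra k M} {B : Subalgebra k K} (hA : IsFrac A) (hB : IsFrac B)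
    {s : E} (hs : s ∈ prodRing E (⊤ : Subalgebra k M) (⊤ : Subalgebra k K)) :
    ∃ α ∈ A, ∃ β ∈ B, α ≠ 0 ∧ β ≠ 0 ∧
      s * (algebraMap M E α * algebraMap K E β) ∈ prodRing E A B := by
  obtain ⟨n, a, b, -, -, rfl⟩ := mem_prodRing.1 hs
  obtain ⟨α, hα, hα0, h1⟩ := common_denom hA a
  obtain ⟨β, hβ, hβ0, h2⟩ := common_denom hB b
  refine ⟨α, hα, β, hβ, hα0, hβ0, ?_⟩
  rw [Finset.sum_mul]
  refine Subalgebra.sum_mem _ fun i _ => ?_
  have h3 : algebraMap M E (a i) * algebraMap K E (b i) *
      (algebraMap M E α * algebraMap K E β) =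
      algebraMap M E (a i * α) * algebraMap K E (b i * β) := by
    rw [map_mul, map_mul]
    ring
  rw [h3]
  exact Subalgebra.mul_mem _ (mapM_mem B (h1 i)) (mapK_mem A (h2 i))

theorem isFrac_prodRing {A : Subalgebra k M} {B : Subalgebra k K} (hA : IsFrac A) (hB : IsFrac B)
    (h : IsFrac (prodRing E (⊤ : Subalgebra k M) (⊤ : Subalgebra k K))) :
    IsFrac (prodRing E A B) := by
  intro z
  obtain ⟨s, hs, t, ht, ht0, rfl⟩ := h z
  obtain ⟨α, hα, β, hβ, hα0, hβ0, h1⟩ := clear_denom hA hB hs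
  obtain ⟨α', hα', β', hβ', hα0', hβ0', h2⟩ := clear_denom hA hB ht
  have e1 : algebraMap M E α * algebraMap K E β ∈ prodRing E A B :=
    Subalgebra.mul_mem _ (mapM_mem B hα) (mapK_mem A hβ)
  have e2 : algebraMap M E α' * algebraMap K E β' ∈ prodRing E A B :=
    Subalgebra.mul_mem _ (mapM_mem B hα') (mapK_mem A hβ')
  have e3 : algebraMap M E α * algebraMap K E β ≠ 0 := mul_ne_zero
    ((map_ne_zero _).2 hα0) ((map_ne_zero _).2 hβ0)
  have e4 : algebraMap M E α' * algebraMap K E β' ≠ 0 := mul_ne_zero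
    ((map_ne_zero _).2 hα0') ((map_ne_zero _).2 hβ0')
  refine ⟨_, Subalgebra.mul_mem _ h1 e2, _, Subalgebra.mul_mem _ h2 e1,
    mul_ne_zero (mul_ne_zero ht0 e4) e3, ?_⟩
  rw [div_eq_div_iff ht0 (mul_ne_zero (mul_ne_zero ht0 e4) e3)]
  ring

theorem isIntegral_mono {L : Type*} [Field L] [Algebra k L] {A B : Subalgebra k L} (h : A ≤ B)
    {z : L} (hz : IsIntegral A z) : IsIntegral B z := by
  obtain ⟨p, hp, he⟩ := hz
  refine ⟨p.map (Subalgebra.inclusion h).toRingHom, hp.map _, ?_⟩
  rw [Polynomial.eval₂_map]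
  exact he

/-- An element which lies in all localisations at maximal ideals lies in the ring. -/
theorem exists_max_notMem {L : Type*} [Field L] [Algebra k L] {S : Subalgebra k L} {z : L}
    (hz : z ∉ S) : ∃ (m : Ideal S) (_ : m.IsPrime), z ∉ locAt S m := by
  let I : Ideal S :=
    { carrier := {b | z * b ∈ S}
      zero_mem' := by
        change z * ((0 : S) : L) ∈ S
        simp
      add_mem' := fun {a b} ha hb => by
        change z * ((a + b : S) : L) ∈ S
        push_cast
        rw [mul_add]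
        exact S.add_mem ha hb
      smul_mem' := fun a b hb => by
        change z * ((a • b : S) : L) ∈ S
        rw [smul_eq_mul]
        push_cast
        rw [mul_left_comm]
        exact S.mul_mem a.2 hb }
  have hI : I ≠ ⊤ := by
    intro h
    have h1 : (1 : S) ∈ I := by rw [h]; trivial
    apply hz
    have h2 : z * ((1 : S) : L) ∈ S := h1
    simpa using h2
  obtain ⟨m, hm, hIm⟩ := Ideal.exists_le_maximal I hI
  refine ⟨m, hm.isPrime, ?_⟩
  have := hm.isPrime
  rintro ⟨a, b, hb, h⟩
  apply hb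
  apply hIm
  change z * b ∈ S
  rw [h]
  exact a.2

/-- The multiplicative set of the `α β`. -/
def dset (A : Subalgebra k M) (B : Subalgebra k K) : Submonoid (prodRing E A B) where
  carrier := {x | ∃ α ∈ A, ∃ β ∈ B, α ≠ 0 ∧ β ≠ 0 ∧ (x : E) = algebraMap M E α * algebraMap K E β}
  one_mem' := ⟨1, A.one_mem, 1, B.one_mem, one_ne_zero, one_ne_zero, by simp⟩
  mul_mem' := by
    rintro x y ⟨α, hα, β, hβ, hα0, hβ0, hx⟩ ⟨α', hα', β', hβ', hα0', hβ0', hy⟩
    refine ⟨α * α', A.mul_mem hα hα', β * β', B.mul_mem hβ hβ', mul_ne_zero hα0 hα0',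
      mul_ne_zero hβ0 hβ0', ?_⟩
    rw [map_mul, map_mul, Subalgebra.coe_mul, hx, hy]
    ring

/-- The inclusion of `A B` in `M K`. -/
@[reducible] def topAlg (A : Subalgebra k M) (B : Subalgebra k K) :
    Algebra (prodRing E A B) (prodRing E (⊤ : Subalgebra k M) (⊤ : Subalgebra k K)) :=
  (Subalgebra.inclusion (prodRing_mono le_top le_top)).toRingHom.toAlgebra

/-- Inclusion of subalgebras of a field: a criterion for a localisation. -/
theorem isLocalization_incl {L : Type*} [Field L] [Algebra k L] {S T : Subalgebra k L}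
    (h : S ≤ T) (D : Submonoid S) (h1 : ∀ x ∈ D, ∃ y ∈ T, (x : L) * y = 1)
    (h2 : ∀ z ∈ T, ∃ x ∈ D, z * (x : L) ∈ S) :
    letI := (Subalgebra.inclusion h).toRingHom.toAlgebra
    IsLocalization D T := by
  let _ := (Subalgebra.inclusion h).toRingHom.toAlgebra
  refine ⟨?_, ?_, ?_⟩
  · rintro ⟨x, hx⟩
    obtain ⟨y, hy, hxy⟩ := h1 x hx
    exact IsUnit.of_mul_eq_one (⟨y, hy⟩ : T) (Subtype.ext hxy)
  · rintro ⟨z, hz⟩
    obtain ⟨x, hx, hzx⟩ := h2 z hz
    exact ⟨(⟨_, hzx⟩, ⟨x, hx⟩), Subtype.ext rfl⟩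
  · intro x y hxy
    refine ⟨1, ?_⟩
    have : (x : L) = y := congrArg (fun z : T => (z : L)) hxy
    rw [Subtype.ext this]

theorem isLocalization_top {A : Subalgebra k M} {B : Subalgebra k K} (hA : IsFrac A)
    (hB : IsFrac B) :
    letI := topAlg (E := E) A B
    IsLocalization (dset (E := E) A B) (prodRing E (⊤ : Subalgebra k M) (⊤ : Subalgebra k K)) := by
  apply isLocalization_incl
  · rintro x ⟨α, hα, β, hβ, hα0, hβ0, hb⟩
    refine ⟨algebraMap M E α⁻¹ * algebraMap K E β⁻¹,
      Subalgebra.mul_mem _ (mapM_mem _ Algebra.mem_top) (mapK_mem _ Algebra.mem_top), ?_⟩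
    have h1 : algebraMap M E α ≠ 0 := (map_ne_zero _).2 hα0
    have h2 : algebraMap K E β ≠ 0 := (map_ne_zero _).2 hβ0
    rw [hb, map_inv₀, map_inv₀]
    field_simp
  · intro z hz
    obtain ⟨α, hα, β, hβ, hα0, hβ0, h1⟩ := clear_denom hA hB hz
    exact ⟨⟨algebraMap M E α * algebraMap K E β,
      Subalgebra.mul_mem _ (mapM_mem B hα) (mapK_mem A hβ)⟩, ⟨α, hα, β, hβ, hα0, hβ0, rfl⟩, h1⟩

theorem dset_le {A : Subalgebra k M} {B : Subalgebra k K} :
    dset (E := E) A B ≤ nonZeroDivisors _ := by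
  rintro x ⟨α, hα, β, hβ, hα0, hβ0, hx⟩
  apply mem_nonZeroDivisors_of_ne_zero
  intro h0
  rw [h0] at hx
  have h1 : algebraMap M E α ≠ 0 := (map_ne_zero _).2 hα0
  have h2 : algebraMap K E β ≠ 0 := (map_ne_zero _).2 hβ0
  exact mul_ne_zero h1 h2 hx.symm

namespace IsProduct

variable {F : ProjVar k M} {Y : ProjVar k K} {X : ProjVar k E}

theorem isFrac_top (h : IsProduct F Y X) :
    IsFrac (prodRing E (⊤ : Subalgebra k M) (⊤ : Subalgebra k K)) := by
  have h1 : (⊤ : Subalgebra k E) ∈ X.localRings := by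
    refine ⟨0, ⊥, Ideal.isPrime_bot, fun z => ⟨fun _ => ?_, fun _ => trivial⟩⟩
    obtain ⟨a, ha, b, hb, hb0, rfl⟩ := X.chart_isFrac 0 z
    refine ⟨⟨a, ha⟩, ⟨b, hb⟩, fun hmem => hb0 ?_, ?_⟩
    · rw [Ideal.mem_bot] at hmem
      exact congrArg Subtype.val hmem
    · exact div_mul_cancel₀ _ hb0
  obtain ⟨i, j, p, hp, h2⟩ := (h.rings ⊤).1 h1
  have h3 : IsFrac (prodRing E (chart k F.x i) (chart k Y.x j)) := by
    intro z
    obtain ⟨a, b, hb, hz⟩ := (h2 z).1 trivial
    have hb0 := coe_ne_zero_of_notMem hb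
    refine ⟨a, a.2, b, b.2, hb0, ?_⟩
    rw [eq_div_iff hb0]
    exact hz
  exact h3.mono (prodRing_mono le_top le_top)

theorem isFrac_chart (h : IsProduct F Y X) (i : Fin (F.n + 1)) (j : Fin (Y.n + 1)) :
    IsFrac (prodRing E (chart k F.x i) (chart k Y.x j)) :=
  isFrac_prodRing (F.chart_isFrac i) (Y.chart_isFrac j) h.isFrac_top

theorem noeth_chart (_h : IsProduct F Y X) (i : Fin (F.n + 1)) (j : Fin (Y.n + 1)) :
    IsNoetherianRing (prodRing E (chart k F.x i) (chart k Y.x j)) := by
  apply isNoetherianRing_of_fg (R := k)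
  exact ((chart_fg F.x i).map _).sup ((chart_fg Y.x j).map _)

theorem normal_chart (h : IsProduct F Y X) (i : Fin (F.n + 1)) (j : Fin (Y.n + 1)) :
    IsIntegrallyClosed (prodRing E (chart k F.x i) (chart k Y.x j)) := by
  have hfr := h.isFrac_chart i j
  have := hfr.isFractionRing
  rw [isIntegrallyClosed_iff E]
  intro z hz
  suffices hzS : z ∈ prodRing E (chart k F.x i) (chart k Y.x j) from ⟨⟨z, hzS⟩, rfl⟩
  by_contra hcon
  obtain ⟨m, hm, hzm⟩ := exists_max_notMem hcon
  apply hzm
  have h1 : locAt _ m ∈ X.localRings := (h.rings _).2 ⟨i, j, m, hm, fun z => mem_locAt⟩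
  obtain ⟨l, q, hq, h2⟩ := X.mem_localRings.1 h1
  have h3 : IsIntegrallyClosed (locAt (chart k X.x l) q) := isIntegrallyClosed_locAt q
  have h4 : IsIntegrallyClosed
      (locAt (prodRing E (chart k F.x i) (chart k Y.x j)) m) := by
    rw [h2]
    exact h3
  exact (hfr.mono (le_locAt m)).mem_of_isIntegral (isIntegral_mono (le_locAt m) hz)

theorem noeth_top (h : IsProduct F Y X) :
    IsNoetherianRing (prodRing E (⊤ : Subalgebra k M) (⊤ : Subalgebra k K)) := by
  let _ := topAlg (E := E) (chart k F.x 0) (chart k Y.x 0)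
  have h1 := isLocalization_top (E := E) (F.chart_isFrac 0) (Y.chart_isFrac 0)
  have h2 := h.noeth_chart 0 0
  exact IsLocalization.isNoetherianRing (dset (E := E) (chart k F.x 0) (chart k Y.x 0)) _
    inferInstance

theorem normal_top (h : IsProduct F Y X) :
    IsIntegrallyClosed (prodRing E (⊤ : Subalgebra k M) (⊤ : Subalgebra k K)) := by
  let _ := topAlg (E := E) (chart k F.x 0) (chart k Y.x 0)
  have h1 := isLocalization_top (E := E) (F.chart_isFrac 0) (Y.chart_isFrac 0)
  have h2 := h.normal_chart 0 0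
  exact isIntegrallyClosed_of_isLocalization _ (dset (E := E) (chart k F.x 0) (chart k Y.x 0))
    dset_le

end IsProduct

end Pool.Agent.Helper47.PQ
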