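import Pool.Agent.Helper47.PQ.FlagDefs

set_option autoImplicit false

/-!
# PQ-D1: the lexicographic degree on rational functions

`exists_flag_mvPoly`: the field `F` of rational functions in `n` variables has a bounded flag
valuation, the lexicographic degree.

PROOF. For a nonzero polynomial `p` let `δ p ∈ ℤⁿ` be its degree for the lexicographic monomial
order (`MonomialOrder.lex`, `MonomialOrder.degree`, `MonomialOrder.degree_mul` over a domain,
`MonomialOrder.degree_add_le`), seen in `Lex (Fin n → ℤ)` (the order of `MonomialOrder.lex` on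
exponents is the lexicographic order of `Fin n →₀ ℕ`). Extend to fractions by
`u (p/q) = δ p - δ q`; well defined and multiplicative since `δ (p q) = δ p + δ q`. `map_add`: for a
common denominator, `δ (p + q) ≤ max (δ p) (δ q)`. Constants have degree `0`.
`leaf`: if `δ (p q') = δ (p' q)` for `f = p/q`, `g = p'/q'`, let `c` be the quotient of the leading
coefficients of `p q'` and `p' q`; then `p q' - c p' q` is zero or has smaller degree.
`Bounded`: the finite dimensional space `W` is contained in `(1/g) P_D`, `P_D` = polynomials of total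
degree `≤ D`, `g` a common denominator (image of a polynomial); so
`W ^ m ⊆ g^(-m) P_{D m}` and for `f = p/g^m`, `|δ f|_i ≤ D m + m (totalDegree g)`: every exponent
of a monomial of `p` is between `0` and `D m`.
-/

namespace Pool.Agent.Helper47.PQ

open Pool.Agent.Helper92.Weak MvPolynomial

section LexDeg

variable {k : Type*} [Field k] {n : ℕ}

/-- exponents as lexicographically ordered integer vectors -/
private def toZ (a : Fin n →₀ ℕ) : Lex (Fin n → ℤ) := toLex fun i => (a i : ℤ)

private theorem toZ_add (a b : Fin n →₀ ℕ) : toZ (a + b) = toZ a + toZ b := by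
  apply ofLex.injective
  funext i
  change ((a + b) i : ℕ) = ((a i : ℤ) + (b i : ℤ))
  rw [Finsupp.add_apply]
  push_cast
  rfl

private theorem toZ_zero : toZ (0 : Fin n →₀ ℕ) = 0 := by
  apply ofLex.injective
  funext i
  rfl

private theorem toZ_lt {a b : Fin n →₀ ℕ} (h : toLex a < toLex b) : toZ a < toZ b := by
  obtain ⟨i, h1, h2⟩ := h
  refine ⟨i, fun j hj => ?_, ?_⟩
  · have := h1 j hj
    change a j = b j at this
    change (a j : ℤ) = (b j : ℤ)
    rw [this]
  · change a i < b i at h2
    change (a i : ℤ) < (b i : ℤ)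
    exact_mod_cast h2

private theorem toZ_le {a b : Fin n →₀ ℕ} (h : toLex a ≤ toLex b) : toZ a ≤ toZ b := by
  rcases h.lt_or_eq with h | h
  · exact (toZ_lt h).le
  · have : a = b := toLex.injective h
    rw [this]

/-- the monomial order -/
private noncomputable abbrev mo (n : ℕ) : MonomialOrder (Fin n) := MonomialOrder.lex

/-- the degree -/
private noncomputable def dlt (p : MvPolynomial (Fin n) k) : Lex (Fin n → ℤ) :=
  toZ ((mo n).degree p)

private theorem dlt_mul {p q : MvPolynomial (Fin n) k} (hp : p ≠ 0) (hq : q ≠ 0) :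
    dlt (p * q) = dlt p + dlt q := by
  unfold dlt
  rw [(mo n).degree_mul hp hq, toZ_add]

private theorem dlt_add (p q : MvPolynomial (Fin n) k) :
    dlt (p + q) ≤ max (dlt p) (dlt q) := by
  have h := (mo n).degree_add_le (f := p) (g := q)
  unfold dlt
  rcases le_sup_iff.1 h with h | h
  · exact le_max_of_le_left (toZ_le h)
  · exact le_max_of_le_right (toZ_le h)

private theorem dlt_one : dlt (1 : MvPolynomial (Fin n) k) = 0 := by
  unfold dlt
  rw [(mo n).degree_one, toZ_zero]

private theorem dlt_C (c : k) : dlt (C c : MvPolynomial (Fin n) k) = 0 := by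
  unfold dlt
  rw [(mo n).degree_C, toZ_zero]

private theorem dlt_pow {p : MvPolynomial (Fin n) k} (hp : p ≠ 0) (m : ℕ) :
    dlt (p ^ m) = m • dlt p := by
  induction m with
  | zero => rw [pow_zero, dlt_one, zero_smul]
  | succ m ih => rw [pow_succ, dlt_mul (pow_ne_zero _ hp) hp, ih, succ_nsmul]

private theorem dlt_leaf {p q : MvPolynomial (Fin n) k} (hp : p ≠ 0) (hq : q ≠ 0)
    (h : dlt p = dlt q) : ∃ c : k, c ≠ 0 ∧ (p = C c * q ∨ (p - C c * q ≠ 0 ∧
      dlt (p - C c * q) < dlt q)) := by
  have hdeg : (mo n).degree p = (mo n).degree q := by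
    ext i
    have := congrFun (congrArg ofLex h) i
    change (((mo n).degree p) i : ℤ) = (((mo n).degree q) i : ℤ) at this
    exact_mod_cast this
  set c : k := (mo n).leadingCoeff p / (mo n).leadingCoeff q with hc
  have hlp : (mo n).leadingCoeff p ≠ 0 := (mo n).leadingCoeff_ne_zero_iff.2 hp
  have hlq : (mo n).leadingCoeff q ≠ 0 := (mo n).leadingCoeff_ne_zero_iff.2 hq
  have hc0 : c ≠ 0 := div_ne_zero hlp hlq
  refine ⟨c, hc0, ?_⟩
  by_cases h0 : p - C c * q = 0
  · left
    exact sub_eq_zero.1 h0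
  · right
    refine ⟨h0, ?_⟩
    have hC0 : (C c : MvPolynomial (Fin n) k) ≠ 0 := by
      rwa [Ne, C_eq_zero]
    have hd : (mo n).degree (C c * q) = (mo n).degree q := by
      rw [(mo n).degree_mul hC0 hq, (mo n).degree_C, zero_add]
    have h1 := (mo n).degree_sub_le (f := p) (g := C c * q)
    rw [hd, hdeg, sup_idem] at h1
    have h2 : (mo n).degree (p - C c * q) ≠ (mo n).degree q := by
      intro h3
      have h4 : (p - C c * q).coeff ((mo n).degree (p - C c * q)) ≠ 0 :=
        (mo n).coeff_degree_ne_zero_iff.2 h0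
      apply h4
      rw [h3, coeff_sub, coeff_C_mul, ← hdeg]
      have h5 : p.coeff ((mo n).degree p) = (mo n).leadingCoeff p := rfl
      have h6 : q.coeff ((mo n).degree p) = (mo n).leadingCoeff q := by rw [hdeg]; rfl
      rw [h5, h6, hc, div_mul_cancel₀ _ hlq, sub_self]
    unfold dlt
    refine toZ_lt (lt_of_le_of_ne h1 fun h7 => h2 ?_)
    exact (mo n).toSyn.injective h7

/-- the field of rational functions -/
private abbrev RF (k : Type*) [Field k] (n : ℕ) : Type _ := FractionRing (MvPolynomial (Fin n) k)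

private theorem exists_frac (f : RF k n) : ∃ p q : MvPolynomial (Fin n) k, q ≠ 0 ∧
    f = algebraMap _ (RF k n) p / algebraMap _ (RF k n) q := by
  obtain ⟨p, q, hq, h⟩ := IsFractionRing.div_surjective (A := MvPolynomial (Fin n) k) f
  exact ⟨p, q, nonZeroDivisors.ne_zero hq, h.symm⟩

/-- the lexicographic degree of a fraction -/
private noncomputable def uu (f : RF k n) : Lex (Fin n → ℤ) :=
  dlt (exists_frac f).choose - dlt (exists_frac f).choose_spec.choose

private theorem am_ne {p : MvPolynomial (Fin n) k} (hp : p ≠ 0) :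
    algebraMap _ (RF k n) p ≠ 0 := by
  rw [Ne, FaithfulSMul.algebraMap_eq_zero_iff]
  exact hp

private theorem uu_div {p q : MvPolynomial (Fin n) k} (hp : p ≠ 0) (hq : q ≠ 0) :
    uu (algebraMap _ (RF k n) p / algebraMap _ (RF k n) q) = dlt p - dlt q := by
  set f : RF k n := algebraMap _ (RF k n) p / algebraMap _ (RF k n) q with hf
  set p' := (exists_frac f).choose with hp'
  set q' := (exists_frac f).choose_spec.choose with hq'
  obtain ⟨h1, h2⟩ := (exists_frac f).choose_spec.choose_spec
  rw [← hq', ← hp'] at h2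
  rw [← hq'] at h1
  have h3 : p * q' = p' * q := by
    apply FaithfulSMul.algebraMap_injective (MvPolynomial (Fin n) k) (RF k n)
    rw [map_mul, map_mul]
    rw [hf, div_eq_div_iff (am_ne hq) (am_ne h1)] at h2
    exact h2
  have h4 : p' ≠ 0 := by
    intro h5
    rw [h5, zero_mul] at h3
    exact (mul_ne_zero hp h1) h3
  have h5 : dlt p + dlt q' = dlt p' + dlt q := by
    rw [← dlt_mul hp h1, ← dlt_mul h4 hq, h3]
  change dlt p' - dlt q' = dlt p - dlt q
  rw [sub_eq_sub_iff_add_eq_add]
  exact h5.symm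

private theorem ne_frac {f : RF k n} (hf : f ≠ 0) : ∃ p q : MvPolynomial (Fin n) k, p ≠ 0 ∧
    q ≠ 0 ∧ f = algebraMap _ (RF k n) p / algebraMap _ (RF k n) q := by
  obtain ⟨p, q, hq, h⟩ := exists_frac f
  refine ⟨p, q, ?_, hq, h⟩
  rintro rfl
  rw [map_zero, zero_div] at h
  exact hf h

/-- the space of the fractions of the form `p / g ^ m` with `p` of total degree at most `D m` -/
private def TT (g : MvPolynomial (Fin n) k) (D m : ℕ) : Submodule k (RF k n) where
  carrier := {x | ∃ p : MvPolynomial (Fin n) k, p.totalDegree ≤ D * m ∧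
    x * algebraMap _ (RF k n) (g ^ m) = algebraMap _ (RF k n) p}
  add_mem' := by
    rintro x y ⟨p, hp, hx⟩ ⟨q, hq, hy⟩
    refine ⟨p + q, (totalDegree_add _ _).trans (max_le hp hq), ?_⟩
    rw [add_mul, hx, hy, map_add]
  zero_mem' := ⟨0, by simp, by simp⟩
  smul_mem' := by
    rintro c x ⟨p, hp, hx⟩
    refine ⟨c • p, (totalDegree_smul_le _ _).trans hp, ?_⟩
    rw [smul_mul_assoc, hx, Algebra.smul_def, Algebra.smul_def, map_mul,
      IsScalarTower.algebraMap_apply k (MvPolynomial (Fin n) k) (RF k n)]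

private theorem mem_TT {g : MvPolynomial (Fin n) k} {D m : ℕ} {x : RF k n} :
    x ∈ TT g D m ↔ ∃ p : MvPolynomial (Fin n) k, p.totalDegree ≤ D * m ∧
      x * algebraMap _ (RF k n) (g ^ m) = algebraMap _ (RF k n) p := Iff.rfl

private theorem pow_le_TT {g : MvPolynomial (Fin n) k} {D : ℕ} {W : Submodule k (RF k n)}
    (h : W ≤ TT g D 1) (m : ℕ) : W ^ m ≤ TT g D m := by
  induction m with
  | zero =>
    rw [pow_zero, Submodule.one_le]
    rw [mem_TT]
    exact ⟨1, by simp, by simp⟩
  | succ m ih =>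
    rw [pow_succ, Submodule.mul_le]
    intro x hx y hy
    obtain ⟨p, hp, hxp⟩ := mem_TT.1 (ih hx)
    obtain ⟨q, hq, hyq⟩ := mem_TT.1 (h hy)
    rw [mem_TT]
    refine ⟨p * q, (totalDegree_mul _ _).trans ?_, ?_⟩
    · rw [mul_one] at hq
      calc p.totalDegree + q.totalDegree ≤ D * m + D := Nat.add_le_add hp hq
        _ = D * (m + 1) := by ring
    · rw [map_mul, ← hxp, ← hyq, pow_one, pow_succ, map_mul]
      ring

private theorem exists_TT (W : Submodule k (RF k n)) (hW : FiniteDimensional k W) :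
    ∃ (g : MvPolynomial (Fin n) k) (D : ℕ), g ≠ 0 ∧ W ≤ TT g D 1 := by
  classical
  obtain ⟨s, hs⟩ := (Submodule.fg_iff_finiteDimensional W).2 hW
  obtain ⟨b, hb⟩ := IsLocalization.exist_integer_multiples_of_finset
    (nonZeroDivisors (MvPolynomial (Fin n) k)) s
  have hch : ∀ a : RF k n, ∃ p : MvPolynomial (Fin n) k, a ∈ s →
      a * algebraMap _ (RF k n) (b : MvPolynomial (Fin n) k) = algebraMap _ (RF k n) p := by
    intro a
    by_cases ha : a ∈ s
    · obtain ⟨p, hp⟩ := hb a ha
      refine ⟨p, fun _ => ?_⟩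
      rw [hp, Algebra.smul_def, mul_comm]
    · exact ⟨0, fun h => absurd h ha⟩
  choose P hP using hch
  refine ⟨b, s.sup fun a => (P a).totalDegree, nonZeroDivisors.coe_ne_zero b, ?_⟩
  rw [← hs, Submodule.span_le]
  intro a ha
  refine ⟨P a, ?_, ?_⟩
  · rw [mul_one]
    exact Finset.le_sup (f := fun a => (P a).totalDegree) ha
  · rw [pow_one]
    exact hP a ha

private theorem dlt_le {p : MvPolynomial (Fin n) k} (hp : p ≠ 0) {D : ℕ}
    (h : p.totalDegree ≤ D) (i : Fin n) : 0 ≤ ofLex (dlt p) i ∧ ofLex (dlt p) i ≤ D := by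
  have h1 : (mo n).degree p ∈ p.support := (mo n).degree_mem_support hp
  have h2 : ((mo n).degree p) i ≤ D :=
    (monomial_le_degreeOf i h1).trans ((degreeOf_le_totalDegree p i).trans h)
  constructor
  · change (0 : ℤ) ≤ (((mo n).degree p) i : ℤ)
    exact Int.natCast_nonneg _
  · change (((mo n).degree p) i : ℤ) ≤ (D : ℤ)
    exact_mod_cast h2

end LexDeg

theorem exists_flag_mvPoly (k : Type*) [Field k] (n : ℕ) :
    ∃ Φ : Flag k (FractionRing (MvPolynomial (Fin n) k)) n, Φ.Bounded := by
  refine ⟨⟨uu, ?_, ?_, ?_, ?_⟩, ?_⟩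
  · intro f g hf hg
    obtain ⟨p, q, hp, hq, rfl⟩ := ne_frac hf
    obtain ⟨p', q', hp', hq', rfl⟩ := ne_frac hg
    rw [div_mul_div_comm, ← map_mul, ← map_mul, uu_div (mul_ne_zero hp hp') (mul_ne_zero hq hq'),
      uu_div hp hq, uu_div hp' hq', dlt_mul hp hp', dlt_mul hq hq']
    abel
  · intro f g hf hg hfg
    obtain ⟨p, q, hp, hq, rfl⟩ := ne_frac hf
    obtain ⟨p', q', hp', hq', rfl⟩ := ne_frac hg
    rw [div_add_div _ _ (am_ne hq) (am_ne hq'), ← map_mul, ← map_mul, ← map_mul, ← map_add]
      at hfg ⊢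
    have h0 : p * q' + q * p' ≠ 0 := by
      intro h
      rw [h, map_zero, zero_div] at hfg
      exact hfg rfl
    rw [uu_div h0 (mul_ne_zero hq hq'), uu_div hp hq, uu_div hp' hq', dlt_mul hq hq']
    have h1 := dlt_add (p * q') (q * p')
    rw [dlt_mul hp hq', dlt_mul hq hp'] at h1
    rw [sub_le_iff_le_add]
    refine h1.trans (max_le ?_ ?_)
    · rw [← sub_le_iff_le_add]
      refine le_max_of_le_left (le_of_eq ?_)
      abel
    · rw [← sub_le_iff_le_add]
      refine le_max_of_le_right (le_of_eq ?_)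
      abel
  · intro c hc
    have hC : (C c : MvPolynomial (Fin n) k) ≠ 0 := by rwa [Ne, C_eq_zero]
    have h1 : algebraMap k (RF k n) c = algebraMap _ (RF k n) (C c : MvPolynomial (Fin n) k) /
        algebraMap (MvPolynomial (Fin n) k) (RF k n) 1 := by
      rw [map_one, div_one, IsScalarTower.algebraMap_apply k (MvPolynomial (Fin n) k) (RF k n)]
      rfl
    rw [h1, uu_div hC one_ne_zero, dlt_C, dlt_one, sub_zero]
  · intro f g hf hg hfg
    obtain ⟨p, q, hp, hq, rfl⟩ := ne_frac hf
    obtain ⟨p', q', hp', hq', rfl⟩ := ne_frac hg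
    rw [uu_div hp hq, uu_div hp' hq', sub_eq_sub_iff_add_eq_add] at hfg
    rw [← dlt_mul hp hq', ← dlt_mul hp' hq] at hfg
    obtain ⟨c, hc, hor⟩ := dlt_leaf (mul_ne_zero hp hq') (mul_ne_zero hp' hq) hfg
    refine ⟨c, hc, ?_⟩
    have hsm : ∀ x : RF k n, c • x = algebraMap _ (RF k n) (C c : MvPolynomial (Fin n) k) * x := by
      intro x
      rw [Algebra.smul_def,
        IsScalarTower.algebraMap_apply k (MvPolynomial (Fin n) k) (RF k n)]
      rfl
    rcases hor with h | ⟨h1, h2⟩
    · left
      rw [hsm, ← mul_div_assoc, div_eq_div_iff (am_ne hq) (am_ne hq'), ← map_mul, ← map_mul,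
        ← map_mul, h]
      congr 1
      ring
    · right
      have h3 : algebraMap _ (RF k n) p / algebraMap _ (RF k n) q -
          c • (algebraMap _ (RF k n) p' / algebraMap _ (RF k n) q') =
          algebraMap _ (RF k n) (p * q' - C c * (p' * q)) / algebraMap _ (RF k n) (q * q') := by
        rw [hsm, ← mul_div_assoc, div_sub_div _ _ (am_ne hq) (am_ne hq'), ← map_mul, ← map_mul,
          ← map_mul, ← map_mul, ← map_sub]
        congr 2
        ring
      rw [h3]
      refine ⟨div_ne_zero (am_ne h1) (am_ne (mul_ne_zero hq hq')), ?_⟩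
      rw [uu_div h1 (mul_ne_zero hq hq'), uu_div hp' hq', dlt_mul hq hq']
      rw [dlt_mul hp' hq] at h2
      rw [sub_lt_iff_lt_add]
      refine lt_of_lt_of_eq h2 ?_
      abel
  · intro W hW
    obtain ⟨g, D, hg, hWT⟩ := exists_TT W hW
    set G : ℕ := ∑ i, ((mo n).degree g) i with hG
    refine ⟨D + G, fun m _ f hf hf0 i => ?_⟩
    obtain ⟨p, hp, hfp⟩ := mem_TT.1 (pow_le_TT hWT m hf)
    have hgm : g ^ m ≠ 0 := pow_ne_zero _ hg
    have hp0 : p ≠ 0 := by
      rintro rfl
      rw [map_zero] at hfp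
      exact (mul_ne_zero hf0 (am_ne hgm)) hfp
    have h1 : f = algebraMap _ (RF k n) p / algebraMap _ (RF k n) (g ^ m) := by
      rw [eq_div_iff (am_ne hgm), hfp]
    change |ofLex (uu f) i| ≤ _
    rw [h1, uu_div hp0 hgm, dlt_pow hg]
    have h2 := dlt_le hp0 hp i
    have h3 : ofLex (dlt p - m • dlt g) i = ofLex (dlt p) i - m * ofLex (dlt g) i := by
      change ofLex (dlt p) i - m • (ofLex (dlt g) i) = _
      rw [nsmul_eq_mul]
    have h4 : ofLex (dlt g) i = (((mo n).degree g) i : ℤ) := rfl
    have h5 : ((mo n).degree g) i ≤ G := Finset.single_le_sum (f := fun i => ((mo n).degree g) i)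
      (fun _ _ => Nat.zero_le _) (Finset.mem_univ i)
    have h6 : (m : ℤ) * (((mo n).degree g) i : ℤ) ≤ G * m := by
      rw [mul_comm]
      exact mul_le_mul_of_nonneg_right (by exact_mod_cast h5) (Int.natCast_nonneg _)
    have h7 : (0 : ℤ) ≤ (m : ℤ) * (((mo n).degree g) i : ℤ) := by positivity
    have h8 : (0 : ℤ) ≤ (D : ℤ) * m := by positivity
    rw [h3, h4, abs_le]
    push_cast at h2 ⊢
    have h9 : ((D : ℤ) + G) * m = D * m + G * m := by ring
    rw [h9]
    have h10 : (0 : ℤ) ≤ (G : ℤ) * m := by positivity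
    constructor
    · linarith [h2.1]
    · linarith [h2.2]

end Pool.Agent.Helper47.PQ
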