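import Pool.Agent.Helper47.PQ.FlagDefs

set_option autoImplicit false

/-!
# PQ-D2: extension of a flag valuation to a finite extension

`exists_flag_ext`: `L/F` a finite extension, `k` algebraically closed, `Φ` a flag valuation of `F`.
There is a flag valuation `Ψ` of `L` (same `n`) and `N ≥ 1` with `Ψ.u a = N • Φ.u a` for `a ∈ F`.

PROOF. Let `O = {a ∈ F | a = 0 ∨ Φ.u a ≤ 0}`, a valuation ring of `F` (for `a ≠ 0`, `a ∈ O` or
`a⁻¹ ∈ O`), local, with maximal ideal `{a = 0 ∨ Φ.u a < 0}` and residue field `k` (`leaf` with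
`g = 1`). By `IsLocalRing.exists_factor_valuationRing` (or `LocalSubring.exists_le_valuationSubring`)
there is a valuation subring `V` of `L` which dominates the image of `O`: `O ⊆ V`, and an
element of `O` which is a unit of `V` is a unit of `O`; so `V ∩ F = O` (if `a ∈ V ∩ F`, `a ∉ O` then
`a⁻¹` is in the maximal ideal of `O`, and is a unit of `V`).
Let `d = [L : F]` and `N = d !`. Claim: for `f ∈ L` nonzero there is `c ∈ F` nonzero such that
`f ^ N / c` is a unit of `V`. Indeed `f` satisfies an equation `∑_{i ≤ d} c_i f^i = 0`, `c_i ∈ F` not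
all zero; among the nonzero terms take one, `c_i f^i`, such that `c_j f^j/(c_i f^i) ∈ V` for
all `j` (maximal value). If for all the other nonzero terms this quotient lies in the maximal
ideal, then dividing the equation by `c_i f^i` gives `1 ∈ 𝔪_V`, absurd. So for some
`j ≠ i` the quotient is a unit, say `j > i`: `f^(j-i) = (c_i/c_j) · unit`, and `j - i` divides `N`.
Define `Ψ.u f = Φ.u c`; independent of `c`: if `c/c'` is a unit of `V` it is a unit of
`O = V ∩ F`, so `Φ.u (c/c') = 0`. `map_mul` clear; for `a ∈ F` take `c = a^N`. For `f ≠ 0`: `f ∈ V` iff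
`f^N ∈ V` (valuation rings are integrally closed) iff `c ∈ V ∩ F = O` iff `Ψ.u f ≤ 0`. So
`Ψ.u f ≤ Ψ.u g` iff `f/g ∈ V`, which gives `map_add` (`(f+g)/g = f/g + 1 ∈ V`). `map_const` clear.
`leaf`: `Ψ.u f = Ψ.u g` means that `x = f/g` is a unit of `V`. `x` satisfies `∑ c_i x^i = 0`,
`c_i ∈ F` not all zero; after scaling all `c_i ∈ O` and one of them is a unit of `O`. Modulo `𝔪_V`
we get a nonzero polynomial over `O/𝔪_O = k` which kills the class of `x` in `V/𝔪_V ⊇ k`; as `k` is
algebraically closed this class is a constant `c ∈ k`, nonzero as `x` is a unit. So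
`x - c ∈ 𝔪_V`, i.e. `x = c` or `Ψ.u (x - c) < 0`.
-/

namespace Pool.Agent.Helper47.PQ

open Pool.Agent.Helper92.Weak

namespace FlagExt

variable {k F : Type*} [Field k] [Field F] [Algebra k F] {n : ℕ}

lemma u_one (Φ : Flag k F n) : Φ.u 1 = 0 := by
  have := Φ.map_const 1 one_ne_zero
  simpa using this

lemma u_inv (Φ : Flag k F n) {a : F} (ha : a ≠ 0) : Φ.u a⁻¹ = -Φ.u a := by
  have h := Φ.map_mul a a⁻¹ ha (inv_ne_zero ha)
  rw [mul_inv_cancel₀ ha, u_one] at h
  exact eq_neg_of_add_eq_zero_right h.symm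

lemma u_neg (Φ : Flag k F n) {a : F} (ha : a ≠ 0) : Φ.u (-a) = Φ.u a := by
  have h1 : Φ.u (-1 : F) = 0 := by
    have := Φ.map_const (-1) (by simp)
    simpa using this
  have := Φ.map_mul (-1) a (by simp) ha
  rw [h1, zero_add] at this
  simpa using this

lemma u_pow (Φ : Flag k F n) {a : F} (ha : a ≠ 0) (m : ℕ) : Φ.u (a ^ m) = m • Φ.u a := by
  induction m with
  | zero => simp [u_one]
  | succ m ih => rw [pow_succ, Φ.map_mul _ _ (pow_ne_zero _ ha) ha, ih, succ_nsmul]

lemma u_div (Φ : Flag k F n) {a b : F} (ha : a ≠ 0) (hb : b ≠ 0) :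
    Φ.u (a / b) = Φ.u a - Φ.u b := by
  rw [div_eq_mul_inv, Φ.map_mul _ _ ha (inv_ne_zero hb), u_inv Φ hb, sub_eq_add_neg]

/-- The valuation ring of a flag valuation. -/
def ring (Φ : Flag k F n) : Subring F where
  carrier := {a | a = 0 ∨ Φ.u a ≤ 0}
  zero_mem' := Or.inl rfl
  one_mem' := Or.inr (u_one Φ).le
  add_mem' := by
    rintro a b ha hb
    by_cases h0 : a + b = 0
    · exact Or.inl h0
    rcases ha with rfl | ha
    · simpa using hb
    rcases hb with rfl | hb
    · simpa using Or.inr ha
    by_cases ha0 : a = 0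
    · subst ha0; simpa using Or.inr hb
    by_cases hb0 : b = 0
    · subst hb0; simpa using Or.inr ha
    exact Or.inr ((Φ.map_add a b ha0 hb0 h0).trans (max_le ha hb))
  mul_mem' := by
    rintro a b ha hb
    by_cases ha0 : a = 0
    · left; simp [ha0]
    by_cases hb0 : b = 0
    · left; simp [hb0]
    right
    rw [Φ.map_mul a b ha0 hb0]
    exact add_nonpos (ha.resolve_left ha0) (hb.resolve_left hb0)
  neg_mem' := by
    rintro a ha
    by_cases ha0 : a = 0
    · left; simp [ha0]
    right
    rw [u_neg Φ ha0]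
    exact ha.resolve_left ha0

/-- The maximal ideal of the valuation ring of a flag valuation. -/
def max (Φ : Flag k F n) : Ideal (ring Φ) where
  carrier := {a | (a : F) = 0 ∨ Φ.u (a : F) < 0}
  zero_mem' := Or.inl rfl
  add_mem' := by
    rintro ⟨a, ha'⟩ ⟨b, hb'⟩ ha hb
    simp only [Set.mem_setOf_eq] at ha hb ⊢
    change a + b = 0 ∨ Φ.u (a + b) < 0
    by_cases h0 : a + b = 0
    · exact Or.inl h0
    by_cases ha0 : a = 0
    · subst ha0; simpa using hb
    by_cases hb0 : b = 0
    · subst hb0; simpa using ha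
    exact Or.inr ((Φ.map_add a b ha0 hb0 h0).trans_lt
      (max_lt (ha.resolve_left ha0) (hb.resolve_left hb0)))
  smul_mem' := by
    rintro ⟨a, ha'⟩ ⟨b, hb'⟩ hb
    simp only [Set.mem_setOf_eq] at hb ⊢
    change a * b = 0 ∨ Φ.u (a * b) < 0
    by_cases ha0 : a = 0
    · left; simp [ha0]
    by_cases hb0 : b = 0
    · left; simp [hb0]
    right
    rw [Φ.map_mul a b ha0 hb0]
    exact add_neg_of_nonpos_of_neg (ha'.resolve_left ha0) (hb.resolve_left hb0)

lemma max_ne_top (Φ : Flag k F n) : max Φ ≠ ⊤ := by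
  intro h
  have : (1 : ring Φ) ∈ max Φ := by rw [h]; trivial
  rcases this with h | h
  · exact one_ne_zero h
  · change Φ.u (1 : F) < 0 at h
    rw [u_one] at h
    exact lt_irrefl _ h

/-- A valuation of the extension which induces the order of the flag valuation. -/
lemma exists_val {L : Type*} [Field L] [Algebra F L] (Φ : Flag k F n) :
    ∃ V : ValuationSubring L, ∀ a b : F, a ≠ 0 → b ≠ 0 →
      (V.valuation (algebraMap F L a) ≤ V.valuation (algebraMap F L b) ↔ Φ.u a ≤ Φ.u b) := by
  set A : Subring L := (ring Φ).map (algebraMap F L) with hA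
  set e : ring Φ ≃+* A := (ring Φ).equivMapOfInjective (algebraMap F L)
    (algebraMap F L).injective with he
  obtain ⟨V, hV1, hV2⟩ := Ideal.image_subset_nonunits_valuationSubring
    ((max Φ).map (e : ring Φ →+* A)) (by
      intro h
      apply max_ne_top Φ
      have h2 := congrArg (Ideal.comap (e : ring Φ →+* A)) h
      rw [Ideal.comap_top] at h2
      rw [← h2]
      exact (Ideal.comap_map_of_bijective _ e.bijective).symm)
  refine ⟨V, ?_⟩
  have h1 : ∀ a : F, a ≠ 0 → Φ.u a ≤ 0 → V.valuation (algebraMap F L a) ≤ 1 := by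
    intro a ha0 ha
    rw [V.valuation_le_one_iff]
    apply hV1
    exact ⟨a, Or.inr ha, rfl⟩
  have h2 : ∀ a : F, a ≠ 0 → Φ.u a < 0 → V.valuation (algebraMap F L a) < 1 := by
    intro a ha0 ha
    rw [← V.mem_nonunits_iff]
    apply hV2
    refine ⟨e ⟨a, Or.inr ha.le⟩, ?_, rfl⟩
    exact Ideal.mem_map_of_mem _ (show (⟨a, Or.inr ha.le⟩ : ring Φ) ∈ max Φ from Or.inr ha)
  have h3 : ∀ a : F, a ≠ 0 → (V.valuation (algebraMap F L a) ≤ 1 ↔ Φ.u a ≤ 0) := by
    intro a ha0
    refine ⟨fun h => ?_, h1 a ha0⟩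
    by_contra hlt
    rw [not_le] at hlt
    have h4 := h2 a⁻¹ (inv_ne_zero ha0) (by rw [u_inv Φ ha0]; exact neg_lt_zero.mpr hlt)
    rw [map_inv₀, map_inv₀] at h4
    have h5 : V.valuation (algebraMap F L a) ≠ 0 := by
      rw [ne_eq, map_eq_zero, map_eq_zero]; exact ha0
    have h6 := mul_lt_mul_of_pos_left h4 (zero_lt_iff.mpr h5)
    rw [mul_inv_cancel₀ h5, mul_one] at h6
    exact absurd h (not_le.mpr h6)
  intro a b ha hb
  have h5 : V.valuation (algebraMap F L b) ≠ 0 := by
    rw [ne_eq, map_eq_zero, map_eq_zero]; exact hb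
  have h6 := h3 (a / b) (div_ne_zero ha hb)
  rw [u_div Φ ha hb, map_div₀, map_div₀, sub_nonpos] at h6
  rw [← h6, div_le_one₀ (zero_lt_iff.mpr h5)]

end FlagExt

open FlagExt Polynomial in
theorem exists_flag_ext {k F L : Type*} [Field k] [IsAlgClosed k] [Field F] [Field L]
    [Algebra k F] [Algebra k L] [Algebra F L] [IsScalarTower k F L] [FiniteDimensional F L]
    {n : ℕ} (Φ : Flag k F n) :
    ∃ (Ψ : Flag k L n) (N : ℕ), 1 ≤ N ∧ ∀ a : F, a ≠ 0 →
      Ψ.u (algebraMap F L a) = N • Φ.u a := by
  classical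
  obtain ⟨V, hV⟩ := exists_val (L := L) Φ
  set v := V.valuation with hv
  have hVeq : ∀ a b : F, a ≠ 0 → b ≠ 0 →
      (v (algebraMap F L a) = v (algebraMap F L b) ↔ Φ.u a = Φ.u b) := by
    intro a b ha hb
    rw [le_antisymm_iff, le_antisymm_iff, hV a b ha hb, hV b a hb ha]
  have hv0 : ∀ x : L, x ≠ 0 → v x ≠ 0 := fun x hx => by
    rw [ne_eq, map_eq_zero]; exact hx
  set N := (Module.finrank F L).factorial with hN
  have hN1 : 1 ≤ N := Nat.factorial_pos _
  -- the values of powers
  have hB : ∀ f : L, f ≠ 0 → ∃ c : F, c ≠ 0 ∧ v (f ^ N) = v (algebraMap F L c) := by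
    intro f hf
    set p := minpoly F f with hp
    have hint : IsIntegral F f := IsIntegral.of_finite F f
    have hp0 : p ≠ 0 := minpoly.ne_zero hint
    have hsum : ∑ i ∈ p.support, algebraMap F L (p.coeff i) * f ^ i = 0 := by
      have h := minpoly.aeval F f
      rw [aeval_eq_sum_range' (lt_add_one _), ] at h
      rw [← h, ← hp]
      rw [Finset.sum_subset (s₁ := p.support) (s₂ := Finset.range (p.natDegree + 1))]
      · exact Finset.sum_congr rfl fun i _ => by rw [Algebra.smul_def]
      · intro i hi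
        rw [Finset.mem_range, Nat.lt_add_one_iff]
        exact le_natDegree_of_mem_supp i hi
      · intro i _ hi
        rw [notMem_support_iff.mp hi]; simp
    have hne : p.support.Nonempty := by
      rw [support_nonempty]; exact hp0
    have hterm : ∀ i ∈ p.support, v (algebraMap F L (p.coeff i) * f ^ i) ≠ 0 := by
      intro i hi
      apply hv0
      refine mul_ne_zero ?_ (pow_ne_zero _ hf)
      rw [ne_eq, map_eq_zero]
      exact mem_support_iff.mp hi
    obtain ⟨i, j, hi, hj, hij, hval⟩ : ∃ i j, i ∈ p.support ∧ j ∈ p.support ∧ i < j ∧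
        v (algebraMap F L (p.coeff i) * f ^ i) = v (algebraMap F L (p.coeff j) * f ^ j) := by
      by_contra hcon
      push Not at hcon
      obtain ⟨m, hm, hmax⟩ := p.support.exists_max_image
        (fun i => v (algebraMap F L (p.coeff i) * f ^ i)) hne
      have hlt : ∀ i ∈ p.support \ {m}, v (algebraMap F L (p.coeff i) * f ^ i) <
          v (algebraMap F L (p.coeff m) * f ^ m) := by
        intro i hi
        rw [Finset.mem_sdiff, Finset.mem_singleton] at hi
        refine lt_of_le_of_ne (hmax i hi.1) ?_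
        rcases lt_or_gt_of_ne hi.2 with h | h
        · exact hcon i m hi.1 hm h
        · exact (hcon m i hm hi.1 h).symm
      have h := v.map_sum_eq_of_lt (s := p.support)
        (f := fun i => algebraMap F L (p.coeff i) * f ^ i) hm hlt
      rw [hsum, map_zero] at h
      exact hterm m hm h.symm
    have hci : p.coeff i ≠ 0 := mem_support_iff.mp hi
    have hcj : p.coeff j ≠ 0 := mem_support_iff.mp hj
    have hjd : j ≤ Module.finrank F L :=
      (le_natDegree_of_mem_supp j hj).trans (minpoly.natDegree_le f)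
    have hdvd : j - i ∣ N := Nat.dvd_factorial (by omega) (by omega)
    obtain ⟨t, ht⟩ := hdvd
    refine ⟨(p.coeff i / p.coeff j) ^ t, pow_ne_zero _ (div_ne_zero hci hcj), ?_⟩
    have hkey : v (f ^ (j - i)) = v (algebraMap F L (p.coeff i / p.coeff j)) := by
      rw [map_div₀ (algebraMap F L), map_div₀ v]
      have h1 : v (algebraMap F L (p.coeff j)) ≠ 0 := hv0 _ (by rw [ne_eq, map_eq_zero]; exact hcj)
      have h2 : v (f ^ i) ≠ 0 := hv0 _ (pow_ne_zero _ hf)
      rw [eq_div_iff h1]
      apply mul_right_cancel₀ h2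
      rw [← map_mul, ← map_mul, ← map_mul, hval]
      congr 1
      rw [show f ^ j = f ^ (j - i) * f ^ i by rw [← pow_add]; congr 1; omega]
      ring
    rw [ht, pow_mul, map_pow v, hkey, map_pow (algebraMap F L), map_pow v]
  choose! c hc0 hc using hB
  -- comparison of values
  have hcmp : ∀ f g : L, f ≠ 0 → g ≠ 0 → (Φ.u (c f) ≤ Φ.u (c g) ↔ v f ≤ v g) := by
    intro f g hf hg
    rw [← hV _ _ (hc0 f hf) (hc0 g hg), ← hc f hf, ← hc g hg, map_pow, map_pow]
    exact pow_le_pow_iff_left₀ zero_le' zero_le' (by omega)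
  have hcmpeq : ∀ f g : L, f ≠ 0 → g ≠ 0 → (Φ.u (c f) = Φ.u (c g) ↔ v f = v g) := by
    intro f g hf hg
    rw [le_antisymm_iff, le_antisymm_iff, hcmp f g hf hg, hcmp g f hg hf]
  have hF : ∀ a : F, a ≠ 0 → Φ.u (c (algebraMap F L a)) = N • Φ.u a := by
    intro a ha
    have ha' : algebraMap F L a ≠ 0 := by rw [ne_eq, map_eq_zero]; exact ha
    rw [← u_pow Φ ha, ← hVeq _ _ (hc0 _ ha') (pow_ne_zero _ ha), ← hc _ ha', map_pow (algebraMap F L)]
  have hmul : ∀ f g : L, f ≠ 0 → g ≠ 0 → Φ.u (c (f * g)) = Φ.u (c f) + Φ.u (c g) := by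
    intro f g hf hg
    rw [← Φ.map_mul _ _ (hc0 f hf) (hc0 g hg),
      ← hVeq _ _ (hc0 _ (mul_ne_zero hf hg)) (mul_ne_zero (hc0 f hf) (hc0 g hg)),
      ← hc _ (mul_ne_zero hf hg), map_mul (algebraMap F L), map_mul v, ← hc f hf, ← hc g hg,
      mul_pow, map_mul]
  have hconst : ∀ a : k, a ≠ 0 → Φ.u (c (algebraMap k L a)) = 0 := by
    intro a ha
    rw [IsScalarTower.algebraMap_apply k F L, hF _ (by rw [ne_eq, map_eq_zero]; exact ha),
      Φ.map_const a ha, nsmul_zero]
  have hvconst : ∀ a : k, a ≠ 0 → v (algebraMap k L a) = 1 := by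
    intro a ha
    have ha' : algebraMap k L a ≠ 0 := by rw [ne_eq, map_eq_zero]; exact ha
    have h := (hcmpeq (algebraMap k L a) 1 ha' one_ne_zero).mp (by
      rw [hconst a ha]
      have := hconst 1 one_ne_zero
      rw [map_one] at this
      exact this.symm)
    rw [h, map_one]
  have hvle : ∀ a : k, v (algebraMap k L a) ≤ 1 := by
    intro a
    by_cases ha : a = 0
    · rw [ha, map_zero, map_zero]; exact zero_le'
    · exact (hvconst a ha).le
  -- the residue classes
  have hleaf : ∀ x : L, v x = 1 → ∃ a : k, a ≠ 0 ∧ v (x - algebraMap k L a) < 1 := by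
    intro x hx
    have hx0 : x ≠ 0 := by
      rintro rfl
      rw [map_zero] at hx
      exact zero_ne_one hx
    set p := minpoly F x with hp
    have hint : IsIntegral F x := IsIntegral.of_finite F x
    have hp0 : p ≠ 0 := minpoly.ne_zero hint
    have hne : p.support.Nonempty := by
      rw [support_nonempty]; exact hp0
    obtain ⟨m, hm, hmax⟩ := p.support.exists_max_image (fun i => Φ.u (p.coeff i)) hne
    have hcm : p.coeff m ≠ 0 := mem_support_iff.mp hm
    set q : F[X] := C (p.coeff m)⁻¹ * p with hq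
    have hqc : ∀ i, q.coeff i = (p.coeff m)⁻¹ * p.coeff i := fun i => coeff_C_mul _
    have hqm : q.coeff m = 1 := by rw [hqc, inv_mul_cancel₀ hcm]
    have hqev : aeval x q = 0 := by
      rw [hq, map_mul, hp, minpoly.aeval, mul_zero]
    have hqle : ∀ i, q.coeff i ≠ 0 → Φ.u (q.coeff i) ≤ 0 := by
      intro i hi
      have hpi : p.coeff i ≠ 0 := by
        intro h; apply hi; rw [hqc, h, mul_zero]
      rw [hqc, Φ.map_mul _ _ (inv_ne_zero hcm) hpi, u_inv Φ hcm, neg_add_nonpos_iff]
      exact hmax i (mem_support_iff.mpr hpi)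
    -- constants approximating the coefficients
    have happ : ∀ b : F, (b ≠ 0 → Φ.u b ≤ 0) → ∃ a : k,
        v (algebraMap F L b - algebraMap k L a) < 1 := by
      intro b hb
      by_cases hb0 : b = 0
      · exact ⟨0, by rw [hb0, map_zero, map_zero, sub_zero, map_zero]; exact zero_lt_one⟩
      have hb1 : algebraMap F L b ≠ 0 := by rw [ne_eq, map_eq_zero]; exact hb0
      have hlt1 : ∀ z : F, z ≠ 0 → Φ.u z < 0 → v (algebraMap F L z) < 1 := by
        intro z hz hz1
        rw [← map_one v, ← map_one (algebraMap F L), lt_iff_not_ge, hV 1 z one_ne_zero hz, u_one,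
          not_le]
        exact hz1
      rcases (hb hb0).lt_or_eq with h | h
      · exact ⟨0, by rw [map_zero, sub_zero]; exact hlt1 b hb0 h⟩
      · obtain ⟨a, ha0, ha⟩ := Φ.leaf b 1 hb0 one_ne_zero (by rw [h, u_one])
        refine ⟨a, ?_⟩
        rw [IsScalarTower.algebraMap_apply k F L, ← map_sub,
          Algebra.algebraMap_eq_smul_one (A := F) a]
        rcases ha with ha | ⟨ha1, ha2⟩
        · rw [← ha, sub_self, map_zero, map_zero]; exact zero_lt_one
        · exact hlt1 _ ha1 (by rw [u_one] at ha2; exact ha2)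
    choose! d hd using happ
    set r : k[X] := ∑ i ∈ Finset.range (q.natDegree + 1), monomial i (d (q.coeff i)) with hr
    have hrc : ∀ i ∈ Finset.range (q.natDegree + 1), r.coeff i = d (q.coeff i) := by
      intro i hi
      rw [hr, finsetSum_coeff]
      simp only [coeff_monomial]
      rw [Finset.sum_ite_eq' (Finset.range (q.natDegree + 1)) i, if_pos hi]
    have hmr : m ∈ Finset.range (q.natDegree + 1) := by
      rw [Finset.mem_range, Nat.lt_add_one_iff]
      exact le_natDegree_of_ne_zero (by rw [hqm]; exact one_ne_zero)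
    have hr0 : r ≠ 0 := by
      intro h
      have h1 := hrc m hmr
      rw [h, coeff_zero] at h1
      have h2 := hd (q.coeff m) (hqle m)
      rw [← h1, hqm, map_one, map_zero, sub_zero, map_one] at h2
      exact lt_irrefl _ h2
    have hrev : v (aeval x r) < 1 := by
      have h1 : aeval x r = -(aeval x q - aeval x r) := by rw [hqev]; ring
      rw [h1, Valuation.map_neg, aeval_eq_sum_range, hr, map_sum, ← Finset.sum_sub_distrib]
      apply v.map_sum_lt one_ne_zero
      intro i hi
      rw [aeval_monomial, Algebra.smul_def, ← sub_mul, map_mul, map_pow, hx, one_pow, mul_one]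
      exact hd (q.coeff i) (hqle i)
    have hprod := IsAlgClosed.splits r
    have hfac : aeval x r = algebraMap k L r.leadingCoeff *
        (r.roots.map fun a => x - algebraMap k L a).prod := by
      conv_lhs => rw [hprod.eq_prod_roots]
      rw [map_mul, aeval_C, map_multiset_prod, Multiset.map_map]
      congr 2
      apply Multiset.map_congr rfl
      intro a _
      simp
    have hlc : v (algebraMap k L r.leadingCoeff) = 1 := hvconst _ (leadingCoeff_ne_zero.mpr hr0)
    obtain ⟨a, ha, ha1⟩ : ∃ a ∈ r.roots, v (x - algebraMap k L a) < 1 := by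
      by_contra hcon
      push Not at hcon
      have h1 : ∀ s : Multiset k, (∀ a ∈ s, 1 ≤ v (x - algebraMap k L a)) →
          1 ≤ v (s.map fun a => x - algebraMap k L a).prod := by
        intro s
        induction s using Multiset.induction_on with
        | empty => intro _; simp
        | cons a s ih =>
          intro h
          rw [Multiset.map_cons, Multiset.prod_cons, map_mul]
          exact one_le_mul (h a (Multiset.mem_cons_self a s))
            (ih fun b hb => h b (Multiset.mem_cons_of_mem hb))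
      have h2 := h1 r.roots hcon
      rw [hfac, map_mul, hlc, one_mul] at hrev
      exact absurd h2 (not_le.mpr hrev)
    refine ⟨a, ?_, ha1⟩
    rintro rfl
    rw [map_zero, sub_zero, hx] at ha1
    exact lt_irrefl _ ha1
  refine ⟨{ u := fun f => Φ.u (c f)
            map_mul := hmul
            map_add := ?_
            map_const := hconst
            leaf := ?_ }, N, hN1, hF⟩
  · intro f g hf hg hfg
    have h := v.map_add f g
    rcases le_total (v f) (v g) with h1 | h1
    · rw [max_eq_right h1] at h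
      exact le_max_of_le_right ((hcmp _ _ hfg hg).mpr h)
    · rw [max_eq_left h1] at h
      exact le_max_of_le_left ((hcmp _ _ hfg hf).mpr h)
  · intro f g hf hg hfg
    have h1 := (hcmpeq f g hf hg).mp hfg
    have h2 : v (f / g) = 1 := by
      rw [map_div₀, h1, div_self (hv0 g hg)]
    obtain ⟨a, ha0, ha⟩ := hleaf (f / g) h2
    refine ⟨a, ha0, ?_⟩
    by_cases h3 : f = a • g
    · exact Or.inl h3
    right
    have h4 : f - a • g ≠ 0 := sub_ne_zero.mpr h3
    refine ⟨h4, ?_⟩
    apply lt_of_not_ge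
    rw [hcmp g _ hg h4, not_le]
    have h5 : f - a • g = (f / g - algebraMap k L a) * g := by
      rw [sub_mul, div_mul_cancel₀ f hg, Algebra.smul_def]
    rw [h5, map_mul]
    have h6 := mul_lt_mul_of_pos_right ha (zero_lt_iff.mpr (hv0 g hg))
    rwa [one_mul] at h6

end Pool.Agent.Helper47.PQ
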