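import Pool.Agent.Helper47.PQ.D1
import Pool.Agent.Helper47.PQ.D2
import Pool.Agent.Helper47.PQ.D3

set_option autoImplicit false

/-!
# PQ-D4: function fields of projective varieties have bounded flag valuations

PROOF. `L = Frac (chart k X.x 0)` is finitely generated over `k` (`X.gen 0`: adjoining the finite set of
the `xⱼ/x₀` gives `⊤`). Choose a transcendence basis among the generators
(`exists_isTranscendenceBasis_subset`-like lemma, finite), `t : Fin n → L`. The algebraic
independence gives an embedding `MvPolynomial (Fin n) k → L`, hence of its fraction field `F` into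
`L` (`IsFractionRing.lift` / `IsLocalization.lift`, injective); use it as `Algebra F L` instance
(`RingHom.toAlgebra`, scalar tower `IsScalarTower.of_algebraMap_eq`). `L` is algebraic over `F` and
generated by finitely many elements, so finite dimensional
(`IntermediateField.finiteDimensional_adjoin`-like lemma,
or `Algebra.IsAlgebraic` and `Algebra.FiniteType`/essentially of finite type). Apply `D1`, `D2`, `D3`.
-/

namespace Pool.Agent.Helper47.PQ

open Pool.Agent.Helper92.Weak

theorem exists_flag {k L : Type*} [Field k] [IsAlgClosed k] [Field L] [Algebra k L]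
    (X : ProjVar k L) : ∃ (n : ℕ) (Φ : Flag k L n), Φ.Bounded := by
  classical
  set s : Set L := Set.range fun j => X.x j / X.x 0 with hs
  have hsfin : s.Finite := Set.finite_range _
  have hgen : IntermediateField.adjoin k s = ⊤ := X.gen 0
  have halg : Algebra.IsAlgebraic (Algebra.adjoin k s) L := by
    refine ⟨fun x => ?_⟩
    have hx : x ∈ IntermediateField.adjoin k s := by rw [hgen]; trivial
    obtain ⟨a, ha, b, hb, rfl⟩ := IntermediateField.mem_adjoin_iff_div.1 hx
    have h1 : IsAlgebraic (Algebra.adjoin k s) a :=
      isAlgebraic_algebraMap (⟨a, ha⟩ : Algebra.adjoin k s)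
    have h2 : IsAlgebraic (Algebra.adjoin k s) b :=
      isAlgebraic_algebraMap (⟨b, hb⟩ : Algebra.adjoin k s)
    rw [div_eq_mul_inv]
    exact h1.mul h2.inv
  obtain ⟨u, hus, hu⟩ := exists_isTranscendenceBasis_subset (R := k) (A := L) s
  have hufin : u.Finite := hsfin.subset hus
  have : Finite u := hufin.to_subtype
  obtain ⟨n, ⟨ε⟩⟩ := Finite.exists_equiv_fin u
  let t : Fin n → L := fun i => (ε.symm i : L)
  have ht : IsTranscendenceBasis k t := by
    exact (isTranscendenceBasis_equiv ε.symm).2 hu
  let F := FractionRing (MvPolynomial (Fin n) k)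
  have hinj : Function.Injective (MvPolynomial.aeval t : MvPolynomial (Fin n) k →ₐ[k] L) := ht.1
  let φ : F →ₐ[k] L := IsFractionRing.liftAlgHom (g := (MvPolynomial.aeval t :
    MvPolynomial (Fin n) k →ₐ[k] L)) hinj
  let iF : Algebra F L := φ.toRingHom.toAlgebra
  have hst : IsScalarTower k F L := IsScalarTower.of_algebraMap_eq fun r => (φ.commutes r).symm
  have halgF : Algebra.IsAlgebraic F L := by
    rw [ht.isAlgebraic_iff]
    intro i
    have e : t i = algebraMap F L (algebraMap (MvPolynomial (Fin n) k) F (MvPolynomial.X i)) := by
      change t i = φ _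
      rw [IsFractionRing.liftAlgHom_apply, IsFractionRing.lift_algebraMap]
      change t i = MvPolynomial.aeval t (MvPolynomial.X i)
      rw [MvPolynomial.aeval_X]
    rw [e]
    exact isAlgebraic_algebraMap _
  have hfd : FiniteDimensional F L := by
    have : Finite s := hsfin.to_subtype
    have h1 : FiniteDimensional F (IntermediateField.adjoin F s) :=
      IntermediateField.finiteDimensional_adjoin fun x _ =>
        (halgF.isAlgebraic x).isIntegral
    have h2 : IntermediateField.adjoin F s = ⊤ := by
      rw [eq_top_iff]
      intro x _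
      have hx : x ∈ IntermediateField.adjoin k s := by rw [hgen]; trivial
      have h3 : IntermediateField.adjoin k s ≤
          (IntermediateField.adjoin F s).restrictScalars k := by
        rw [IntermediateField.adjoin_le_iff]
        exact IntermediateField.subset_adjoin F s
      exact h3 hx
    rw [h2] at h1
    exact (IntermediateField.topEquiv (F := F) (E := L)).toLinearEquiv.finiteDimensional
  obtain ⟨Φ, hΦ⟩ := exists_flag_mvPoly k n
  obtain ⟨Ψ, N, _, hΨ⟩ := exists_flag_ext (L := L) Φ
  exact ⟨n, Ψ, bounded_ext Φ hΦ Ψ N hΨ⟩

end Pool.Agent.Helper47.PQ
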