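import Pool.Agent.Helper47.PQ.FlagDefs

set_option autoImplicit false

/-!
# PQ-D6: counting points of graded semigroups

`semigroup_upper`, `semigroup_lower`: `G ⊆ ℤⁿ × ℕ_{≥1}` with `|x_i| ≤ C m` for `(x, m) ∈ G`,
nonempty; `rkQ G = d + 1`. Then the slices `G_m = {x | (x, m) ∈ G}` are finite with at most
`(2 C m + 1)^d` elements; and if `G` is closed under addition, for every `N ≥ 1` there is
`m₀ ≥ 1` divisible by `N` with `m^d ≤ d! · #G_{m m₀}` for all `m ≥ 1`.

PROOF. Let `V` be the `ℚ`-span of `toQ '' G`, `dim V = d + 1 ≥ 1` (`G` nonempty with last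
coordinate `≥ 1`). The `n + 1` coordinate functionals span the dual of `V`, the last one
`λ` is nonzero on `V`; so `λ` together with `d` other coordinates `i_1, ..., i_d` is a basis of the
dual of `V`; hence `(x, m) ∈ G` is determined by `m` and `x_{i_1}, ..., x_{i_d}`, each of which is
an integer in `[-C m, C m]`: at most `(2 C m + 1)^d` values. (If one prefers: induction.)
Lower bound: choose `γ_0, ..., γ_d ∈ G` with `toQ γ_i` a basis of `V`
(`exists_linearIndependent`-like lemmas for a spanning set). Let `m_i` be the degree of `γ_i`,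
`m₀ = N ∏ m_i`, and replace `γ_i` by `γ'_i = (m₀/m_i) γ_i ∈ G` (closed under addition, positive
multiples), all of degree `m₀`, still independent. For `m ≥ 1` the sums `∑ a_i γ'_i`, `a_i ∈ ℕ`,
`∑ a_i = m`, lie in `G`, have degree `m m₀`, and are pairwise distinct. Their number is
`binom(m + d, d) ≥ m^d/d!` (`Finset.Nat.antidiagonalTuple`/`Sym.card`; or simpler:
take only `(a_1, ..., a_d)` with `a_i ≤ m/d`-type boxes; to get the constant `d!` use
`Nat.pow_le_choose`-like lemma or `Nat.ascFactorial`/`Nat.pow_succ_le_ascFactorial`).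
-/

namespace Pool.Agent.Helper47.PQ

private theorem d6_add {n : ℕ} (x y : (Fin n → ℤ) × ℕ) : toQ (x + y) = toQ x + toQ y := by
  refine Prod.ext ?_ ?_
  · funext i
    simp [toQ]
  · simp [toQ]

private theorem d6_zero {n : ℕ} : toQ (0 : (Fin n → ℤ) × ℕ) = 0 := by
  refine Prod.ext ?_ ?_
  · funext i
    simp [toQ]
  · simp [toQ]

private theorem d6_nsmul {n : ℕ} (k : ℕ) (x : (Fin n → ℤ) × ℕ) :
    toQ (k • x) = (k : ℚ) • toQ x := by
  induction k with
  | zero => rw [zero_nsmul, d6_zero, Nat.cast_zero, zero_smul]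
  | succ k ih => rw [succ_nsmul, d6_add, ih, Nat.cast_succ, add_smul, one_smul]

private theorem d6_sum {n : ℕ} {κ : Type*} (s : Finset κ) (f : κ → (Fin n → ℤ) × ℕ) :
    toQ (∑ i ∈ s, f i) = ∑ i ∈ s, toQ (f i) := by
  classical
  induction s using Finset.induction_on with
  | empty => rw [Finset.sum_empty, Finset.sum_empty, d6_zero]
  | insert a s ha ih => rw [Finset.sum_insert ha, Finset.sum_insert ha, d6_add, ih]

theorem rkQ_pos {n : ℕ} {G : Set ((Fin n → ℤ) × ℕ)} (h1 : ∀ x ∈ G, 1 ≤ x.2) (hne : G.Nonempty) :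
    1 ≤ rkQ G := by
  obtain ⟨x, hx⟩ := hne
  have h2 : toQ x ∈ Submodule.span ℚ (toQ '' G) := Submodule.subset_span ⟨x, hx, rfl⟩
  have h3 : toQ x ≠ 0 := by
    intro h0
    have h4 : ((x.2 : ℕ) : ℚ) = 0 := congrArg Prod.snd h0
    have h5 := h1 x hx
    have h6 : x.2 = 0 := by exact_mod_cast h4
    omega
  have : Nontrivial (Submodule.span ℚ (toQ '' G)) :=
    ⟨⟨⟨toQ x, h2⟩, 0, fun h => h3 (congrArg Subtype.val h)⟩⟩
  exact Module.finrank_pos

theorem semigroup_upper {n : ℕ} (G : Set ((Fin n → ℤ) × ℕ)) (h1 : ∀ x ∈ G, 1 ≤ x.2)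
    (hne : G.Nonempty) (C : ℕ) (hC : ∀ x ∈ G, ∀ i, |x.1 i| ≤ C * x.2) {d : ℕ}
    (hd : rkQ G = d + 1) (m : ℕ) :
    {x | (x, m) ∈ G}.Finite ∧ {x | (x, m) ∈ G}.ncard ≤ (2 * C * m + 1) ^ d := by
  classical
  set V : Submodule ℚ ((Fin n → ℚ) × ℚ) := Submodule.span ℚ (toQ '' G) with hV
  have hVd : Module.finrank ℚ V = d + 1 := hd
  set V0 : Submodule ℚ ((Fin n → ℚ) × ℚ) :=
    V ⊓ LinearMap.ker (LinearMap.snd ℚ (Fin n → ℚ) ℚ) with hV0
  have hlt : V0 < V := by
    refine lt_of_le_of_ne inf_le_left fun h0 => ?_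
    obtain ⟨x, hx⟩ := hne
    have h2 : toQ x ∈ V := Submodule.subset_span ⟨x, hx, rfl⟩
    rw [← h0] at h2
    have h4 : ((x.2 : ℕ) : ℚ) = 0 := h2.2
    have h5 := h1 x hx
    have h6 : x.2 = 0 := by exact_mod_cast h4
    omega
  have hV0d : Module.finrank ℚ V0 ≤ d := by
    have := Submodule.finrank_lt_finrank_of_lt hlt
    omega
  set f : Fin n → Module.Dual ℚ V0 := fun i =>
    ((LinearMap.proj i).comp (LinearMap.fst ℚ (Fin n → ℚ) ℚ)).comp V0.subtype with hf
  obtain ⟨κ, a, ha, hspan, hli⟩ := exists_linearIndependent' ℚ f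
  have hfin : Finite κ := Finite.of_injective a ha
  have := Fintype.ofFinite κ
  have hcard : Fintype.card κ ≤ d := by
    refine hli.fintype_card_le_finrank.trans ?_
    rw [Subspace.dual_finrank_eq]
    exact hV0d
  have hsep : ∀ v : V0, (∀ j, f (a j) v = 0) → v = 0 := by
    intro v hv
    have h2 : ∀ φ ∈ Submodule.span ℚ (Set.range f), φ v = 0 := by
      intro φ hφ
      rw [← hspan] at hφ
      induction hφ using Submodule.span_induction with
      | mem φ hφ =>
        obtain ⟨j, rfl⟩ := hφ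
        exact hv j
      | zero => rfl
      | add φ ψ _ _ h3 h4 => rw [LinearMap.add_apply, h3, h4, add_zero]
      | smul t φ _ h3 => rw [LinearMap.smul_apply, h3, smul_zero]
    apply Subtype.ext
    refine Prod.ext ?_ ?_
    · funext i
      exact h2 (f i) (Submodule.subset_span ⟨i, rfl⟩)
    · exact v.2.2
  -- the box
  set B : Finset (κ → ℤ) := Fintype.piFinset fun _ : κ => Finset.Icc (-((C : ℤ) * m)) (C * m) with hB
  have hBcard : B.card = (2 * C * m + 1) ^ Fintype.card κ := by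
    rw [hB, Fintype.card_piFinset, Finset.prod_const, Int.card_Icc, Finset.card_univ]
    congr 1
    have : (C : ℤ) * m + 1 - -((C : ℤ) * m) = ((2 * C * m + 1 : ℕ) : ℤ) := by
      push_cast
      ring
    rw [this]
    exact Int.toNat_natCast _
  set F : (Fin n → ℤ) → (κ → ℤ) := fun x j => x (a j) with hF
  have hmaps : ∀ x ∈ {x | (x, m) ∈ G}, F x ∈ (B : Set (κ → ℤ)) := by
    intro x hx
    rw [Finset.mem_coe, hB, Fintype.mem_piFinset]
    intro j
    rw [Finset.mem_Icc, ← abs_le]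
    exact hC _ hx (a j)
  have hinj : Set.InjOn F {x | (x, m) ∈ G} := by
    intro x hx y hy hxy
    have h2 : toQ (x, m) ∈ V := Submodule.subset_span ⟨_, hx, rfl⟩
    have h3 : toQ (y, m) ∈ V := Submodule.subset_span ⟨_, hy, rfl⟩
    have h4 : toQ (x, m) - toQ (y, m) ∈ V0 := by
      refine ⟨V.sub_mem h2 h3, ?_⟩
      show ((m : ℕ) : ℚ) - ((m : ℕ) : ℚ) = 0
      rw [sub_self]
    have h5 := hsep ⟨_, h4⟩ fun j => by
      have h6 : x (a j) = y (a j) := congrFun hxy j
      show ((x (a j) : ℤ) : ℚ) - ((y (a j) : ℤ) : ℚ) = 0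
      rw [h6, sub_self]
    have h7 := congrArg Subtype.val h5
    funext i
    have h8 : ((x i : ℤ) : ℚ) - ((y i : ℤ) : ℚ) = 0 := congrFun (congrArg Prod.fst h7) i
    have h9 : ((x i : ℤ) : ℚ) = ((y i : ℤ) : ℚ) := sub_eq_zero.mp h8
    exact_mod_cast h9
  refine ⟨Set.Finite.of_finite_image (B.finite_toSet.subset (Set.image_subset_iff.mpr hmaps)) hinj, ?_⟩
  calc {x | (x, m) ∈ G}.ncard = (F '' {x | (x, m) ∈ G}).ncard := hinj.ncard_image.symm
    _ ≤ (B : Set (κ → ℤ)).ncard := Set.ncard_le_ncard (Set.image_subset_iff.mpr hmaps) B.finite_toSet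
    _ = (2 * C * m + 1) ^ Fintype.card κ := by rw [Set.ncard_coe_finset, hBcard]
    _ ≤ (2 * C * m + 1) ^ d := Nat.pow_le_pow_right (by omega) hcard

theorem semigroup_lower {n : ℕ} (G : Set ((Fin n → ℤ) × ℕ)) (h1 : ∀ x ∈ G, 1 ≤ x.2)
    (hne : G.Nonempty) (hadd : ∀ x ∈ G, ∀ y ∈ G, x + y ∈ G) {d : ℕ}
    (hd : rkQ G = d + 1) (hfin : ∀ m, {x | (x, m) ∈ G}.Finite) (N : ℕ) (hN : 1 ≤ N) :
    ∃ m₀ : ℕ, 1 ≤ m₀ ∧ N ∣ m₀ ∧ ∀ m : ℕ, 1 ≤ m →
      m ^ d ≤ d.factorial * {x | (x, m * m₀) ∈ G}.ncard := by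
  classical
  obtain ⟨κ, a, ha, hspan, hli⟩ := exists_linearIndependent' ℚ (fun g : G => toQ g.1)
  have hκ : Finite κ := Cardinal.lt_aleph0_iff_finite.1 hli.lt_aleph0_of_finite
  have := Fintype.ofFinite κ
  have hcard : Fintype.card κ = d + 1 := by
    rw [← hd, rkQ, ← finrank_span_eq_card hli, hspan, Set.image_eq_range]
  have hnsmul : ∀ x ∈ G, ∀ k : ℕ, 1 ≤ k → k • x ∈ G := by
    intro x hx k hk
    induction k, hk using Nat.le_induction with
    | base => rwa [one_nsmul]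
    | succ k _ ih => rw [succ_nsmul]; exact hadd _ ih _ hx
  set γ : κ → (Fin n → ℤ) × ℕ := fun i => (a i).1 with hγ
  have hγG : ∀ i, γ i ∈ G := fun i => (a i).2
  have hγ1 : ∀ i, 1 ≤ (γ i).2 := fun i => h1 _ (hγG i)
  set P : ℕ := ∏ i, (γ i).2 with hP
  have hP1 : 1 ≤ P := Nat.one_le_iff_ne_zero.mpr (Finset.prod_ne_zero_iff.mpr fun i _ => by
    have := hγ1 i
    omega)
  set m₀ : ℕ := N * P with hm₀
  have hm₀1 : 1 ≤ m₀ := Nat.mul_pos hN hP1
  have hdiv : ∀ i, (γ i).2 ∣ m₀ := fun i =>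
    Dvd.dvd.mul_left (Finset.dvd_prod_of_mem (fun i => (γ i).2) (Finset.mem_univ i)) N
  set c : κ → ℕ := fun i => m₀ / (γ i).2 with hc
  have hc1 : ∀ i, 1 ≤ c i := fun i =>
    Nat.div_pos (Nat.le_of_dvd (by omega) (hdiv i)) (hγ1 i)
  have hcm : ∀ i, c i * (γ i).2 = m₀ := fun i => Nat.div_mul_cancel (hdiv i)
  set δ : κ → (Fin n → ℤ) × ℕ := fun i => c i • γ i with hδ
  have hδG : ∀ i, δ i ∈ G := fun i => hnsmul _ (hγG i) _ (hc1 i)
  have hδ2 : ∀ i, (δ i).2 = m₀ := by
    intro i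
    rw [hδ]
    show (c i • γ i).2 = m₀
    rw [Prod.smul_snd, smul_eq_mul, hcm]
  refine ⟨m₀, hm₀1, Nat.dvd_mul_right N P, fun m hm => ?_⟩
  -- the combinations
  have hmem : ∀ (t : κ → ℕ) (s : Finset κ), ∑ i ∈ s, t i • δ i ∈ G ∨ ∀ i ∈ s, t i = 0 := by
    intro t s
    induction s using Finset.induction_on with
    | empty => right; intro i hi; exact absurd hi (Finset.notMem_empty i)
    | insert j s hj ih =>
      rw [Finset.sum_insert hj]
      by_cases htj : t j = 0
      · rw [htj, zero_nsmul, zero_add]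
        rcases ih with ih | ih
        · exact Or.inl ih
        · right
          intro i hi
          rcases Finset.mem_insert.mp hi with rfl | hi
          · exact htj
          · exact ih i hi
      · left
        have h2 : t j • δ j ∈ G := hnsmul _ (hδG j) _ (Nat.one_le_iff_ne_zero.mpr htj)
        rcases ih with ih | ih
        · exact hadd _ h2 _ ih
        · rw [Finset.sum_eq_zero fun i hi => by rw [ih i hi, zero_nsmul], add_zero]
          exact h2
  have hsnd : ∀ t : κ → ℕ, (∑ i, t i • δ i).2 = (∑ i, t i) * m₀ := by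
    intro t
    rw [Prod.snd_sum, Finset.sum_mul]
    refine Finset.sum_congr rfl fun i _ => ?_
    rw [Prod.smul_snd, hδ2, smul_eq_mul]
  set A := (Finset.univ : Finset κ).finsuppAntidiag m with hA
  have hAcard : A.card = (d + m).choose m := by
    rw [hA, Finset.card_finsuppAntidiag_nat_eq_choose, Finset.card_univ, hcard]
    congr 1
    omega
  set F : (κ →₀ ℕ) → (Fin n → ℤ) := fun t => (∑ i, t i • δ i).1 with hF
  have hsumA : ∀ t ∈ A, ∑ i, t i = m := by
    intro t ht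
    exact (Finset.mem_finsuppAntidiag.mp ht).1
  have hmaps : ∀ t ∈ (A : Set (κ →₀ ℕ)), F t ∈ {x | (x, m * m₀) ∈ G} := by
    intro t ht
    rw [Finset.mem_coe] at ht
    have h2 := hsumA t ht
    have h3 : (F t, m * m₀) = ∑ i, t i • δ i := by
      refine Prod.ext rfl ?_
      rw [hsnd, h2]
    show (F t, m * m₀) ∈ G
    rw [h3]
    rcases hmem t Finset.univ with h4 | h4
    · exact h4
    · exfalso
      have h5 : ∑ i, t i = 0 := Finset.sum_eq_zero fun i _ => h4 i (Finset.mem_univ i)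
      omega
  have hli' : ∀ g : κ → ℚ, ∑ i, g i • toQ (γ i) = 0 → ∀ i, g i = 0 :=
    Fintype.linearIndependent_iff.mp hli
  have hinj : Set.InjOn F (A : Set (κ →₀ ℕ)) := by
    intro t ht u hu htu
    rw [Finset.mem_coe] at ht hu
    have h2 : ∑ i, t i • δ i = ∑ i, u i • δ i := by
      refine Prod.ext htu ?_
      rw [hsnd, hsnd, hsumA t ht, hsumA u hu]
    have h3 := congrArg toQ h2
    rw [d6_sum, d6_sum] at h3
    have h4 : ∀ w : κ → ℕ, ∑ i, toQ (w i • δ i) = ∑ i, ((w i : ℚ) * (c i : ℚ)) • toQ (γ i) := by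
      intro w
      refine Finset.sum_congr rfl fun i _ => ?_
      rw [hδ]
      show toQ (w i • (c i • γ i)) = _
      rw [d6_nsmul, d6_nsmul, smul_smul]
    rw [h4, h4, ← sub_eq_zero, ← Finset.sum_sub_distrib] at h3
    simp only [← sub_smul] at h3
    have h5 := hli' _ h3
    ext i
    have h6 := h5 i
    have h7 : ((c i : ℕ) : ℚ) ≠ 0 := by
      have := hc1 i
      exact_mod_cast (by omega : c i ≠ 0)
    have h8 : ((t i : ℚ) - (u i : ℚ)) * (c i : ℚ) = 0 := by linear_combination h6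
    rcases mul_eq_zero.mp h8 with h9 | h9
    · have : (t i : ℚ) = (u i : ℚ) := sub_eq_zero.mp h9
      exact_mod_cast this
    · exact absurd h9 h7
  have hle : A.card ≤ {x | (x, m * m₀) ∈ G}.ncard := by
    rw [← Set.ncard_coe_finset A, ← hinj.ncard_image]
    exact Set.ncard_le_ncard (Set.image_subset_iff.mpr hmaps) (hfin _)
  calc m ^ d ≤ (m + 1) ^ d := Nat.pow_le_pow_left (by omega) d
    _ ≤ (m + 1).ascFactorial d := Nat.pow_succ_le_ascFactorial (m + 1) d
    _ = d.factorial * (m + d).choose d := Nat.ascFactorial_eq_factorial_mul_choose m d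
    _ = d.factorial * A.card := by rw [hAcard, add_comm m d, Nat.choose_symm_add]
    _ ≤ _ := Nat.mul_le_mul_left _ hle

end Pool.Agent.Helper47.PQ
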