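import Pool.Agent.Helper47.PQ.Defs

set_option autoImplicit false

/-!
# PQ-G1: expansions of elements of the ring `M K`

Setting: fields `M, K ⊆ E` over the field `k`, linearly disjoint over `k` (`LinDisj k M K E`).

* `exists_short`: a sum `∑ aᵢ bᵢ` (`aᵢ ∈ M`, `bᵢ ∈ K`) can be rewritten as a sum `∑ a'ⱼ b'ⱼ` with both
  families linearly independent over `k`, the `a'ⱼ` in the `k`-span of the `aᵢ` and the `b'ⱼ` in the
  span of the `bᵢ`.
  PROOF. Strong induction on the number `n` of terms. If the `aᵢ` are linearly dependent, some `a_l`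
  is a `k`-combination of the others (or zero): substitute, and get `n - 1` terms with new
  `b'ⱼ = bⱼ + cⱼ b_l` in the span of the `b`'s, the same `a`'s. Symmetrically if the `bᵢ` are
  dependent. Otherwise both are independent: done. (No linear disjointness needed.)
* `mem_prodRing`: `s` lies in `prodRing E A B` iff it is a finite sum `∑ aᵢ bᵢ`, `aᵢ ∈ A`, `bᵢ ∈ B`.
  PROOF. The set of such sums is a subalgebra which contains both images; conversely each
  product `a b` lies in the sup. (Algebra.mem_sup / Algebra.adjoin_induction or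
  Subalgebra.mul_toSubmodule / Submodule.mem_mul...; or use `Subalgebra.sup_def`-like lemmas.)
* `exists_expansion`: the combination of both.
* `coeff_mem`: if `∑ aᵢ bᵢ = ∑ a'ⱼ b'ⱼ`, the `aᵢ` are linearly independent over `k` and all `b'ⱼ` lie
  in the `k`-subspace `V` of `K`, then all `bᵢ` lie in `V`.
  PROOF. The finite dimensional `k`-span of all `aᵢ, a'ⱼ` has a basis extending the `aᵢ`
  (`Basis.extend`/`exists_linearIndependent_extension`, finite), index set `ι ⊇ Fin n`; write
  `a'ⱼ = ∑_l c_{jl} e_l` with `c_{jl} ∈ k`. Then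
  `∑_l e_l (∑_j c_{jl} b'ⱼ - (b_l if l ∈ Fin n else 0)) = 0`, so by linear disjointness (re-indexed
  by `Fin N`) every bracket vanishes, hence `b_l = ∑_j c_{jl} b'ⱼ ∈ V`.
* `linDisj_symm`. PROOF: let `bᵢ ∈ K` be linearly independent over `k`, `aᵢ ∈ M` and
  `∑ bᵢ aᵢ = 0`. Choose a basis `e_l` of the `k`-span of the `aᵢ`, `aᵢ = ∑_l c_{il} e_l`. Then
  `∑_l e_l (∑_i c_{il} bᵢ) = 0`, hence `∑_i c_{il} bᵢ = 0` for all `l`, hence all `c_{il} = 0`.
-/

namespace Pool.Agent.Helper47.PQ

open Pool.Agent.Helper92.Weak

section A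

variable {k M K E : Type*} [Field k] [Field M] [Field K] [Field E]
  [Algebra k M] [Algebra k K] [Algebra k E] [Algebra M E] [Algebra K E]
  [IsScalarTower k M E] [IsScalarTower k K E]

/-- Rewriting of a finite family in a basis of its span. -/
private theorem exp_rebase {V : Type*} [AddCommGroup V] [Module k V] {n : ℕ} (a : Fin n → V) :
    ∃ (m : ℕ) (e : Fin m → V) (c : Fin n → Fin m → k), LinearIndependent k e ∧
      (∀ l, e l ∈ Submodule.span k (Set.range a)) ∧
      (∀ i, a i = ∑ l, c i l • e l) ∧
      ∀ x : Fin m → k, (∀ i, ∑ l, c i l * x l = 0) → x = 0 := by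
  classical
  set W := Submodule.span k (Set.range a) with hW
  have hfin : FiniteDimensional k W := FiniteDimensional.span_of_finite k (Set.finite_range a)
  set B := Module.finBasis k W with hB
  have haW : ∀ i, a i ∈ W := fun i => Submodule.subset_span ⟨i, rfl⟩
  refine ⟨Module.finrank k W, fun l => (B l : V), fun i l => B.repr ⟨a i, haW i⟩ l, ?_,
    fun l => (B l).2, fun i => ?_, fun x hx => ?_⟩
  · exact B.linearIndependent.map' W.subtype (Submodule.ker_subtype W)
  · have h1 := congrArg (W.subtype) (B.sum_repr ⟨a i, haW i⟩)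
    rw [map_sum] at h1
    simpa using h1.symm
  · have h2 : (B.constr k x : W →ₗ[k] k) = 0 := by
      have h3 : ∀ w ∈ W, ∀ hw : w ∈ W, (B.constr k x : W →ₗ[k] k) ⟨w, hw⟩ = 0 := by
        intro w hw
        rw [hW] at hw
        induction hw using Submodule.span_induction with
        | mem w hw =>
          obtain ⟨i, rfl⟩ := hw
          intro hw'
          rw [Module.Basis.constr_apply_fintype]
          have := hx i
          simpa using this
        | zero =>
          intro hw'
          have : (⟨0, hw'⟩ : W) = 0 := rfl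
          rw [this, map_zero]
        | add u w hu hw ihu ihw =>
          intro hw'
          have : (⟨u + w, hw'⟩ : W) = ⟨u, hu⟩ + ⟨w, hw⟩ := rfl
          rw [this, map_add, ihu, ihw, add_zero]
        | smul t w hw ih =>
          intro hw'
          have : (⟨t • w, hw'⟩ : W) = t • ⟨w, hw⟩ := rfl
          rw [this, map_smul, ih, smul_zero]
      refine LinearMap.ext fun w => ?_
      exact h3 w.1 w.2 w.2
    funext l
    have h4 := LinearMap.congr_fun h2 (B l)
    rw [Module.Basis.constr_basis] at h4
    exact h4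

theorem exists_short {n : ℕ} (a : Fin n → M) (b : Fin n → K) :
    ∃ (m : ℕ) (a' : Fin m → M) (b' : Fin m → K),
      (∀ i, a' i ∈ Submodule.span k (Set.range a)) ∧ (∀ i, b' i ∈ Submodule.span k (Set.range b)) ∧
      LinearIndependent k a' ∧ LinearIndependent k b' ∧
      ∑ i, algebraMap M E (a i) * algebraMap K E (b i) =
        ∑ i, algebraMap M E (a' i) * algebraMap K E (b' i) := by
  classical
  obtain ⟨m, e, c, he, hes, hac, -⟩ := exp_rebase (k := k) a
  set b2 : Fin m → K := fun l => ∑ i, c i l • b i with hb2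
  obtain ⟨p, f, d, hf, hfs, hbd, hd⟩ := exp_rebase (k := k) b2
  have hb2s : ∀ l, b2 l ∈ Submodule.span k (Set.range b) := fun l =>
    Submodule.sum_mem _ fun i _ => Submodule.smul_mem _ _ (Submodule.subset_span ⟨i, rfl⟩)
  refine ⟨p, fun j => ∑ l, d l j • e l, f, fun j => ?_, fun j => ?_, ?_, hf, ?_⟩
  · exact Submodule.sum_mem _ fun l _ => Submodule.smul_mem _ _ (hes l)
  · have h1 : Submodule.span k (Set.range b2) ≤ Submodule.span k (Set.range b) := by
      rw [Submodule.span_le]
      rintro _ ⟨l, rfl⟩
      exact hb2s l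
    exact h1 (hfs j)
  · rw [Fintype.linearIndependent_iff] at he ⊢
    intro x hx
    have h2 : ∑ l, (∑ j, x j * d l j) • e l = 0 := by
      rw [← hx]
      simp_rw [Finset.sum_smul, Finset.smul_sum]
      rw [Finset.sum_comm]
      refine Finset.sum_congr rfl fun j _ => Finset.sum_congr rfl fun l _ => ?_
      rw [mul_smul]
    have h3 := he _ h2
    have h4 := hd x fun l => by
      rw [← h3 l]
      exact Finset.sum_congr rfl fun j _ => mul_comm _ _
    intro j
    rw [h4]
    rfl
  · have e1 : ∀ i, algebraMap M E (a i) * algebraMap K E (b i) =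
        ∑ l, algebraMap M E (e l) * (algebraMap k E (c i l) * algebraMap K E (b i)) := by
      intro i
      rw [hac i, map_sum, Finset.sum_mul]
      refine Finset.sum_congr rfl fun l _ => ?_
      rw [Algebra.smul_def, map_mul, ← IsScalarTower.algebraMap_apply]
      ring
    have e2 : ∀ l, ∑ i, (algebraMap k E (c i l) * algebraMap K E (b i)) =
        ∑ j, algebraMap k E (d l j) * algebraMap K E (f j) := by
      intro l
      have h5 := congrArg (algebraMap K E) (hbd l)
      rw [hb2] at h5
      simp only [map_sum, Algebra.smul_def, map_mul, ← IsScalarTower.algebraMap_apply] at h5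
      exact h5
    calc ∑ i, algebraMap M E (a i) * algebraMap K E (b i)
        = ∑ i, ∑ l, algebraMap M E (e l) * (algebraMap k E (c i l) * algebraMap K E (b i)) :=
          Finset.sum_congr rfl fun i _ => e1 i
      _ = ∑ l, algebraMap M E (e l) * ∑ i, (algebraMap k E (c i l) * algebraMap K E (b i)) := by
          rw [Finset.sum_comm]
          refine Finset.sum_congr rfl fun l _ => ?_
          rw [Finset.mul_sum]
      _ = ∑ l, algebraMap M E (e l) * ∑ j, algebraMap k E (d l j) * algebraMap K E (f j) := by
          refine Finset.sum_congr rfl fun l _ => ?_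
          rw [e2 l]
      _ = ∑ j, algebraMap M E (∑ l, d l j • e l) * algebraMap K E (f j) := by
          simp_rw [Finset.mul_sum]
          rw [Finset.sum_comm]
          refine Finset.sum_congr rfl fun j _ => ?_
          rw [map_sum, Finset.sum_mul]
          refine Finset.sum_congr rfl fun l _ => ?_
          rw [Algebra.smul_def, map_mul, ← IsScalarTower.algebraMap_apply]
          ring

theorem mem_prodRing {A : Subalgebra k M} {B : Subalgebra k K} {s : E} :
    s ∈ prodRing E A B ↔ ∃ (n : ℕ) (a : Fin n → M) (b : Fin n → K), (∀ i, a i ∈ A) ∧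
      (∀ i, b i ∈ B) ∧ s = ∑ i, algebraMap M E (a i) * algebraMap K E (b i) := by
  constructor
  · intro hs
    have h1 : s ∈ Subalgebra.toSubmodule (A.map (IsScalarTower.toAlgHom k M E)) *
        Subalgebra.toSubmodule (B.map (IsScalarTower.toAlgHom k K E)) := by
      rw [Subalgebra.mul_toSubmodule]
      exact hs
    refine Submodule.mul_induction_on h1 ?_ ?_
    · rintro x ⟨a, ha, rfl⟩ y ⟨b, hb, rfl⟩
      exact ⟨1, fun _ => a, fun _ => b, fun _ => ha, fun _ => hb, by simp⟩
    · rintro x y ⟨n, a, b, ha, hb, hx'⟩ ⟨m, a', b', ha', hb', hy'⟩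
      refine ⟨n + m, Fin.append a a', Fin.append b b', fun i => ?_, fun i => ?_, ?_⟩
      · refine Fin.addCases (fun i => ?_) (fun i => ?_) i
        · rw [Fin.append_left]; exact ha i
        · rw [Fin.append_right]; exact ha' i
      · refine Fin.addCases (fun i => ?_) (fun i => ?_) i
        · rw [Fin.append_left]; exact hb i
        · rw [Fin.append_right]; exact hb' i
      · rw [Fin.sum_univ_add]
        simp only [Fin.append_left, Fin.append_right]
        rw [hx', hy']
  · rintro ⟨n, a, b, ha, hb, rfl⟩
    refine Subalgebra.sum_mem _ fun i _ => Subalgebra.mul_mem _ ?_ ?_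
    · exact (le_sup_left : _ ≤ prodRing E A B) ⟨a i, ha i, rfl⟩
    · exact (le_sup_right : _ ≤ prodRing E A B) ⟨b i, hb i, rfl⟩

theorem exists_expansion {A : Subalgebra k M} {B : Subalgebra k K} {s : E}
    (hs : s ∈ prodRing E A B) : ∃ (n : ℕ) (a : Fin n → M) (b : Fin n → K), (∀ i, a i ∈ A) ∧
      (∀ i, b i ∈ B) ∧ LinearIndependent k a ∧ LinearIndependent k b ∧
      s = ∑ i, algebraMap M E (a i) * algebraMap K E (b i) := by
  obtain ⟨n, a, b, ha, hb, h1⟩ := mem_prodRing.mp hs
  obtain ⟨m, a', b', ha', hb', hla, hlb, h2⟩ := exists_short (k := k) (E := E) a b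
  have h3 : Submodule.span k (Set.range a) ≤ Subalgebra.toSubmodule A := by
    rw [Submodule.span_le]
    rintro _ ⟨i, rfl⟩
    exact ha i
  have h4 : Submodule.span k (Set.range b) ≤ Subalgebra.toSubmodule B := by
    rw [Submodule.span_le]
    rintro _ ⟨i, rfl⟩
    exact hb i
  exact ⟨m, a', b', fun i => h3 (ha' i), fun i => h4 (hb' i), hla, hlb, h1.trans h2⟩

/-- Comparison of coordinates. -/
private theorem exp_coords (h : LinDisj k M K E) {κ : Type*} (e : Module.Basis κ k M) {ι : Type*}
    [Fintype ι] (x : ι → M) (y : ι → K)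
    (h0 : ∑ i, algebraMap M E (x i) * algebraMap K E (y i) = 0) (l : κ) :
    ∑ i, e.repr (x i) l • y i = 0 := by
  classical
  set S : Finset κ := Finset.univ.biUnion fun i => (e.repr (x i)).support with hS
  by_cases hl : l ∈ S
  · have hx : ∀ i, x i = ∑ t ∈ S, e.repr (x i) t • e t := by
      intro i
      conv_lhs => rw [← e.linearCombination_repr (x i)]
      rw [Finsupp.linearCombination_apply]
      refine Finsupp.sum_of_support_subset _ ?_ _ fun t _ => zero_smul _ _
      exact Finset.subset_biUnion_of_mem (fun i => (e.repr (x i)).support) (Finset.mem_univ i)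
    have h1 : ∑ t ∈ S, algebraMap M E (e t) * algebraMap K E (∑ i, e.repr (x i) t • y i) = 0 := by
      rw [← h0]
      simp_rw [map_sum, Finset.mul_sum]
      rw [Finset.sum_comm]
      refine Finset.sum_congr rfl fun i _ => ?_
      conv_rhs => rw [hx i, map_sum, Finset.sum_mul]
      refine Finset.sum_congr rfl fun t _ => ?_
      rw [Algebra.smul_def, Algebra.smul_def, map_mul, map_mul, ← IsScalarTower.algebraMap_apply,
        ← IsScalarTower.algebraMap_apply]
      ring
    set φ : Fin S.card ≃ S := S.equivFin.symm with hφ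
    have h2 : ∑ j : Fin S.card, algebraMap M E (e (φ j)) *
        algebraMap K E (∑ i, e.repr (x i) (φ j) • y i) = 0 := by
      rw [φ.sum_comp (fun t : S => algebraMap M E (e t) * algebraMap K E (∑ i, e.repr (x i) t • y i)),
        Finset.sum_coe_sort S
          (fun t => algebraMap M E (e t) * algebraMap K E (∑ i, e.repr (x i) t • y i))]
      exact h1
    have h3 := h S.card (fun j => e (φ j))
      (e.linearIndependent.comp (fun j => (φ j : κ)) (Subtype.val_injective.comp φ.injective)) _ h2
      (φ.symm ⟨l, hl⟩)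
    simpa using h3
  · refine Finset.sum_eq_zero fun i _ => ?_
    have h4 : e.repr (x i) l = 0 := by
      by_contra h5
      exact hl (Finset.mem_biUnion.mpr ⟨i, Finset.mem_univ i, Finsupp.mem_support_iff.mpr h5⟩)
    rw [h4, zero_smul]

theorem coeff_mem (h : LinDisj k M K E) (V : Submodule k K) {n m : ℕ} (a : Fin n → M)
    (ha : LinearIndependent k a) (b : Fin n → K) (a' : Fin m → M) (b' : Fin m → K)
    (hb' : ∀ j, b' j ∈ V)
    (heq : ∑ i, algebraMap M E (a i) * algebraMap K E (b i) =
      ∑ j, algebraMap M E (a' j) * algebraMap K E (b' j)) : ∀ i, b i ∈ V := by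
  classical
  intro i
  have hli : LinearIndepOn k id (Set.range a) := ha.linearIndepOn_id
  set e := Module.Basis.extend hli with he
  have hmem : ∀ t, a t ∈ hli.extend (Set.subset_univ _) := fun t =>
    Module.Basis.subset_extend hli ⟨t, rfl⟩
  have h1 := exp_coords h e (Sum.elim a a') (Sum.elim b fun j => -b' j) (by
    rw [Fintype.sum_sum_type]
    simp only [Sum.elim_inl, Sum.elim_inr, map_neg, mul_neg, Finset.sum_neg_distrib]
    rw [heq, add_neg_cancel]) ⟨a i, hmem i⟩
  rw [Fintype.sum_sum_type] at h1
  simp only [Sum.elim_inl, Sum.elim_inr, smul_neg, Finset.sum_neg_distrib] at h1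
  have h2 : ∀ t, e.repr (a t) ⟨a i, hmem i⟩ = if t = i then 1 else 0 := by
    intro t
    have h3 : a t = e ⟨a t, hmem t⟩ := by
      rw [he, Module.Basis.extend_apply_self]
    rw [h3, Module.Basis.repr_self, Finsupp.single_apply]
    have h6 : ((⟨a t, hmem t⟩ : hli.extend (Set.subset_univ _)) = ⟨a i, hmem i⟩) ↔ t = i :=
      ⟨fun h7 => ha.injective (congrArg Subtype.val h7), fun h7 => by rw [h7]⟩
    simp only [h6]
  have h4 : ∑ t, e.repr (a t) ⟨a i, hmem i⟩ • b t = b i := by
    simp [h2]
  rw [h4] at h1
  have h5 : b i = ∑ j, e.repr (a' j) ⟨a i, hmem i⟩ • b' j := by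
    linear_combination h1
  rw [h5]
  exact Submodule.sum_mem _ fun j _ => Submodule.smul_mem _ _ (hb' j)

theorem linDisj_symm (h : LinDisj k M K E) : LinDisj k K M E := by
  intro n b hb a h0 i
  set e := Module.Basis.ofVectorSpace k M with he
  have h1 := exp_coords h e a b (by
    rw [← h0]
    exact Finset.sum_congr rfl fun i _ => mul_comm _ _)
  have h2 : e.repr (a i) = 0 := by
    ext l
    exact Fintype.linearIndependent_iff.mp hb _ (h1 l) i
  exact (LinearEquiv.map_eq_zero_iff _).mp h2

end A

end Pool.Agent.Helper47.PQ
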