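import Pool.Agent.Helper47.PQ.Defs

set_option autoImplicit false

/-!
# PQ-O1: order of a form from coordinates

`hasOrd_of_der`: `z₁, ..., zₙ` in the valuation ring of `w`, derivations `δᵢ` with
`δᵢ zⱼ = δ_{ij}` which preserve the valuation ring. Then `f dz₁ ∧ ... ∧ dzₙ` has order `w f`.
PROOF. The presentation itself shows that `w f` is in the set. If
`f • wedge k z = g • wedge k y` with all `y i` in the ring of `w`, evaluate both sides at `δ`:
`wedge k z δ = det (δ i (z j)) = 1`, `wedge k y δ = det (δ i (y j)) =: d`, a determinant with entries in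
the valuation ring, so `d ∈ w.ring`, `f = g d`, `d ≠ 0`, and `w g = w f - w d ≤ w f`.

`hasOrd_smul`: multiplying a form by `h ≠ 0` shifts the order by `w h` (multiply / divide the
presentations by `h`).
-/

namespace Pool.Agent.Helper47.PQ

open Pool.Agent.Helper92.Weak

variable {k E : Type*} [Field k] [Field E] [Algebra k E]

theorem hasOrd_of_der {w : DVal k E} {n : ℕ} (z : Fin n → E) (δ : Fin n → Derivation k E E)
    (hδ : ∀ i j, δ i (z j) = if i = j then 1 else 0) (hz : ∀ i, 0 ≤ w (z i))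
    (hr : ∀ i x, 0 ≤ w x → 0 ≤ w (δ i x)) {f : E} (hf : f ≠ 0) :
    w.HasOrd (f • wedge k z) (w f) := by
  refine ⟨⟨z, f, hz, hf, rfl, rfl⟩, ?_⟩
  rintro m ⟨y, g, hy, hg, rfl, heq⟩
  have h1 := congrFun heq δ
  simp only [Pi.smul_apply, wedge, smul_eq_mul] at h1
  have h2 : (Matrix.of fun i j => δ i (z j)) = (1 : Matrix (Fin n) (Fin n) E) := by
    ext i j
    rw [Matrix.of_apply, hδ, Matrix.one_apply]
  rw [h2, Matrix.det_one, mul_one] at h1
  set d := (Matrix.of fun i j => δ i (y j)).det with hd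
  have h3 : d ∈ w.ring := by
    rw [hd, Matrix.det_apply]
    refine Subalgebra.sum_mem _ fun σ _ => ?_
    rw [Units.smul_def]
    refine Subalgebra.zsmul_mem _ ?_ _
    refine Subalgebra.prod_mem _ fun i _ => ?_
    rw [Matrix.of_apply, DVal.mem_ring]
    exact hr _ _ (hy _)
  have hd0 : d ≠ 0 := by
    intro h4
    rw [h4, mul_zero] at h1
    exact hf h1
  rw [h1, w.map_mul hg hd0]
  rw [DVal.mem_ring] at h3
  omega

theorem hasOrd_smul {w : DVal k E} {n : ℕ} {ω : Form k E n} {a : ℤ} {h : E} (hh : h ≠ 0)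
    (hω : w.HasOrd ω a) : w.HasOrd (h • ω) (w h + a) := by
  obtain ⟨⟨z, f, hz, hf, hfa, hωz⟩, hub⟩ := hω
  refine ⟨⟨z, h * f, hz, mul_ne_zero hh hf, ?_, ?_⟩, ?_⟩
  · rw [w.map_mul hh hf, hfa]
  · rw [hωz, mul_smul]
  · rintro m ⟨y, g, hy, hg, rfl, heq⟩
    have h1 : w (h⁻¹ * g) ≤ a := by
      refine hub ⟨y, h⁻¹ * g, hy, mul_ne_zero (inv_ne_zero hh) hg, rfl, ?_⟩
      rw [mul_smul, ← heq, inv_smul_smul₀ hh]
    rw [w.map_mul (inv_ne_zero hh) hg, w.map_inv] at h1
    omega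

theorem hasOrd_unique {w : DVal k E} {n : ℕ} {ω : Form k E n} {a b : ℤ} (h : w.HasOrd ω a)
    (h' : w.HasOrd ω b) : a = b := IsGreatest.unique h h'

end Pool.Agent.Helper47.PQ
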