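import Pool.Agent.Helper92.Weak.VarLem
import Pool.Agent.Helper92.Weak.Values

set_option autoImplicit false

/-!
# Flag valuations (definitions for block D: growth of `h⁰(m D)`)
-/

namespace Pool.Agent.Helper47.PQ

open Pool.Agent.Helper92.Weak

/-- A valuation of rank `n` of the field `L` over `k`, with values in `ℤⁿ` ordered
lexicographically, written as a degree (`u (f + g) ≤ max (u f) (u g)`), all of whose leaves are one
dimensional: if `u f = u g` then `u (f - c g) < u g` (or `f = c g`) for some constant `c`. -/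
structure Flag (k L : Type*) [Field k] [Field L] [Algebra k L] (n : ℕ) where
  u : L → Lex (Fin n → ℤ)
  map_mul : ∀ f g, f ≠ 0 → g ≠ 0 → u (f * g) = u f + u g
  map_add : ∀ f g, f ≠ 0 → g ≠ 0 → f + g ≠ 0 → u (f + g) ≤ max (u f) (u g)
  map_const : ∀ c : k, c ≠ 0 → u (algebraMap k L c) = 0
  leaf : ∀ f g, f ≠ 0 → g ≠ 0 → u f = u g →
    ∃ c : k, c ≠ 0 ∧ (f = c • g ∨ (f - c • g ≠ 0 ∧ u (f - c • g) < u g))

variable {k L : Type*} [Field k] [Field L] [Algebra k L] {n : ℕ}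

/-- The values of the elements of the powers `W ^ m` of a finite dimensional space `W` grow at
most linearly. -/
def Flag.Bounded (Φ : Flag k L n) : Prop :=
  ∀ W : Submodule k L, FiniteDimensional k W → ∃ C : ℕ, ∀ m : ℕ, 1 ≤ m → ∀ f ∈ W ^ m, f ≠ 0 →
    ∀ i, |ofLex (Φ.u f) i| ≤ C * m

/-- The values of the sections of `m A` grow at most linearly, for all divisors `A` of `X`. -/
def Flag.SecBounded (Φ : Flag k L n) (X : ProjVar k L) : Prop :=
  ∀ A : X.Div, ∃ C : ℕ, ∀ m : ℕ, 1 ≤ m → ∀ f ∈ X.H0 ((m : ℚ) • A), f ≠ 0 →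
    ∀ i, |ofLex (Φ.u f) i| ≤ C * m

/-- The graded semigroup of the values of the sections of the multiples of `D`. -/
def gam (X : ProjVar k L) (Φ : Flag k L n) (D : X.Div) : Set ((Fin n → ℤ) × ℕ) :=
  {x | 1 ≤ x.2 ∧ ∃ f ∈ X.H0 ((x.2 : ℚ) • D), f ≠ 0 ∧ ofLex (Φ.u f) = x.1}

/-- The inclusion of `ℤⁿ × ℕ` into the vector space `ℚⁿ × ℚ`. -/
def toQ {n : ℕ} (x : (Fin n → ℤ) × ℕ) : (Fin n → ℚ) × ℚ := (fun i => (x.1 i : ℚ), (x.2 : ℚ))

/-- The rank of a set of elements of `ℤⁿ × ℕ`. -/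
noncomputable def rkQ {n : ℕ} (G : Set ((Fin n → ℤ) × ℕ)) : ℕ :=
  Module.finrank ℚ (Submodule.span ℚ (toQ '' G))

end Pool.Agent.Helper47.PQ
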