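import Pool.Agent.Helper47.PQ.PrimeExt
import Pool.Agent.Helper92.Weak.VarLem

set_option autoImplicit false

/-!
# PQ-G3: existence of the Gauss extension

`exists_gauss`: `E` is the fraction field of `M K` and `v` is a valuation of `K`; then there is a
valuation `w` of `E` whose value at a sum `∑ aᵢ bᵢ` with `aᵢ ∈ M` independent over `k` is
`min v(bᵢ)`.

PROOF. For an integer `c` let `G_c ⊆ E` be the set of finite sums `∑ aᵢ bᵢ` with `aᵢ ∈ M` and
`v.Ge c bᵢ`: an additive subgroup (an `M`-subspace), decreasing in `c`, `G_c G_d ⊆ G_{c+d}`,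
`π^d G_c = G_{c+d}` for `π ∈ K` with `v π = 1`. By `coeff_mem` (`V = v.filt c`): for an expansion
`s = ∑ aᵢ bᵢ` with independent `aᵢ`, `s ∈ G_c` iff `v.Ge c bᵢ` for all `i`. Hence for
`0 ≠ s ∈ M K = prodRing E ⊤ ⊤` there is a largest `c =: g(s)` with `s ∈ G_c`
(`c = min {v bᵢ : bᵢ ≠ 0}`), and `∪ G_c = M K`.
`g(s s') = g(s) + g(s')`: `≥` is clear. Multiplying with powers of `π` we may assume
`g(s) = g(s') = 0`. Then `s, s' ∈ G_0 = prodRing E ⊤ v.ring`. Apply `primeExt` with `A = ⊤`,
`B = v.ring` and `q` = the maximal ideal `{b : v.Ge 1 b}` of `v.ring`: the ideal `𝔭` it gives is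
`G_1`, and it is prime; `s, s' ∉ G_1`, so `s s' ∉ G_1`, i.e. `g(s s') = 0`.
`g(s + s') ≥ min(g s, g s')` is clear. Define `w(0) = 0` and `w(s/s') = g(s) - g(s')` on
`E = Frac(M K)`: well defined because `g` is additive on products. It is a normalised discrete
valuation (`w π = 1`), zero on constants, and `w.Ge c s ↔ s ∈ G_c` for `s ∈ M K` (for rational `c`
replace `c` by its ceiling).
-/

namespace Pool.Agent.Helper47.PQ

open Pool.Agent.Helper92.Weak

variable {k M K E : Type*} [Field k] [Field M] [Field K] [Field E]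
  [Algebra k M] [Algebra k K] [Algebra k E] [Algebra M E] [Algebra K E]
  [IsScalarTower k M E] [IsScalarTower k K E]

/-- sums `∑ aᵢ bᵢ` with `v bᵢ ≥ c` -/
private def Gs (M : Type*) {E : Type*} [Field M] [Field E] [Algebra M E] [Algebra K E] (v : DVal k K) (c : ℤ)
    (s : E) : Prop :=
  ∃ (n : ℕ) (a : Fin n → M) (b : Fin n → K), (∀ i, v.Ge (c : ℚ) (b i)) ∧
    s = ∑ i, algebraMap M E (a i) * algebraMap K E (b i)

/-- the value is exactly `c` -/
private def Exa (M : Type*) {E : Type*} [Field M] [Field E] [Algebra M E] [Algebra K E] (v : DVal k K) (c : ℤ)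
    (s : E) : Prop := Gs M v c s ∧ ¬ Gs M v (c + 1) s

private theorem gs_fin {v : DVal k K} {c : ℤ} {s : E} {ι : Type} [Fintype ι] (a : ι → M) (b : ι → K)
    (hb : ∀ i, v.Ge (c : ℚ) (b i)) (hs : s = ∑ i, algebraMap M E (a i) * algebraMap K E (b i)) : Gs M v c s := by
  refine ⟨Fintype.card ι, a ∘ (Fintype.equivFin ι).symm, b ∘ (Fintype.equivFin ι).symm, fun i => hb _, ?_⟩
  rw [hs]
  exact (Equiv.sum_comp (Fintype.equivFin ι).symm fun i => algebraMap M E (a i) * algebraMap K E (b i)).symm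

private theorem gs_mono {v : DVal k K} {c c' : ℤ} {s : E} (h : Gs M v c s) (hc : c' ≤ c) : Gs M v c' s := by
  obtain ⟨n, a, b, hb, hs⟩ := h
  exact ⟨n, a, b, fun i => (hb i).mono (by exact_mod_cast hc), hs⟩

private theorem gs_add {v : DVal k K} {c : ℤ} {s s' : E} (h : Gs M v c s) (h' : Gs M v c s') :
    Gs M v c (s + s') := by
  obtain ⟨n, a, b, hb, rfl⟩ := h
  obtain ⟨n', a', b', hb', rfl⟩ := h'
  refine gs_fin (Sum.elim a a') (Sum.elim b b') ?_ ?_
  · rintro (i | i)
    · exact hb i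
    · exact hb' i
  · rw [Fintype.sum_sum_type]
    rfl

private theorem gs_mul {v : DVal k K} {c c' : ℤ} {s s' : E} (h : Gs M v c s) (h' : Gs M v c' s') :
    Gs M v (c + c') (s * s') := by
  obtain ⟨n, a, b, hb, rfl⟩ := h
  obtain ⟨n', a', b', hb', rfl⟩ := h'
  refine gs_fin (fun p : Fin n × Fin n' => a p.1 * a' p.2) (fun p => b p.1 * b' p.2) ?_ ?_
  · intro p
    push_cast
    exact (hb p.1).mul (hb' p.2)
  · rw [Finset.sum_mul_sum, Fintype.sum_prod_type]
    refine Finset.sum_congr rfl fun i _ => Finset.sum_congr rfl fun j _ => ?_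
    rw [map_mul, map_mul]
    ring

private theorem gs_coeff (h : LinDisj k M K E) {v : DVal k K} {c : ℤ} {n : ℕ} {a : Fin n → M}
    (ha : LinearIndependent k a) {b : Fin n → K}
    (hG : Gs M v c (∑ i, algebraMap M E (a i) * algebraMap K E (b i))) : ∀ i, v.Ge (c : ℚ) (b i) := by
  obtain ⟨m, a', b', hb', heq⟩ := hG
  exact coeff_mem h (v.filt (c : ℚ)) a ha b a' b' hb' heq

private theorem one_li : LinearIndependent k (fun _ : Fin 1 => (1 : M)) := by
  rw [Fintype.linearIndependent_iff]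
  intro g hg i
  have h1 : g 0 • (1 : M) = 0 := by simpa using hg
  have h2 : g 0 = 0 := (smul_eq_zero.mp h1).resolve_right one_ne_zero
  rw [Subsingleton.elim i 0]
  exact h2

private theorem exa_K (h : LinDisj k M K E) (v : DVal k K) {b : K} (hb : b ≠ 0) :
    Exa M v (v b) (algebraMap K E b) := by
  have e : algebraMap K E b = ∑ _i : Fin 1, algebraMap M E 1 * algebraMap K E b := by simp
  constructor
  · exact ⟨1, fun _ => 1, fun _ => b, fun _ => DVal.ge_self b, e⟩
  · intro hG
    rw [e] at hG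
    have h1 := gs_coeff h (a := fun _ : Fin 1 => (1 : M)) one_li (b := fun _ : Fin 1 => b) hG 0
    rw [DVal.ge_iff hb] at h1
    push_cast at h1
    linarith

private theorem exa_exists (h : LinDisj k M K E) (v : DVal k K) {s : E} (hs : s ≠ 0)
    (hsm : s ∈ prodRing E (⊤ : Subalgebra k M) (⊤ : Subalgebra k K)) : ∃ c, Exa M v c s := by
  obtain ⟨n, a, b, -, -, ha, hb, rfl⟩ := exists_expansion hsm
  have hn : (Finset.univ : Finset (Fin n)).Nonempty := by
    rw [Finset.univ_nonempty_iff]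
    by_contra hne
    rw [not_nonempty_iff] at hne
    exact hs (by simp)
  obtain ⟨j, -, hj⟩ := Finset.exists_min_image Finset.univ (fun i => v (b i)) hn
  refine ⟨v (b j), ⟨n, a, b, fun i => Or.inr (by exact_mod_cast hj i (Finset.mem_univ i)), rfl⟩, fun hG => ?_⟩
  have h1 := gs_coeff h ha hG j
  rw [DVal.ge_iff (hb.ne_zero j)] at h1
  push_cast at h1
  linarith

private theorem exa_unique {v : DVal k K} {c c' : ℤ} {s : E} (h : Exa M v c s) (h' : Exa M v c' s) : c = c' := by
  rcases lt_trichotomy c c' with hlt | heq | hlt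
  · exact absurd (gs_mono h'.1 hlt) h.2
  · exact heq
  · exact absurd (gs_mono h.1 hlt) h'.2

/-- the maximal ideal of the valuation ring -/
private def qv (v : DVal k K) : Ideal v.ring where
  carrier := {b | v.Ge 1 (b : K)}
  zero_mem' := DVal.Ge.zero
  add_mem' ha hb := ha.add hb
  smul_mem' c b hb := by
    have hc : v.Ge 0 (c : K) := v.mem_ring_iff_ge.mp c.2
    have h1 := hc.mul hb
    rw [zero_add] at h1
    exact h1

private theorem qv_prime (v : DVal k K) : (qv v).IsPrime := by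
  rw [Ideal.isPrime_iff]
  constructor
  · rw [Ideal.ne_top_iff_one]
    intro h1
    have h2 : v.Ge 1 (1 : K) := h1
    rw [DVal.ge_iff one_ne_zero, v.map_one] at h2
    norm_num at h2
  · intro x y hxy
    have h1 : v.Ge 1 ((x : K) * (y : K)) := hxy
    by_cases hx : (x : K) = 0
    · exact Or.inl (Or.inl hx)
    by_cases hy : (y : K) = 0
    · exact Or.inr (Or.inl hy)
    rw [DVal.ge_iff (mul_ne_zero hx hy), v.map_mul hx hy] at h1
    have h2 : (0 : ℤ) ≤ v x := x.2
    have h3 : (0 : ℤ) ≤ v y := y.2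
    have h4 : (1 : ℤ) ≤ v x + v y := by exact_mod_cast h1
    rcases lt_or_ge (v x) 1 with h5 | h5
    · right
      right
      have : (1 : ℤ) ≤ v y := by omega
      exact_mod_cast this
    · left
      right
      exact_mod_cast h5

private theorem gs_prod [IsAlgClosed k] (h : LinDisj k M K E) {v : DVal k K} {t t' : E}
    (ht : Exa M v 0 t) (ht' : Exa M v 0 t') : ¬ Gs M v 1 (t * t') := by
  obtain ⟨𝔭, h𝔭, hchar⟩ := primeExt h (⊤ : Subalgebra k M) v.ring (qv v) (qv_prime v)
  have hmem : ∀ x : E, Gs M v 0 x → x ∈ prodRing E (⊤ : Subalgebra k M) v.ring := by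
    rintro x ⟨n, a, b, hb, hx⟩
    refine mem_prodRing.mpr ⟨n, a, b, fun _ => trivial, fun i => ?_, hx⟩
    rw [v.mem_ring_iff_ge]
    have := hb i
    rwa [Int.cast_zero] at this
  have hiff : ∀ (x : E) (hx : x ∈ prodRing E (⊤ : Subalgebra k M) v.ring),
      (⟨x, hx⟩ : prodRing E (⊤ : Subalgebra k M) v.ring) ∈ 𝔭 ↔ Gs M v 1 x := by
    intro x hx
    obtain ⟨n, a, b, -, hb, ha, -, hs⟩ := exists_expansion hx
    rw [hchar n a (fun i => ⟨b i, hb i⟩) (fun _ => trivial) ha ⟨x, hx⟩ hs]
    constructor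
    · intro h1
      refine ⟨n, a, b, fun i => ?_, hs⟩
      rw [Int.cast_one]
      exact h1 i
    · intro h1 i
      rw [hs] at h1
      have := gs_coeff h ha h1 i
      rw [Int.cast_one] at this
      exact this
  have hm := hmem t ht.1
  have hm' := hmem t' ht'.1
  intro hG
  have h1 := (hiff (t * t') (Subalgebra.mul_mem _ hm hm')).mpr hG
  have h2 : (⟨t, hm⟩ : prodRing E (⊤ : Subalgebra k M) v.ring) * ⟨t', hm'⟩ ∈ 𝔭 := h1
  rcases h𝔭.mem_or_mem h2 with h3 | h3
  · have := (hiff t hm).mp h3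
    have h4 := ht.2
    rw [zero_add] at h4
    exact h4 this
  · have := (hiff t' hm').mp h3
    have h4 := ht'.2
    rw [zero_add] at h4
    exact h4 this

private theorem gs_pi {v : DVal k K} {π : K} (hπ0 : π ≠ 0) (hπ : v π = 1) {c : ℤ} {s : E}
    (h : Gs M v c s) (d : ℤ) : Gs M v (c + d) (algebraMap K E π ^ d * s) := by
  have h1 : Gs M v d (algebraMap K E π ^ d) := by
    refine ⟨1, fun _ => 1, fun _ => π ^ d, fun _ => Or.inr ?_, by simp⟩
    rw [v.map_zpow, hπ]
    simp
  rw [add_comm]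
  exact gs_mul h1 h

private theorem exa_mul [IsAlgClosed k] (h : LinDisj k M K E) {v : DVal k K} {c c' : ℤ} {s s' : E}
    (hs : Exa M v c s) (hs' : Exa M v c' s') : Exa M v (c + c') (s * s') := by
  obtain ⟨π, hπ0, hπ⟩ := v.exists_uniformizer
  have hP : algebraMap K E π ≠ 0 := by
    rw [Ne, map_eq_zero]
    exact hπ0
  have hshift : ∀ {c : ℤ} {s : E}, Exa M v c s → Exa M v 0 (algebraMap K E π ^ (-c) * s) := by
    intro c s hs
    constructor
    · have := gs_pi hπ0 hπ hs.1 (-c)
      rwa [add_neg_cancel] at this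
    · intro hG
      apply hs.2
      have h1 := gs_pi hπ0 hπ hG c
      rw [← mul_assoc, ← zpow_add₀ hP, add_neg_cancel, zpow_zero, one_mul] at h1
      have h2 : 0 + 1 + c = c + 1 := by ring
      rwa [h2] at h1
  refine ⟨gs_mul hs.1 hs'.1, fun hG => ?_⟩
  apply gs_prod h (hshift hs) (hshift hs')
  have h1 := gs_pi hπ0 hπ hG (-(c + c'))
  have h2 : c + c' + 1 + -(c + c') = 1 := by ring
  rw [h2] at h1
  have h3 : algebraMap K E π ^ (-(c + c')) * (s * s') =
      algebraMap K E π ^ (-c) * s * (algebraMap K E π ^ (-c') * s') := by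
    rw [neg_add, zpow_add₀ hP]
    ring
  rwa [h3] at h1

/-- the value of a fraction -/
private def Wv (M : Type*) {E : Type*} [Field M] [Field E] [Algebra k M] [Algebra k E] [Algebra M E] [Algebra K E]
    [IsScalarTower k M E] [IsScalarTower k K E] (v : DVal k K) (z : E) (m : ℤ) : Prop :=
  ∃ (s s' : E) (c c' : ℤ), s ∈ prodRing E (⊤ : Subalgebra k M) (⊤ : Subalgebra k K) ∧
    s' ∈ prodRing E (⊤ : Subalgebra k M) (⊤ : Subalgebra k K) ∧ s ≠ 0 ∧ s' ≠ 0 ∧ z = s / s' ∧
    Exa M v c s ∧ Exa M v c' s' ∧ m = c - c'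

private theorem wv_exists (h : LinDisj k M K E)
    (hfr : IsFrac (prodRing E (⊤ : Subalgebra k M) (⊤ : Subalgebra k K))) (v : DVal k K) {z : E}
    (hz : z ≠ 0) : ∃ m, Wv M v z m := by
  obtain ⟨s, hs, s', hs', hs0', rfl⟩ := hfr z
  have hs0 : s ≠ 0 := by
    rintro rfl
    exact hz (zero_div _)
  obtain ⟨c, hc⟩ := exa_exists h v hs0 hs
  obtain ⟨c', hc'⟩ := exa_exists h v hs0' hs'
  exact ⟨c - c', s, s', c, c', hs, hs', hs0, hs0', rfl, hc, hc', rfl⟩

private theorem wv_unique [IsAlgClosed k] (h : LinDisj k M K E) {v : DVal k K} {z : E} {m m' : ℤ}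
    (hm : Wv M v z m) (hm' : Wv M v z m') : m = m' := by
  obtain ⟨s, s', c, c', -, -, hs0, hs0', rfl, hc, hc', rfl⟩ := hm
  obtain ⟨t, t', d, d', -, -, ht0, ht0', heq, hd, hd', rfl⟩ := hm'
  rw [div_eq_div_iff hs0' ht0'] at heq
  have h1 := exa_mul h hc hd'
  have h2 := exa_mul h hd hc'
  rw [heq] at h1
  have := exa_unique h1 h2
  omega

theorem exists_gauss [IsAlgClosed k] (h : LinDisj k M K E)
    (hfr : IsFrac (prodRing E (⊤ : Subalgebra k M) (⊤ : Subalgebra k K))) (v : DVal k K) :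
    ∃ w : DVal k E, IsGauss M w v := by
  classical
  choose! f hf using fun (z : E) (hz : z ≠ 0) => wv_exists h hfr v hz
  let w : E → ℤ := fun z => if z = 0 then 0 else f z
  have hw : ∀ {z : E} {m : ℤ}, z ≠ 0 → Wv M v z m → w z = m := by
    intro z m hz hm
    have h1 : w z = f z := if_neg hz
    rw [h1]
    exact wv_unique h (hf z hz) hm
  have hwW : ∀ {z : E}, z ≠ 0 → Wv M v z (w z) := by
    intro z hz
    have h1 : w z = f z := if_neg hz
    rw [h1]
    exact hf z hz
  have hone : (1 : E) ∈ prodRing E (⊤ : Subalgebra k M) (⊤ : Subalgebra k K) := Subalgebra.one_mem _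
  have hexa1 : Exa M v 0 (1 : E) := by
    have := exa_K (M := M) (E := E) h v (b := 1) one_ne_zero
    rwa [v.map_one, map_one] at this
  -- values of elements of the ring
  have hring : ∀ {s : E} {c : ℤ}, s ∈ prodRing E (⊤ : Subalgebra k M) (⊤ : Subalgebra k K) → s ≠ 0 →
      Exa M v c s → w s = c := by
    intro s c hs hs0 hc
    refine hw hs0 ⟨s, 1, c, 0, hs, hone, hs0, one_ne_zero, (div_one s).symm, hc, hexa1, by ring⟩
  have hKmem : ∀ b : K, algebraMap K E b ∈ prodRing E (⊤ : Subalgebra k M) (⊤ : Subalgebra k K) := by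
    intro b
    exact mem_prodRing.mpr ⟨1, fun _ => 1, fun _ => b, fun _ => trivial, fun _ => trivial, by simp⟩
  have hwK : ∀ {b : K}, b ≠ 0 → w (algebraMap K E b) = v b := by
    intro b hb
    refine hring (hKmem b) ?_ (exa_K h v hb)
    rw [Ne, map_eq_zero]
    exact hb
  refine ⟨⟨w, if_pos rfl, ?_, ?_, ?_, ?_⟩, ?_⟩
  · intro a b ha hb
    obtain ⟨s, s', c, c', hs, hs', hs0, hs0', e, hc, hc', em⟩ := hwW ha
    obtain ⟨t, t', d, d', ht, ht', ht0, ht0', e', hd, hd', em'⟩ := hwW hb
    refine hw (mul_ne_zero ha hb) ⟨s * t, s' * t', c + d, c' + d', Subalgebra.mul_mem _ hs ht,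
      Subalgebra.mul_mem _ hs' ht', mul_ne_zero hs0 ht0, mul_ne_zero hs0' ht0', ?_,
      exa_mul h hc hd, exa_mul h hc' hd', ?_⟩
    · rw [e, e', div_mul_div_comm]
    · rw [em, em']
      ring
  · intro a b ha hb hab
    obtain ⟨s, s', c, c', hs, hs', hs0, hs0', e, hc, hc', em⟩ := hwW ha
    obtain ⟨t, t', d, d', ht, ht', ht0, ht0', e', hd, hd', em'⟩ := hwW hb
    have hsum : a + b = (s * t' + s' * t) / (s' * t') := by
      rw [e, e', div_add_div _ _ hs0' ht0']
    have hne : s * t' + s' * t ≠ 0 := by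
      intro h0
      rw [hsum, h0, zero_div] at hab
      exact hab rfl
    have hmem : s * t' + s' * t ∈ prodRing E (⊤ : Subalgebra k M) (⊤ : Subalgebra k K) :=
      Subalgebra.add_mem _ (Subalgebra.mul_mem _ hs ht') (Subalgebra.mul_mem _ hs' ht)
    obtain ⟨g, hg⟩ := exa_exists h v hne hmem
    have h1 : Gs M v (min (c + d') (c' + d)) (s * t' + s' * t) :=
      gs_add (gs_mono (gs_mul hc.1 hd'.1) (min_le_left _ _))
        (gs_mono (gs_mul hc'.1 hd.1) (min_le_right _ _))
    have h2 : min (c + d') (c' + d) ≤ g := by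
      by_contra hlt
      push Not at hlt
      exact hg.2 (gs_mono h1 hlt)
    have h3 : w (a + b) = g - (c' + d') := hw hab ⟨s * t' + s' * t, s' * t', g, c' + d', hmem,
      Subalgebra.mul_mem _ hs' ht', hne, mul_ne_zero hs0' ht0', hsum, hg, exa_mul h hc' hd', rfl⟩
    show min (w a) (w b) ≤ w (a + b)
    rw [h3, em, em']
    omega
  · intro c
    show w (algebraMap k E c) = 0
    by_cases hc : c = 0
    · rw [hc, map_zero]
      exact if_pos rfl
    · have h1 : algebraMap k K c ≠ 0 := by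
        rw [Ne, map_eq_zero]
        exact hc
      rw [IsScalarTower.algebraMap_apply k K E, hwK h1, v.map_const]
  · obtain ⟨π, hπ0, hπ⟩ := v.exists_uniformizer
    exact ⟨algebraMap K E π, by rw [hwK hπ0, hπ]⟩
  · intro n a ha b c
    set s := ∑ i, algebraMap M E (a i) * algebraMap K E (b i) with hs
    by_cases hs0 : s = 0
    · have hb0 := h n a ha b (by rw [← hs, hs0])
      constructor
      · intro _ i
        exact Or.inl (hb0 i)
      · intro _
        exact Or.inl hs0
    · have hsm : s ∈ prodRing E (⊤ : Subalgebra k M) (⊤ : Subalgebra k K) :=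
        mem_prodRing.mpr ⟨n, a, b, fun _ => trivial, fun _ => trivial, hs⟩
      obtain ⟨g, hg⟩ := exa_exists h v hs0 hsm
      rw [DVal.ge_iff hs0]
      have hwg : w s = g := hring hsm hs0 hg
      show c ≤ ((w s : ℤ) : ℚ) ↔ _
      rw [hwg]
      constructor
      · intro hcg i
        have h1 : Gs M v g (∑ i, algebraMap M E (a i) * algebraMap K E (b i)) := hg.1
        exact (gs_coeff h ha h1 i).mono hcg
      · intro hall
        by_contra hlt
        push Not at hlt
        apply hg.2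
        refine ⟨n, a, b, fun i => ?_, hs⟩
        rcases hall i with h1 | h1
        · exact Or.inl h1
        · right
          have h2 : (g : ℚ) < v (b i) := lt_of_lt_of_le hlt h1
          have h3 : g < v (b i) := by exact_mod_cast h2
          exact_mod_cast h3

end Pool.Agent.Helper47.PQ
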