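import Pool.Agent.Helper47.PQ.Primes

set_option autoImplicit false

/-!
# PQ-P3: the local ring of the product at the generic point of `F × {y}`

Let `O ∈ Y.localRings` be the local ring of a point `y`. The local ring `R` of `X = F × Y` at the
generic point of `F × {y}` consists of the quotients `s/s'` with `s, s' ∈ M O = prodRing E ⊤ O` such
that some (equivalently: every) expansion of `s'` with independent elements of `M` has a coefficient
which is a unit of `O`. `GenRing` lists its properties.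

PROOF. `O = locAt B q` with `B = chart k Y.x j`, `q` prime (`ProjVar.mem_localRings`). Let
`A = chart k F.x 0`, `S = prodRing E A B`, `𝔭` the prime of `primeExt` (coefficients in `q`),
`R = locAt S 𝔭 ∈ X.localRings` (`rings`).
`left`: `a = α/α'` with `α, α' ∈ A`, `α' ≠ 0` (`chart_isFrac`), and `α' · 1 ∉ 𝔭` as `1 ∉ q`. `right`: `b ∈ O`
is `β/β'`, `β' ∈ B ∖ q`, `1 · β' ∉ 𝔭`.
`unit`: `s = ∑ aᵢ bᵢ`, `a` independent, `bᵢ ∈ O`, some `b i` a unit of `O`. With common denominators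
`α ∈ A ∖ 0` and `β ∈ B ∖ q`, `α β s = ∑ (α aᵢ)(β bᵢ)`, the `α aᵢ ∈ A` independent and `β b i ∉ q`
(a unit of `O` in `B` is not in `q`), so `α β s ∈ S ∖ 𝔭` and `s⁻¹ = α β (α β s)⁻¹ ∈ R`.
`frac`: `z ∈ R`: `z s' = s` with `s, s' ∈ S ⊆ M O`, `s' ∉ 𝔭`; take `y = s'`, `s'⁻¹ ∈ R`.
`dom`: `v` dominates `O`, `w` its Gauss extension. `R ≤ w.ring`: `S ⊆ M v.ring ⊆ w.ring` and
`s' ∈ S ∖ 𝔭` has a coefficient `b i ∈ B ∖ q`, a unit of `O`, `v (b i) = 0`, so `w s' = 0`
(`IsGauss.eq_min`). If `0 ≠ z ∈ R`, `z⁻¹ ∈ w.ring`: `z = s/s'` with `s, s' ∈ S`, `s' ∉ 𝔭`, `w z = 0`, so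
`w s = 0`; expand `s = ∑ aᵢ bᵢ` (`exists_expansion` in `A B`): `v (b i) = 0` for some `i` with
`b i ∈ B`, and since `v` dominates `O`, `b i` is a unit of `O`: `(b i)⁻¹ ∈ v.ring`, so
`(b i)⁻¹ ∈ O`; so `b i ∉ q` and `s ∉ 𝔭`, `z⁻¹ = s'/s ∈ R`.
`primes`: `P ∈ X.primeDivisors`, `R ≤ P.ring`. As `M ⊆ R` is a field, `P` is trivial on `M`, so by
`trichotomy` `P` is trivial on `M` and `K`, or `P` is the Gauss extension of some
`Q ∈ Y.primeDivisors`, and then `O ≤ Q.ring` since for `b ∈ O`: `b ∈ R ⊆ P.ring`, `Q b = P b ≥ 0`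
(`IsGauss.apply_right`); (the third case `IsGauss K P T` has `P a = T a ≠ 0` for some `a ∈ M`,
excluded).
`le`: `O ≤ Q.ring`, `P` the Gauss extension of `Q`: elements of `S` have `P ≥ 0`, and `s' ∈ S ∖ 𝔭` has a
coefficient which is a unit of `O`, hence of value `0` for `Q`, so `P s' = 0`; so
`R ≤ P.ring`.
-/

namespace Pool.Agent.Helper47.PQ

open Pool.Agent.Helper92.Weak

variable {k M K E : Type*} [Field k] [Field M] [Field K] [Field E]
  [Algebra k M] [Algebra k K] [Algebra k E] [Algebra M E] [Algebra K E]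
  [IsScalarTower k M E] [IsScalarTower k K E]

/-- The properties of the local ring `R` of `X = F × Y` at the generic point of `F × {y}`, where
`O` is the local ring of `Y` at `y`. -/
structure GenRing (F : ProjVar k M) (Y : ProjVar k K) (X : ProjVar k E) (O : Subalgebra k K)
    (R : Subalgebra k E) : Prop where
  mem : R ∈ X.localRings
  left : ∀ a : M, algebraMap M E a ∈ R
  right : ∀ b ∈ O, algebraMap K E b ∈ R
  unit : ∀ (n : ℕ) (a : Fin n → M) (b : Fin n → K), LinearIndependent k a → (∀ i, b i ∈ O) →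
    (∃ i, b i ≠ 0 ∧ (b i)⁻¹ ∈ O) → (∑ i, algebraMap M E (a i) * algebraMap K E (b i))⁻¹ ∈ R
  frac : ∀ z ∈ R, ∃ y ∈ prodRing E (⊤ : Subalgebra k M) O, y ≠ 0 ∧ y⁻¹ ∈ R ∧
    z * y ∈ prodRing E (⊤ : Subalgebra k M) O
  dom : ∀ (v : DVal k K) (w : DVal k E), Dominates O v.ring → IsGauss M w v →
    Dominates R w.ring
  primes : ∀ P ∈ X.primeDivisors, R ≤ P.ring →
    ((∀ a : M, P (algebraMap M E a) = 0) ∧ ∀ b : K, P (algebraMap K E b) = 0) ∨
    ∃ Q ∈ Y.primeDivisors, O ≤ Q.ring ∧ IsGauss M P Q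
  le : ∀ (P : DVal k E) (Q : DVal k K), O ≤ Q.ring → IsGauss M P Q → R ≤ P.ring

section aux

/-- The criterion of `primeExt`. -/
def pThree_Crit {A : Subalgebra k M} {B : Subalgebra k K} (q : Ideal B) (𝔭 : Ideal (prodRing E A B)) :
    Prop :=
  ∀ (n : ℕ) (a : Fin n → M) (b : Fin n → B), (∀ i, a i ∈ A) → LinearIndependent k a →
    ∀ s : prodRing E A B, (s : E) = ∑ i, algebraMap M E (a i) * algebraMap K E (b i : K) →
      (s ∈ 𝔭 ↔ ∀ i, b i ∈ q)

theorem pThree_finite_denom {L : Type*} [Field L] [Algebra k L] {B B' : Subalgebra k L} (PB : L → Prop)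
    (h1 : PB 1) (hmul : ∀ x y, PB x → PB y → PB (x * y))
    (hB : ∀ b ∈ B', ∃ β ∈ B, PB β ∧ β * b ∈ B) {n : ℕ} (b : Fin n → L) (hb : ∀ i, b i ∈ B') :
    ∃ β ∈ B, PB β ∧ ∀ i, β * b i ∈ B := by
  choose β hβ hP hβb using fun i => hB (b i) (hb i)
  refine ⟨∏ i, β i, B.prod_mem fun i _ => hβ i, ?_, fun i => ?_⟩
  · exact Finset.prod_induction β PB hmul h1 fun i _ => hP i
  · rw [← Finset.prod_erase_mul _ _ (Finset.mem_univ i), mul_assoc]
    exact B.mul_mem (B.prod_mem fun j _ => hβ j) (hβb i)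

variable {A : Subalgebra k M} {B : Subalgebra k K} {q : Ideal B} {𝔭 : Ideal (prodRing E A B)}

theorem pThree_Crit.mul_mem_iff (hc : pThree_Crit q 𝔭) {α : M} (hα : α ∈ A) (hα0 : α ≠ 0) (β : B)
    (s : prodRing E A B) (hs : (s : E) = algebraMap M E α * algebraMap K E (β : K)) :
    s ∈ 𝔭 ↔ β ∈ q := by
  have h1 := hc 1 (fun _ => α) (fun _ => β) (fun _ => hα)
    (LinearIndependent.of_subsingleton 0 hα0) s (by simpa using hs)
  rw [h1]
  exact ⟨fun h => h 0, fun h _ => h⟩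

/-- An element outside of the prime ideal has a coefficient outside of `q`. -/
theorem pThree_Crit.exists_notMem (hc : pThree_Crit q 𝔭) {s : prodRing E A B} (hs : s ∉ 𝔭) :
    ∃ (n : ℕ) (a : Fin n → M) (b : Fin n → B), LinearIndependent k a ∧
      (s : E) = ∑ i, algebraMap M E (a i) * algebraMap K E (b i : K) ∧ ∃ i, b i ∉ q := by
  obtain ⟨n, a, b, ha, hb, hlin, -, hs'⟩ := exists_expansion s.2
  have h1 := hc n a (fun i => ⟨b i, hb i⟩) ha hlin s hs'
  refine ⟨n, a, fun i => ⟨b i, hb i⟩, hlin, hs', ?_⟩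
  by_contra hcon
  push Not at hcon
  exact hs (h1.2 hcon)

theorem pThree_ge_zero_of_le {w : DVal k E} {v : DVal k K} (hw : IsGauss M w v) (hB : B ≤ v.ring)
    (s : prodRing E A B) : w.Ge 0 (s : E) := by
  obtain ⟨n, a, b, ha, hb, hlin, -, hs⟩ := exists_expansion s.2
  rw [hs, hw n a hlin b 0]
  intro i
  rw [← DVal.mem_ring_iff_ge]
  exact hB (hb i)

theorem pThree_Crit.val_eq_zero [hq : q.IsPrime] (hc : pThree_Crit q 𝔭) {P : DVal k E} {Q : DVal k K}
    (hO : locAt B q ≤ Q.ring) (hw : IsGauss M P Q) {s : prodRing E A B} (hs : s ∉ 𝔭) :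
    (s : E) ≠ 0 ∧ P (s : E) = 0 := by
  have h0 := pThree_ge_zero_of_le hw ((le_locAt q).trans hO) s
  refine pTwo_eq_zero_of_ge h0 ?_
  obtain ⟨n, a, b, hlin, hs', i, hi⟩ := hc.exists_notMem hs
  rw [hs', hw n a hlin (fun i => (b i : K)) 1]
  intro hcon
  have h1 := hcon i
  have h2 : (b i : K) ≠ 0 := coe_ne_zero_of_notMem hi
  have h3 : (b i : K)⁻¹ ∈ Q.ring := hO (inv_mem_locAt hi)
  rw [DVal.ge_iff h2] at h1
  rw [DVal.mem_ring, DVal.map_inv] at h3
  have h4 : (1 : ℤ) ≤ Q (b i : K) := by exact_mod_cast h1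
  omega

theorem pThree_Crit.mem_iff_ge [hq : q.IsPrime] (hc : pThree_Crit q 𝔭) {w : DVal k E} {v : DVal k K}
    (hdom : Dominates (locAt B q) v.ring) (hw : IsGauss M w v) (s : prodRing E A B) :
    s ∈ 𝔭 ↔ w.Ge 1 (s : E) := by
  constructor
  · intro hs
    obtain ⟨n, a, b, ha, hb, hlin, -, hs'⟩ := exists_expansion s.2
    have h1 := (hc n a (fun i => ⟨b i, hb i⟩) ha hlin s hs').1 hs
    rw [hs', hw n a hlin b 1]
    intro i
    by_cases hbi : b i = 0
    · exact Or.inl hbi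
    rw [DVal.ge_iff hbi]
    have h2 : (⟨b i, hb i⟩ : B) ≠ 0 := fun hh => hbi (congrArg Subtype.val hh)
    have h3 := (mem_iff_inv_notMem h2).1 (h1 i)
    by_contra hcon
    apply h3
    apply hdom.2 _ (le_locAt q (hb i))
    rw [DVal.mem_ring, DVal.map_inv]
    have h4 : ¬ (1 : ℤ) ≤ v (b i) := fun hh => hcon (by exact_mod_cast hh)
    omega
  · intro hs
    by_contra hcon
    obtain ⟨h1, h2⟩ := hc.val_eq_zero hdom.1 hw hcon
    rw [DVal.ge_iff h1, h2] at hs
    norm_num at hs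

end aux

variable {F : ProjVar k M} {Y : ProjVar k K} {X : ProjVar k E}

theorem IsProduct.exists_genRing [IsAlgClosed k] (h : IsProduct F Y X) {O : Subalgebra k K}
    (hO : O ∈ Y.localRings) : ∃ R, GenRing F Y X O R := by
  obtain ⟨j, q, hq, rfl⟩ := Y.mem_localRings.1 hO
  obtain ⟨𝔭, h𝔭, hc⟩ := primeExt (E := E) h.disj (chart k F.x 0) (chart k Y.x j) q hq
  change pThree_Crit q 𝔭 at hc
  have hM : ∀ {x : M}, x ≠ 0 → algebraMap M E x ≠ 0 := fun hx =>
    (map_ne_zero_iff _ (algebraMap M E).injective).mpr hx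
  have hK : ∀ {x : K}, x ≠ 0 → algebraMap K E x ≠ 0 := fun hx =>
    (map_ne_zero_iff _ (algebraMap K E).injective).mpr hx
  have h1q : (1 : chart k Y.x j) ∉ q := fun hh => hq.ne_top ((Ideal.eq_top_iff_one _).2 hh)
  have hleft : ∀ a : M, algebraMap M E a ∈ locAt _ 𝔭 := by
    intro a
    obtain ⟨x, hx, y, hy, hy0, rfl⟩ := F.chart_isFrac 0 a
    refine ⟨⟨algebraMap M E x, pTwo_left_mem_prodRing hx⟩, ⟨algebraMap M E y, pTwo_left_mem_prodRing hy⟩,
      ?_, ?_⟩
    · rw [hc.mul_mem_iff hy hy0 1 _ (by simp)]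
      exact h1q
    · change algebraMap M E (x / y) * algebraMap M E y = algebraMap M E x
      rw [← map_mul, div_mul_cancel₀ x hy0]
  have hright : ∀ b ∈ locAt _ q, algebraMap K E b ∈ locAt _ 𝔭 := by
    rintro b ⟨c, d, hd, hcd⟩
    refine ⟨⟨algebraMap K E (c : K), pTwo_right_mem_prodRing c.2⟩,
      ⟨algebraMap K E (d : K), pTwo_right_mem_prodRing d.2⟩, ?_, ?_⟩
    · rw [hc.mul_mem_iff (Subalgebra.one_mem _) one_ne_zero d _ (by simp)]
      exact hd
    · change algebraMap K E b * algebraMap K E (d : K) = algebraMap K E (c : K)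
      rw [← map_mul, hcd]
  have hle : prodRing E (chart k F.x 0) (chart k Y.x j) ≤
      prodRing E (⊤ : Subalgebra k M) (locAt _ q) := pTwo_prodRing_mono le_top (le_locAt q)
  refine ⟨locAt _ 𝔭, ⟨?_, hleft, hright, ?_, ?_, ?_, ?_, ?_⟩⟩
  · rw [h.rings]
    exact ⟨0, j, 𝔭, h𝔭, fun z => mem_locAt⟩
  · -- unit
    intro n a b hlin hb hu
    obtain ⟨i₀, hi₀, hi₀'⟩ := hu
    obtain ⟨α, hα, hα0, hαa⟩ := pThree_finite_denom (B := chart k F.x 0) (B' := ⊤) (fun x => x ≠ 0)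
      one_ne_zero (fun x y => mul_ne_zero) (fun a _ => pTwo_denom_of_isFrac (F.chart_isFrac 0) a) a
      (fun i => Algebra.mem_top)
    obtain ⟨β, hβ, ⟨hβ', hβq⟩, hβb⟩ := pThree_finite_denom (B := chart k Y.x j) (B' := locAt _ q)
      (fun x => ∃ hx : x ∈ chart k Y.x j, (⟨x, hx⟩ : chart k Y.x j) ∉ q)
      ⟨Subalgebra.one_mem _, h1q⟩ (by
        rintro x y ⟨hx, hx'⟩ ⟨hy, hy'⟩
        refine ⟨Subalgebra.mul_mem _ hx hy, fun hh => ?_⟩
        have h2 : (⟨x, hx⟩ : chart k Y.x j) * ⟨y, hy⟩ ∈ q := hh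
        exact (hq.mem_or_mem h2).elim hx' hy') (by
        rintro b ⟨c, d, hd, hcd⟩
        exact ⟨d, d.2, ⟨d.2, hd⟩, by rw [mul_comm, hcd]; exact c.2⟩) b hb
    have hβ0 : β ≠ 0 := fun hh => hβq (by
      have : (⟨β, hβ'⟩ : chart k Y.x j) = 0 := Subtype.ext hh
      rw [this]
      exact q.zero_mem)
    have hsum : algebraMap M E α * algebraMap K E β *
        (∑ i, algebraMap M E (a i) * algebraMap K E (b i)) =
        ∑ i, algebraMap M E (α * a i) * algebraMap K E (β * b i) := by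
      rw [Finset.mul_sum]
      refine Finset.sum_congr rfl fun i _ => ?_
      rw [map_mul, map_mul]
      ring
    have hmemS : ∑ i, algebraMap M E (α * a i) * algebraMap K E (β * b i) ∈
        prodRing E (chart k F.x 0) (chart k Y.x j) :=
      Subalgebra.sum_mem _ fun i _ => Subalgebra.mul_mem _ (pTwo_left_mem_prodRing (hαa i))
        (pTwo_right_mem_prodRing (hβb i))
    have hlin' : LinearIndependent k (fun i => α * a i) := by
      have h2 : (fun i => α * a i) = (LinearMap.mulLeft k α) ∘ a := rfl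
      rw [h2]
      refine hlin.map' _ ?_
      rw [LinearMap.ker_eq_bot]
      exact mul_right_injective₀ hα0
    have hnot : (⟨_, hmemS⟩ : prodRing E (chart k F.x 0) (chart k Y.x j)) ∉ 𝔭 := by
      rw [hc n (fun i => α * a i) (fun i => ⟨β * b i, hβb i⟩) hαa hlin' _ rfl]
      intro hcon
      have h2 : (⟨β * b i₀, hβb i₀⟩ : chart k Y.x j) ≠ 0 := fun hh =>
        mul_ne_zero hβ0 hi₀ (congrArg Subtype.val hh)
      apply (mem_iff_inv_notMem h2).1 (hcon i₀)
      change (β * b i₀)⁻¹ ∈ locAt _ q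
      rw [mul_inv]
      exact Subalgebra.mul_mem _ (inv_mem_locAt (b := ⟨β, hβ'⟩) hβq) hi₀'
    have h3 := inv_mem_locAt hnot
    change (∑ i, algebraMap M E (α * a i) * algebraMap K E (β * b i))⁻¹ ∈ locAt _ 𝔭 at h3
    have h4 : (∑ i, algebraMap M E (a i) * algebraMap K E (b i))⁻¹ =
        algebraMap M E α * algebraMap K E β *
          (∑ i, algebraMap M E (α * a i) * algebraMap K E (β * b i))⁻¹ := by
      rw [← hsum, mul_inv, ← mul_assoc, mul_inv_cancel₀ (mul_ne_zero (hM hα0) (hK hβ0)), one_mul]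
    rw [h4]
    exact Subalgebra.mul_mem _ (Subalgebra.mul_mem _ (hleft α)
      (hright β (le_locAt q hβ))) h3
  · -- frac
    rintro z ⟨a, b, hb, hab⟩
    exact ⟨b, hle b.2, coe_ne_zero_of_notMem hb, inv_mem_locAt hb, by rw [hab]; exact hle a.2⟩
  · -- dom
    intro v w hdom hw
    have hmem := fun s => hc.mem_iff_ge hdom hw s
    have hge := fun s => pThree_ge_zero_of_le (A := chart k F.x 0) hw ((le_locAt q).trans hdom.1) s
    have hval : ∀ {z : E} {a b : prodRing E (chart k F.x 0) (chart k Y.x j)}, z ≠ 0 → b ∉ 𝔭 →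
        z * b = a → w z = w (a : E) := by
      intro z a b hz hb hab
      obtain ⟨h2, h3⟩ := hc.val_eq_zero hdom.1 hw hb
      rw [← hab, w.map_mul hz h2, h3, add_zero]
    constructor
    · rintro z ⟨a, b, hb, hab⟩
      by_cases hz : z = 0
      · rw [hz]; exact w.ring.zero_mem
      have h2 := hge a
      rw [← DVal.mem_ring_iff_ge, DVal.mem_ring, ← hval hz hb hab] at h2
      exact h2
    · rintro z ⟨a, b, hb, hab⟩ hz'
      by_cases hz : z = 0
      · rw [hz, inv_zero]; exact Subalgebra.zero_mem _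
      have h2 := hge a
      rw [← DVal.mem_ring_iff_ge, DVal.mem_ring, ← hval hz hb hab] at h2
      rw [DVal.mem_ring, DVal.map_inv] at hz'
      have h3 : w (a : E) = 0 := by rw [← hval hz hb hab]; omega
      have hb0 := coe_ne_zero_of_notMem hb
      have ha0 : (a : E) ≠ 0 := by rw [← hab]; exact mul_ne_zero hz hb0
      have ha : a ∉ 𝔭 := by
        rw [hmem, DVal.ge_iff ha0, h3]
        norm_num
      refine ⟨b, a, ha, ?_⟩
      rw [← hab]
      field_simp
  · -- primes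
    intro P hP hRP
    rcases h.trichotomy hP with h2 | ⟨Q, hQ, hPQ⟩ | ⟨T, hT, hPT⟩
    · exact Or.inl h2
    · refine Or.inr ⟨Q, hQ, fun b hb => ?_, hPQ⟩
      have h2 := hRP (hright b hb)
      rw [DVal.mem_ring, hPQ.apply_right] at h2
      exact h2
    · exfalso
      obtain ⟨a, ha⟩ := T.surj'
      have h2 := hRP (hleft a⁻¹)
      rw [DVal.mem_ring, hPT.apply_right, DVal.map_inv] at h2
      have h3 : T a = 1 := ha
      rw [h3] at h2
      norm_num at h2
  · -- le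
    intro P Q hOQ hPQ
    rintro z ⟨a, b, hb, hab⟩
    by_cases hz : z = 0
    · rw [hz]; exact P.ring.zero_mem
    obtain ⟨h2, h3⟩ := hc.val_eq_zero hOQ hPQ hb
    have h4 := pThree_ge_zero_of_le (A := chart k F.x 0) hPQ ((le_locAt q).trans hOQ) a
    rw [← DVal.mem_ring_iff_ge, DVal.mem_ring, ← hab, P.map_mul hz h2, h3, add_zero] at h4
    exact h4

end Pool.Agent.Helper47.PQ
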