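import Pool.Agent.Helper47.PQ.Exp

set_option autoImplicit false

/-!
# PQ-G2: prime ideals of `B` extend to prime ideals of `A B` (`k` algebraically closed)

`primeExt`: `A ⊆ M`, `B ⊆ K` subalgebras, `q` a prime ideal of `B`. The elements of `A B` all of
whose coefficients lie in `q` form a prime ideal (the kernel of `A ⊗ B → A ⊗ B/q`).

PROOF. Let `𝔭` be the set of finite sums `∑ aᵢ bᵢ` with `aᵢ ∈ A`, `bᵢ ∈ q`. It is an ideal of `A B`.
By `coeff_mem` (with `V` = the image of `q` in `K`) an element `∑ aᵢ bᵢ` with `aᵢ ∈ A` linearly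
independent, `bᵢ ∈ B`, lies in `𝔭` iff all `bᵢ ∈ q`. `𝔭 ≠ A B` since `1 = 1 · 1` and `1 ∉ q`.
Prime: let `s = ∑ aᵢ bᵢ`, `s' = ∑ a'ⱼ b'ⱼ` be expansions (`exists_expansion`) which are not in `𝔭`, so
`b_i ∉ q` and `b'_j ∉ q` for some `i, j`. Let `B₀ ⊆ B` be the `k`-algebra generated by all `bᵢ`, `b'ⱼ`,
finitely generated, and `q₀ = q ∩ B₀`. By the Nullstellensatz (`B₀/q₀` is a domain of finite type
over the algebraically closed field `k`, a Jacobson ring; so there is a maximal ideal which does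
not contain the nonzero class of `b_i b'_j`, and its residue field is `k`) there is a
`k`-algebra homomorphism `φ : B₀ → k` which kills `q₀`, with `φ(b_i b'_j) ≠ 0`.
Linear disjointness gives a well defined ring homomorphism `Φ : A B₀ → M`,
`∑ α β ↦ ∑ φ(β) α` (for instance: the map `A ⊗[k] B₀ → E` is injective by linear disjointness, and
`Φ` is `Algebra.TensorProduct.lift` composed with the inverse on the range. Or avoid `Φ`: work in
`A ⊗[k] B₀` throughout). Now `Φ(s) = ∑ φ(bᵢ) aᵢ ≠ 0` because the `aᵢ` are linearly independent and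
`φ(b_i) ≠ 0`; likewise `Φ(s') ≠ 0`; so `Φ(s s') ≠ 0`. But if `s s' ∈ 𝔭`, expand
`s s' = ∑ α_l β_l` with `α_l ∈ A` independent and `β_l ∈ B₀` (`exists_expansion` in `A B₀`); by
`coeff_mem` the `β_l` lie in `q`, hence in `q₀`, so `Φ(s s') = ∑ φ(β_l) α_l = 0`. Contradiction.
-/

namespace Pool.Agent.Helper47.PQ

open Pool.Agent.Helper92.Weak

variable {k M K E : Type*} [Field k] [Field M] [Field K] [Field E]
  [Algebra k M] [Algebra k K] [Algebra k E] [Algebra M E] [Algebra K E]
  [IsScalarTower k M E] [IsScalarTower k K E]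

private theorem PrimeExt_null {k R : Type*} [Field k] [IsAlgClosed k] [CommRing R] [Algebra k R]
    [Algebra.FiniteType k R] (Q : Ideal R) (hQ : Q.IsPrime) (x : R) (hx : x ∉ Q) :
    ∃ φ : R →ₐ[k] k, (∀ y ∈ Q, φ y = 0) ∧ φ x ≠ 0 := by
  have : IsJacobsonRing R := isJacobsonRing_of_finiteType (A := k)
  have h1 : Q.jacobson = Q := IsJacobsonRing.out ‹IsJacobsonRing R› hQ.isRadical
  have h2 : x ∉ Q.jacobson := by rwa [h1]
  rw [Ideal.jacobson, Ideal.mem_sInf] at h2
  push Not at h2
  obtain ⟨J, ⟨hJ1, hJ2⟩, hJ3⟩ := h2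
  let _ : Field (R ⧸ J) := Ideal.Quotient.field J
  have : Module.Finite k (R ⧸ J) := finite_of_finite_type_of_isJacobsonRing k (R ⧸ J)
  have hb : Function.Bijective (algebraMap k (R ⧸ J)) :=
    IsAlgClosed.algebraMap_bijective_of_isIntegral
  let e : k ≃ₐ[k] (R ⧸ J) := AlgEquiv.ofBijective (Algebra.ofId k (R ⧸ J)) hb
  refine ⟨e.symm.toAlgHom.comp (Ideal.Quotient.mkₐ k J), fun y hy => ?_, fun h0 => hJ3 ?_⟩
  · have h3 : Ideal.Quotient.mkₐ k J y = 0 := Ideal.Quotient.eq_zero_iff_mem.2 (hJ1 hy)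
    change e.symm (Ideal.Quotient.mkₐ k J y) = 0
    rw [h3, map_zero]
  · change e.symm (Ideal.Quotient.mkₐ k J x) = 0 at h0
    rw [EmbeddingLike.map_eq_zero_iff] at h0
    exact Ideal.Quotient.eq_zero_iff_mem.1 h0

private theorem PrimeExt_lin (h : LinDisj k M K E) (φ : K →ₗ[k] k) {ι : Type*} (s : Finset ι)
    (a : ι → M) (b : ι → K) (h0 : ∑ i ∈ s, algebraMap M E (a i) * algebraMap K E (b i) = 0) :
    ∑ i ∈ s, φ (b i) • a i = 0 := by
  classical
  have hs := linDisj_symm h
  set e := Module.Basis.ofVectorSpace k K with he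
  set S := s.biUnion fun i => (e.repr (b i)).support with hS
  have hb : ∀ i ∈ s, b i = ∑ m ∈ S, e.repr (b i) m • e m := by
    intro i hi
    conv_lhs => rw [← e.linearCombination_repr (b i)]
    rw [Finsupp.linearCombination_apply, Finsupp.sum]
    refine Finset.sum_subset ?_ fun m _ hm => ?_
    · rw [hS]
      exact Finset.subset_biUnion_of_mem (fun i => (e.repr (b i)).support) hi
    · rw [Finsupp.notMem_support_iff.1 hm, zero_smul]
  have h1 : ∑ m ∈ S, algebraMap K E (e m) * algebraMap M E (∑ i ∈ s, e.repr (b i) m • a i) = 0 := by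
    rw [← h0]
    have h2 : ∀ i ∈ s, algebraMap M E (a i) * algebraMap K E (b i) =
        ∑ m ∈ S, algebraMap K E (e m) * algebraMap M E (e.repr (b i) m • a i) := by
      intro i hi
      conv_lhs => rw [hb i hi]
      rw [map_sum, Finset.mul_sum]
      refine Finset.sum_congr rfl fun m _ => ?_
      rw [Algebra.smul_def, Algebra.smul_def, map_mul, map_mul,
        ← IsScalarTower.algebraMap_apply, ← IsScalarTower.algebraMap_apply]
      ring
    rw [Finset.sum_congr rfl h2, Finset.sum_comm]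
    refine Finset.sum_congr rfl fun m _ => ?_
    rw [map_sum, Finset.mul_sum]
  have h3 : ∀ m ∈ S, ∑ i ∈ s, e.repr (b i) m • a i = 0 := by
    have h4 : LinearIndependent k fun j : Fin S.card => e (S.equivFin.symm j : _) :=
      e.linearIndependent.comp _ (Subtype.val_injective.comp S.equivFin.symm.injective)
    have h5 := hs S.card _ h4 (fun j => ∑ i ∈ s, e.repr (b i) (S.equivFin.symm j : _) • a i) (by
      rw [← h1, ← Finset.sum_coe_sort S fun m => algebraMap K E (e m) *
        algebraMap M E (∑ i ∈ s, e.repr (b i) m • a i)]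
      exact (Equiv.sum_comp S.equivFin.symm fun m : S => algebraMap K E (e m) *
        algebraMap M E (∑ i ∈ s, e.repr (b i) m • a i)))
    intro m hm
    have := h5 (S.equivFin ⟨m, hm⟩)
    simpa using this
  have h6 : ∀ i ∈ s, φ (b i) • a i = ∑ m ∈ S, φ (e m) • (e.repr (b i) m • a i) := by
    intro i hi
    conv_lhs => rw [hb i hi]
    rw [map_sum, Finset.sum_smul]
    refine Finset.sum_congr rfl fun m _ => ?_
    rw [map_smul, smul_smul, smul_eq_mul, mul_comm]
  rw [Finset.sum_congr rfl h6, Finset.sum_comm]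
  refine Finset.sum_eq_zero fun m hm => ?_
  rw [← Finset.smul_sum, h3 m hm, smul_zero]

/-- the span of the products -/
private def PrimeExtW (E : Type*) [Field E] [Algebra k E] [Algebra M E] [Algebra K E]
    (A : Subalgebra k M) (B : Subalgebra k K) (q : Ideal B) : AddSubmonoid E :=
  AddSubmonoid.closure {x | ∃ (a : M) (b : B), a ∈ A ∧ b ∈ q ∧
    x = algebraMap M E a * algebraMap K E (b : K)}

omit [IsScalarTower k M E] [IsScalarTower k K E] in
private theorem PrimeExtW_iff {A : Subalgebra k M} {B : Subalgebra k K} {q : Ideal B} {x : E} :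
    x ∈ PrimeExtW E A B q ↔ ∃ (n : ℕ) (a : Fin n → M) (b : Fin n → B), (∀ i, a i ∈ A) ∧
      (∀ i, b i ∈ q) ∧ x = ∑ i, algebraMap M E (a i) * algebraMap K E (b i : K) := by
  constructor
  · intro hx
    induction hx using AddSubmonoid.closure_induction with
    | mem x hx =>
      obtain ⟨a, b, ha, hb, rfl⟩ := hx
      exact ⟨1, fun _ => a, fun _ => b, fun _ => ha, fun _ => hb, by simp⟩
    | zero => exact ⟨0, Fin.elim0, Fin.elim0, fun i => i.elim0, fun i => i.elim0, by simp⟩
    | add x y _ _ hx hy =>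
      obtain ⟨n, a, b, h1, h2, rfl⟩ := hx
      obtain ⟨m, a', b', h1', h2', rfl⟩ := hy
      refine ⟨n + m, Fin.append a a', Fin.append b b', fun i => ?_, fun i => ?_, ?_⟩
      · refine Fin.addCases (fun i => ?_) (fun i => ?_) i
        · rw [Fin.append_left]; exact h1 i
        · rw [Fin.append_right]; exact h1' i
      · refine Fin.addCases (fun i => ?_) (fun i => ?_) i
        · rw [Fin.append_left]; exact h2 i
        · rw [Fin.append_right]; exact h2' i
      · rw [Fin.sum_univ_add]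
        simp only [Fin.append_left, Fin.append_right]
  · rintro ⟨n, a, b, h1, h2, rfl⟩
    exact AddSubmonoid.sum_mem _ fun i _ => AddSubmonoid.subset_closure ⟨a i, b i, h1 i, h2 i, rfl⟩

private theorem PrimeExtW_mul {A : Subalgebra k M} {B : Subalgebra k K} {q : Ideal B} {x r : E}
    (hr : r ∈ prodRing E A B) (hx : x ∈ PrimeExtW E A B q) : r * x ∈ PrimeExtW E A B q := by
  obtain ⟨n, a, b, h1, h2, rfl⟩ := mem_prodRing.1 hr
  obtain ⟨m, a', b', h1', h2', rfl⟩ := PrimeExtW_iff.1 hx
  rw [Finset.sum_mul_sum]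
  refine AddSubmonoid.sum_mem _ fun i _ => AddSubmonoid.sum_mem _ fun j _ => ?_
  refine AddSubmonoid.subset_closure ⟨a i * a' j, ⟨b i, h2 i⟩ * b' j, A.mul_mem (h1 i) (h1' j),
    Ideal.mul_mem_left _ _ (h2' j), ?_⟩
  rw [Subalgebra.coe_mul, map_mul, map_mul]
  ring

theorem primeExt [IsAlgClosed k] (h : LinDisj k M K E) (A : Subalgebra k M) (B : Subalgebra k K)
    (q : Ideal B) (hq : q.IsPrime) :
    ∃ 𝔭 : Ideal (prodRing E A B), 𝔭.IsPrime ∧
      ∀ (n : ℕ) (a : Fin n → M) (b : Fin n → B), (∀ i, a i ∈ A) → LinearIndependent k a →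
        ∀ s : prodRing E A B, (s : E) = ∑ i, algebraMap M E (a i) * algebraMap K E (b i : K) →
          (s ∈ 𝔭 ↔ ∀ i, b i ∈ q) := by
  classical
  let 𝔭 : Ideal (prodRing E A B) :=
    { carrier := {s | (s : E) ∈ PrimeExtW E A B q}
      add_mem' := fun {s t} hs ht => by
        change ((s + t : prodRing E A B) : E) ∈ PrimeExtW E A B q
        rw [Subalgebra.coe_add]
        exact AddSubmonoid.add_mem _ hs ht
      zero_mem' := by
        change ((0 : prodRing E A B) : E) ∈ PrimeExtW E A B q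
        rw [Subalgebra.coe_zero]
        exact AddSubmonoid.zero_mem _
      smul_mem' := fun r s hs => by
        change ((r * s : prodRing E A B) : E) ∈ PrimeExtW E A B q
        rw [Subalgebra.coe_mul]
        exact PrimeExtW_mul r.2 hs }
  have hmem : ∀ s : prodRing E A B, s ∈ 𝔭 ↔ (s : E) ∈ PrimeExtW E A B q := fun s => Iff.rfl
  have key : ∀ (n : ℕ) (a : Fin n → M) (b : Fin n → B), (∀ i, a i ∈ A) → LinearIndependent k a →
        ∀ s : prodRing E A B, (s : E) = ∑ i, algebraMap M E (a i) * algebraMap K E (b i : K) →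
          (s ∈ 𝔭 ↔ ∀ i, b i ∈ q) := by
    intro n a b ha hli s hs
    rw [hmem, PrimeExtW_iff]
    constructor
    · rintro ⟨m, a', b', h1, h2, h3⟩
      have h4 := coeff_mem h ((q.restrictScalars k).map B.val.toLinearMap) a hli
        (fun i => (b i : K)) a' (fun j => (b' j : K))
        (fun j => ⟨b' j, h2 j, rfl⟩) (hs.symm.trans h3)
      intro i
      obtain ⟨y, hy1, hy2⟩ := h4 i
      have h5 : y = b i := Subtype.ext hy2
      rw [← h5]
      exact hy1
    · intro hb
      exact ⟨n, a, b, ha, hb, hs⟩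
  refine ⟨𝔭, ?_, key⟩
  refine ⟨fun htop => ?_, fun {s t} hst => ?_⟩
  · have h1 : (1 : prodRing E A B) ∈ 𝔭 := by rw [htop]; trivial
    have h2 := (key 1 (fun _ => 1) (fun _ => 1) (fun _ => A.one_mem)
      (LinearIndependent.of_subsingleton 0 one_ne_zero) 1 (by simp)).1 h1 0
    exact hq.ne_top ((Ideal.eq_top_iff_one q).2 h2)
  · by_contra hcon
    push Not at hcon
    obtain ⟨hs, ht⟩ := hcon
    obtain ⟨n, a, b, ha, hb, hla, -, hsum⟩ := exists_expansion s.2
    obtain ⟨m, a', b', ha', hb', hla', -, hsum'⟩ := exists_expansion t.2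
    have h1 := mt (key n a (fun i => ⟨b i, hb i⟩) ha hla s hsum).2 hs
    have h1' := mt (key m a' (fun i => ⟨b' i, hb' i⟩) ha' hla' t hsum').2 ht
    push Not at h1 h1'
    obtain ⟨i₀, hi₀⟩ := h1
    obtain ⟨j₀, hj₀⟩ := h1'
    rw [hmem, PrimeExtW_iff] at hst
    obtain ⟨l, α, β, hα, hβ, hst⟩ := hst
    let fb : Fin n → B := fun i => ⟨b i, hb i⟩
    let fb' : Fin m → B := fun i => ⟨b' i, hb' i⟩
    let G : Set B := Set.range fb ∪ Set.range fb' ∪ Set.range β
    have hG : G.Finite := ((Set.finite_range _).union (Set.finite_range _)).union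
      (Set.finite_range _)
    let B₀ : Subalgebra k B := Algebra.adjoin k G
    have hB₀ : B₀.FG := ⟨hG.toFinset, by rw [Set.Finite.coe_toFinset]⟩
    have : Algebra.FiniteType k B₀ := (Subalgebra.fg_iff_finiteType B₀).1 hB₀
    have m1 : ∀ i, fb i ∈ B₀ := fun i => Algebra.subset_adjoin (Or.inl (Or.inl ⟨i, rfl⟩))
    have m2 : ∀ i, fb' i ∈ B₀ := fun i => Algebra.subset_adjoin (Or.inl (Or.inr ⟨i, rfl⟩))
    have m3 : ∀ i, β i ∈ B₀ := fun i => Algebra.subset_adjoin (Or.inr ⟨i, rfl⟩)
    let q₀ : Ideal B₀ := q.comap B₀.val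
    have hq₀ : q₀.IsPrime := Ideal.comap_isPrime B₀.val q
    have hx : (⟨fb i₀, m1 i₀⟩ : B₀) * ⟨fb' j₀, m2 j₀⟩ ∉ q₀ := by
      intro h2
      have h3 : fb i₀ * fb' j₀ ∈ q := h2
      rcases hq.mem_or_mem h3 with h4 | h4
      · exact hi₀ h4
      · exact hj₀ h4
    obtain ⟨φ, hφ1, hφ2⟩ := PrimeExt_null (k := k) q₀ hq₀ _ hx
    rw [map_mul] at hφ2
    -- extend `φ` to a linear form on `K`
    let j : B₀ →ₗ[k] K := B.val.toLinearMap.comp B₀.val.toLinearMap
    have hj : Function.Injective j := Subtype.val_injective.comp Subtype.val_injective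
    obtain ⟨g, hg⟩ := LinearMap.exists_leftInverse_of_injective j (LinearMap.ker_eq_bot.2 hj)
    let ψ : K →ₗ[k] k := φ.toLinearMap.comp g
    have hψ : ∀ y : B₀, ψ ((y : B) : K) = φ y := by
      intro y
      have h2 : g (j y) = y := by
        have := LinearMap.congr_fun hg y
        simpa using this
      change φ (g (j y)) = φ y
      rw [h2]
    have hprod : ∑ i, ∑ j, algebraMap M E (a i * a' j) * algebraMap K E (b i * b' j) +
        ∑ i, algebraMap M E (-α i) * algebraMap K E (β i : K) = 0 := by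
      have h2 : ((s * t : prodRing E A B) : E) = (s : E) * t := rfl
      rw [h2, hsum, hsum', Finset.sum_mul_sum] at hst
      have h3 : ∑ i, ∑ j, algebraMap M E (a i * a' j) * algebraMap K E (b i * b' j) =
          ∑ i, ∑ j, algebraMap M E (a i) * algebraMap K E (b i) *
            (algebraMap M E (a' j) * algebraMap K E (b' j)) := by
        refine Finset.sum_congr rfl fun i _ => Finset.sum_congr rfl fun j _ => ?_
        rw [map_mul, map_mul]
        ring
      rw [h3, hst, ← Finset.sum_add_distrib]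
      refine Finset.sum_eq_zero fun i _ => ?_
      rw [map_neg]
      ring
    have hlin := PrimeExt_lin h ψ (Finset.univ : Finset ((Fin n × Fin m) ⊕ Fin l))
      (Sum.elim (fun p => a p.1 * a' p.2) (fun i => -α i))
      (Sum.elim (fun p => b p.1 * b' p.2) (fun i => (β i : K))) (by
        rw [Fintype.sum_sum_type, Fintype.sum_prod_type]
        exact hprod)
    rw [Fintype.sum_sum_type, Fintype.sum_prod_type] at hlin
    simp only [Sum.elim_inl, Sum.elim_inr] at hlin
    have e1 : ∀ i, ψ (β i : K) = 0 := by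
      intro i
      have h2 := hψ ⟨β i, m3 i⟩
      rw [h2]
      exact hφ1 _ (hβ i)
    have e2 : ∀ i j, ψ (b i * b' j) = φ ⟨fb i, m1 i⟩ * φ ⟨fb' j, m2 j⟩ := by
      intro i j
      rw [← map_mul, ← hψ]
      rfl
    have e3 : ∑ i, -α i * 0 = (0 : M) := by simp
    have h5 : (∑ i, φ ⟨fb i, m1 i⟩ • a i) * (∑ j, φ ⟨fb' j, m2 j⟩ • a' j) = 0 := by
      rw [Finset.sum_mul_sum, ← hlin]
      have e4 : ∑ i, ψ (β i : K) • (-α i) = 0 := by
        refine Finset.sum_eq_zero fun i _ => ?_
        rw [e1, zero_smul]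
      rw [e4, add_zero]
      refine Finset.sum_congr rfl fun i _ => Finset.sum_congr rfl fun j _ => ?_
      rw [e2, smul_mul_smul_comm]
    rcases mul_eq_zero.1 h5 with h6 | h6
    · have h7 := Fintype.linearIndependent_iff.1 hla _ h6 i₀
      exact hφ2 (by rw [h7, zero_mul])
    · have h7 := Fintype.linearIndependent_iff.1 hla' _ h6 j₀
      exact hφ2 (by rw [h7, mul_zero])

end Pool.Agent.Helper47.PQ
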