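import Pool.Agent.Helper47.PQ.Exp

set_option autoImplicit false

/-!
# PQ-G6: symmetry

The product `F × Y` is also the product `Y × F` (proof: `linDisj_symm`, `sup_comm`).
-/

namespace Pool.Agent.Helper47.PQ

open Pool.Agent.Helper92.Weak

variable {k M K E : Type*} [Field k] [Field M] [Field K] [Field E]
  [Algebra k M] [Algebra k K] [Algebra k E] [Algebra M E] [Algebra K E]
  [IsScalarTower k M E] [IsScalarTower k K E]

theorem prodRing_comm (A : Subalgebra k M) (B : Subalgebra k K) :
    prodRing E A B = prodRing E B A := by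
  unfold prodRing
  exact sup_comm _ _

variable {F : ProjVar k M} {Y : ProjVar k K} {X : ProjVar k E}

theorem IsProduct.swap (h : IsProduct F Y X) : IsProduct Y F X := by
  refine ⟨linDisj_symm h.disj, fun R => ?_⟩
  rw [h.rings]
  constructor
  · rintro ⟨i, j, hR⟩
    exact ⟨j, i, by rwa [prodRing_comm]⟩
  · rintro ⟨i, j, hR⟩
    exact ⟨j, i, by rwa [prodRing_comm]⟩

theorem IsBox.swap {DF : F.Div} {DY : Y.Div} {D : X.Div} (h : IsBox DF DY D) : IsBox DY DF D :=
  ⟨fun P h1 h2 => h.dom P h2 h1, h.right, h.left⟩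

end Pool.Agent.Helper47.PQ
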