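import Pool.Agent.Helper47.PQ.Charts
import Pool.Agent.Helper47.PQ.Gauss
import Pool.Agent.Helper47.PQ.GaussB
import Pool.Agent.Helper47.PQ.Swap

set_option autoImplicit false

/-!
# PQ-P2: the prime divisors of a product

`gauss_mem`: the Gauss extension `w` of a prime divisor `Q` of `Y` is a prime divisor of `X`.
PROOF. `Q.ring = locAt B q`, `B = chart k Y.x j` (`ProjVar.mem_localRings`). Let `A = chart k F.x 0`
and let `𝔭` be the prime ideal of `S = prodRing E A B` given by `primeExt` (coefficients in `q`).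
Claim `w.ring = {z | ∃ a b ∈ S, b ∉ 𝔭, z b = a}`; then `w.ring ∈ X.localRings` by `rings`.
For an expansion `s = ∑ aᵢ bᵢ ∈ S` (`exists_expansion`) `w s ≥ 0`, and `w s = 0` iff `s ≠ 0` and some
`Q (b i) = 0` with `b i ≠ 0`, iff some `b i ∉ q` (as `b i ∈ B`, `q = {b : Q.Ge 1 b}`), iff `s ∉ 𝔭`. This
gives `⊇`. For `⊆` let `z ∈ w.ring`; by `IsGauss.exists_frac`, `z = s/s'` with `s, s' ∈ M Q.ring`,
`w s' = 0`; multiply both by a common denominator `α ∈ A`, `α ≠ 0`, of the coefficients from `M`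
(`chart_isFrac`) and a common denominator `β ∈ B ∖ q` of the coefficients from `Q.ring = locAt B q`:
then `s, s' ∈ S` and still `w s' = 0`, i.e. `s' ∉ 𝔭`.

`trichotomy`: a prime divisor `P` of `X` is trivial on `M` and `K`, or the Gauss extension of a
prime divisor of `Y` or of `F`.
PROOF. `P.ring = locAt S 𝔓`, `S = prodRing E A B`, `A = chart k F.x i`, `B = chart k Y.x j` (`rings`).
Suppose `P b ≠ 0` for some `b ∈ K` (the other case is symmetric, `IsProduct.swap`). Let
`q = 𝔓 ∩ B = {b ∈ B : P.Ge 1 b}`, a prime ideal of `B`; `q ≠ 0` since `K = Frac B`.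
(1) There is `Q ∈ Y.primeDivisors` with `Q.ring = locAt B q'`, `0 ≠ q' ≤ q`: as `locAt B q ≠ ⊤ = K`,
choose `z ∉ locAt B q` and use `exists_dval_of_notMem`. (2) Let `w` be the Gauss extension of `Q`
(`exists_gauss`), `w ∈ X.primeDivisors` by `gauss_mem`. Then `P.ring ≤ w.ring`: an element of
`S ∖ 𝔓` has `w = 0` because some coefficient is not in `q'`: indeed if all coefficients `b i`
of `s = ∑ aᵢ bᵢ` lie in `q' ≤ q` then `s ∈ q S ⊆ 𝔓`. And elements of `S` have `w ≥ 0`. So
`P.ring = locAt S 𝔓 ≤ w.ring`, hence `P = w` (`DVal.eq_of_ring_le`).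
-/

namespace Pool.Agent.Helper47.PQ

open Pool.Agent.Helper92.Weak

section aux

variable {k M K E : Type*} [Field k] [Field M] [Field K] [Field E]
  [Algebra k M] [Algebra k K] [Algebra k E] [Algebra M E] [Algebra K E]
  [IsScalarTower k M E] [IsScalarTower k K E]

/-- Membership in a prime ideal, expressed with the valuation whose ring is the localisation. -/
theorem pTwo_mem_prime_iff_ge {L : Type*} [Field L] [Algebra k L] {B : Subalgebra k L} {q : Ideal B}
    [hq : q.IsPrime] {Q : DVal k L} (h : Q.ring = locAt B q) (b : B) :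
    b ∈ q ↔ Q.Ge 1 (b : L) := by
  have hge : 0 ≤ Q (b : L) := by
    have h1 : (b : L) ∈ Q.ring := by rw [h]; exact le_locAt q b.2
    exact h1
  by_cases hb : b = 0
  · subst hb
    exact ⟨fun _ => Or.inl rfl, fun _ => q.zero_mem⟩
  · have hb0 : (b : L) ≠ 0 := fun h' => hb (Subtype.ext h')
    rw [mem_iff_inv_notMem hb, ← h, DVal.mem_ring, DVal.map_inv, DVal.ge_iff hb0]
    constructor
    · intro h1
      have h2 : 1 ≤ Q (b : L) := by omega
      exact_mod_cast h2
    · intro h1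
      have h2 : 1 ≤ Q (b : L) := by exact_mod_cast h1
      omega

theorem pTwo_eq_zero_of_ge {L : Type*} [Field L] [Algebra k L] {Q : DVal k L} {z : L} (h : Q.Ge 0 z)
    (h' : ¬ Q.Ge 1 z) : z ≠ 0 ∧ Q z = 0 := by
  have hz : z ≠ 0 := fun hz => h' (Or.inl hz)
  rw [DVal.ge_iff hz] at h h'
  refine ⟨hz, ?_⟩
  have h1 : 0 ≤ Q z := by exact_mod_cast h
  have h2 : ¬ (1 ≤ Q z) := fun hh => h' (by exact_mod_cast hh)
  omega

theorem pTwo_prodRing_mono {A A' : Subalgebra k M} {B B' : Subalgebra k K} (hA : A ≤ A')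
    (hB : B ≤ B') : prodRing E A B ≤ prodRing E A' B' :=
  sup_le_sup (Subalgebra.map_mono hA) (Subalgebra.map_mono hB)

theorem pTwo_left_mem_prodRing {A : Subalgebra k M} {B : Subalgebra k K} {a : M} (ha : a ∈ A) :
    algebraMap M E a ∈ prodRing E A B :=
  (le_sup_left : A.map (IsScalarTower.toAlgHom k M E) ≤ prodRing E A B) ⟨a, ha, rfl⟩

theorem pTwo_right_mem_prodRing {A : Subalgebra k M} {B : Subalgebra k K} {b : K} (hb : b ∈ B) :
    algebraMap K E b ∈ prodRing E A B :=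
  (le_sup_right : B.map (IsScalarTower.toAlgHom k K E) ≤ prodRing E A B) ⟨b, hb, rfl⟩

/-- Common denominators. -/
theorem pTwo_exists_denom {A A' : Subalgebra k M} {B B' : Subalgebra k K} (PA : M → Prop)
    (PB : K → Prop) (hPA1 : PA 1) (hPB1 : PB 1) (hPA : ∀ x y, PA x → PA y → PA (x * y))
    (hPB : ∀ x y, PB x → PB y → PB (x * y))
    (hA : ∀ a ∈ A', ∃ α ∈ A, PA α ∧ α * a ∈ A) (hB : ∀ b ∈ B', ∃ β ∈ B, PB β ∧ β * b ∈ B)
    {s : E} (hs : s ∈ prodRing E A' B') :
    ∃ α ∈ A, PA α ∧ ∃ β ∈ B, PB β ∧ algebraMap M E α * algebraMap K E β * s ∈ prodRing E A B := by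
  rw [mem_prodRing] at hs
  obtain ⟨n, a, b, ha, hb, rfl⟩ := hs
  refine Finset.sum_induction (fun i => algebraMap M E (a i) * algebraMap K E (b i))
    (fun s => ∃ α ∈ A, PA α ∧ ∃ β ∈ B, PB β ∧
      algebraMap M E α * algebraMap K E β * s ∈ prodRing E A B) ?_ ?_ ?_
  · rintro s t ⟨α, hα, hPα, β, hβ, hPβ, h1⟩ ⟨α', hα', hPα', β', hβ', hPβ', h2⟩
    refine ⟨α * α', A.mul_mem hα hα', hPA _ _ hPα hPα', β * β', B.mul_mem hβ hβ',
      hPB _ _ hPβ hPβ', ?_⟩
    have h3 : algebraMap M E (α * α') * algebraMap K E (β * β') * (s + t) =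
        (algebraMap M E α' * algebraMap K E β') * (algebraMap M E α * algebraMap K E β * s) +
        (algebraMap M E α * algebraMap K E β) * (algebraMap M E α' * algebraMap K E β' * t) := by
      rw [map_mul, map_mul]
      ring
    rw [h3]
    exact (prodRing E A B).add_mem
      ((prodRing E A B).mul_mem ((prodRing E A B).mul_mem (pTwo_left_mem_prodRing hα')
        (pTwo_right_mem_prodRing hβ')) h1)
      ((prodRing E A B).mul_mem ((prodRing E A B).mul_mem (pTwo_left_mem_prodRing hα)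
        (pTwo_right_mem_prodRing hβ)) h2)
  · exact ⟨1, A.one_mem, hPA1, 1, B.one_mem, hPB1, by simp⟩
  · intro i _
    obtain ⟨α, hα, hPα, h1⟩ := hA (a i) (ha i)
    obtain ⟨β, hβ, hPβ, h2⟩ := hB (b i) (hb i)
    refine ⟨α, hα, hPα, β, hβ, hPβ, ?_⟩
    have h3 : algebraMap M E α * algebraMap K E β * (algebraMap M E (a i) * algebraMap K E (b i)) =
        algebraMap M E (α * a i) * algebraMap K E (β * b i) := by
      rw [map_mul, map_mul]
      ring
    rw [h3]
    exact (prodRing E A B).mul_mem (pTwo_left_mem_prodRing h1) (pTwo_right_mem_prodRing h2)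

/-- Denominators in a subring with fraction field the whole field. -/
theorem pTwo_denom_of_isFrac {L : Type*} [Field L] [Algebra k L] {A : Subalgebra k L} (h : IsFrac A)
    (a : L) : ∃ α ∈ A, α ≠ 0 ∧ α * a ∈ A := by
  obtain ⟨x, hx, y, hy, hy0, rfl⟩ := h a
  exact ⟨y, hy, hy0, by rwa [mul_div_cancel₀ x hy0]⟩

end aux

variable {k M K E : Type*} [Field k] [Field M] [Field K] [Field E]
  [Algebra k M] [Algebra k K] [Algebra k E] [Algebra M E] [Algebra K E]
  [IsScalarTower k M E] [IsScalarTower k K E] [IsAlgClosed k]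

namespace IsProduct

variable {F : ProjVar k M} {Y : ProjVar k K} {X : ProjVar k E}

theorem gauss_mem (h : IsProduct F Y X) {Q : DVal k K} (hQ : Q ∈ Y.primeDivisors) {w : DVal k E}
    (hw : IsGauss M w Q) : w ∈ X.primeDivisors := by
  obtain ⟨j, q, hq, hQr⟩ := Y.mem_localRings.1 hQ
  change w.ring ∈ X.localRings
  rw [h.rings]
  refine ⟨0, j, ?_⟩
  obtain ⟨𝔭, h𝔭, hmem⟩ := primeExt (E := E) h.disj (chart k F.x 0) (chart k Y.x j) q hq
  have hge : ∀ s : prodRing E (chart k F.x 0) (chart k Y.x j), (s ∈ 𝔭 ↔ w.Ge 1 (s : E)) ∧ w.Ge 0 (s : E) := by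
    intro s
    obtain ⟨n, a, b, ha, hb, hlin, -, hs⟩ := exists_expansion s.2
    have h1 := hmem n a (fun i => ⟨b i, hb i⟩) ha hlin s hs
    rw [h1, hs]
    have h2 := hw n a hlin b
    constructor
    · have h3 := h2 1
      rw [h3]
      exact forall_congr' fun i => pTwo_mem_prime_iff_ge hQr ⟨b i, hb i⟩
    · rw [h2 0]
      intro i
      rw [← DVal.mem_ring_iff_ge, hQr]
      exact le_locAt q (hb i)
  refine ⟨𝔭, h𝔭, fun z => ?_⟩
  constructor
  · intro hz
    obtain ⟨s, hs, s', hs', hs'0, hws', rfl⟩ := hw.exists_frac h.disj h.isFrac_top hz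
    have hden : ∀ t ∈ prodRing E (⊤ : Subalgebra k M) Q.ring, ∃ α ∈ (chart k F.x 0), α ≠ 0 ∧ ∃ β ∈ (chart k Y.x j),
        (β ≠ 0 ∧ Q β = 0) ∧ algebraMap M E α * algebraMap K E β * t ∈ prodRing E (chart k F.x 0) (chart k Y.x j) := by
      intro t ht
      refine pTwo_exists_denom (fun x => x ≠ 0) (fun x => x ≠ 0 ∧ Q x = 0) one_ne_zero
        ⟨one_ne_zero, Q.map_one⟩ (fun x y => mul_ne_zero) ?_
        (fun a _ => pTwo_denom_of_isFrac (F.chart_isFrac 0) a) ?_ ht
      · rintro x y ⟨hx, hx'⟩ ⟨hy, hy'⟩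
        exact ⟨mul_ne_zero hx hy, by rw [Q.map_mul hx hy, hx', hy', add_zero]⟩
      · intro b hb
        rw [hQr, mem_locAt] at hb
        obtain ⟨c, d, hd, hcd⟩ := hb
        have hd' := hd
        rw [pTwo_mem_prime_iff_ge hQr] at hd
        have h0 : Q.Ge 0 (d : K) := by
          rw [← DVal.mem_ring_iff_ge, hQr]
          exact le_locAt q d.2
        exact ⟨d, d.2, pTwo_eq_zero_of_ge h0 hd, by rw [mul_comm, hcd]; exact c.2⟩
    obtain ⟨α, hα, hα0, β, hβ, ⟨hβ0, hQβ⟩, h1⟩ := hden s hs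
    obtain ⟨α', hα', hα'0, β', hβ', ⟨hβ'0, hQβ'⟩, h2⟩ := hden s' hs'
    have hm : ∀ {x : M}, x ≠ 0 → algebraMap M E x ≠ 0 := fun hx =>
      (map_ne_zero_iff _ (algebraMap M E).injective).mpr hx
    have hk : ∀ {x : K}, x ≠ 0 → algebraMap K E x ≠ 0 := fun hx =>
      (map_ne_zero_iff _ (algebraMap K E).injective).mpr hx
    refine ⟨⟨algebraMap M E α' * algebraMap K E β' * (algebraMap M E α * algebraMap K E β * s),
      (prodRing E (chart k F.x 0) (chart k Y.x j)).mul_mem ((prodRing E (chart k F.x 0) (chart k Y.x j)).mul_mem (pTwo_left_mem_prodRing hα')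
        (pTwo_right_mem_prodRing hβ')) h1⟩,
      ⟨algebraMap M E α * algebraMap K E β * (algebraMap M E α' * algebraMap K E β' * s'),
      (prodRing E (chart k F.x 0) (chart k Y.x j)).mul_mem ((prodRing E (chart k F.x 0) (chart k Y.x j)).mul_mem (pTwo_left_mem_prodRing hα)
        (pTwo_right_mem_prodRing hβ)) h2⟩, ?_, ?_⟩
    · rw [(hge _).1]
      change ¬ w.Ge 1 (algebraMap M E α * algebraMap K E β *
        (algebraMap M E α' * algebraMap K E β' * s'))
      have hne1 : algebraMap M E α * algebraMap K E β ≠ 0 := mul_ne_zero (hm hα0) (hk hβ0)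
      have hne2 : algebraMap M E α' * algebraMap K E β' ≠ 0 := mul_ne_zero (hm hα'0) (hk hβ'0)
      rw [DVal.ge_iff (mul_ne_zero hne1 (mul_ne_zero hne2 hs'0)),
        w.map_mul hne1 (mul_ne_zero hne2 hs'0), w.map_mul hne2 hs'0,
        w.map_mul (hm hα0) (hk hβ0), w.map_mul (hm hα'0) (hk hβ'0), hw.apply_left, hw.apply_left,
        hw.apply_right, hw.apply_right, hQβ, hQβ', hws']
      norm_num
    · change s / s' * (algebraMap M E α * algebraMap K E β *
        (algebraMap M E α' * algebraMap K E β' * s')) =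
        algebraMap M E α' * algebraMap K E β' * (algebraMap M E α * algebraMap K E β * s)
      field_simp
  · rintro ⟨a, b, hb, hab⟩
    rw [(hge b).1] at hb
    obtain ⟨hb0, hwb⟩ := pTwo_eq_zero_of_ge (hge b).2 hb
    by_cases hz : z = 0
    · rw [hz]; exact w.ring.zero_mem
    have h1 := (hge a).2
    rw [← DVal.mem_ring_iff_ge, DVal.mem_ring, ← hab, w.map_mul hz hb0, hwb, add_zero] at h1
    exact h1

theorem gauss_of_ne (h : IsProduct F Y X) {P : DVal k E} (hP : P ∈ X.primeDivisors)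
    (hne : ∃ b : K, P (algebraMap K E b) ≠ 0) : ∃ Q ∈ Y.primeDivisors, IsGauss M P Q := by
  obtain ⟨i, j, 𝔓, h𝔓, hloc⟩ := (h.rings _).1 hP
  have hloc' : P.ring = locAt (prodRing E (chart k F.x i) (chart k Y.x j)) 𝔓 := by
    ext z
    rw [hloc, mem_locAt]
  let f : (chart k Y.x j) →+* (prodRing E (chart k F.x i) (chart k Y.x j)) :=
    { toFun := fun b => ⟨algebraMap K E (b : K), pTwo_right_mem_prodRing b.2⟩
      map_one' := by
        apply Subtype.ext
        simp
      map_mul' := fun x y => by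
        apply Subtype.ext
        simp
      map_zero' := by
        apply Subtype.ext
        simp
      map_add' := fun x y => by
        apply Subtype.ext
        simp }
  have hf : ∀ b : (chart k Y.x j), ((f b : (prodRing E (chart k F.x i) (chart k Y.x j))) : E) = algebraMap K E (b : K) := fun b => rfl
  set q := 𝔓.comap f with hqdef
  have hq : q.IsPrime := Ideal.comap_isPrime f 𝔓
  have hqmem : ∀ b : (chart k Y.x j), b ∈ q ↔ f b ∈ 𝔓 := fun b => Iff.rfl
  have hex : ∃ b₀ : (chart k Y.x j), b₀ ∈ q ∧ b₀ ≠ 0 := by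
    by_contra hcon
    push Not at hcon
    have hz : ∀ b : (chart k Y.x j), P (algebraMap K E (b : K)) = 0 := by
      intro b
      by_cases hb : b = 0
      · rw [hb]
        simp
      · have h1 : f b ∉ 𝔓 := fun hh => hb (hcon b hh)
        rw [pTwo_mem_prime_iff_ge hloc'] at h1
        have h0 : P.Ge 0 ((f b : (prodRing E (chart k F.x i) (chart k Y.x j))) : E) := by
          rw [← DVal.mem_ring_iff_ge, hloc']
          exact le_locAt 𝔓 (f b).2
        exact (pTwo_eq_zero_of_ge h0 h1).2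
    obtain ⟨b, hb⟩ := hne
    apply hb
    obtain ⟨x, hx, y, hy, hy0, rfl⟩ := Y.chart_isFrac j b
    rw [map_div₀, div_eq_mul_inv]
    by_cases hx0 : x = 0
    · rw [hx0]
      simp
    · have hx0' : algebraMap K E x ≠ 0 := (map_ne_zero_iff _ (algebraMap K E).injective).mpr hx0
      have hy0' : algebraMap K E y ≠ 0 := (map_ne_zero_iff _ (algebraMap K E).injective).mpr hy0
      rw [P.map_mul hx0' (inv_ne_zero hy0'), P.map_inv, hz ⟨x, hx⟩, hz ⟨y, hy⟩]
      norm_num
  obtain ⟨b₀, hb₀, hb₀0⟩ := hex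
  have hz : (b₀ : K)⁻¹ ∉ locAt (chart k Y.x j) q := (mem_iff_inv_notMem hb₀0).1 hb₀
  obtain ⟨Q, q', hq', hle, hQr, -⟩ := exists_dval_of_notMem (Y.chart_isFrac j) q hz
  have hQ : Q ∈ Y.primeDivisors := by
    change Q.ring ∈ Y.localRings
    rw [hQr]
    exact Y.locAt_mem j q'
  obtain ⟨w, hw⟩ := exists_gauss h.disj h.isFrac_top Q
  have hkey : P.ring ≤ w.ring := by
    have hSw : ∀ s : (prodRing E (chart k F.x i) (chart k Y.x j)), 0 ≤ w (s : E) := by
      intro s
      have h1 : (s : E) ∈ prodRing E (⊤ : Subalgebra k M) Q.ring :=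
        pTwo_prodRing_mono le_top (by rw [hQr]; exact le_locAt q') s.2
      exact hw.ring_le h1
    intro z hz
    rw [hloc] at hz
    obtain ⟨a, b, hb, hab⟩ := hz
    have hb1 : ¬ w.Ge 1 (b : E) := by
      intro hcon
      apply hb
      obtain ⟨n, x, y, hx, hy, hlin, -, hs⟩ := exists_expansion b.2
      rw [hs, hw n x hlin y 1] at hcon
      have h2 : ∀ i, (⟨y i, hy i⟩ : (chart k Y.x j)) ∈ q := fun i =>
        hle ((pTwo_mem_prime_iff_ge hQr ⟨y i, hy i⟩).2 (hcon i))
      have h3 : b = ∑ l, (⟨algebraMap M E (x l), pTwo_left_mem_prodRing (hx l)⟩ :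
          (prodRing E (chart k F.x i) (chart k Y.x j))) * f ⟨y l, hy l⟩ := by
        apply Subtype.ext
        rw [hs]
        push_cast
        rfl
      rw [h3]
      exact 𝔓.sum_mem fun l _ => 𝔓.mul_mem_left _ (h2 l)
    have hb0 : w.Ge 0 (b : E) := by
      rw [← DVal.mem_ring_iff_ge]
      exact hSw b
    obtain ⟨hbne, hwb⟩ := pTwo_eq_zero_of_ge hb0 hb1
    by_cases hz0 : z = 0
    · rw [hz0]; exact w.ring.zero_mem
    have h1 := hSw a
    rw [← hab, w.map_mul hz0 hbne, hwb, add_zero] at h1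
    exact h1
  have hPw : P = w := DVal.eq_of_ring_le hkey
  exact ⟨Q, hQ, hPw ▸ hw⟩

theorem trichotomy (h : IsProduct F Y X) {P : DVal k E} (hP : P ∈ X.primeDivisors) :
    ((∀ a : M, P (algebraMap M E a) = 0) ∧ ∀ b : K, P (algebraMap K E b) = 0) ∨
    (∃ Q ∈ Y.primeDivisors, IsGauss M P Q) ∨ ∃ T ∈ F.primeDivisors, IsGauss K P T := by
  by_cases h1 : ∃ b : K, P (algebraMap K E b) ≠ 0
  · exact Or.inr (Or.inl (h.gauss_of_ne hP h1))
  by_cases h2 : ∃ a : M, P (algebraMap M E a) ≠ 0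
  · exact Or.inr (Or.inr (h.swap.gauss_of_ne hP h2))
  push Not at h1 h2
  exact Or.inl ⟨h2, h1⟩

end IsProduct

end Pool.Agent.Helper47.PQ
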