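import Pool.Agent.Helper47.PQ.Defs
import Pool.Agent.Helper92.Weak.VarLem

set_option autoImplicit false

/-!
# PQ-R1: extension of discrete valuations to finite extensions

`E/L` finite, characteristic zero, `Q` a discrete valuation of `L` over `k`.

`isIntegral_of_ge`: `x ∈ E` with `P x ≥ 0` for all discrete valuations `P` of `E` over `Q` is integral
over `Q.ring`.
PROOF. `Q.ring` is a discrete valuation ring (a principal ideal domain: every nonzero element is a
unit times a power of a uniformizer), noetherian, integrally closed, with fraction field `L`. Let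
`B ⊆ E` be the set of elements integral over `Q.ring`, a subalgebra over `k`. It is noetherian
(finite over `Q.ring`: separable extension, `integralClosure.isNoetherianRing` or
`IsIntegralClosure.isNoetherianRing`), integrally closed, with fraction field `E`. If `x ∉ B`, the
ideal `{b ∈ B : x b ∈ B}` is contained in a maximal ideal `𝔪`, so `x ∉ locAt B 𝔪` and
`exists_dval_of_notMem` gives `P : DVal k E` with `P.ring = locAt B 𝔮`, `x ∉ P.ring`. Now `P` lies
over `Q`: `Q.ring ⊆ B ⊆ P.ring`; `P` is not trivial on `L` (otherwise `L ⊆ P.ring`, and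
`E`, integral over `L`, would be contained in `P.ring`, which is integrally closed, contradiction
to `x ∉ P.ring`). If `Q a = 0`, `a ≠ 0` then `a, a⁻¹ ∈ Q.ring`, `P a = 0`; so with a uniformizer `π`
of `Q`, `P a = (Q a) (P π)` for all `a ∈ L`, and `P π ≥ 0`, `≠ 0`: `e = P π`. So `P x ≥ 0` by
hypothesis, contradiction to `x ∉ P.ring`.

`exists_over`: some `P` lies over `Q`: otherwise `x = π⁻¹` would be integral over `Q.ring`, so
`π⁻¹ ∈ Q.ring` (integrally closed), absurd.

`minpoly_coeff_ge`: if `P x ≥ e q` (or `x = 0`) for all `P` over `Q` (with ramification `e`), `q ∈ ℤ`,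
then the coefficient of `T^(d-i)` of the minimal polynomial of `x` over `L` has `Q ≥ i q` (or is
zero). PROOF. `x' = x π^(-q)` is integral over `Q.ring`, so the coefficients of its minimal polynomial
over `L` are in `Q.ring` (`minpoly.isIntegrallyClosed_eq_field_fractions'` or: the minimal
polynomial over the integrally closed `Q.ring` maps to it). And `minpoly L x'` is
`scaleRoots (minpoly L x) π^(-q)`, i.e. its coefficient of `T^(d-i)` is `π^(-q i)` times that of
`minpoly L x`.

`trace_ge`: the same for the trace: `x π^(-q)` is integral, so its trace is integral over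
`Q.ring` (`Algebra.isIntegral_trace`), i.e. in `Q.ring`, and
`trace (x π^(-q)) = π^(-q) trace x`.
-/

namespace Pool.Agent.Helper47.PQ

open Pool.Agent.Helper92.Weak

variable {k L E : Type*} [Field k] [Field L] [Field E] [Algebra k L] [Algebra k E] [Algebra L E]
  [IsScalarTower k L E] [CharZero k] [FiniteDimensional L E]

omit [Algebra k E] [Algebra L E] [IsScalarTower k L E] [CharZero k] [FiniteDimensional L E] in
lemma isFrac_ring (Q : DVal k L) : IsFrac Q.ring := by
  intro z
  by_cases h : 0 ≤ Q z
  · exact ⟨z, h, 1, Subalgebra.one_mem _, one_ne_zero, by simp⟩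
  · refine ⟨1, Subalgebra.one_mem _, z⁻¹, ?_, ?_, ?_⟩
    · rw [DVal.mem_ring, DVal.map_inv]
      omega
    · apply inv_ne_zero
      apply Q.ne_zero_of_pos
      omega
    · simp

instance isFractionRing_ring (Q : DVal k L) : IsFractionRing Q.ring L :=
  (isFrac_ring Q).isFractionRing

instance isPrincipalIdealRing_ring (Q : DVal k L) : IsPrincipalIdealRing Q.ring := by
  constructor
  intro I
  classical
  by_cases hI : I = ⊥
  · exact ⟨⟨0, by rw [hI]; simp⟩⟩
  obtain ⟨a0, ha0, ha0'⟩ := Submodule.exists_mem_ne_zero_of_ne_bot hI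
  have hex : ∃ n : ℕ, ∃ a ∈ I, a ≠ 0 ∧ Q (a : L) = n := by
    have h0 : 0 ≤ Q (a0 : L) := a0.2
    exact ⟨(Q (a0 : L)).toNat, a0, ha0, ha0', by omega⟩
  obtain ⟨a, haI, hane, haQ⟩ := Nat.find_spec hex
  have hmin := fun m (hm : m < Nat.find hex) => Nat.find_min hex hm
  refine ⟨⟨a, ?_⟩⟩
  have haL : (a : L) ≠ 0 := fun h => hane (Subtype.ext h)
  ext b
  rw [Ideal.submodule_span_eq, Ideal.mem_span_singleton]
  constructor
  · intro hb
    by_cases hb0 : b = 0
    · rw [hb0]; exact dvd_zero a
    have hbL : (b : L) ≠ 0 := fun h => hb0 (Subtype.ext h)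
    have hle : Q (a : L) ≤ Q (b : L) := by
      by_contra hlt
      push Not at hlt
      have hb1 : 0 ≤ Q (b : L) := b.2
      exact hmin (Q (b : L)).toNat (by omega) ⟨b, hb, hb0, by omega⟩
    refine ⟨⟨(b : L) / a, ?_⟩, ?_⟩
    · rw [DVal.mem_ring, Q.map_div hbL haL]
      omega
    · apply Subtype.ext
      change (b : L) = a * (b / a)
      field_simp
  · rintro ⟨c, rfl⟩
    exact I.mul_mem_right c haI

instance isDomain_ring (Q : DVal k L) : IsDomain Q.ring := inferInstance

instance isIntegrallyClosed_ring (Q : DVal k L) : IsIntegrallyClosed Q.ring := inferInstance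

omit [Algebra k E] [Algebra L E] [IsScalarTower k L E] [CharZero k] [FiniteDimensional L E] in
lemma mem_ring_of_isIntegral (Q : DVal k L) {z : L} (h : IsIntegral Q.ring z) : 0 ≤ Q z :=
  (isFrac_ring Q).mem_of_isIntegral h

theorem isIntegral_of_ge (Q : DVal k L) {x : E}
    (h : ∀ (P : DVal k E) (e : ℕ), LiesOver P Q e → 0 ≤ P x) : IsIntegral Q.ring x := by
  classical
  have hcL : CharZero L := charZero_of_injective_algebraMap (algebraMap k L).injective
  have hst : IsScalarTower Q.ring L E := inferInstance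
  let C := integralClosure Q.ring E
  have hCn : IsNoetherianRing C := integralClosure.isNoetherianRing (K := L) (A := Q.ring) (L := E)
  have hCi : IsIntegrallyClosed C := integralClosure.isIntegrallyClosedOfFiniteExtension L
  have hCf : IsFractionRing C E := integralClosure.isFractionRing_of_finite_extension L E
  let B : Subalgebra k E := C.restrictScalars k
  have hBC : ∀ z : E, z ∈ B ↔ IsIntegral Q.ring z := fun z => Iff.rfl
  have hBn : IsNoetherianRing B := hCn
  have hBi : IsIntegrallyClosed B := hCi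
  have hBf : IsFrac B := by
    intro z
    obtain ⟨a, b, hb, hz⟩ := IsFractionRing.div_surjective (A := C) z
    refine ⟨a, a.2, b, b.2, ?_, hz.symm⟩
    intro h0
    exact nonZeroDivisors.ne_zero hb (Subtype.ext h0)
  by_contra hx
  have hxB : x ∉ B := hx
  let J : Ideal B :=
    { carrier := {b | x * (b : E) ∈ B}
      zero_mem' := by
        change x * ((0 : B) : E) ∈ B
        simp
      add_mem' := fun {a b} ha hb => by
        change x * ((a + b : B) : E) ∈ B
        push_cast
        rw [mul_add]
        exact B.add_mem ha hb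
      smul_mem' := fun a b hb => by
        change x * ((a • b : B) : E) ∈ B
        have : x * ((a • b : B) : E) = a * (x * b) := by
          rw [smul_eq_mul]; push_cast; ring
        rw [this]
        exact B.mul_mem a.2 hb }
  have hJ : ∀ b : B, b ∈ J ↔ x * (b : E) ∈ B := fun b => Iff.rfl
  have hJtop : J ≠ ⊤ := by
    rw [Ne, Ideal.eq_top_iff_one, hJ]
    simpa using hxB
  obtain ⟨m, hm, hJm⟩ := Ideal.exists_le_maximal J hJtop
  have hmp : m.IsPrime := hm.isPrime
  have hxm : x ∉ locAt B m := by
    rintro ⟨a, b, hb, hab⟩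
    apply hb
    apply hJm
    rw [hJ, hab]
    exact a.2
  obtain ⟨P, q, hq, hqm, hPq, hxP⟩ := exists_dval_of_notMem hBf m hxm
  apply hxP
  rw [DVal.mem_ring]
  -- nonnegativity
  have hnn : ∀ a : L, 0 ≤ Q a → 0 ≤ P (algebraMap L E a) := by
    intro a ha
    have h1 : algebraMap L E a ∈ B := by
      rw [hBC]
      have h2 : algebraMap L E a = algebraMap Q.ring E ⟨a, ha⟩ := rfl
      rw [h2]
      exact isIntegral_algebraMap
    have h3 : algebraMap L E a ∈ P.ring := by
      rw [hPq]
      exact le_locAt q h1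
    exact h3
  have h0 : ∀ a : L, a ≠ 0 → Q a = 0 → P (algebraMap L E a) = 0 := by
    intro a ha hQ
    have h1 := hnn a (by omega)
    have h2 := hnn a⁻¹ (by rw [Q.map_inv]; omega)
    rw [map_inv₀, P.map_inv] at h2
    omega
  obtain ⟨π, hπ0, hπ⟩ := Q.exists_uniformizer
  have hinj : ∀ a : L, a ≠ 0 → algebraMap L E a ≠ 0 := fun a ha => by
    rwa [Ne, map_eq_zero_iff _ (algebraMap L E).injective]
  have hform : ∀ a : L, P (algebraMap L E a) = Q a * P (algebraMap L E π) := by
    intro a
    by_cases ha : a = 0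
    · rw [ha]; simp
    have h1 := h0 (a * π ^ (-(Q a))) (mul_ne_zero ha (zpow_ne_zero _ hπ0)) (by
      rw [Q.map_mul ha (zpow_ne_zero _ hπ0), Q.map_zpow, hπ]
      ring)
    rw [_root_.map_mul, P.map_mul (hinj a ha) (hinj _ (zpow_ne_zero _ hπ0)), map_zpow₀,
      P.map_zpow] at h1
    linarith
  have hPπ : 0 ≤ P (algebraMap L E π) := hnn π (by omega)
  by_cases hPπ0 : P (algebraMap L E π) = 0
  · -- all of `L` in the ring of `P`
    exfalso
    apply hxP
    have hL : ∀ a : L, algebraMap L E a ∈ P.ring := by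
      intro a
      rw [DVal.mem_ring, hform, hPπ0, mul_zero]
    have hxint : (algebraMap L E).IsIntegralElem x := Algebra.IsIntegral.isIntegral x
    let φ : L →+* P.ring := (algebraMap L E).codRestrict P.ring hL
    have hφ : (algebraMap P.ring E).comp φ = algebraMap L E := by
      ext a
      rfl
    rw [← hφ] at hxint
    have h5 : IsIntegral P.ring x := RingHom.IsIntegralElem.of_comp hxint
    exact mem_ring_of_isIntegral P h5
  · refine h P (P (algebraMap L E π)).toNat ⟨by omega, ?_⟩
    intro a
    rw [hform a]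
    have : ((P (algebraMap L E π)).toNat : ℤ) = P (algebraMap L E π) := by omega
    rw [this]
    ring

theorem exists_over (E : Type*) [Field E] [Algebra k E] [Algebra L E] [IsScalarTower k L E]
    [FiniteDimensional L E] (Q : DVal k L) : ∃ (P : DVal k E) (e : ℕ), LiesOver P Q e := by
  by_contra hcon
  push Not at hcon
  obtain ⟨π, hπ0, hπ⟩ := Q.exists_uniformizer
  have h1 : IsIntegral Q.ring (algebraMap L E π⁻¹) :=
    isIntegral_of_ge Q fun P e hPe => absurd hPe (hcon P e)
  have h2 : IsIntegral Q.ring π⁻¹ :=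
    (isIntegral_algebraMap_iff (algebraMap L E).injective).1 h1
  have h3 := mem_ring_of_isIntegral Q h2
  rw [Q.map_inv, hπ] at h3
  omega

/-- The scaled element is integral. -/
lemma isIntegral_smul_of_ge (Q : DVal k L) {x : E} {q : ℤ}
    (h : ∀ (P : DVal k E) (e : ℕ), LiesOver P Q e → P.Ge ((e : ℚ) * q) x) {π : L} (hπ0 : π ≠ 0)
    (hπ : Q π = 1) : IsIntegral Q.ring (π ^ (-q) • x) := by
  apply isIntegral_of_ge
  intro P e hPe
  by_cases hx : x = 0
  · rw [hx, smul_zero]; simp
  have h1 := h P e hPe
  rw [DVal.ge_iff hx] at h1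
  have h2 : algebraMap L E (π ^ (-q)) ≠ 0 := by
    rw [Ne, map_eq_zero_iff _ (algebraMap L E).injective]
    exact zpow_ne_zero _ hπ0
  rw [Algebra.smul_def, P.map_mul h2 hx, hPe.2, Q.map_zpow, hπ]
  have h3 : (e : ℤ) * q ≤ P x := by exact_mod_cast h1
  linarith

theorem minpoly_coeff_ge (Q : DVal k L) {x : E} {q : ℤ}
    (h : ∀ (P : DVal k E) (e : ℕ), LiesOver P Q e → P.Ge ((e : ℚ) * q) x) (i : ℕ)
    (hi : i ≤ (minpoly L x).natDegree) :
    Q.Ge ((i : ℚ) * q) ((minpoly L x).coeff ((minpoly L x).natDegree - i)) := by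
  obtain ⟨π, hπ0, hπ⟩ := Q.exists_uniformizer
  have hint := isIntegral_smul_of_ge Q h hπ0 hπ
  set c : L := π ^ (-q) with hc
  have hc0 : c ≠ 0 := zpow_ne_zero _ hπ0
  have hQc : Q c = -q := by
    rw [hc, Q.map_zpow, hπ, mul_one]
  have h1 : minpoly L (c • x) = (minpoly Q.ring (c • x)).map (algebraMap Q.ring L) :=
    minpoly.isIntegrallyClosed_eq_field_fractions' L hint
  have h2 : minpoly L (c • x) = (minpoly L x).scaleRoots c :=
    IsIntegrallyClosed.minpoly_smul hc0 (Algebra.IsIntegral.isIntegral x)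
  have h3 : (minpoly L (c • x)).coeff ((minpoly L x).natDegree - i) ∈ Q.ring := by
    rw [h1, Polynomial.coeff_map]
    exact ((minpoly Q.ring (c • x)).coeff ((minpoly L x).natDegree - i)).2
  rw [h2, Polynomial.coeff_scaleRoots, DVal.mem_ring] at h3
  have h4 : (minpoly L x).natDegree - ((minpoly L x).natDegree - i) = i := by omega
  rw [h4] at h3
  set y := (minpoly L x).coeff ((minpoly L x).natDegree - i) with hy
  by_cases hy0 : y = 0
  · exact Or.inl hy0
  right
  rw [Q.map_mul hy0 (pow_ne_zero _ hc0), Q.map_pow, hQc] at h3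
  have h5 : (i : ℤ) * q ≤ Q y := by linarith
  exact_mod_cast h5

theorem trace_ge (Q : DVal k L) {x : E} {q : ℤ}
    (h : ∀ (P : DVal k E) (e : ℕ), LiesOver P Q e → P.Ge ((e : ℚ) * q) x) :
    Q.Ge (q : ℚ) (Algebra.trace L E x) := by
  obtain ⟨π, hπ0, hπ⟩ := Q.exists_uniformizer
  have hint := isIntegral_smul_of_ge Q h hπ0 hπ
  set c : L := π ^ (-q) with hc
  have hc0 : c ≠ 0 := zpow_ne_zero _ hπ0
  have hQc : Q c = -q := by
    rw [hc, Q.map_zpow, hπ, mul_one]
  have h1 : IsIntegral Q.ring (Algebra.trace L E (c • x)) := Algebra.isIntegral_trace hint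
  have h2 := mem_ring_of_isIntegral Q h1
  rw [_root_.map_smul, smul_eq_mul] at h2
  by_cases hy0 : Algebra.trace L E x = 0
  · exact Or.inl hy0
  right
  rw [Q.map_mul hc0 hy0, hQc] at h2
  have h5 : q ≤ Q (Algebra.trace L E x) := by linarith
  exact_mod_cast h5

end Pool.Agent.Helper47.PQ
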