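import Pool.Agent.Helper47.PQ.R1

set_option autoImplicit false

/-!
# PQ-R2: prime divisors and pull back of divisors under a finite cover `X' → X`

`liesOver_unique`: if `P` lies over `(Q, e)` and `(Q', e')` then `e Q a = e' Q' a` for all `a`; both are
normalised, so with `Q a = 1`, `e = e' Q' a`, and symmetrically, `e = e'`, `Q = Q'`.

`IsFiniteCover.mem`: a valuation `P` of `E` over a prime divisor `Q` of `X` is a prime divisor of
`X'`.
PROOF. Let `R ∈ X'.localRings` be the centre of `P` (`X'.exists_center`, `Dominates R P.ring`). By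
`mor` there is `S ∈ X.localRings` with `Above S R`. Then `Dominates S Q.ring`: for `a ∈ S`,
`a ∈ R ⊆ P.ring`, so `e Q a ≥ 0`; and if `a ∈ S`, `a⁻¹ ∈ Q.ring` then `a⁻¹ ∈ P.ring`, so
`a⁻¹ ∈ R` (`Dominates R P.ring`), so `a⁻¹ ∈ S`. Also `Q.ring` dominates itself and is
in `X.localRings`, so `S = Q.ring` (`X.separated`). So `Q.ring ⊆ R`. `R` is integrally closed
(`isIntegrallyClosed_locAt`), so `R` contains the integral closure `B` of `Q.ring` in `E`. Claim:
`P.ring ⊆ R`, hence `P.ring = R ∈ X'.localRings`. Let `z ∈ P.ring`. `B` is noetherian, integrally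
closed with fraction field `E` and the localisation of `B` at `𝔫 = B ∩ 𝔪_P` is contained in `R`
(elements of `B ∖ 𝔫` are units of `P.ring`, lie in `R`, so are units of `R`). If `z ∉ locAt B 𝔫`
then `exists_dval_of_notMem` gives a valuation `P'` with `P'.ring = locAt B 𝔮`, `𝔮 ≤ 𝔫`,
`z ∉ P'.ring`. As in R1, `P'` lies over `Q`; `𝔮 ≤ 𝔫` are prime ideals of `B` over the maximal
ideal of `Q.ring` (`𝔮 ∩ Q.ring = 𝔪_Q` since `P' π > 0`), so `𝔮 = 𝔫` (integral extension,
incomparability: `Ideal.comap_eq_of_isIntegral`-like lemma `Ideal.IsIntegralClosure.comap_lt_comap`,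
or: `B` is a Dedekind domain, nonzero primes are maximal). So `P'.ring = locAt B 𝔫 ⊆ P.ring`,
`P' = P` (`DVal.eq_of_ring_le`), and `z ∈ P.ring = P'.ring`, a contradiction.
(Shorter: `𝔫` is a maximal ideal; by `exists_dval_of_notMem` and the above
`P.ring = locAt B 𝔫 ⊆ R ⊆ P.ring`.)

`IsFiniteCover.finite_over`: finitely many `P` over `Q ∈ X.primeDivisors`: they are in
`X'.primeDivisors` and `P π > 0`, `X'.finite_support`.

`exists_pull`: define `A' P = e A Q` if `P` lies over `(Q, e)` (exists by `equi`, unique by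
`liesOver_unique`), finite support by `finite_over`.

`mem_H0_pull`: `f ∈ H⁰(X, D)` iff `f ∈ H⁰(X', D')`: `P f = e Q f`, `D' P = e D Q`, every
`P ∈ X'.primeDivisors` lies over some `Q ∈ X.primeDivisors` (`equi`) and every `Q` has a `P` over it
(`exists_over`, `mem`).
-/

namespace Pool.Agent.Helper47.PQ

open Pool.Agent.Helper92.Weak

variable {k L E : Type*} [Field k] [Field L] [Field E] [Algebra k L] [Algebra k E] [Algebra L E]
  [IsScalarTower k L E] [CharZero k]

theorem liesOver_unique {P : DVal k E} {Q Q' : DVal k L} {e e' : ℕ} (h : LiesOver P Q e)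
    (h' : LiesOver P Q' e') : Q = Q' ∧ e = e' := by
  obtain ⟨he, h1⟩ := h
  obtain ⟨he', h1'⟩ := h'
  have h2 : ∀ a, (e : ℤ) * Q a = e' * Q' a := fun a => by rw [← h1, ← h1']
  have he1 : (0 : ℤ) < e := by exact_mod_cast he
  have he1' : (0 : ℤ) < e' := by exact_mod_cast he'
  obtain ⟨a, ha⟩ := Q.surj'
  obtain ⟨a', ha'⟩ := Q'.surj'
  have h3 := h2 a
  have h4 := h2 a'
  rw [ha, mul_one] at h3
  rw [ha', mul_one] at h4
  have h5 : (e : ℤ) = e' := by
    apply Int.dvd_antisymm he1.le he1'.le
    · exact ⟨_, h4.symm⟩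
    · exact ⟨_, h3⟩
  have h6 : e = e' := by exact_mod_cast h5
  refine ⟨DVal.ext fun b => ?_, h6⟩
  have h7 := h2 b
  rw [h5] at h7
  exact mul_left_cancel₀ he1'.ne' h7

section aux

variable {V : Type*} [CommRing V] [Algebra V E]

private theorem integral_step {a : ℕ → E} (ha : ∀ i, IsIntegral V (a i)) {b z : E}
    (hb : IsIntegral V b) (j : ℕ) (h : b * z ^ j + ∑ i ∈ Finset.range j, a i * z ^ i = 0) :
    IsIntegral V (b * z) := by
  rcases j with _ | j
  · rw [Finset.range_zero, Finset.sum_empty, pow_zero, mul_one, add_zero] at h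
    rw [h, zero_mul]
    exact isIntegral_zero
  · let B := integralClosure V E
    let c : ℕ → B := fun i => ⟨a i * b ^ (j - i), (ha i).mul (hb.pow _)⟩
    have hx : IsIntegral B (b * z) := by
      refine ⟨Polynomial.X ^ (j + 1) + ∑ i ∈ Finset.range (j + 1),
        Polynomial.C (c i) * Polynomial.X ^ i, ?_, ?_⟩
      · apply Polynomial.monic_X_pow_add
        rw [Polynomial.degree_lt_iff_coeff_zero]
        intro m hm
        rw [Polynomial.finset_sum_coeff]
        refine Finset.sum_eq_zero fun i hi => ?_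
        rw [Polynomial.coeff_C_mul_X_pow, if_neg]
        have := Finset.mem_range.1 hi
        omega
      · rw [Polynomial.eval₂_add, Polynomial.eval₂_pow, Polynomial.eval₂_X,
          Polynomial.eval₂_finset_sum]
        have h1 : ∀ i ∈ Finset.range (j + 1), Polynomial.eval₂ (algebraMap B E) (b * z)
            (Polynomial.C (c i) * Polynomial.X ^ i) = b ^ j * (a i * z ^ i) := by
          intro i hi
          rw [Polynomial.eval₂_mul, Polynomial.eval₂_C, Polynomial.eval₂_pow,
            Polynomial.eval₂_X]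
          have h2 : algebraMap B E (c i) = a i * b ^ (j - i) := rfl
          have h3 : i ≤ j := by
            have := Finset.mem_range.1 hi
            omega
          have h4 : b ^ j = b ^ (j - i) * b ^ i := by
            rw [← pow_add]
            congr 1
            omega
          rw [h2, h4, mul_pow]
          ring
        rw [Finset.sum_congr rfl h1, ← Finset.mul_sum]
        have h5 : (b * z) ^ (j + 1) = b ^ j * (b * z ^ (j + 1)) := by
          rw [mul_pow, pow_succ b]
          ring
        rw [h5, ← mul_add, h, mul_zero]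
    exact isIntegral_trans (R := V) (A := B) _ hx

private theorem integral_all {a : ℕ → E} (ha : ∀ i, IsIntegral V (a i)) {z : E} (N : ℕ)
    (h : ∑ i ∈ Finset.range N, a i * z ^ i = 0) (m : ℕ) (hm : m ≤ N) :
    IsIntegral V (∑ i ∈ Finset.range m, a (N - m + i) * z ^ i) ∧
      IsIntegral V ((∑ i ∈ Finset.range m, a (N - m + i) * z ^ i) * z) := by
  induction m with
  | zero =>
    rw [Finset.range_zero, Finset.sum_empty, zero_mul]
    exact ⟨isIntegral_zero, isIntegral_zero⟩
  | succ m ih =>
    obtain ⟨h1, h2⟩ := ih (by omega)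
    have e1 : ∑ i ∈ Finset.range (m + 1), a (N - (m + 1) + i) * z ^ i =
        (∑ i ∈ Finset.range m, a (N - m + i) * z ^ i) * z + a (N - (m + 1)) := by
      rw [Finset.sum_range_succ', Finset.sum_mul, add_zero, pow_zero, mul_one]
      congr 1
      refine Finset.sum_congr rfl fun i _ => ?_
      have e2 : N - (m + 1) + (i + 1) = N - m + i := by omega
      rw [e2, pow_succ]
      ring
    have h3 : IsIntegral V (∑ i ∈ Finset.range (m + 1), a (N - (m + 1) + i) * z ^ i) := by
      rw [e1]
      exact h2.add (ha _)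
    refine ⟨h3, integral_step ha h3 (N - (m + 1)) ?_⟩
    have e3 : N = N - (m + 1) + (m + 1) := by omega
    have e4 := h
    rw [e3, Finset.sum_range_add] at e4
    rw [← e4, add_comm, Finset.sum_mul]
    congr 1
    refine Finset.sum_congr rfl fun i _ => ?_
    rw [pow_add]
    ring

end aux

private theorem exists_bb (Q : DVal k L) [Algebra.IsAlgebraic L E] (z : E) :
    ∃ b b' : E, IsIntegral Q.ring b ∧ IsIntegral Q.ring (b * z) ∧ IsIntegral Q.ring b' ∧
      IsIntegral Q.ring (b' * z) ∧ b = b' * z + 1 := by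
  classical
  have hz : IsIntegral L z := (Algebra.IsAlgebraic.isAlgebraic (R := L) z).isIntegral
  set f := minpoly L z with hf
  have hf0 : f ≠ 0 := minpoly.ne_zero hz
  obtain ⟨i0, hi0, hmin⟩ := Finset.exists_min_image f.support (fun i => Q (f.coeff i))
    (Polynomial.support_nonempty.2 hf0)
  have hc0 : f.coeff i0 ≠ 0 := Polynomial.mem_support_iff.1 hi0
  have hiN : i0 < f.natDegree + 1 := Nat.lt_succ_of_le (Polynomial.le_natDegree_of_ne_zero hc0)
  set u : ℕ → L := fun i => f.coeff i / f.coeff i0 with hu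
  have hu1 : ∀ i, u i ∈ Q.ring := by
    intro i
    rw [DVal.mem_ring]
    by_cases h0 : f.coeff i = 0
    · have h1 : u i = 0 := by
        show f.coeff i / f.coeff i0 = 0
        rw [h0, zero_div]
      rw [h1, DVal.map_zero]
    · show 0 ≤ Q (f.coeff i / f.coeff i0)
      rw [DVal.map_div _ h0 hc0]
      have := hmin i (Polynomial.mem_support_iff.2 h0)
      omega
  have hu2 : u i0 = 1 := div_self hc0
  set a : ℕ → E := fun i => algebraMap L E (u i) with ha
  have haI : ∀ i, IsIntegral Q.ring (a i) := by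
    intro i
    exact isIntegral_algebraMap (R := Q.ring) (A := E) (x := ⟨u i, hu1 i⟩)
  have hsum : ∑ i ∈ Finset.range (f.natDegree + 1), a i * z ^ i = 0 := by
    have h1 : Polynomial.aeval z f = 0 := minpoly.aeval L z
    rw [Polynomial.aeval_eq_sum_range] at h1
    have h2 : ∑ i ∈ Finset.range (f.natDegree + 1), a i * z ^ i =
        algebraMap L E (f.coeff i0)⁻¹ *
          ∑ i ∈ Finset.range (f.natDegree + 1), f.coeff i • z ^ i := by
      rw [Finset.mul_sum]
      refine Finset.sum_congr rfl fun i _ => ?_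
      have h3 : a i = algebraMap L E (f.coeff i0)⁻¹ * algebraMap L E (f.coeff i) := by
        rw [← map_mul]
        show algebraMap L E (f.coeff i / f.coeff i0) = _
        rw [div_eq_mul_inv, mul_comm]
      rw [h3, Algebra.smul_def, mul_assoc]
    rw [h2, h1, mul_zero]
  obtain ⟨h1, h2⟩ := integral_all haI (f.natDegree + 1) hsum (f.natDegree + 1 - i0) (by omega)
  obtain ⟨h3, h4⟩ := integral_all haI (f.natDegree + 1) hsum (f.natDegree + 1 - (i0 + 1))
    (by omega)
  refine ⟨_, _, h1, h2, h3, h4, ?_⟩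
  have e1 : f.natDegree + 1 - i0 = (f.natDegree + 1 - (i0 + 1)) + 1 := by omega
  have e2 : f.natDegree + 1 - (f.natDegree + 1 - i0) = i0 := by omega
  have e3 : f.natDegree + 1 - (f.natDegree + 1 - (i0 + 1)) = i0 + 1 := by omega
  have e4 : a i0 = 1 := by
    show algebraMap L E (u i0) = 1
    rw [hu2, map_one]
  rw [e2, e3, e1, Finset.sum_range_succ', Finset.sum_mul, add_zero, pow_zero, mul_one, e4]
  congr 1
  refine Finset.sum_congr rfl fun i _ => ?_
  have e5 : i0 + (i + 1) = i0 + 1 + i := by omega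
  rw [e5, pow_succ]
  ring

variable {X' : ProjVar k E} {X : ProjVar k L}

theorem IsFiniteCover.mem (h : IsFiniteCover X' X) {P : DVal k E} {Q : DVal k L} {e : ℕ}
    (hQ : Q ∈ X.primeDivisors) (hPQ : LiesOver P Q e) : P ∈ X'.primeDivisors := by
  have hfin := h.fin
  obtain ⟨he, hPQ'⟩ := hPQ
  have he1 : (0 : ℤ) < e := by exact_mod_cast he
  have hge : ∀ a : L, 0 ≤ P (algebraMap L E a) ↔ 0 ≤ Q a := by
    intro a
    rw [hPQ']
    constructor
    · intro h1
      by_contra h2
      push Not at h2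
      exact absurd h1 (not_le.2 (mul_neg_of_pos_of_neg he1 h2))
    · intro h1
      exact mul_nonneg he1.le h1
  obtain ⟨R, hR, hRP⟩ := X'.exists_center P
  obtain ⟨S, hS, hSR⟩ := h.mor R hR
  have hSQ : Dominates S Q.ring := by
    refine ⟨fun a ha => (hge a).1 (hRP.1 (hSR.1 a ha)), fun a ha ha' => hSR.2 a ha ?_⟩
    apply hRP.2 _ (hSR.1 a ha)
    rw [← map_inv₀]
    exact (hge _).2 ha'
  have hSeq : S = Q.ring := X.separated hS hQ hSQ ⟨le_rfl, fun z _ h1 => h1⟩
  rw [hSeq] at hSR
  have hInt : ∀ x : E, IsIntegral Q.ring x → x ∈ R := by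
    intro x hx
    obtain ⟨i, p, hp, rfl⟩ := X'.mem_localRings.1 hR
    have hn : IsIntegrallyClosed (chart k X'.x i) := X'.normal i
    have hic : IsIntegrallyClosed (locAt (chart k X'.x i) p) := isIntegrallyClosed_locAt p
    have hfr : IsFrac (locAt (chart k X'.x i) p) := (X'.chart_isFrac i).mono (le_locAt p)
    apply hfr.mem_of_isIntegral
    obtain ⟨g, hg1, hg2⟩ := hx
    let φ : Q.ring →+* locAt (chart k X'.x i) p :=
      { toFun := fun a => ⟨algebraMap L E a, hSR.1 a a.2⟩
        map_one' := Subtype.ext (map_one _)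
        map_mul' := fun a b => Subtype.ext (map_mul _ _ _)
        map_zero' := Subtype.ext (map_zero _)
        map_add' := fun a b => Subtype.ext (map_add _ _ _) }
    refine ⟨g.map φ, hg1.map φ, ?_⟩
    rw [Polynomial.eval₂_map]
    exact hg2
  have hPR : P.ring = R := by
    apply le_antisymm _ hRP.1
    intro z hz
    obtain ⟨b, b', h1, h2, h3, h4, h5⟩ := exists_bb (E := E) Q z
    have k1 := hInt _ h1
    have k2 := hInt _ h2
    have k3 := hInt _ h3
    have k4 := hInt _ h4
    have p1 : 0 ≤ P b := hRP.1 k1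
    have p3 : 0 ≤ P b' := hRP.1 k3
    have p4 : 0 ≤ P (b' * z) := hRP.1 k4
    have pz : 0 ≤ P z := hz
    by_cases c1 : P.Ge 1 b
    · have c2 : ¬ P.Ge 1 (b' * z) := by
        intro c2
        have c3 := c1.sub c2
        have c4 : b - b' * z = 1 := by rw [h5]; ring
        rw [c4] at c3
        rcases c3 with c3 | c3
        · exact one_ne_zero c3
        · rw [DVal.map_one] at c3
          norm_num at c3
      unfold DVal.Ge at c2
      push Not at c2
      obtain ⟨d1, d2⟩ := c2
      have d3 : P (b' * z) < 1 := by exact_mod_cast d2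
      have d4 : b' ≠ 0 := left_ne_zero_of_mul d1
      have d5 : z ≠ 0 := right_ne_zero_of_mul d1
      rw [P.map_mul d4 d5] at d3
      have d6 : b'⁻¹ ∈ R := by
        apply hRP.2 _ k3
        rw [DVal.mem_ring, DVal.map_inv]
        omega
      have d7 : z = b' * z * b'⁻¹ := by field_simp
      rw [d7]
      exact R.mul_mem k4 d6
    · unfold DVal.Ge at c1
      push Not at c1
      obtain ⟨d1, d2⟩ := c1
      have d3 : P b < 1 := by exact_mod_cast d2
      have d6 : b⁻¹ ∈ R := by
        apply hRP.2 _ k1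
        rw [DVal.mem_ring, DVal.map_inv]
        omega
      have d7 : z = b * z * b⁻¹ := by field_simp
      rw [d7]
      exact R.mul_mem k2 d6
  change P.ring ∈ X'.localRings
  rw [hPR]
  exact hR

theorem IsFiniteCover.finite_over (h : IsFiniteCover X' X) {Q : DVal k L}
    (hQ : Q ∈ X.primeDivisors) : {P : DVal k E | ∃ e, LiesOver P Q e}.Finite := by
  obtain ⟨a, ha0, ha⟩ := Q.exists_uniformizer
  have ha0' : algebraMap L E a ≠ 0 := (map_ne_zero _).2 ha0
  refine (X'.finite_support ha0').subset ?_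
  rintro P ⟨e, hPe⟩
  refine ⟨h.mem hQ hPe, ?_⟩
  rw [hPe.2, ha, mul_one]
  have := hPe.1
  exact_mod_cast this.ne'

theorem IsFiniteCover.exists_pull (h : IsFiniteCover X' X) (A : X.Div) :
    ∃ A' : X'.Div, IsPull A A' := by
  classical
  have hex : ∀ P : X'.primeDivisors, ∃ (Q : X.primeDivisors) (e : ℕ), LiesOver P.1 Q.1 e := by
    intro P
    obtain ⟨Q, hQ, e, he⟩ := h.equi P.1 P.2
    exact ⟨⟨Q, hQ⟩, e, he⟩
  choose q e he using hex
  have hfin : (Function.support fun P : X'.primeDivisors => (e P : ℚ) * A (q P)).Finite := by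
    have h1 : (⋃ Q ∈ A.support, {P : DVal k E | ∃ e, LiesOver P Q.1 e}).Finite :=
      A.support.finite_toSet.biUnion fun Q _ => h.finite_over Q.2
    refine (h1.preimage Subtype.val_injective.injOn).subset ?_
    intro P hP
    rw [Function.mem_support] at hP
    rw [Set.mem_preimage, Set.mem_iUnion₂]
    exact ⟨q P, Finsupp.mem_support_iff.2 (right_ne_zero_of_mul hP), e P, he P⟩
  refine ⟨Finsupp.ofSupportFinite _ hfin, ?_⟩
  intro P Q e' hPQ
  obtain ⟨h1, h2⟩ := liesOver_unique (he P) hPQ
  have h3 : q P = Q := Subtype.ext h1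
  rw [Finsupp.ofSupportFinite_coe, h3, h2]

theorem IsFiniteCover.mem_H0_pull (h : IsFiniteCover X' X) {D : X.Div} {D' : X'.Div}
    (hD : IsPull D D') {f : L} : f ∈ X.H0 D ↔ algebraMap L E f ∈ X'.H0 D' := by
  have hfin := h.fin
  have key : ∀ (P : X'.primeDivisors) (Q : X.primeDivisors) (e : ℕ), LiesOver P.1 Q.1 e →
      (Q.1.Ge (-(D Q)) f ↔ P.1.Ge (-(D' P)) (algebraMap L E f)) := by
    intro P Q e he
    have he1 : (0 : ℚ) < e := by exact_mod_cast he.1
    rw [hD P Q e he]
    unfold DVal.Ge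
    rw [map_eq_zero, he.2 f]
    push_cast
    rw [← mul_neg, mul_le_mul_iff_right₀ he1]
  unfold ProjVar.H0 sec
  rw [Submodule.mem_iInf, Submodule.mem_iInf]
  constructor
  · intro h1 P
    obtain ⟨Q, hQ, e, he⟩ := h.equi P.1 P.2
    rw [DVal.mem_filt]
    exact (key P ⟨Q, hQ⟩ e he).1 (h1 ⟨Q, hQ⟩)
  · intro h1 Q
    obtain ⟨P, e, he⟩ := exists_over E Q.1
    rw [DVal.mem_filt]
    exact (key ⟨P, h.mem Q.2 he⟩ Q e he).2 (h1 ⟨P, h.mem Q.2 he⟩)

end Pool.Agent.Helper47.PQ
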